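import Pool.Agent.Lib.MP_9fe581_an.AQ.Dens

/-!
# AQ, Pars: functions without common modes are orthogonal
-/

set_option autoImplicit false
set_option linter.unusedSectionVars false
set_option warn.classDefReducibility false

open Finset MeasureTheory Filter Topology ProbabilityTheory
open scoped ComplexConjugate

namespace Pool.Agent.Lib.MP_9fe581_an.AQ

open AP
open AH (BM)

variable {X : Type} [mX0 : MeasurableSpace X] {μ : Measure X} [IsProbabilityMeasure μ] {T : X → X}

private theorem pars_self {A B : SA X} {G : Set (X → ℂ)} (hG : Gp μ A B G) {v : X → ℂ} (hv : v ∈ G) (x : X) :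
    v x * conj (v x) = 1 := by
  rw [Complex.mul_conj, Complex.normSq_eq_norm_sq, hG.norm v hv x]
  norm_num

/-- **no common modes**: with `modes_dense`, `f ≈ P = ∑ v i a i` up to `δ`; `c i` a bounded representative of `E(f conj (v i) | A)`,
`Q = ∑ v i c i`; `E(v i conj (v j) | A) = 0` for `i ≠ j` (`hG.dich`), so `E(Q conj (v j) | A) = c j`, so `f - Q ⊥ Q - P`, so
`‖f - Q‖ ≤ ‖f - P‖ ≤ δ`; and `∫ v i c i conj g = ∫ c i conj E(g conj (v i) | A) = 0` for all `i`; so `|∫ f conj g| ≤ δ ‖g‖` -/
theorem pars {A B : SA X} {G : Set (X → ℂ)} (hG : Gp μ A B G) {f g : X → ℂ} (hf : Bd f) (hB : Measurable[B.m] f) (hg : Bd g)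
    (h : ∀ v ∈ G, ce μ A (fun x => f x * conj (v x)) =ᵐ[μ] 0 ∨ ce μ A (fun x => g x * conj (v x)) =ᵐ[μ] 0) :
    ∫ x, f x * conj (g x) ∂μ = 0 := by
  have hfB : BM μ f := hf.bm
  have hgB : BM μ g := hg.bm
  have key : ∀ δ : ℝ, 0 < δ → ‖∫ x, f x * conj (g x) ∂μ‖ ≤ δ * nrm μ g := by
    intro δ hδ
    obtain ⟨n, v, a, hv, hne, ha, haA, hd⟩ := modes_dense hG hf hB hδ
    have hvB : ∀ i, BM μ (v i) := fun i => AH.BM.of_bdd (hG.meas _ (hv i)) (C := 1) fun x => (hG.norm _ (hv i) x).le
    have hrep : ∀ i, ∃ c : X → ℂ, Measurable[A.m] c ∧ Bd c ∧ c =ᵐ[μ] ce μ A (fun x => f x * conj (v i x)) := fun i =>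
      ce_rep hG.leA (hfB.mul (hvB i).conj)
    choose c hcA hcBd hce using hrep
    have hcB : ∀ i, BM μ (c i) := fun i => (hcBd i).bm
    have haB : ∀ i, BM μ (a i) := fun i => (ha i).bm
    set Q : X → ℂ := fun x => ∑ i, v i x * c i x with hQ
    set P : X → ℂ := fun x => ∑ i, v i x * a i x with hP
    have hQB : BM μ Q := AH.BM.sum _ fun i _ => (hvB i).mul (hcB i)
    have hPB : BM μ P := AH.BM.sum _ fun i _ => (hvB i).mul (haB i)
    have k1 : ∀ i, ce μ A (fun x => (f x - Q x) * conj (v i x)) =ᵐ[μ] 0 := by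
      intro i
      have hterm : ∀ j, BM μ fun x => (v j x * conj (v i x)) * c j x := fun j => ((hvB j).mul (hvB i).conj).mul (hcB j)
      have e1 : (fun x => (f x - Q x) * conj (v i x)) =
          fun x => f x * conj (v i x) - ∑ j, (v j x * conj (v i x)) * c j x := by
        funext x
        simp only [hQ]
        rw [sub_mul, Finset.sum_mul]
        congr 1
        refine Finset.sum_congr rfl fun j _ => ?_
        ring
      rw [e1]
      have e2 := ce_sub (D := A) (hfB.mul (hvB i).conj) (AH.BM.sum (μ := μ) Finset.univ fun j _ => hterm j)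
      have e3 := ce_sum (μ := μ) (D := A) Finset.univ (f := fun j x => (v j x * conj (v i x)) * c j x) fun j _ => hterm j
      have e4 : ∀ j, ce μ A (fun x => (v j x * conj (v i x)) * c j x) =ᵐ[μ] fun x => if j = i then c j x else 0 := by
        intro j
        by_cases hji : j = i
        · subst hji
          have e6 : (fun x => (v j x * conj (v j x)) * c j x) = c j := by
            funext x
            rw [pars_self hG (hv j) x, one_mul]
          rw [e6, ce_self hG.leA (hcB j) (hcA j)]
          filter_upwards with x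
          rw [if_pos rfl]
        · have e5 := ce_pull hG.leA ((hvB j).mul (hvB i).conj) (hcB j) (hcA j)
          have e7 : ce μ A (fun x => v j x * conj (v i x)) =ᵐ[μ] 0 :=
            (hG.dich _ (hG.mul _ (hv j) _ (hG.cj _ (hv i)))).resolve_left (hne j i hji)
          filter_upwards [e5, e7] with x h1 h2
          rw [h1, h2, if_neg hji, Pi.zero_apply, zero_mul]
      have e8 : ∀ᵐ x ∂μ, ∀ j, ce μ A (fun x => (v j x * conj (v i x)) * c j x) x = if j = i then c j x else 0 :=
        ae_all_iff.2 e4
      filter_upwards [e2, e3, e8, hce i] with x h2 h3 h4 h5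
      rw [h2, h3, Finset.sum_congr rfl fun j _ => h4 j, Finset.sum_ite_eq' Finset.univ i, if_pos (Finset.mem_univ i), ← h5,
        Pi.zero_apply, sub_self]
    have hfQ : BM μ fun x => f x - Q x := hfB.sub hQB
    have k2 : ∀ i (b : X → ℂ), BM μ b → Measurable[A.m] b → ∫ x, (f x - Q x) * conj (v i x * b x) ∂μ = 0 := by
      intro i b hb hbA
      have e1 : ∀ x, (f x - Q x) * conj (v i x * b x) = ((f x - Q x) * conj (v i x)) * conj (b x) := by
        intro x
        rw [map_mul]
        ring
      simp_rw [e1]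
      rw [ce_int' hG.leA (hfQ.mul (hvB i).conj) hb hbA]
      have e2 : (fun x => ce μ A (fun x => (f x - Q x) * conj (v i x)) x * conj (b x)) =ᵐ[μ] fun _ => (0 : ℂ) := by
        filter_upwards [k1 i] with x hx
        rw [hx, Pi.zero_apply, zero_mul]
      rw [integral_congr_ae e2, integral_zero]
    have k3 : ∫ x, (f x - Q x) * conj (Q x - P x) ∂μ = 0 := by
      have e1 : ∀ x, (f x - Q x) * conj (Q x - P x) = ∑ i, (f x - Q x) * conj (v i x * (c i x - a i x)) := by
        intro x
        rw [← Finset.mul_sum, ← map_sum]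
        congr 2
        simp only [hQ, hP]
        rw [← Finset.sum_sub_distrib]
        refine Finset.sum_congr rfl fun i _ => ?_
        ring
      simp_rw [e1]
      rw [integral_finsetSum _ fun i _ => (hfQ.mul ((hvB i).mul ((hcB i).sub (haB i))).conj).integrable]
      refine Finset.sum_eq_zero fun i _ => ?_
      exact k2 i _ ((hcB i).sub (haB i)) ((hcA i).sub (haA i))
    have k4 : nrm μ (fun x => f x - Q x) ≤ δ := by
      refine le_trans ?_ hd
      have e1 := nsq_add hfQ (hQB.sub hPB)
      have e2 : (fun x => f x - Q x + (Q x - P x)) = fun x => f x - P x := by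
        funext x
        ring
      rw [e2, k3, Complex.zero_re, mul_zero, add_zero] at e1
      refine Real.sqrt_le_sqrt ?_
      show nsq μ (fun x => f x - Q x) ≤ nsq μ (fun x => f x - P x)
      rw [e1]
      exact le_add_of_nonneg_right (nsq_nonneg _)
    have k5 : ∫ x, Q x * conj (g x) ∂μ = 0 := by
      have e1 : ∀ x, Q x * conj (g x) = ∑ i, (v i x * c i x) * conj (g x) := by
        intro x
        simp only [hQ]
        rw [Finset.sum_mul]
      simp_rw [e1]
      rw [integral_finsetSum _ fun i _ => (((hvB i).mul (hcB i)).mul hgB.conj).integrable]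
      refine Finset.sum_eq_zero fun i _ => ?_
      rcases h (v i) (hv i) with h1 | h1
      · have e2 : (fun x => v i x * c i x * conj (g x)) =ᵐ[μ] fun _ => (0 : ℂ) := by
          filter_upwards [hce i, h1] with x h2 h3
          rw [h2, h3, Pi.zero_apply, mul_zero, zero_mul]
        rw [integral_congr_ae e2, integral_zero]
      · have e2 : ∀ x, v i x * c i x * conj (g x) = conj ((g x * conj (v i x)) * conj (c i x)) := by
          intro x
          rw [map_mul, map_mul, Complex.conj_conj, Complex.conj_conj]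
          ring
        simp_rw [e2]
        rw [integral_conj, ce_int' hG.leA (hgB.mul (hvB i).conj) (hcB i) (hcA i)]
        have e3 : (fun x => ce μ A (fun x => g x * conj (v i x)) x * conj (c i x)) =ᵐ[μ] fun _ => (0 : ℂ) := by
          filter_upwards [h1] with x hx
          rw [hx, Pi.zero_apply, zero_mul]
        rw [integral_congr_ae e3, integral_zero, map_zero]
    have k6 : ∫ x, f x * conj (g x) ∂μ = ∫ x, (f x - Q x) * conj (g x) ∂μ := by
      have e1 : ∀ x, f x * conj (g x) = (f x - Q x) * conj (g x) + Q x * conj (g x) := by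
        intro x
        ring
      simp_rw [e1]
      rw [integral_add (hfQ.mul hgB.conj).integrable (hQB.mul hgB.conj).integrable, k5, add_zero]
    rw [k6]
    exact (nrm_cs hfQ hgB).trans (mul_le_mul_of_nonneg_right k4 (nrm_nonneg _))
  by_contra h0
  have h1 : 0 < ‖∫ x, f x * conj (g x) ∂μ‖ := norm_pos_iff.2 h0
  have h2 : 0 ≤ nrm μ g := nrm_nonneg _
  have h3 := key (‖∫ x, f x * conj (g x) ∂μ‖ / (2 * (nrm μ g + 1))) (by positivity)
  have h4 : ‖∫ x, f x * conj (g x) ∂μ‖ / (2 * (nrm μ g + 1)) * nrm μ g ≤ ‖∫ x, f x * conj (g x) ∂μ‖ / 2 := by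
    rw [div_mul_eq_mul_div, div_le_div_iff₀ (by positivity) (by norm_num)]
    nlinarith
  linarith

end Pool.Agent.Lib.MP_9fe581_an.AQ
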