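import Pool.Agent.Lib.MP_9fe581_an.AQ.D2a
import Pool.Agent.Lib.MP_9fe581_an.AQ.Pars

/-!
# AQ, D3: what part D provides (AP/D3; `orth` by `pars` in place of rotations)
-/

set_option autoImplicit false
set_option linter.unusedSectionVars false
set_option warn.classDefReducibility false

open Finset MeasureTheory Filter Topology ProbabilityTheory
open scoped ComplexConjugate

namespace Pool.Agent.Lib.MP_9fe581_an.AQ

open AP
open AH (BM)

variable {X : Type} [mX0 : MeasurableSpace X] {μ : Measure X} [IsProbabilityMeasure μ] {T : X → X}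
  {X' : Type} [mX' : MeasurableSpace X'] {μ' : Measure X'} [IsProbabilityMeasure μ'] {T' : X' → X'}
  {p q : ℕ} {lam : Measure (X × X')}

/-- `D_(h+1)` and `FF h` are relatively independent over `D_h` (copy of `AP.Tow.ri`) -/
theorem ri (hT : Dst μ T) (hT' : Dst μ' T') (hJ : PJ μ T μ' T' p q lam) {h : ℕ} (hL : Lv μ T p q lam h) {f : X → ℂ} (hf : Bd f)
    (hY : Measurable[(FF μ T h).m] f) : ce μ (DD μ T p q lam (h + 1)) f =ᵐ[μ] ce μ (DD μ T p q lam h) f := by
  have hS := sys_pow hT hJ.pp.pos
  have hFY : Fac μ T^[p] (FF μ T h) := (FF_fac hT h).iter p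
  obtain ⟨g, g1, g2, g3⟩ := ce_rep (μ := μ) (D := DD μ T p q lam h) (DD_le h) hf.bm
  have hgY : Measurable[(FF μ T h).m] g := g1.mono (DD_low h) le_rfl
  have hfg : BM μ fun x => f x - g x := hf.bm.sub g2.bm
  have h0 : ce μ (DD μ T p q lam h) (fun x => f x - g x) =ᵐ[μ] 0 := by
    have h1 := ce_sub (μ := μ) (D := DD μ T p q lam h) hf.bm g2.bm
    have h2 : ce μ (DD μ T p q lam h) g = g := condExp_of_stronglyMeasurable (DD_le h) g1.stronglyMeasurable g2.bm.integrable
    filter_upwards [h1, g3] with x a b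
    rw [a, h2, b, sub_self]
    rfl
  have key : ce μ (DD μ T p q lam (h + 1)) (fun x => f x - g x) =ᵐ[μ] 0 := by
    refine lv_dens' hJ.qp hfg.integrable fun v hv => ?_
    by_cases hvY : Measurable[(FF μ T h).m] v
    · have hvD := hL.sat v hv.1 hvY hv.2.2
      refine (ce_pull (DD_le h) hfg hv.1.bm.conj (Complex.continuous_conj.measurable.comp hvD)).trans ?_
      filter_upwards [h0] with x hx
      rw [hx]
      simp
    · have h1 : ce μ (FF μ T h) v =ᵐ[μ] 0 := by
        by_contra hne
        exact hvY (dich hS hFY (hv.1.mono (DD_low h)) hne)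
      have h2 : ce μ (FF μ T h) (fun x => conj (v x)) =ᵐ[μ] 0 := by
        filter_upwards [ce_conj (μ := μ) (FF_le (μ := μ) (T := T) h) hv.1.bm.integrable, h1] with x a b
        rw [a, b]
        simp
      have h3 : ce μ (FF μ T h) (fun x => conj (v x) * (f x - g x)) =ᵐ[μ] 0 := by
        refine (ce_pull (FF_le (μ := μ) (T := T) h) hv.1.bm.conj hfg (hY.sub hgY)).trans ?_
        filter_upwards [h2] with x hx
        rw [hx]
        simp
      have e : (fun x => (f x - g x) * conj (v x)) = fun x => conj (v x) * (f x - g x) := funext fun x => mul_comm _ _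
      rw [e]
      refine (ce_tower (DD_low h) (FF_le (μ := μ) (T := T) h) _).symm.trans ((ce_congr h3).trans ?_)
      exact ce_zero
  have h4 := ce_sub (μ := μ) (D := DD μ T p q lam (h + 1)) hf.bm g2.bm
  have h5 : ce μ (DD μ T p q lam (h + 1)) g = g := condExp_of_stronglyMeasurable (DD_le (h + 1))
    (g1.mono (DD_mono h) le_rfl).stronglyMeasurable g2.bm.integrable
  filter_upwards [key, h4, g3] with x a b c
  rw [b, h5] at a
  rw [← c]
  exact sub_eq_zero.1 a

/-- Bessel's inequality for hidden classes (copy of `AP.Tow.bessel`) -/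
theorem bessel (hT : Dst μ T) (hT' : Dst μ' T') (hJ : PJ μ T μ' T' p q lam) {h : ℕ} (hL : Lv μ T p q lam h) {f : X → ℂ} (hf : Bd f) (n : ℕ)
    (v : Fin n → X → ℂ) (hv : ∀ i, v i ∈ SS μ T p q lam h (DD μ T p q lam h))
    (hne : ∀ i j, i ≠ j → ¬ Measurable[(DD μ T p q lam h).m] fun x => v i x * conj (v j x)) :
    ∑ i, Esq μ (DD μ T p q lam h) (fun x => f x * conj (v i x)) ≤ Esq μ (DD μ T p q lam (h + 1)) f := by
  have hS := sys_pow hT hJ.pp.pos
  have hF : Fac μ T^[p] (DD μ T p q lam h) := hL.fac.iter p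
  obtain ⟨f', f1, f2, f3⟩ := ce_rep (μ := μ) (D := DD μ T p q lam (h + 1)) (DD_le (h + 1)) hf.bm
  choose g g1 g2 g3 using fun i => ce_rep (μ := μ) (D := DD μ T p q lam h) (f := fun x => f' x * conj (v i x)) (DD_le h)
    (f2.bm.mul (hv i).1.bm.conj)
  have hFam : Fam μ T^[p] (DD μ T p q lam h) f' v g := ⟨fun i => (hv i).1, hne, g1, g2, g3⟩
  have h1 := fam_bessel hS hF f2 hFam univ
  have h2 : ∀ i, Esq μ (DD μ T p q lam h) (fun x => f x * conj (v i x)) = nsq μ (g i) := by
    intro i
    refine nsq_congr ?_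
    refine Filter.EventuallyEq.trans ?_ (g3 i).symm
    have h3 : ce μ (DD μ T p q lam (h + 1)) (fun x => f x * conj (v i x)) =ᵐ[μ] fun x => f' x * conj (v i x) := by
      refine (ce_pull (DD_le (h + 1)) hf.bm (hv i).1.bm.conj
        (Complex.continuous_conj.measurable.comp (DD_mem (hv i)))).trans ?_
      filter_upwards [f3] with x hx
      rw [hx]
    exact (ce_tower (DD_mono h) (DD_le (h + 1)) _).symm.trans (ce_congr h3)
  have h3 : Esq μ (DD μ T p q lam (h + 1)) f = nsq μ f' := nsq_congr f3.symm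
  rw [h3, sum_congr rfl fun i _ => h2 i]
  exact h1

/-- one mode against one hidden class of another mode -/
private theorem orth_one (hT : Dst μ T) {h : ℕ} {e : X → ℂ} (he : e ∈ EE μ T h) {v : X → ℂ}
    (hv : v ∈ SS μ T p q lam h (DD μ T p q lam h)) (hvE : v ∈ EE μ T h)
    (hne : ¬ Measurable[(FF μ T h).m] fun x => e x * conj (v x)) {f F : X → ℂ} (hf : Bd f) (hM : Mode μ T h e f)
    (hF : F =ᵐ[μ] ce μ (DD μ T p q lam (h + 1)) f) : ce μ (DD μ T p q lam h) (fun x => F x * conj (v x)) =ᵐ[μ] 0 := by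
  have hvb : Bd fun x => conj (v x) := ⟨Complex.continuous_conj.measurable.comp hv.1.meas, 1, fun x => by
    rw [RCLike.norm_conj]
    exact (hv.1.norm x).le⟩
  have hc : ∀ x, v x * conj (v x) = 1 := fun x => by
    rw [Complex.mul_conj, Complex.normSq_eq_norm_sq, hv.1.norm x]
    simp
  have hE : (fun x => e x * conj (v x)) ∈ EE μ T h := (EE_gp hT h).mul e he _ ((EE_gp hT h).cj v hvE)
  have hMode : Mode μ T h (fun x => e x * conj (v x)) fun x => f x * conj (v x) := by
    have e1 : (fun x => conj (e x * conj (v x)) * (f x * conj (v x))) = fun x => conj (e x) * f x := by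
      funext x
      rw [map_mul, Complex.conj_conj]
      calc conj (e x) * v x * (f x * conj (v x)) = conj (e x) * f x * (v x * conj (v x)) := by ring
        _ = conj (e x) * f x := by rw [hc, mul_one]
    show Measurable[(FF μ T h).m] fun x => conj (e x * conj (v x)) * (f x * conj (v x))
    rw [e1]
    exact hM
  have h0 : ce μ (FF μ T h) (fun x => f x * conj (v x)) =ᵐ[μ] 0 := mode_zero hT hE hne (hf.mul hvb) hMode
  have h1 : ce μ (DD μ T p q lam h) (fun x => f x * conj (v x)) =ᵐ[μ] 0 := by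
    refine (ce_tower (DD_low h) (FF_le (μ := μ) (T := T) h) _).symm.trans ((ce_congr h0).trans ?_)
    exact ce_zero
  have h2 : ce μ (DD μ T p q lam (h + 1)) (fun x => f x * conj (v x)) =ᵐ[μ] fun x => F x * conj (v x) := by
    refine (ce_pull (DD_le (h + 1)) hf.bm hv.1.bm.conj
      (Complex.continuous_conj.measurable.comp (DD_mem hv))).trans ?_
    filter_upwards [hF] with x hx
    rw [hx]
  exact ((ce_congr h2).symm.trans (ce_tower (DD_mono h) (DD_le (h + 1)) _)).trans h1

/-- **different modes stay orthogonal**: `pars` for `ss_gp` and bounded representatives of the two conditional expectations: for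
`v ∈ SS h`, which is in `EE h` by `cls_pow`, one of `e conj v`, `e' conj v` is not in `FF h`, say the first; then
`E(f conj v | FF h) = 0` (`mode_zero`), so `E(f conj v | DD h) = 0` -/
theorem orth (hT : Dst μ T) (hT' : Dst μ' T') (hJ : PJ μ T μ' T' p q lam) {h : ℕ} (hL : Lv μ T p q lam h) {e e' : X → ℂ} (he : e ∈ EE μ T h)
    (he' : e' ∈ EE μ T h) (hne : ¬ Measurable[(FF μ T h).m] fun x => e x * conj (e' x)) {f g : X → ℂ} (hf : Bd f) (hg : Bd g)
    (hM : Mode μ T h e f) (hM' : Mode μ T h e' g) :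
    ∫ x, ce μ (DD μ T p q lam (h + 1)) f x * conj (ce μ (DD μ T p q lam (h + 1)) g x) ∂μ = 0 := by
  obtain ⟨F, F1, F2, F3⟩ := ce_rep (μ := μ) (D := DD μ T p q lam (h + 1)) (DD_le (h + 1)) hf.bm
  obtain ⟨G, G1, G2, G3⟩ := ce_rep (μ := μ) (D := DD μ T p q lam (h + 1)) (DD_le (h + 1)) hg.bm
  have key := pars (ss_gp hT hT' hJ hL) F2 F1 G2 fun v hv => by
    have hvE : v ∈ EE μ T h := cls_pow hT hJ.pp.pos (hv.1.mono (DD_low h))
    by_cases h1 : Measurable[(FF μ T h).m] fun x => e x * conj (v x)
    · right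
      refine orth_one hT he' hv hvE (fun h2 => hne ?_) hg hM' G3
      have h3 : (fun x => e x * conj (e' x)) = fun x => (e x * conj (v x)) * conj (e' x * conj (v x)) := by
        funext x
        have hc : conj (v x) * v x = 1 := by
          rw [mul_comm, Complex.mul_conj, Complex.normSq_eq_norm_sq, hv.1.norm x]
          simp
        rw [map_mul, Complex.conj_conj]
        calc e x * conj (e' x) = e x * conj (e' x) * (conj (v x) * v x) := by rw [hc, mul_one]
          _ = _ := by ring
      rw [h3]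
      exact h1.mul (Complex.continuous_conj.measurable.comp h2)
    · left
      exact orth_one hT he hv hvE h1 hf hM F3
  refine (integral_congr_ae ?_).trans key
  filter_upwards [F3, G3] with x a b
  rw [a, b]

theorem dp_of (hT : Dst μ T) (hT' : Dst μ' T') (hJ : PJ μ T μ' T' p q lam) (hL : ∀ h, Ok μ T h → Lv μ T p q lam h) :
    DP μ T p q lam where
  fac h hO := by
    cases h with
    | zero => exact (hL 0 fun j hj => absurd hj (Nat.not_lt_zero j)).fac
    | succ h => exact lv_fac hT hT' hJ (hL h hO)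
  low h s hs := DD_low h s hs
  ri h hO _ hf hY := ri hT hT' hJ (hL h hO) hf hY
  bessel h hO _ hf n v hv hne := bessel hT hT' hJ (hL h hO) hf n v hv hne
  orth h hO _ _ he he' hne _ _ hf hg hM hM' := orth hT hT' hJ (hL h hO) he he' hne hf hg hM hM'
  dens _ _ hf h0 := lv_dens' hJ.qp hf.bm.integrable h0

end Pool.Agent.Lib.MP_9fe581_an.AQ
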