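import Pool.Agent.Lib.MP_9fe581_an.AQ.D2b
import Pool.Agent.Lib.MP_9fe581_an.AQ.D3
import Pool.Agent.Lib.MP_9fe581_an.AP.A1

/-!
# AQ, A1: the induction over the levels, the core at every level (copy of AP/A1)
-/

set_option autoImplicit false
set_option linter.unusedSectionVars false
set_option warn.classDefReducibility false

open Finset MeasureTheory Filter Topology ProbabilityTheory
open scoped ComplexConjugate

namespace Pool.Agent.Lib.MP_9fe581_an.AQ

open AP
open AH (BM)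

variable {X : Type} [mX0 : MeasurableSpace X] {μ : Measure X} [IsProbabilityMeasure μ] {T : X → X} [StandardBorelSpace X]
  {X' : Type} [mX' : MeasurableSpace X'] {μ' : Measure X'} [IsProbabilityMeasure μ'] {T' : X' → X'}
  {p q : ℕ} {lam : Measure (X × X')}

/-- `dich`: `v ∈ SS h` in `FF h` is in `DD h` by `hL.sat`; if not, it is in `EE h` by `cls_pow` and `FF_pow` applies -/
theorem bd (hT : Dst μ T) (hT' : Dst μ' T') (hJ : PJ μ T μ' T' p q lam) {h : ℕ} (hN : NT μ T h) (hL : Lv μ T p q lam h) :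
    BD μ T^[p] (DD μ T p q lam h) (DD μ T p q lam (h + 1)) (FF μ T h) (FF μ T (h + 1))
      (SS μ T p q lam h (DD μ T p q lam h)) (EE μ T h) := by
  classical
  have fD : Fac μ T^[p] (DD μ T p q lam h) := hL.fac.iter p
  have fD' : Fac μ T^[p] (DD μ T p q lam (h + 1)) := (lv_fac hT hT' hJ hL).iter p
  have fY : Fac μ T^[p] (FF μ T h) := (FF_fac hT h).iter p
  have fY' : Fac μ T^[p] (FF μ T (h + 1)) := (FF_fac hT (h + 1)).iter p
  refine
    { fD := fD, fD' := fD', fY := fY, fY' := fY', DY := fun s hs => DD_low h s hs, DD := fun s hs => DD_mono h s hs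
      DY' := fun s hs => DD_low (h + 1) s hs, YY := fun s hs => FF_mono h s hs
      one := ss_one hJ.qp h, cls := fun v hv => hv.1, mem := fun v hv => DD_mem hv, dich := ?_, tot := ?_
      emeas := fun e he => FF_mem he, enorm := fun e he x => he.norm x
      eratio := fun e he => (cls_iter (FF_fac hT h) he p).ratio
      etot := fun f hf hY h0 => FF_tot hT hf hY h0 }
  · intro v hv
    have hvE : v ∈ EE μ T h :=
      cls_pow hT hJ.pp.pos ⟨hv.1.meas, hv.1.norm, hv.1.ratio.mono (DD_low h) le_rfl⟩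
    by_cases hm : Measurable[(FF μ T h).m] v
    · exact Or.inl (hL.sat v hv.1 hm hv.2.2)
    · exact Or.inr fun n hn => FF_pow hT hN hvE hm hn
  · intro d hd hD h0
    have h1 := lv_dens' hJ.qp hd.bm.integrable h0
    rw [ce_self (DD_le (h + 1)) hd.bm hD] at h1
    exact h1

/-- the part of `bd` that holds at all levels -/
theorem bd_em (hT : Dst μ T) {h : ℕ} {e : X → ℂ} (he : e ∈ EE μ T h) : Em μ T^[p] (DD μ T p q lam h) (FF μ T h) e :=
  ⟨(FF_fac hT h).iter p, fun s hs => DD_low h s hs, Cls.meas he, Cls.norm he, (cls_iter (FF_fac hT h) he p).ratio⟩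

private theorem a1_tor {h : ℕ} (hL : Lv μ T p q lam h) :
    TorP T^[p] (DD μ T p q lam h) (FF μ T h) q := by
  intro v hv hvY n hn hnq hvn
  exact hL.sat v hv hvY ⟨n, fun hd => absurd (Nat.le_of_dvd hn hd) (by omega), hid_fst (DD_le h) hvn⟩

theorem lv_min (hT : Dst μ T) (hT' : Dst μ' T') (hJ : PJ μ T μ' T' p q lam) (h : ℕ) (hO : Ok μ T h) :
    Lv μ T p q lam h ∧ ∀ (k : Kernel X X) [IsMarkovKernel k] (c : Ctx μ T^[p] (DD μ T p q lam h) k),
      MinP c (FF μ T h) (Qt q h) := by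
  have hq : 1 < q := hJ.qp.one_lt
  have hS : Sys μ T^[p] := sys_pow hT hJ.pp.pos
  induction h with
  | zero =>
    refine ⟨lv_zero hT, fun k _ c => ?_⟩
    have hY : FF μ T 0 = DD μ T p q lam 0 := rfl
    rw [hY]
    exact minP_triv c _
  | succ h ih =>
    obtain ⟨hL, hM⟩ := ih fun j hj => hO j (hj.trans (Nat.lt_succ_self h))
    have b := bd hT hT' hJ (hO h (Nat.lt_succ_self h)) hL
    obtain ⟨k, hk, hF⟩ := exists_fib μ hS.erg.toMeasurePreserving b.fD
    have c : Ctx μ T^[p] (DD μ T p q lam h) k := ⟨hS, b.fD, hF⟩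
    have tor := a1_tor hL
    have big : Big c (FF μ T h) (EE μ T h) (Qt q (h + 1)) := by
      intro e he P hP
      by_cases h4 : ‖P‖ ^ 4 < Qt q h
      · exact Or.inl (core_min c (b.em he) (hM k c) tor hP h4 (h4.trans_le (Qt_le hq h)))
      · refine Or.inr ?_
        rw [not_lt] at h4
        refine (Real.sqrt_le_sqrt h4).trans ?_
        rw [show ‖P‖ ^ 4 = (‖P‖ ^ 2) ^ 2 by ring, Real.sqrt_sq (by positivity)]
    obtain ⟨k', hk', hF'⟩ := exists_fib μ hS.erg.toMeasurePreserving b.fD'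
    have c' : Ctx μ T^[p] (DD μ T p q lam (h + 1)) k' := ⟨hS, b.fD', hF'⟩
    have pur : Pur μ T p q lam h := by
      intro v hv hvY
      obtain ⟨e, he, w, hw, hwY, hvw⟩ := pur_next b c c' (Qt_one hq (h + 1)) big hv hvY
      exact ⟨w, hw, mode_mem he hwY, hvw⟩
    exact ⟨lv_step hT hT' hJ hL pur, fun k'' _ c'' => minP_next b c c'' big⟩

theorem dp (hT : Dst μ T) (hT' : Dst μ' T') (hJ : PJ μ T μ' T' p q lam) : DP μ T p q lam := dp_of hT hT' hJ fun h hO => (lv_min hT hT' hJ h hO).1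

theorem core (hT : Dst μ T) (hT' : Dst μ' T') (h : ℕ) (hO : Ok μ T h) : Core μ T μ' T' h := by
  intro η hη
  obtain ⟨q0, hq0⟩ := ((Qt_tendsto h).eventually_gt_atTop (1 / η ^ 2)).exists_forall_of_atTop
  refine ⟨q0, fun p q lam hJ hq e he f hf hM hf1 hv => ?_⟩
  have hq1 : 1 < q := hJ.qp.one_lt
  have hS : Sys μ T^[p] := sys_pow hT hJ.pp.pos
  obtain ⟨hL, hMin⟩ := lv_min hT hT' hJ h hO
  have fD : Fac μ T^[p] (DD μ T p q lam h) := hL.fac.iter p
  obtain ⟨k, hk, hF⟩ := exists_fib μ hS.erg.toMeasurePreserving fD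
  have c : Ctx μ T^[p] (DD μ T p q lam h) k := ⟨hS, fD, hF⟩
  have tor := a1_tor hL
  exact core_energy c (bd_em hT he) (hMin k c) tor hη (hq0 q hq) ((hq0 q hq).trans_le (Qt_le hq1 h)) hf hM hf1
    hv

end Pool.Agent.Lib.MP_9fe581_an.AQ
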