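import Pool.Agent.Lib.MP_9fe581_an.AQ.Defs

/-!
# AQ, Base: the canonical factors `FF h`
-/

set_option autoImplicit false
set_option linter.unusedSectionVars false
set_option warn.classDefReducibility false

open Finset MeasureTheory Filter Topology ProbabilityTheory
open scoped ComplexConjugate

namespace Pool.Agent.Lib.MP_9fe581_an.AQ

open AP
open AH (BM)

variable {X : Type} [mX0 : MeasurableSpace X] {μ : Measure X} [IsProbabilityMeasure μ] {T : X → X}

theorem Dst.sys (hT : Dst μ T) : Sys μ T := ⟨hT.erg, hT.inv⟩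

theorem ok_zero : Ok μ T 0 := fun j hj => absurd hj (Nat.not_lt_zero j)

theorem Ok.mono {h k : ℕ} (hO : Ok μ T h) (hk : k ≤ h) : Ok μ T k := fun j hj => hO j (hj.trans_le hk)

theorem Dst.pres (hT : Dst μ T) : MeasurePreserving T μ μ := hT.erg.toMeasurePreserving

theorem Dst.meas (hT : Dst μ T) : Measurable T := hT.erg.measurable

/-- the conditional expectation of a measurable function -/
theorem ce_self {D : SA X} (hD : D.m ≤ mX0) {f : X → ℂ} (hf : BM μ f) (hm : Measurable[D.m] f) : ce μ D f = f :=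
  condExp_of_stronglyMeasurable hD hm.stronglyMeasurable hf.integrable

theorem cls_bd {S : X → X} {D : SA X} {v : X → ℂ} (hv : Cls S D v) : Bd v := ⟨hv.meas, 1, fun x => (hv.norm x).le⟩

theorem cls_one (S : X → X) (D : SA X) : Cls S D fun _ => (1 : ℂ) :=
  ⟨measurable_const, fun x => by simp, @measurable_const _ _ _ D.m _⟩

/-- a class for `S` is a class for `S^n`: `v (S^n x) conj (v x) = ∏_{j < n} r (S^j x)`, `r = v ∘ S / v` -/
theorem cls_iter {S : X → X} {D : SA X} (hD : Fac μ S D) {v : X → ℂ} (hv : Cls S D v) (n : ℕ) : Cls S^[n] D v := by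
  refine ⟨hv.meas, hv.norm, ?_⟩
  have hS : @Measurable _ _ D.m D.m S := fac_meas hD
  have hcc : ∀ x, v x * conj (v x) = 1 := fun x => AH.unim_mul _ (hv.norm x)
  induction n with
  | zero =>
    have e : (fun x => v (S^[0] x) * conj (v x)) = fun _ => (1 : ℂ) := funext hcc
    rw [e]
    exact @measurable_const _ _ _ D.m _
  | succ n ih =>
    have e : (fun x => v (S^[n + 1] x) * conj (v x)) =
        fun x => (v (S^[n] (S x)) * conj (v (S x))) * (v (S x) * conj (v x)) := by
      funext x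
      rw [Function.iterate_succ_apply]
      calc v (S^[n] (S x)) * conj (v x) = v (S^[n] (S x)) * conj (v x) * (v (S x) * conj (v (S x))) := by
            rw [hcc, mul_one]
        _ = _ := by ring
    rw [e]
    exact (ih.comp hS).mul hv.ratio

theorem FF_le (h : ℕ) : (FF μ T h).m ≤ mX0 := by
  cases h with
  | zero => exact cpl_le _
  | succ h => exact cpl_le _

private theorem base_le (h : ℕ) : ((FF μ T h).m ⊔
    ⨆ v : ({v | Cls T (FF μ T h) v} : Set (X → ℂ)), MeasurableSpace.comap v.1 inferInstance) ≤ mX0 :=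
  sup_le (FF_le h) (iSup_le fun v => v.2.meas.comap_le)

theorem FF_null (h : ℕ) {s : Set X} (hs : MeasurableSet s) (h0 : μ s = 0) : MeasurableSet[(FF μ T h).m] s := by
  cases h with
  | zero => exact cpl_null hs h0
  | succ h => exact cpl_null hs h0

theorem FF_mono (h : ℕ) : (FF μ T h).m ≤ (FF μ T (h + 1)).m := by
  refine le_trans ?_ (le_cpl (D := ⟨(FF μ T h).m ⊔
    ⨆ v : ({v | Cls T (FF μ T h) v} : Set (X → ℂ)), MeasurableSpace.comap v.1 inferInstance⟩) (base_le h))
  exact le_sup_left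

theorem FF_mono' {a b : ℕ} (hab : a ≤ b) : (FF μ T a).m ≤ (FF μ T b).m := by
  induction hab with
  | refl => exact le_rfl
  | step _ ih => exact ih.trans (FF_mono _)

theorem FF_mem {h : ℕ} {v : X → ℂ} (hv : v ∈ EE μ T h) : Measurable[(FF μ T (h + 1)).m] v := by
  rw [measurable_iff_comap_le]
  refine le_trans ?_ (le_cpl (D := ⟨(FF μ T h).m ⊔
    ⨆ v : ({v | Cls T (FF μ T h) v} : Set (X → ℂ)), MeasurableSpace.comap v.1 inferInstance⟩) (base_le h))
  refine le_trans ?_ le_sup_right
  exact le_iSup (fun v : ({v | Cls T (FF μ T h) v} : Set (X → ℂ)) => MeasurableSpace.comap v.1 inferInstance) ⟨v, hv⟩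

/-- `FF 0` consists of the sets of measure `0` or `1` -/
theorem FF_const {f : X → ℂ} (hb : Bd f) (hf : Measurable[(FF μ T 0).m] f) : ∃ c : ℂ, f =ᵐ[μ] fun _ => c := by
  refine ⟨∫ x, f x ∂μ, ?_⟩
  have h1 := ae_of_cpl (μ := μ) (D := ⟨⊥⟩) bot_le hb hf
  have h2 : μ[f | (⊥ : MeasurableSpace X)] = fun _ => ∫ x, f x ∂μ := condExp_bot f
  exact h1.trans (Eventually.of_forall fun x => congrFun h2 x)

theorem FF_of_const {f : X → ℂ} (hf : Measurable f) {c : ℂ} (h : f =ᵐ[μ] fun _ => c) : Measurable[(FF μ T 0).m] f :=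
  cpl_of_ae (D := ⟨⊥⟩) hf (@measurable_const _ _ _ (⊥ : MeasurableSpace X) c) h

private theorem base_pres (hT : Dst μ T) {R : X → X} (hR : Measurable R) (hRT : ∀ x, R (T x) = x) :
    MeasurePreserving R μ μ := by
  refine ⟨hR, ?_⟩
  ext s hs
  rw [Measure.map_apply hR hs, ← hT.pres.measure_preimage (hR hs).nullMeasurableSet, ← Set.preimage_comp]
  have : R ∘ T = id := funext hRT
  rw [this, Set.preimage_id]

/-- `FF h` is a factor (as `AP.Tow.lv_fac`: `v ∘ T = (v ∘ T conj v) v`, `v ∘ R = conj ((v ∘ T conj v) ∘ R) v`) -/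
theorem FF_fac (hT : Dst μ T) (h : ℕ) : Fac μ T (FF μ T h) := by
  obtain ⟨R, hRm, hTR, hRT⟩ := hT.inv
  have hRp := base_pres hT hRm hRT
  induction h with
  | zero =>
    have hbot : ∀ (S : X → X) (s : Set X), MeasurableSet[(⊥ : MeasurableSpace X)] s →
        MeasurableSet[(cpl μ ⟨⊥⟩).m] (S ⁻¹' s) := by
      intro S s hs
      rcases MeasurableSpace.measurableSet_bot_iff.1 hs with rfl | rfl
      · rw [Set.preimage_empty]
        exact @MeasurableSet.empty _ (cpl μ ⟨⊥⟩).m
      · rw [Set.preimage_univ]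
        exact @MeasurableSet.univ _ (cpl μ ⟨⊥⟩).m
    exact cpl_fac (D := ⟨⊥⟩) hT.pres hRp hTR hRT (hbot _) (hbot _)
  | succ h ih =>
    have hTD : @Measurable _ _ (FF μ T h).m (FF μ T h).m T := fac_meas ih
    have hRD : @Measurable _ _ (FF μ T h).m (FF μ T h).m R := by
      rw [measurable_iff_comap_le, fac_inv ih hTR]
    have hle : (FF μ T h).m ≤ (FF μ T (h + 1)).m := FF_mono h
    refine cpl_fac (D := ⟨(FF μ T h).m ⊔
      ⨆ v : ({v | Cls T (FF μ T h) v} : Set (X → ℂ)), MeasurableSpace.comap v.1 inferInstance⟩)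
      hT.pres hRp hTR hRT ?_ ?_
    · have key : ((FF μ T h).m ⊔ ⨆ v : ({v | Cls T (FF μ T h) v} : Set (X → ℂ)),
          MeasurableSpace.comap v.1 inferInstance) ≤ (FF μ T (h + 1)).m.map T := by
        refine sup_le (fun s hs => hle _ (hTD hs)) (iSup_le fun v => ?_)
        rintro _ ⟨K, hK, rfl⟩
        have hv : Cls T (FF μ T h) v.1 := v.2
        have e : (fun x => v.1 (T x)) = fun x => (v.1 (T x) * conj (v.1 x)) * v.1 x := by
          funext x
          calc v.1 (T x) = v.1 (T x) * (v.1 x * conj (v.1 x)) := by rw [AH.unim_mul _ (hv.norm x), mul_one]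
            _ = _ := by ring
        have h1 : Measurable[(FF μ T (h + 1)).m] fun x => v.1 (T x) := by
          rw [e]
          exact (hv.ratio.mono hle le_rfl).mul (FF_mem hv)
        exact h1 hK
      exact fun s hs => key s hs
    · have key : ((FF μ T h).m ⊔ ⨆ v : ({v | Cls T (FF μ T h) v} : Set (X → ℂ)),
          MeasurableSpace.comap v.1 inferInstance) ≤ (FF μ T (h + 1)).m.map R := by
        refine sup_le (fun s hs => hle _ (hRD hs)) (iSup_le fun v => ?_)
        rintro _ ⟨K, hK, rfl⟩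
        have hv : Cls T (FF μ T h) v.1 := v.2
        have h0 := hv.ratio.comp hRD
        have e : (fun x => v.1 (R x)) = fun x => conj (v.1 (T (R x)) * conj (v.1 (R x))) * v.1 x := by
          funext x
          rw [hTR, map_mul, Complex.conj_conj]
          calc v.1 (R x) = v.1 (R x) * (v.1 x * conj (v.1 x)) := by rw [AH.unim_mul _ (hv.norm x), mul_one]
            _ = _ := by ring
        have h1 : Measurable[(FF μ T (h + 1)).m] fun x => v.1 (R x) := by
          rw [e]
          exact (Complex.continuous_conj.measurable.comp (h0.mono hle le_rfl)).mul (FF_mem hv)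
        exact h1 hK
      exact fun s hs => key s hs

private theorem base_ee {e : X → ℂ} (he : ∀ x, ‖e x‖ = 1) (f : X → ℂ) (x : X) :
    f x = e x * (conj (e x) * f x) := by
  rw [← mul_assoc, AH.unim_mul _ (he x), one_mul]

theorem mode_mem {h : ℕ} {e f : X → ℂ} (he : e ∈ EE μ T h) (hf : Mode μ T h e f) : Measurable[(FF μ T (h + 1)).m] f := by
  have e1 : f = fun x => e x * (conj (e x) * f x) := funext (base_ee he.norm f)
  rw [e1]
  exact (FF_mem he).mul (Measurable.mono hf (FF_mono h) le_rfl)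

/-- the correlation of a function in a mode is of lower level -/
theorem mode_corr (hT : Dst μ T) {h : ℕ} {e f : X → ℂ} (he : e ∈ EE μ T h) (hf : Mode μ T h e f) (n : ℕ) :
    Measurable[(FF μ T h).m] fun x => f (T^[n] x) * conj (f x) := by
  have hF : Measurable[(FF μ T h).m] fun x => conj (e x) * f x := hf
  have hTn : @Measurable _ _ (FF μ T h).m (FF μ T h).m T^[n] := fac_meas ((FF_fac hT h).iter n)
  have hr := (cls_iter (FF_fac hT h) he n).ratio
  have e1 : (fun x => f (T^[n] x) * conj (f x)) = fun x => (e (T^[n] x) * conj (e x)) *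
      ((conj (e (T^[n] x)) * f (T^[n] x)) * conj (conj (e x) * f x)) := by
    funext x
    have h1 : e x * conj (e x) = 1 := AH.unim_mul _ (he.norm x)
    have h2 : e (T^[n] x) * conj (e (T^[n] x)) = 1 := AH.unim_mul _ (he.norm _)
    simp only [map_mul, Complex.conj_conj]
    calc f (T^[n] x) * conj (f x) = (e (T^[n] x) * conj (e (T^[n] x))) * (e x * conj (e x)) *
          (f (T^[n] x) * conj (f x)) := by rw [h1, h2, one_mul, one_mul]
      _ = _ := by ring
  rw [e1]
  exact hr.mul ((hF.comp hTn).mul (Complex.continuous_conj.measurable.comp hF))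

/-- two functions in modes `e`, `e'`: the product `f ∘ T^n conj g` is of mode `e conj e'` -/
theorem mode_corr2 (hT : Dst μ T) {h : ℕ} {e e' f g : X → ℂ} (he : e ∈ EE μ T h) (hf : Mode μ T h e f)
    (hg : Mode μ T h e' g) (n : ℕ) : Mode μ T h (fun x => e x * conj (e' x)) fun x => f (T^[n] x) * conj (g x) := by
  have hF : Measurable[(FF μ T h).m] fun x => conj (e x) * f x := hf
  have hG : Measurable[(FF μ T h).m] fun x => conj (e' x) * g x := hg
  have hTn : @Measurable _ _ (FF μ T h).m (FF μ T h).m T^[n] := fac_meas ((FF_fac hT h).iter n)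
  have hr := (cls_iter (FF_fac hT h) he n).ratio
  show Measurable[(FF μ T h).m] fun x => conj (e x * conj (e' x)) * (f (T^[n] x) * conj (g x))
  have e1 : (fun x => conj (e x * conj (e' x)) * (f (T^[n] x) * conj (g x))) =
      fun x => (e (T^[n] x) * conj (e x)) *
      ((conj (e (T^[n] x)) * f (T^[n] x)) * conj (conj (e' x) * g x)) := by
    funext x
    have h2 : e (T^[n] x) * conj (e (T^[n] x)) = 1 := AH.unim_mul _ (he.norm _)
    simp only [map_mul, Complex.conj_conj]
    calc conj (e x) * e' x * (f (T^[n] x) * conj (g x)) = (e (T^[n] x) * conj (e (T^[n] x))) *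
          (conj (e x) * e' x * (f (T^[n] x) * conj (g x))) := by rw [h2, one_mul]
      _ = _ := by ring
  rw [e1]
  exact hr.mul ((hF.comp hTn).mul (Complex.continuous_conj.measurable.comp hG))

/-- a function in a mode that is not in `FF h` has no conditional expectation over `FF h` -/
theorem mode_zero (hT : Dst μ T) {h : ℕ} {e f : X → ℂ} (he : e ∈ EE μ T h) (hne : ¬ Measurable[(FF μ T h).m] e)
    (hb : Bd f) (hf : Mode μ T h e f) : ce μ (FF μ T h) f =ᵐ[μ] 0 := by
  have hF : Measurable[(FF μ T h).m] fun x => conj (e x) * f x := hf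
  have he0 : ce μ (FF μ T h) e =ᵐ[μ] 0 := by
    by_contra h0
    exact hne (dich hT.sys (FF_fac hT h) he h0)
  have heb : Bd e := cls_bd he
  have h1 := ce_pull (μ := μ) (D := FF μ T h) (FF_le h) (f := e) (g := fun x => conj (e x) * f x)
    heb.bm (heb.conj.mul hb).bm hF
  have e1 : (fun x => e x * (conj (e x) * f x)) = f := funext fun x => (base_ee he.norm f x).symm
  rw [e1] at h1
  filter_upwards [h1, he0] with x a b
  rw [a, b]
  simp

/-- the powers of a class that is not in `FF h` -/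
theorem FF_pow (hT : Dst μ T) {h : ℕ} (hN : NT μ T h) {v : X → ℂ} (hv : v ∈ EE μ T h) (hne : ¬ Measurable[(FF μ T h).m] v) {n : ℕ}
    (hn : 0 < n) : ce μ (FF μ T h) (fun x => v x ^ n) =ᵐ[μ] 0 := by
  by_contra h0
  exact hne (hN v n hn hv (dich hT.sys (FF_fac hT h) (Cls.pow hv n) h0))

/-- the group of the classes over `FF h` -/
theorem EE_gp (hT : Dst μ T) (h : ℕ) : Gp μ (FF μ T h) (FF μ T (h + 1)) (EE μ T h) where
  leA := FF_le h
  leB := FF_le (h + 1)
  AB := FF_mono h
  meas := fun v hv => Cls.meas hv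
  norm := fun v hv => Cls.norm hv
  one := cls_one T (FF μ T h)
  mul := fun v hv w hw => Cls.mul hv hw
  cj := fun v hv => Cls.conj' hv
  dich := fun v hv => by
    by_cases h0 : ce μ (FF μ T h) v =ᵐ[μ] 0
    · exact Or.inr h0
    · exact Or.inl (AP.dich hT.sys (FF_fac hT h) hv h0)
  mem := fun v hv => FF_mem hv
  gen := le_rfl

/-- totality (`AP.dens_ce`) -/
theorem Gp.tot {A B : SA X} {G : Set (X → ℂ)} (hG : Gp μ A B G) {F : X → ℂ} (hF : Integrable F μ)
    (h0 : ∀ v ∈ G, ce μ A (fun x => F x * conj (v x)) =ᵐ[μ] 0) : ce μ B F =ᵐ[μ] 0 := by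
  refine dens_ce hG.leA hG.meas hG.norm hG.one hG.mul hG.cj hF (fun v hv => ?_) hG.gen
  have h1 := h0 _ (hG.cj v hv)
  simp only [Complex.conj_conj] at h1
  exact h1

theorem FF_tot (hT : Dst μ T) {h : ℕ} {f : X → ℂ} (hf : Bd f) (hm : Measurable[(FF μ T (h + 1)).m] f)
    (h0 : ∀ v ∈ EE μ T h, ce μ (FF μ T h) (fun x => f x * conj (v x)) =ᵐ[μ] 0) : f =ᵐ[μ] 0 := by
  have h1 := (EE_gp hT h).tot hf.bm.integrable h0
  rwa [ce_self (FF_le (h + 1)) hf.bm hm] at h1

end Pool.Agent.Lib.MP_9fe581_an.AQ
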