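import Pool.Agent.Lib.MP_9fe581_an.AQ.ErgP

/-!
# AQ, ClsP: the classes of the powers of `T`
-/

set_option autoImplicit false
set_option linter.unusedSectionVars false
set_option warn.classDefReducibility false

open Finset MeasureTheory Filter Topology ProbabilityTheory
open scoped ComplexConjugate

namespace Pool.Agent.Lib.MP_9fe581_an.AQ

open AP
open AH (BM)

variable {X : Type} [mX0 : MeasurableSpace X] {μ : Measure X} [IsProbabilityMeasure μ] {T : X → X}

private theorem clsp_ne {v : X → ℂ} (hv : ∀ x, ‖v x‖ = 1) : ¬ v =ᵐ[μ] 0 := by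
  intro h
  have h1 : ∀ᵐ _x ∂μ, False := by
    filter_upwards [h] with x hx
    have h2 := hv x
    rw [hx] at h2
    simp at h2
  have h3 := h1.exists
  obtain ⟨_, h4⟩ := h3
  exact h4

/-- a class over `FF h` is measurable for some `FF j`: if `E(v | FF j) = 0` for all `j ≥ h` then `v = 0` by `hT.dense`
(for `j < h`: `ce_tower`); if not, `v` is a class over `FF j` and `AP.dich` applies to `T^n` -/
theorem cls_exists (hT : Dst μ T) {n h : ℕ} (hn : 0 < n) {v : X → ℂ} (hv : Cls T^[n] (FF μ T h) v) :
    ∃ j, Measurable[(FF μ T j).m] v := by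
  by_contra hcon
  push Not at hcon
  have hge : ∀ j, h ≤ j → ce μ (FF μ T j) v =ᵐ[μ] 0 := by
    intro j hj
    by_contra h0
    exact hcon j (dich (sys_pow hT hn) ((FF_fac hT j).iter n) (Cls.mono (FF_mono' hj) hv) h0)
  have hall : ∀ j, ce μ (FF μ T j) v =ᵐ[μ] 0 := by
    intro j
    rcases le_total h j with hj | hj
    · exact hge j hj
    · have h1 := ce_tower (μ := μ) (FF_mono' (μ := μ) (T := T) hj) (FF_le h) v
      have h2 : ce μ (FF μ T j) (ce μ (FF μ T h) v) =ᵐ[μ] ce μ (FF μ T j) (fun _ => (0 : ℂ)) :=
        ce_congr (hge h le_rfl)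
      exact h1.symm.trans (h2.trans ce_zero)
  exact clsp_ne hv.norm (hT.dense v (cls_bd hv) hall)

private theorem clsp_tel {S : X → X} {v : X → ℂ} (hv : ∀ x, ‖v x‖ = 1) (n : ℕ) (x : X) :
    ∏ j ∈ range n, (v (S (S^[j] x)) * conj (v (S^[j] x))) = v (S^[n] x) * conj (v x) := by
  induction n with
  | zero =>
    rw [range_zero, prod_empty, Function.iterate_zero_apply]
    exact (AH.unim_mul _ (hv x)).symm
  | succ n ih =>
    rw [prod_range_succ, ih, Function.iterate_succ_apply']
    calc v (S^[n] x) * conj (v x) * (v (S (S^[n] x)) * conj (v (S^[n] x)))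
        = (v (S^[n] x) * conj (v (S^[n] x))) * (v (S (S^[n] x)) * conj (v x)) := by ring
      _ = v (S (S^[n] x)) * conj (v x) := by rw [AH.unim_mul _ (hv _), one_mul]

private theorem clsp_prod {m : MeasurableSpace X} (g : ℕ → X → ℂ) (hg : ∀ j, Measurable[m] (g j)) (n : ℕ) :
    Measurable[m] fun x => ∏ j ∈ range n, g j x := by
  induction n with
  | zero =>
    simp only [range_zero, prod_empty]
    exact @measurable_const _ _ _ m _
  | succ n ih =>
    simp only [prod_range_succ]
    exact ih.mul (hg n)

private theorem clsp_low (hT : Dst μ T) {h : ℕ} {v : X → ℂ} (hm : Measurable v) (hv : ∀ x, ‖v x‖ = 1)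
    (hmv : Measurable[(FF μ T h).m] v) : v ∈ EE μ T h := by
  have hTD : @Measurable _ _ (FF μ T h).m (FF μ T h).m T := fac_meas (FF_fac hT h)
  exact ⟨hm, hv, (hmv.comp hTD).mul (Complex.continuous_conj.measurable.comp hmv)⟩

private theorem clsp_main (hT : Dst μ T) {n : ℕ} (hn : 0 < n) (j : ℕ) :
    ∀ (h : ℕ) (v : X → ℂ), Cls T^[n] (FF μ T h) v → Measurable[(FF μ T j).m] v → v ∈ EE μ T h := by
  induction j with
  | zero =>
    intro h v hv hj
    exact clsp_low hT hv.meas hv.norm (hj.mono (FF_mono' (Nat.zero_le h)) le_rfl)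
  | succ k ih =>
    intro h v hv hj
    rcases le_or_gt (k + 1) h with hkh | hkh
    · exact clsp_low hT hv.meas hv.norm (hj.mono (FF_mono' hkh) le_rfl)
    · have hhk : h ≤ k := by omega
      by_cases hfu : h < k ∧ Full μ T (h + 1)
      · exact ih h v hv ((hfu.2 v (cls_bd hv)).mono (FF_mono' hfu.1) le_rfl)
      obtain ⟨u, hu, hne⟩ : ∃ u ∈ EE μ T k, ¬ ce μ (FF μ T k) (fun x => v x * conj (u x)) =ᵐ[μ] 0 := by
        by_contra hcon
        push Not at hcon
        exact clsp_ne hv.norm (FF_tot hT (cls_bd hv) hj hcon)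
      have hu' : Cls T (FF μ T k) u := hu
      have hTk : @Measurable _ _ (FF μ T k).m (FF μ T k).m T := fac_meas (FF_fac hT k)
      have hTh : @Measurable _ _ (FF μ T h).m (FF μ T h).m T := fac_meas (FF_fac hT h)
      have hvu : Measurable[(FF μ T k).m] fun x => v x * conj (u x) :=
        dich (sys_pow hT hn) ((FF_fac hT k).iter n)
          (Cls.mul_conj (Cls.mono (FF_mono' hhk) hv) (cls_iter (FF_fac hT k) hu' n)) hne
      have hvm : Measurable fun x => v (T x) := hv.meas.comp hT.meas
      set w : X → ℂ := fun x => v (T x) * conj (v x) with hw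
      have hwm : Measurable w := hvm.mul (Complex.continuous_conj.measurable.comp hv.meas)
      have hwn : ∀ x, ‖w x‖ = 1 := fun x => by
        rw [hw]
        simp only [norm_mul, RCLike.norm_conj, hv.norm, one_mul]
      have hwk : Measurable[(FF μ T k).m] w := by
        have e : w = fun x => ((v (T x) * conj (u (T x))) * conj (v x * conj (u x))) * (u (T x) * conj (u x)) := by
          funext x
          have h1 : u (T x) * conj (u (T x)) = 1 := AH.unim_mul _ (hu'.norm _)
          have h2 : u x * conj (u x) = 1 := AH.unim_mul _ (hu'.norm _)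
          simp only [hw, map_mul, Complex.conj_conj]
          calc v (T x) * conj (v x) = (u (T x) * conj (u (T x))) * (u x * conj (u x)) *
                (v (T x) * conj (v x)) := by rw [h1, h2, one_mul, one_mul]
            _ = _ := by ring
        rw [e]
        exact ((hvu.comp hTk).mul (Complex.continuous_conj.measurable.comp hvu)).mul hu'.ratio
      have hwcls : Cls T^[n] (FF μ T h) w := by
        refine ⟨hwm, hwn, ?_⟩
        have e : (fun x => w (T^[n] x) * conj (w x)) =
            fun x => (v (T^[n] (T x)) * conj (v (T x))) * conj (v (T^[n] x) * conj (v x)) := by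
          funext x
          have h1 : T^[n] (T x) = T (T^[n] x) := by
            rw [← Function.iterate_succ_apply, Function.iterate_succ_apply']
          simp only [hw, map_mul, Complex.conj_conj, h1]
          ring
        rw [e]
        exact (hv.ratio.comp hTh).mul (Complex.continuous_conj.measurable.comp hv.ratio)
      have hwE : w ∈ EE μ T h := ih h w hwcls hwk
      have hwE' : Cls T (FF μ T h) w := hwE
      have hpow : Measurable[(FF μ T h).m] fun x => w x ^ n := by
        have e : (fun x => w x ^ n) = fun x => (v (T^[n] x) * conj (v x)) *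
            ∏ j ∈ range n, conj (w (T^[j] x) * conj (w x)) := by
          funext x
          rw [← clsp_tel (S := T) hv.norm n x, ← prod_mul_distrib]
          have h2 : ∀ j ∈ range n, (v (T (T^[j] x)) * conj (v (T^[j] x))) * conj (w (T^[j] x) * conj (w x)) = w x := by
            intro j _
            have h3 : w (T^[j] x) * conj (w (T^[j] x)) = 1 := AH.unim_mul _ (hwn _)
            have h4 : v (T (T^[j] x)) * conj (v (T^[j] x)) = w (T^[j] x) := rfl
            rw [h4, map_mul, Complex.conj_conj, ← mul_assoc, h3, one_mul]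
          rw [prod_congr rfl h2, prod_const, card_range]
        rw [e]
        refine hv.ratio.mul (clsp_prod (m := (FF μ T h).m) (fun j x => conj (w (T^[j] x) * conj (w x))) ?_ n)
        intro j
        exact Complex.continuous_conj.measurable.comp (cls_iter (FF_fac hT h) hwE' j).ratio
      rcases Nat.lt_or_ge h k with hlt | hge
      · have hN : NT μ T h := (hT.tor h).resolve_right fun hF => hfu ⟨hlt, hF⟩
        exact ⟨hv.meas, hv.norm, hN w n hn hwE' hpow⟩
      · obtain rfl : h = k := by omega
        exact ⟨hv.meas, hv.norm, hwk⟩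

/-- **the classes over `FF h` for `T^n` and for `T` are the same**. Induction on `j`, `v` in `FF j`, all `h`: trivial for `j ≤ h`;
`j = k + 1`, `h ≤ k`: by `FF_tot` there is `u ∈ EE k` with `E(v conj u | FF k) ≠ 0`, so `v conj u` is in `FF k` by `AP.dich` for `T^n`, so
`w = v ∘ T conj v` is in `FF k`; `w` is a `T^n`-class over `FF h`, so by induction a `T`-class over `FF h`, so all `w ∘ T^j conj w` are in
`FF h`; `∏_{j<n} w ∘ T^j = v ∘ T^n conj v` is in `FF h`, so `w^n` is in `FF h`, so `w` is in `FF h` by `hT.tor` (for `k = h` and for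
`FF (h + 1)` everything directly) -/
theorem cls_pow (hT : Dst μ T) {n h : ℕ} (hn : 0 < n) {v : X → ℂ} (hv : Cls T^[n] (FF μ T h) v) : v ∈ EE μ T h := by
  obtain ⟨j, hj⟩ := cls_exists hT hn hv
  exact clsp_main hT hn j h v hv hj

end Pool.Agent.Lib.MP_9fe581_an.AQ
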