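import Pool.Agent.Lib.MP_9fe581_an.AQ.Base

/-!
# AQ, J1: joinings of two systems, the σ-algebra `D ∨ Y'` (copy of AP/J1)
-/

set_option autoImplicit false
set_option linter.unusedSectionVars false
set_option warn.classDefReducibility false

open Finset MeasureTheory Filter Topology ProbabilityTheory
open scoped ComplexConjugate

namespace Pool.Agent.Lib.MP_9fe581_an.AQ

open AP
open AH (BM)

variable {X : Type} [mX0 : MeasurableSpace X] {μ : Measure X} [IsProbabilityMeasure μ] {T : X → X}
  {X' : Type} [mX' : MeasurableSpace X'] {μ' : Measure X'} [IsProbabilityMeasure μ'] {T' : X' → X'}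
  {p q : ℕ} {lam : Measure (X × X')}

theorem sec_le : (sec lam).m ≤ (inferInstance : MeasurableSpace (X × X')) := cpl_le _

theorem hid0_le {D : SA X} (hD : D.m ≤ mX0) : (hid0 X' D).m ≤ (inferInstance : MeasurableSpace (X × X')) := by
  refine sup_le ?_ measurable_snd.comap_le
  exact (MeasurableSpace.comap_mono hD).trans measurable_fst.comap_le

theorem hid_mono {D D' : SA X} (h : D.m ≤ D'.m) : (hid lam D).m ≤ (hid lam D').m := by
  refine cpl_mono (D := hid0 X' D) (D' := hid0 X' D') ?_
  exact sup_le_sup (MeasurableSpace.comap_mono h) le_rfl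

theorem hid_fst {D : SA X} (hD : D.m ≤ mX0) {f : X → ℂ} (hf : Measurable[D.m] f) :
    Measurable[(hid lam D).m] fun z : X × X' => f z.1 := by
  have h1 : Measurable[(hid0 X' D).m] fun z : X × X' => f z.1 := by
    have h2 : @Measurable _ _ (hid0 X' D).m D.m (Prod.fst : X × X' → X) := by
      rw [measurable_iff_comap_le]
      exact le_sup_left
    exact hf.comp h2
  exact h1.mono (le_cpl (hid0_le hD)) le_rfl

theorem sec_le_hid {D : SA X} : (sec lam).m ≤ (hid lam D).m := by
  refine cpl_mono (D := ⟨(inferInstance : MeasurableSpace X').comap Prod.snd⟩) (D' := hid0 X' D) ?_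
  exact le_sup_right

theorem sec_snd {f : X' → ℂ} (hf : Measurable f) : Measurable[(sec lam).m] fun z : X × X' => f z.2 := by
  have h1 : Measurable[(inferInstance : MeasurableSpace X').comap (Prod.snd : X × X' → X')] fun z : X × X' => f z.2 :=
    hf.comp (comap_measurable _)
  exact h1.mono (le_cpl (D := ⟨(inferInstance : MeasurableSpace X').comap Prod.snd⟩) measurable_snd.comap_le) le_rfl

/-- `D_0 ∨ Y'` is `Y'` (copy of `AP.hid_zero`) -/
theorem hid_zero (hJ : PJ μ T μ' T' p q lam) : (hid lam (DD μ T p q lam 0)).m ≤ (sec lam).m := by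
  have h1 := hJ.fst
  have h2 : (hid0 X' (DD μ T p q lam 0)).m ≤ (sec lam).m := by
    refine sup_le ?_ ?_
    · rintro _ ⟨s, hs, rfl⟩
      obtain ⟨a, t, ht, hst⟩ := cpl_iff.1 hs
      have ht' : t = ∅ ∨ t = Set.univ := MeasurableSpace.measurableSet_bot_iff.1 ht
      refine cpl_iff.2 ⟨measurable_fst a, Prod.fst ⁻¹' t, ?_, h1.quasiMeasurePreserving.preimage_ae_eq hst⟩
      rcases ht' with rfl | rfl
      · rw [Set.preimage_empty]; exact @MeasurableSet.empty _ (MeasurableSpace.comap Prod.snd inferInstance)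
      · rw [Set.preimage_univ]; exact @MeasurableSet.univ _ (MeasurableSpace.comap Prod.snd inferInstance)
    · exact le_cpl (D := ⟨(inferInstance : MeasurableSpace X').comap Prod.snd⟩) measurable_snd.comap_le
  refine le_trans (cpl_mono (D := hid0 X' (DD μ T p q lam 0)) (D' := sec lam) h2) (le_of_eq ?_)
  exact cpl_cpl (μ := lam) ⟨(inferInstance : MeasurableSpace X').comap Prod.snd⟩

theorem PJ.sysU (hT : Dst μ T) (hT' : Dst μ' T') (hJ : PJ μ T μ' T' p q lam) : Sys lam (Prod.map T^[p] T'^[q]) := by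
  obtain ⟨R, hR, hTR, hRT⟩ := hT.inv
  obtain ⟨R', hR', hTR', hRT'⟩ := hT'.inv
  refine ⟨hJ.erg, Prod.map R^[p] R'^[q], ((hR.iterate p).comp measurable_fst).prodMk ((hR'.iterate q).comp measurable_snd),
    fun z => ?_, fun z => ?_⟩
  · exact Prod.ext ((Function.LeftInverse.iterate hTR p) z.1) ((Function.LeftInverse.iterate hTR' q) z.2)
  · exact Prod.ext ((Function.LeftInverse.iterate hRT p) z.1) ((Function.LeftInverse.iterate hRT' q) z.2)

/-- `D ∨ Y'` is a factor -/
theorem PJ.hid_fac (hT : Dst μ T) (hT' : Dst μ' T') (hJ : PJ μ T μ' T' p q lam) {D : SA X} (hD : Fac μ T D) :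
    Fac lam (Prod.map T^[p] T'^[q]) (hid lam D) := by
  obtain ⟨R, hR, hTR, hRT⟩ := hT.inv
  obtain ⟨R', hR', hTR', hRT'⟩ := hT'.inv
  have hTm : Measurable T' := hT'.erg.measurable
  have hDp := hD.iter p
  have hle : (hid0 X' D).m ≤ (inferInstance : MeasurableSpace (X × X')) := hid0_le hD.le'
  have hURm : Measurable (Prod.map R^[p] R'^[q]) :=
    ((hR.iterate p).comp measurable_fst).prodMk ((hR'.iterate q).comp measurable_snd)
  have hUR : ∀ z, Prod.map T^[p] T'^[q] (Prod.map R^[p] R'^[q] z) = z := fun z =>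
    Prod.ext ((Function.LeftInverse.iterate hTR p) z.1) ((Function.LeftInverse.iterate hTR' q) z.2)
  have hRU : ∀ z, Prod.map R^[p] R'^[q] (Prod.map T^[p] T'^[q] z) = z := fun z =>
    Prod.ext ((Function.LeftInverse.iterate hRT p) z.1) ((Function.LeftInverse.iterate hRT' q) z.2)
  have hRpres : MeasurePreserving (Prod.map R^[p] R'^[q]) lam lam := by
    refine ⟨hURm, ?_⟩
    conv_lhs => rw [← hJ.erg.map_eq]
    rw [Measure.map_map hURm hJ.erg.measurable]
    have : Prod.map R^[p] R'^[q] ∘ Prod.map T^[p] T'^[q] = id := funext hRU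
    rw [this, Measure.map_id]
  have key : ∀ (A : X → X) (B : X' → X'), D.m.comap A = D.m → Measurable B →
      (hid0 X' D).m.comap (Prod.map A B) ≤ (hid0 X' D).m := by
    intro A B hA hB
    show (D.m.comap Prod.fst ⊔ (inferInstance : MeasurableSpace X').comap Prod.snd).comap (Prod.map A B) ≤
      D.m.comap Prod.fst ⊔ (inferInstance : MeasurableSpace X').comap Prod.snd
    rw [MeasurableSpace.comap_sup, MeasurableSpace.comap_comp, MeasurableSpace.comap_comp]
    refine sup_le_sup ?_ ?_
    · have e : (Prod.fst : X × X' → X) ∘ Prod.map A B = A ∘ Prod.fst := rfl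
      rw [e, ← MeasurableSpace.comap_comp, hA]
    · have e : (Prod.snd : X × X' → X') ∘ Prod.map A B = B ∘ Prod.snd := rfl
      rw [e, ← MeasurableSpace.comap_comp]
      exact MeasurableSpace.comap_mono hB.comap_le
  refine cpl_fac (D := hid0 X' D) hJ.erg.toMeasurePreserving hRpres hUR hRU (fun s hs => ?_) fun s hs => ?_
  · exact le_cpl hle _ (key T^[p] T'^[q] hDp.inv (hTm.iterate q) _ ⟨s, hs, rfl⟩)
  · have hRD : D.m.comap R^[p] = D.m := fac_inv hDp fun x => (Function.LeftInverse.iterate hTR p) x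
    exact le_cpl hle _ (key R^[p] R'^[q] hRD (hR'.iterate q) _ ⟨s, hs, rfl⟩)

/-- a class that is not in `D ∨ Y'` is orthogonal, together with its multiples by functions of `D`, to the second factor -/
theorem PJ.class_zero (hT : Dst μ T) (hT' : Dst μ' T') (hJ : PJ μ T μ' T' p q lam) {D : SA X} (hD : Fac μ T D)
    {v : X → ℂ} (hv : Cls T^[p] D v) (hn : ¬ Measurable[(hid lam D).m] fun z : X × X' => v z.1) {d : X → ℂ}
    (hd : Measurable[D.m] d) (hdb : Bd d) : ce lam (sec lam) (fun z : X × X' => v z.1 * d z.1) =ᵐ[lam] 0 := by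
  have hpr := hJ.prob
  have hF := hJ.hid_fac hT hT' hD
  have hvb : BM lam fun z : X × X' => v z.1 :=
    AH.BM.of_bdd (hv.meas.comp measurable_fst) (C := 1) fun z => (hv.norm z.1).le
  have hdB : BM lam fun z : X × X' => d z.1 := by
    obtain ⟨C, hC⟩ := hdb.bdd
    exact AH.BM.of_bdd (hdb.meas.comp measurable_fst) (C := C) fun z => hC z.1
  have hcl : Cls (Prod.map T^[p] T'^[q]) (hid lam D) fun z : X × X' => v z.1 :=
    ⟨hv.meas.comp measurable_fst, fun z => hv.norm z.1, hid_fst hD.le' hv.ratio⟩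
  have h0 : ce lam (hid lam D) (fun z : X × X' => v z.1) =ᵐ[lam] 0 := by
    by_contra hne
    exact hn (dich (hJ.sysU hT hT') hF hcl hne)
  have h1 : ce lam (hid lam D) (fun z : X × X' => v z.1 * d z.1) =ᵐ[lam] 0 := by
    refine (ce_pull hF.le' hvb hdB (hid_fst hD.le' hd)).trans ?_
    filter_upwards [h0] with z hz
    rw [hz]; simp
  have h2 : ce lam (sec lam) (ce lam (hid lam D) fun z : X × X' => v z.1 * d z.1) =ᵐ[lam]
      ce lam (sec lam) fun z : X × X' => v z.1 * d z.1 := condExp_condExp_of_le sec_le_hid hF.le'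
  refine h2.symm.trans ((ce_congr h1).trans ?_)
  exact ce_zero

theorem PJ.nsq_fst (hJ : PJ μ T μ' T' p q lam) {f : X → ℂ} (hf : BM μ f) :
    nsq lam (fun z : X × X' => f z.1) = nsq μ f := by
  unfold nsq
  rw [← hJ.fst.map_eq, integral_map measurable_fst.aemeasurable]
  rw [hJ.fst.map_eq]
  exact (hf.1.norm.pow 2)

theorem PJ.nsq_snd (hJ : PJ μ T μ' T' p q lam) {f : X' → ℂ} (hf : BM μ' f) :
    nsq lam (fun z : X × X' => f z.2) = nsq μ' f := by
  unfold nsq
  rw [← hJ.snd.map_eq, integral_map measurable_snd.aemeasurable]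
  rw [hJ.snd.map_eq]
  exact (hf.1.norm.pow 2)

/-- the image of a bounded function on the second factor (`AH.EJ.rep`; make `u` bounded everywhere) -/
theorem PJ.rep (hJ : PJ μ T μ' T' p q lam) {f : X → ℂ} (hf : Bd f) :
    ∃ u : X' → ℂ, Bd u ∧ (ce lam (sec lam) (fun z : X × X' => f z.1) =ᵐ[lam] fun z => u z.2) ∧
      ∀ k : X' → ℂ, Bd k → ∫ z : X × X', f z.1 * conj (k z.2) ∂lam = ∫ x, u x * conj (k x) ∂μ' := by
  have hp := hJ.prob
  obtain ⟨D0, hD0⟩ : ∃ D0 : SA (X × X'), D0 = ⟨MeasurableSpace.comap Prod.snd mX'⟩ := ⟨_, rfl⟩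
  have hD0m : D0.m = MeasurableSpace.comap Prod.snd mX' := by rw [hD0]
  have s2_le : D0.m ≤ (inferInstance : MeasurableSpace (X × X')) := by rw [hD0m]; exact measurable_snd.comap_le
  have hfB : BM lam fun z : X × X' => f z.1 := hf.bm.comp hJ.fst
  have hsm := (stronglyMeasurable_condExp (m := D0.m) (μ := lam) (f := fun z : X × X' => f z.1)).measurable
  obtain ⟨g, gm, hg'⟩ : ∃ g : X' → ℂ, Measurable g ∧ ce lam D0 (fun z : X × X' => f z.1) = fun z => g z.2 := by
    have hsm' : Measurable[MeasurableSpace.comap (Prod.snd : X × X' → X') mX'] (ce lam D0 fun z : X × X' => f z.1) := by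
      rw [← hD0m]; exact hsm
    obtain ⟨g, gm, hg⟩ := Measurable.exists_eq_measurable_comp (f := (Prod.snd : X × X' → X')) hsm'
    exact ⟨g, gm, hg⟩
  have hce : ce lam (sec lam) (fun z : X × X' => f z.1) =ᵐ[lam] ce lam D0 (fun z : X × X' => f z.1) := by
    have h := condExp_cpl (μ := lam) (D := D0) s2_le hfB.integrable
    rw [hD0] at h ⊢
    exact h
  have hb : BM lam (ce lam D0 (fun z : X × X' => f z.1)) := AH.BM.condExp (m := D0.m) hfB
  obtain ⟨-, C, hC⟩ := hb
  have hms : MeasurableSet {x | ‖g x‖ ≤ C} := measurableSet_le gm.norm measurable_const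
  classical
  set u : X' → ℂ := fun x => if ‖g x‖ ≤ C then g x else 0 with hu
  have um : Measurable u := Measurable.ite hms gm measurable_const
  have hub : Bd u := by
    refine ⟨um, |C|, fun x => ?_⟩
    show ‖(if ‖g x‖ ≤ C then g x else 0)‖ ≤ |C|
    split_ifs with h
    · exact h.trans (le_abs_self C)
    · rw [norm_zero]; exact abs_nonneg C
  have hgu : (fun z : X × X' => g z.2) =ᵐ[lam] fun z => u z.2 := by
    filter_upwards [hC] with z hz
    rw [hg'] at hz
    show g z.2 = (if ‖g z.2‖ ≤ C then g z.2 else 0)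
    rw [if_pos hz]
  refine ⟨u, hub, hce.trans (by rw [hg']; exact hgu), fun k hk => ?_⟩
  have hkB : BM lam fun z : X × X' => k z.2 := hk.bm.comp hJ.snd
  have hkm : Measurable[D0.m] fun z : X × X' => k z.2 := by
    rw [hD0m]; exact hk.meas.comp (comap_measurable _)
  have h1 : ∫ z : X × X', f z.1 * conj (k z.2) ∂lam =
      ∫ z : X × X', ce lam D0 (fun z : X × X' => f z.1) z * conj (k z.2) ∂lam :=
    AH.ce_int s2_le hfB hkB hkm.aestronglyMeasurable
  rw [h1, hg']
  have e : ∫ x, u x * conj (k x) ∂μ' = ∫ x, u x * conj (k x) ∂(lam.map Prod.snd) := by rw [hJ.snd.map_eq]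
  have hm2 : Measurable fun x => u x * conj (k x) := um.mul (Complex.continuous_conj.measurable.comp hk.meas)
  rw [e, integral_map measurable_snd.aemeasurable hm2.aestronglyMeasurable]
  refine integral_congr_ae ?_
  filter_upwards [hgu] with z hz
  have hz' : g z.2 = u z.2 := hz
  show g z.2 * conj (k z.2) = u z.2 * conj (k z.2)
  rw [hz']

/-- copy of `AH.EJ.swap` -/
theorem PJ.swap (hJ : PJ μ T μ' T' p q lam) : PJ μ' T' μ T q p (lam.map Prod.swap) := by
  have hp := hJ.prob
  have hU : Measurable (Prod.map T^[p] T'^[q]) := hJ.erg.measurable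
  have hm : Measurable (Prod.map T'^[q] T^[p]) := by
    have e : Prod.map T'^[q] T^[p] = Prod.swap ∘ Prod.map T^[p] T'^[q] ∘ Prod.swap := rfl
    rw [e]
    exact measurable_swap.comp (hU.comp measurable_swap)
  refine ⟨Measure.isProbabilityMeasure_map measurable_swap.aemeasurable, ?_, ?_, ?_, hJ.qp, hJ.pp, hJ.ne.symm⟩
  · have hmp : MeasurePreserving (Prod.map T'^[q] T^[p]) (lam.map Prod.swap) (lam.map Prod.swap) := by
      refine ⟨hm, ?_⟩
      rw [Measure.map_map hm measurable_swap]
      have e : Prod.map T'^[q] T^[p] ∘ Prod.swap = Prod.swap ∘ Prod.map T^[p] T'^[q] := rfl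
      rw [e, ← Measure.map_map measurable_swap hJ.erg.measurable, hJ.erg.map_eq]
    refine ⟨hmp, ⟨fun s hs hinv => ?_⟩⟩
    have h1 := hJ.erg.aeconst_set (s := Prod.swap ⁻¹' s) (measurable_swap hs) (by
      rw [← Set.preimage_comp]
      have e : Prod.swap ∘ Prod.map T^[p] T'^[q] = Prod.map T'^[q] T^[p] ∘ Prod.swap := rfl
      rw [e, Set.preimage_comp, hinv])
    rw [eventuallyConst_set'] at h1 ⊢
    rcases h1 with h1 | h1
    · left
      rw [ae_eq_empty] at h1 ⊢
      rw [Measure.map_apply measurable_swap hs]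
      exact h1
    · right
      rw [ae_eq_univ] at h1 ⊢
      rw [Measure.map_apply measurable_swap hs.compl]
      exact h1
  · refine ⟨measurable_fst, ?_⟩
    rw [Measure.map_map measurable_fst measurable_swap]
    exact hJ.snd.map_eq
  · refine ⟨measurable_snd, ?_⟩
    rw [Measure.map_map measurable_snd measurable_swap]
    exact hJ.fst.map_eq

end Pool.Agent.Lib.MP_9fe581_an.AQ
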