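import Pool.Agent.Lib.MP_9fe581_an.AQ.ClsP
import Pool.Agent.Lib.MP_9fe581_an.AQ.J1

/-!
# AQ, D2a: the factors `D_h`, first half (copy of AP/D2)
-/

set_option autoImplicit false
set_option linter.unusedSectionVars false
set_option warn.classDefReducibility false

open Finset MeasureTheory Filter Topology ProbabilityTheory
open scoped ComplexConjugate

namespace Pool.Agent.Lib.MP_9fe581_an.AQ

open AP
open AH (BM)

variable {X : Type} [mX0 : MeasurableSpace X] {μ : Measure X} [IsProbabilityMeasure μ] {T : X → X}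
  {X' : Type} [mX' : MeasurableSpace X'] {μ' : Measure X'} [IsProbabilityMeasure μ'] {T' : X' → X'}
  {p q : ℕ} {lam : Measure (X × X')}

/-- `D_(h+1)` before completion -/
noncomputable def DD0 (μ : Measure X) (T : X → X) (p q : ℕ) (lam : Measure (X × X')) (h : ℕ) : SA X :=
  ⟨(DD μ T p q lam h).m ⊔ ⨆ v : SS μ T p q lam h (DD μ T p q lam h), MeasurableSpace.comap v.1 inferInstance⟩

theorem DD_succ (h : ℕ) : DD μ T p q lam (h + 1) = cpl μ (DD0 μ T p q lam h) := rfl

theorem DD_le (h : ℕ) : (DD μ T p q lam h).m ≤ mX0 := by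
  cases h with
  | zero => exact cpl_le _
  | succ h => exact cpl_le _

theorem DD0_le (h : ℕ) : (DD0 μ T p q lam h).m ≤ mX0 := by
  exact sup_le (DD_le h) (iSup_le fun v => v.2.1.meas.comap_le)

theorem DD_low (h : ℕ) : (DD μ T p q lam h).m ≤ (FF μ T h).m := by
  induction h with
  | zero => exact le_rfl
  | succ h ih =>
    have h1 : (DD0 μ T p q lam h).m ≤ (FF μ T (h + 1)).m := by
      refine sup_le (ih.trans (FF_mono h)) (iSup_le fun v => ?_)
      exact measurable_iff_comap_le.1 v.2.2.1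
    have h2 : (cpl μ (DD0 μ T p q lam h)).m ≤ (cpl μ (FF μ T (h + 1))).m := cpl_mono (μ := μ) h1
    have h3 : (cpl μ (FF μ T (h + 1))).m = (FF μ T (h + 1)).m := cpl_cpl _
    exact h2.trans h3.le

theorem DD_mono (h : ℕ) : (DD μ T p q lam h).m ≤ (DD μ T p q lam (h + 1)).m := fun s hs =>
  le_cpl (DD0_le h) s ((le_sup_left : (DD μ T p q lam h).m ≤ (DD0 μ T p q lam h).m) s hs)

theorem DD_mem {h : ℕ} {v : X → ℂ} (hv : v ∈ SS μ T p q lam h (DD μ T p q lam h)) :
    Measurable[(DD μ T p q lam (h + 1)).m] v := by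
  rw [measurable_iff_comap_le]
  refine le_trans ?_ (le_cpl (DD0_le h))
  refine le_trans ?_ le_sup_right
  exact le_iSup (fun v : SS μ T p q lam h (DD μ T p q lam h) => MeasurableSpace.comap v.1 inferInstance) ⟨v, hv⟩

theorem ss_one (hq : q.Prime) (h : ℕ) : (fun _ => (1 : ℂ)) ∈ SS μ T p q lam h (DD μ T p q lam h) := by
  refine ⟨cls_one _ _, @measurable_const _ _ _ (FF μ T (h + 1)).m _, 1, fun h1 => hq.one_lt.ne' (Nat.dvd_one.1 h1), ?_⟩
  simp only [one_pow]
  exact @measurable_const _ _ _ (hid lam _).m _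

theorem ss_mul (hq : q.Prime) (h : ℕ) {v w : X → ℂ} (hv : v ∈ SS μ T p q lam h (DD μ T p q lam h))
    (hw : w ∈ SS μ T p q lam h (DD μ T p q lam h)) : (fun x => v x * w x) ∈ SS μ T p q lam h (DD μ T p q lam h) := by
  obtain ⟨v1, v2, m, v3, v4⟩ := hv
  obtain ⟨w1, w2, n, w3, w4⟩ := hw
  refine ⟨v1.mul w1, v2.mul w2, m * n, fun h1 => (hq.dvd_mul.1 h1).elim v3 w3, ?_⟩
  have e : (fun z : X × X' => (v z.1 * w z.1) ^ (m * n)) = fun z => (v z.1 ^ m) ^ n * (w z.1 ^ n) ^ m := by
    funext z
    rw [mul_pow, ← pow_mul, ← pow_mul, mul_comm n m]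
  rw [e]
  exact (v4.pow_const n).mul (w4.pow_const m)

theorem ss_conj (h : ℕ) {v : X → ℂ} (hv : v ∈ SS μ T p q lam h (DD μ T p q lam h)) :
    (fun x => conj (v x)) ∈ SS μ T p q lam h (DD μ T p q lam h) := by
  obtain ⟨v1, v2, m, v3, v4⟩ := hv
  refine ⟨v1.conj', Complex.continuous_conj.measurable.comp v2, m, v3, ?_⟩
  have e : (fun z : X × X' => conj (v z.1) ^ m) = fun z => conj (v z.1 ^ m) := by
    funext z
    rw [map_pow]
  rw [e]
  exact Complex.continuous_conj.measurable.comp v4

theorem fac_meas {S : X → X} {D : SA X} (hD : Fac μ S D) : @Measurable _ _ D.m D.m S := by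
  rw [measurable_iff_comap_le, hD.inv]

/-- `T` fixes the classes (copy of `AP.Tow.triv_up`): `w = v ∘ T conj v` is in `FF h` by `cls_pow` (`v` is a `T^p`-class over `FF h`),
`Cls T^p (DD h) w`, so `w ∘ T conj w` is in `DD h` by `hL.triv`, `w^p` is in `DD h`, so `w` is in `DD h` by `hL.sat` -/
theorem triv_up (hT : Dst μ T) (hT' : Dst μ' T') (hJ : PJ μ T μ' T' p q lam) {h : ℕ} (hL : Lv μ T p q lam h) {v : X → ℂ}
    (hv : Cls T^[p] (DD μ T p q lam h) v) : Measurable[(DD μ T p q lam h).m] fun x => v (T x) * conj (v x) := by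
  have hvE : v ∈ EE μ T h := cls_pow hT hJ.pp.pos (hv.mono (DD_low h))
  have hTD : @Measurable _ _ (DD μ T p q lam h).m (DD μ T p q lam h).m T := fac_meas hL.fac
  have hcc : ∀ x, v x * conj (v x) = 1 := fun x => AH.unim_mul _ (hv.norm x)
  obtain ⟨w, hw⟩ : ∃ w : X → ℂ, w = fun x => v (T x) * conj (v x) := ⟨_, rfl⟩
  rw [← hw]
  have hwx : ∀ x, w x = v (T x) * conj (v x) := fun x => by rw [hw]
  have hw1 : ∀ x, ‖w x‖ = 1 := fun x => by rw [hwx, norm_mul, RCLike.norm_conj, hv.norm, hv.norm, one_mul]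
  have hwc : ∀ x, w x * conj (w x) = 1 := fun x => AH.unim_mul _ (hw1 x)
  have hwm : Measurable w := by
    rw [hw]
    exact (hv.meas.comp hT.meas).mul (Complex.continuous_conj.measurable.comp hv.meas)
  have hwY : Measurable[(FF μ T h).m] w := by
    rw [hw]
    exact hvE.ratio
  have hcls : Cls T^[p] (DD μ T p q lam h) w := by
    refine ⟨hwm, hw1, ?_⟩
    have e : (fun x => w (T^[p] x) * conj (w x)) =
        fun x => (v (T^[p] (T x)) * conj (v (T x))) * conj (v (T^[p] x) * conj (v x)) := by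
      funext x
      have h1 : T (T^[p] x) = T^[p] (T x) := by
        rw [← Function.iterate_succ_apply, Function.iterate_succ_apply']
      rw [hwx, hwx, h1]
      simp only [map_mul, Complex.conj_conj]
      ring
    rw [e]
    exact (hv.ratio.comp hTD).mul (Complex.continuous_conj.measurable.comp hv.ratio)
  have hr := hL.triv w hcls hwY
  have hj : ∀ j : ℕ, Measurable[(DD μ T p q lam h).m] fun x => w (T^[j] x) * conj (w x) := by
    intro j
    induction j with
    | zero =>
      have e : (fun x => w (T^[0] x) * conj (w x)) = fun _ => (1 : ℂ) := funext hwc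
      rw [e]
      exact @measurable_const _ _ _ (DD μ T p q lam h).m _
    | succ j ih =>
      have e : (fun x => w (T^[j + 1] x) * conj (w x)) =
          fun x => (w (T^[j] (T x)) * conj (w (T x))) * (w (T x) * conj (w x)) := by
        funext x
        rw [Function.iterate_succ_apply]
        calc w (T^[j] (T x)) * conj (w x) = w (T^[j] (T x)) * conj (w x) * (w (T x) * conj (w (T x))) := by
              rw [hwc, mul_one]
          _ = _ := by ring
      rw [e]
      exact (ih.comp hTD).mul hr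
  have tele : ∀ (n : ℕ) (x : X), v (T^[n] x) * conj (v x) = ∏ j ∈ range n, w (T^[j] x) := by
    intro n x
    induction n with
    | zero => simpa using hcc x
    | succ n ih =>
      rw [prod_range_succ, ← ih, hwx, Function.iterate_succ_apply']
      calc v (T (T^[n] x)) * conj (v x) = v (T (T^[n] x)) * conj (v x) * (v (T^[n] x) * conj (v (T^[n] x))) := by
            rw [hcc, mul_one]
        _ = _ := by ring
  have hpow : Measurable[(DD μ T p q lam h).m] fun x => w x ^ p := by
    have e : (fun x => w x ^ p) = fun x => (v (T^[p] x) * conj (v x)) * conj (∏ j ∈ range p, (w (T^[j] x) * conj (w x))) := by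
      funext x
      rw [prod_mul_distrib, prod_const, card_range, ← tele p x]
      simp only [map_mul, map_pow, Complex.conj_conj]
      have h1 := hcc x
      have h2 := hcc (T^[p] x)
      calc w x ^ p = (v x * conj (v x)) * (v (T^[p] x) * conj (v (T^[p] x))) * w x ^ p := by rw [h1, h2]; ring
        _ = _ := by ring
    rw [e]
    exact hv.ratio.mul (Complex.continuous_conj.measurable.comp (Finset.measurable_prod _ fun j _ => hj j))
  refine hL.sat w hcls hwY ⟨p, fun h1 => ?_, ?_⟩
  · exact hJ.ne ((Nat.prime_dvd_prime_iff_eq hJ.qp hJ.pp).1 h1).symm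
  · exact hid_fst (DD_le h) hpow

/-- the inverse preserves the measure -/
private theorem inv_pres (hT : Dst μ T) {R : X → X} (hR : Measurable R) (hRT : ∀ x, R (T x) = x) : MeasurePreserving R μ μ := by
  refine ⟨hR, ?_⟩
  have h1 : μ.map T = μ := hT.pres.map_eq
  have h2 : R ∘ T = id := funext hRT
  calc μ.map R = (μ.map T).map R := by rw [h1]
    _ = μ := by rw [Measure.map_map hR hT.meas, h2, Measure.map_id]

theorem lv_fac (hT : Dst μ T) (hT' : Dst μ' T') (hJ : PJ μ T μ' T' p q lam) {h : ℕ} (hL : Lv μ T p q lam h) :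
    Fac μ T (DD μ T p q lam (h + 1)) := by
  obtain ⟨R, hRm, hTR, hRT⟩ := hT.inv
  have hTD : @Measurable _ _ (DD μ T p q lam h).m (DD μ T p q lam h).m T := fac_meas hL.fac
  have hRD : @Measurable _ _ (DD μ T p q lam h).m (DD μ T p q lam h).m R := by
    rw [measurable_iff_comap_le, fac_inv hL.fac hTR]
  have hle : (DD μ T p q lam h).m ≤ (DD μ T p q lam (h + 1)).m := DD_mono h
  refine cpl_fac (D := DD0 μ T p q lam h) hT.pres (inv_pres hT hRm hRT) hTR hRT ?_ ?_
  · have key : (DD0 μ T p q lam h).m ≤ (DD μ T p q lam (h + 1)).m.map T := by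
      refine sup_le (fun s hs => hle _ (hTD hs)) (iSup_le fun v => ?_)
      rintro _ ⟨K, hK, rfl⟩
      have hv : v.1 ∈ SS μ T p q lam h (DD μ T p q lam h) := v.2
      have e : (fun x => v.1 (T x)) = fun x => (v.1 (T x) * conj (v.1 x)) * v.1 x := by
        funext x
        calc v.1 (T x) = v.1 (T x) * (v.1 x * conj (v.1 x)) := by rw [AH.unim_mul _ (hv.1.norm x), mul_one]
          _ = _ := by ring
      have h1 : Measurable[(DD μ T p q lam (h + 1)).m] fun x => v.1 (T x) := by
        rw [e]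
        exact ((triv_up hT hT' hJ hL hv.1).mono hle le_rfl).mul (DD_mem hv)
      exact h1 hK
    exact fun s hs => key s hs
  · have key : (DD0 μ T p q lam h).m ≤ (DD μ T p q lam (h + 1)).m.map R := by
      refine sup_le (fun s hs => hle _ (hRD hs)) (iSup_le fun v => ?_)
      rintro _ ⟨K, hK, rfl⟩
      have hv : v.1 ∈ SS μ T p q lam h (DD μ T p q lam h) := v.2
      have h0 := (triv_up hT hT' hJ hL hv.1).comp hRD
      have e : (fun x => v.1 (R x)) = fun x => conj (v.1 (T (R x)) * conj (v.1 (R x))) * v.1 x := by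
        funext x
        rw [hTR, map_mul, Complex.conj_conj]
        calc v.1 (R x) = v.1 (R x) * (v.1 x * conj (v.1 x)) := by rw [AH.unim_mul _ (hv.1.norm x), mul_one]
          _ = _ := by ring
      have h1 : Measurable[(DD μ T p q lam (h + 1)).m] fun x => v.1 (R x) := by
        rw [e]
        exact (Complex.continuous_conj.measurable.comp (h0.mono hle le_rfl)).mul (DD_mem hv)
      exact h1 hK
    exact fun s hs => key s hs

theorem lv_zero (hT : Dst μ T) : Lv μ T p q lam 0 := by
  have hle : (FF μ T 0).m ≤ (DD μ T p q lam 0).m := le_rfl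
  have hF : Fac μ T (FF μ T 0) := FF_fac hT 0
  refine ⟨hF, fun v _ hY _ => hY.mono hle le_rfl, fun v _ hY => ?_⟩
  have h1 : Measurable[(FF μ T 0).m] fun x => v (T x) * conj (v x) :=
    (hY.comp (fac_meas hF)).mul (Complex.continuous_conj.measurable.comp hY)
  exact h1.mono hle le_rfl

/-- the group of the hidden classes -/
theorem ss_gp (hT : Dst μ T) (hT' : Dst μ' T') (hJ : PJ μ T μ' T' p q lam) {h : ℕ} (hL : Lv μ T p q lam h) :
    Gp μ (DD μ T p q lam h) (DD μ T p q lam (h + 1)) (SS μ T p q lam h (DD μ T p q lam h)) := by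
  refine ⟨DD_le h, DD_le (h + 1), DD_mono h, fun v hv => hv.1.meas, fun v hv => hv.1.norm, ss_one hJ.qp h,
    fun v hv w hw => ss_mul hJ.qp h hv hw, fun v hv => ss_conj h hv, fun v hv => ?_, fun v hv => DD_mem hv, le_rfl⟩
  by_cases h0 : ce μ (DD μ T p q lam h) v =ᵐ[μ] 0
  · exact Or.inr h0
  · exact Or.inl (dich (sys_pow hT hJ.pp.pos) (hL.fac.iter p) hv.1 h0)

theorem lv_dens' (hq : q.Prime) {h : ℕ} {f : X → ℂ} (hf : Integrable f μ)
    (h0 : ∀ v ∈ SS μ T p q lam h (DD μ T p q lam h), ce μ (DD μ T p q lam h) (fun x => f x * conj (v x)) =ᵐ[μ] 0) :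
    ce μ (DD μ T p q lam (h + 1)) f =ᵐ[μ] 0 := by
  refine dens_ce (A := DD μ T p q lam h) (G := SS μ T p q lam h (DD μ T p q lam h)) (DD_le h) (fun v hv => hv.1.meas)
    (fun v hv => hv.1.norm) (ss_one hq h) (fun v hv w hw => ss_mul hq h hv hw) (fun v hv => ss_conj h hv) hf
    (fun v hv => ?_) le_rfl
  have h1 := h0 _ (ss_conj h hv)
  simpa only [Complex.conj_conj] using h1

end Pool.Agent.Lib.MP_9fe581_an.AQ
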