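import Pool.Agent.Lib.MP_9fe581_an.AQ.D2a

/-!
# AQ, D2b: the factors `D_h`, second half (copy of AP/D2)
-/

set_option autoImplicit false
set_option linter.unusedSectionVars false
set_option warn.classDefReducibility false

open Finset MeasureTheory Filter Topology ProbabilityTheory
open scoped ComplexConjugate

namespace Pool.Agent.Lib.MP_9fe581_an.AQ

open AP
open AH (BM)

variable {X : Type} [mX0 : MeasurableSpace X] {μ : Measure X} [IsProbabilityMeasure μ] {T : X → X}
  {X' : Type} [mX' : MeasurableSpace X'] {μ' : Measure X'} [IsProbabilityMeasure μ'] {T' : X' → X'}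
  {p q : ℕ} {lam : Measure (X × X')}

/-- the classes of `S_h` on the first factor -/
def SF (μ : Measure X) (T : X → X) (p q : ℕ) (lam : Measure (X × X')) (h : ℕ) : Set (X × X' → ℂ) :=
  {g | ∃ c ∈ SS μ T p q lam h (DD μ T p q lam h), g = fun z => c z.1}

/-- `D_(h+1) ∨ Y'` is generated by `D_h ∨ Y'` and the classes -/
theorem hid_gen (hJ : PJ μ T μ' T' p q lam) (h : ℕ) : (hid lam (DD μ T p q lam (h + 1))).m ≤
    (cpl lam ⟨(hid lam (DD μ T p q lam h)).m ⊔ ⨆ g : SF μ T p q lam h, MeasurableSpace.comap g.1 inferInstance⟩).m := by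
  set E : SA (X × X') := ⟨(hid lam (DD μ T p q lam h)).m ⊔ ⨆ g : SF μ T p q lam h, MeasurableSpace.comap g.1 inferInstance⟩
    with hE
  have hEle : E.m ≤ (inferInstance : MeasurableSpace (X × X')) := by
    refine sup_le (cpl_le _) (iSup_le fun g => ?_)
    obtain ⟨c, hc, hg⟩ := g.2
    rw [hg]
    exact (hc.1.meas.comp measurable_fst).comap_le
  have h1 : (hid0 X' (DD μ T p q lam (h + 1))).m ≤ (cpl lam E).m := by
    refine sup_le ?_ ?_
    · rintro _ ⟨s, hs, rfl⟩
      obtain ⟨a, t, ht, hst⟩ := cpl_iff.1 (show MeasurableSet[(cpl μ (DD0 μ T p q lam h)).m] s from hs)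
      have h2 : MeasurableSet[E.m] (Prod.fst ⁻¹' t) := by
        have h3 : (DD0 μ T p q lam h).m.comap Prod.fst ≤ E.m := by
          show ((DD μ T p q lam h).m ⊔ ⨆ v : SS μ T p q lam h (DD μ T p q lam h),
            MeasurableSpace.comap v.1 inferInstance).comap Prod.fst ≤ E.m
          rw [MeasurableSpace.comap_sup, MeasurableSpace.comap_iSup]
          refine sup_le ?_ (iSup_le fun v => ?_)
          · refine le_trans ?_ (le_sup_left : (hid lam (DD μ T p q lam h)).m ≤ E.m)
            exact le_trans le_sup_left (le_cpl (hid0_le (DD_le h)))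
          · rw [MeasurableSpace.comap_comp]
            refine le_trans ?_ (le_sup_right : (⨆ g : SF μ T p q lam h, MeasurableSpace.comap g.1 inferInstance) ≤ E.m)
            exact le_iSup (fun g : SF μ T p q lam h => MeasurableSpace.comap g.1 inferInstance)
              ⟨fun z => v.1 z.1, v.1, v.2, rfl⟩
        exact h3 _ ⟨t, ht, rfl⟩
      exact cpl_iff.2 ⟨measurable_fst a, _, h2, hJ.fst.quasiMeasurePreserving.preimage_ae_eq hst⟩
    · refine le_trans ?_ (le_cpl hEle)
      refine le_trans ?_ (le_sup_left : (hid lam (DD μ T p q lam h)).m ≤ E.m)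
      exact le_trans le_sup_right (le_cpl (hid0_le (DD_le h)))
  have h2 := cpl_mono (μ := lam) (D := hid0 X' (DD μ T p q lam (h + 1))) (D' := cpl lam E) h1
  rw [cpl_cpl] at h2
  exact h2

theorem cls_fst {D : SA X} (hD : D.m ≤ mX0) {v : X → ℂ} (hv : Cls T^[p] D v) :
    Cls (Prod.map T^[p] T'^[q]) (hid lam D) fun z : X × X' => v z.1 :=
  ⟨hv.meas.comp measurable_fst, fun z => hv.norm z.1, hid_fst hD hv.ratio⟩

/-- (c3), copy of `AP.Tow.sat_up` -/
theorem sat_up (hT : Dst μ T) (hT' : Dst μ' T') (hJ : PJ μ T μ' T' p q lam) {h : ℕ} (hL : Lv μ T p q lam h) (hP : Pur μ T p q lam h) :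
    Sat μ T p q lam (h + 1) := by
  rintro v hv hY ⟨n, hn, hvn⟩
  have hpr := hJ.prob
  obtain ⟨v1, hv1, hY1, hd⟩ := hP v hv hY
  obtain ⟨u, hu⟩ : ∃ u : X × X' → ℂ, u = fun z => v1 z.1 ^ n := ⟨_, rfl⟩
  have huc : Cls (Prod.map T^[p] T'^[q]) (hid lam (DD μ T p q lam h)) u := by
    rw [hu]
    exact (cls_fst (q := q) (T' := T') (lam := lam) (DD_le h) hv1).pow n
  have hum : Measurable[(hid lam (DD μ T p q lam (h + 1))).m] u := by
    have h1 : Measurable[(hid lam (DD μ T p q lam (h + 1))).m] fun z : X × X' => v z.1 * conj (v1 z.1) :=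
      hid_fst (DD_le (h + 1)) hd
    have e : u = fun z => v z.1 ^ n * conj ((v z.1 * conj (v1 z.1)) ^ n) := by
      funext z
      rw [hu]
      dsimp only
      rw [map_pow, map_mul, Complex.conj_conj, ← mul_pow]
      congr 1
      calc v1 z.1 = (v z.1 * conj (v z.1)) * v1 z.1 := by rw [AH.unim_mul _ (hv.norm z.1), one_mul]
        _ = _ := by ring
    rw [e]
    exact hvn.mul (Complex.continuous_conj.measurable.comp (h1.pow_const n))
  obtain ⟨c, hc, hne⟩ : ∃ c ∈ SS μ T p q lam h (DD μ T p q lam h),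
      ¬ ce lam (hid lam (DD μ T p q lam h)) (fun z => u z * conj (c z.1)) =ᵐ[lam] 0 := by
    by_contra hno
    push Not at hno
    have h1 : ce lam (hid lam (DD μ T p q lam (h + 1))) u =ᵐ[lam] 0 := by
      refine dens_ce (A := hid lam (DD μ T p q lam h)) (G := SF μ T p q lam h) (cpl_le _) ?_ ?_ ?_ ?_ ?_
        huc.bm.integrable ?_ (hid_gen hJ h)
      · rintro _ ⟨c, hc, rfl⟩
        exact hc.1.meas.comp measurable_fst
      · rintro _ ⟨c, hc, rfl⟩ z
        exact hc.1.norm z.1
      · exact ⟨_, ss_one hJ.qp h, rfl⟩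
      · rintro _ ⟨c, hc, rfl⟩ _ ⟨c', hc', rfl⟩
        exact ⟨_, ss_mul hJ.qp h hc hc', rfl⟩
      · rintro _ ⟨c, hc, rfl⟩
        exact ⟨_, ss_conj h hc, rfl⟩
      · rintro _ ⟨c, hc, rfl⟩
        have h2 := hno _ (ss_conj h hc)
        simpa only [Complex.conj_conj] using h2
    have h2 : ce lam (hid lam (DD μ T p q lam (h + 1))) u = u :=
      condExp_of_stronglyMeasurable (cpl_le _) hum.stronglyMeasurable huc.bm.integrable
    rw [h2] at h1
    obtain ⟨z, hz⟩ := h1.exists
    have h3 := huc.norm z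
    rw [hz] at h3
    simp at h3
  have hcF := cls_fst (q := q) (T' := T') (lam := lam) (DD_le h) hc.1
  have h1 : Measurable[(hid lam (DD μ T p q lam h)).m] fun z => u z * conj (c z.1) :=
    dich (hJ.sysU hT hT') (hJ.hid_fac hT hT' hL.fac) (huc.mul_conj hcF) hne
  obtain ⟨n', hn', hcn⟩ := hc.2.2
  have hmem : v1 ∈ SS μ T p q lam h (DD μ T p q lam h) := by
    refine ⟨hv1, hY1, n * n', fun h2 => (hJ.qp.dvd_mul.1 h2).elim hn hn', ?_⟩
    have e : (fun z : X × X' => v1 z.1 ^ (n * n')) = fun z => (u z * conj (c z.1)) ^ n' * c z.1 ^ n' := by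
      funext z
      rw [← mul_pow, pow_mul]
      congr 1
      have h2 : u z = v1 z.1 ^ n := by rw [hu]
      rw [h2]
      calc v1 z.1 ^ n = v1 z.1 ^ n * (c z.1 * conj (c z.1)) := by rw [AH.unim_mul _ (hc.1.norm z.1), mul_one]
        _ = _ := by ring
    rw [e]
    exact (h1.pow_const n').mul hcn
  have h3 := DD_mem hmem
  have e : v = fun x => (v x * conj (v1 x)) * v1 x := by
    funext x
    calc v x = v x * (v1 x * conj (v1 x)) := by rw [AH.unim_mul _ (hv1.norm x), mul_one]
      _ = _ := by ring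
  rw [e]
  exact hd.mul h3

theorem lv_step (hT : Dst μ T) (hT' : Dst μ' T') (hJ : PJ μ T μ' T' p q lam) {h : ℕ} (hL : Lv μ T p q lam h) (hP : Pur μ T p q lam h) :
    Lv μ T p q lam (h + 1) := by
  have hF := lv_fac hT hT' hJ hL
  refine ⟨hF, sat_up hT hT' hJ hL hP, fun v hv hY => ?_⟩
  obtain ⟨v1, hv1, hY1, hd⟩ := hP v hv hY
  have h1 := (triv_up hT hT' hJ hL hv1).mono (DD_mono (lam := lam) (p := p) (q := q) h) le_rfl
  have e : (fun x => v (T x) * conj (v x)) = fun x => ((v (T x) * conj (v1 (T x))) * conj (v x * conj (v1 x))) *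
      (v1 (T x) * conj (v1 x)) := by
    funext x
    simp only [map_mul, Complex.conj_conj]
    calc v (T x) * conj (v x) = v (T x) * conj (v x) * (v1 x * conj (v1 x)) * (v1 (T x) * conj (v1 (T x))) := by
          rw [AH.unim_mul _ (hv1.norm x), AH.unim_mul _ (hv1.norm _), mul_one, mul_one]
      _ = _ := by ring
  rw [e]
  exact ((hd.comp (fac_meas hF)).mul (Complex.continuous_conj.measurable.comp hd)).mul h1

end Pool.Agent.Lib.MP_9fe581_an.AQ
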