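import Pool.Agent.Lib.MP_9fe581_an.AP.D3
import Pool.Agent.Lib.MP_9fe581_an.AP.J3

/-!
# AQ: the intrinsic form: systems exhausted by their canonical tower of abelian extensions, definitions

`X` standard Borel, `μ` a probability measure, `T` invertible. `FF h` are the canonical factors: `FF 0` is trivial,
`FF (h + 1)` is generated by `FF h` and by the classes over `FF h` (the unimodular `v` with `v ∘ T / v` in `FF h`).
-/

set_option autoImplicit false
set_option warn.classDefReducibility false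

open Finset MeasureTheory Filter Topology ProbabilityTheory
open scoped ComplexConjugate

namespace Pool.Agent.Lib.MP_9fe581_an.AQ

open AP (SA cpl Sys Fac Bd Cls ce nsq energy)

section Gen

variable {X X' : Type} [MeasurableSpace X] [MeasurableSpace X']

/-- the canonical factors -/
noncomputable def FF (μ : Measure X) (T : X → X) : ℕ → SA X
  | 0 => cpl μ ⟨⊥⟩
  | h + 1 => cpl μ ⟨(FF μ T h).m ⊔
      ⨆ v : ({v | Cls T (FF μ T h) v} : Set (X → ℂ)), MeasurableSpace.comap v.1 inferInstance⟩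

/-- the classes over `FF h` -/
def EE (μ : Measure X) (T : X → X) (h : ℕ) : Set (X → ℂ) := {v | Cls T (FF μ T h) v}

/-- no torsion: a class over `FF h` some power of which is in `FF h` is in `FF h` -/
def NT (μ : Measure X) (T : X → X) (h : ℕ) : Prop :=
  ∀ (v : X → ℂ) (n : ℕ), 0 < n → Cls T (FF μ T h) v → (Measurable[(FF μ T h).m] fun x => v x ^ n) →
    Measurable[(FF μ T h).m] v

/-- `FF h` is everything -/
def Full (μ : Measure X) (T : X → X) (h : ℕ) : Prop := ∀ f : X → ℂ, Bd f → Measurable[(FF μ T h).m] f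

/-- **the hypothesis**: ergodic and invertible; there is no torsion at level `0` (the powers are ergodic) and there is torsion at
most in the last extension; the canonical factors exhaust the system -/
structure Dst (μ : Measure X) (T : X → X) : Prop where
  erg : Ergodic T μ
  inv : ∃ R : X → X, Measurable R ∧ (∀ x, T (R x) = x) ∧ ∀ x, R (T x) = x
  tor0 : NT μ T 0
  tor : ∀ h : ℕ, NT μ T h ∨ Full μ T (h + 1)
  dense : ∀ f : X → ℂ, Bd f → (∀ h, ce μ (FF μ T h) f =ᵐ[μ] 0) → f =ᵐ[μ] 0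

/-- `v` is an eigenfunction with the eigenvalue `c` -/
structure EF (μ : Measure X) (T : X → X) (c : ℂ) (v : X → ℂ) : Prop where
  meas : Measurable v
  norm : ∀ x, ‖v x‖ = 1
  eq : ∀ᵐ x ∂μ, v (T x) = c * v x

/-- the eigenvalues -/
def Eig (μ : Measure X) (T : X → X) (c : ℂ) : Prop := ∃ v : X → ℂ, EF μ T c v

/-- **the joint hypothesis on the eigenvalues**: an eigenvalue `c ≠ 1` of `T` is for finitely many primes `q` only a `q`-th power of
a product of an eigenvalue of `T` and an eigenvalue of `T'` -/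
def KR (μ : Measure X) (T : X → X) (μ' : Measure X') (T' : X' → X') : Prop :=
  ∀ c : ℂ, Eig μ T c → c ≠ 1 → ∃ q0 : ℕ, ∀ q ≥ q0, q.Prime → ∀ a b : ℂ, Eig μ T a → Eig μ' T' b → c ≠ (a * b) ^ q

/-- an ergodic joining of `T^p` and `T'^q`, `p ≠ q` primes -/
structure PJ (μ : Measure X) (T : X → X) (μ' : Measure X') (T' : X' → X') (p q : ℕ) (lam : Measure (X × X')) : Prop where
  prob : IsProbabilityMeasure lam
  erg : Ergodic (Prod.map T^[p] T'^[q]) lam
  fst : MeasurePreserving Prod.fst lam μ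
  snd : MeasurePreserving Prod.snd lam μ'
  pp : p.Prime
  qp : q.Prime
  ne : p ≠ q

/-- `D ∨ Y'` before completion -/
def hid0 (X' : Type) [MeasurableSpace X'] (D : SA X) : SA (X × X') :=
  ⟨D.m.comap Prod.fst ⊔ (inferInstance : MeasurableSpace X').comap Prod.snd⟩

/-- `D` of the first factor together with the second factor of a joining -/
noncomputable def hid (lam : Measure (X × X')) (D : SA X) : SA (X × X') := cpl lam (hid0 X' D)

/-- the second factor -/
noncomputable def sec (lam : Measure (X × X')) : SA (X × X') :=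
  cpl lam ⟨(inferInstance : MeasurableSpace X').comap Prod.snd⟩

/-- the classes over `D` in `FF (h + 1)` some prime to `q` power of which is in `D ∨ Y'` -/
def SS (μ : Measure X) (T : X → X) (p q : ℕ) (lam : Measure (X × X')) (h : ℕ) (D : SA X) : Set (X → ℂ) :=
  {v | Cls T^[p] D v ∧ Measurable[(FF μ T (h + 1)).m] v ∧ ∃ m : ℕ, ¬ q ∣ m ∧
    Measurable[(hid lam D).m] fun z : X × X' => v z.1 ^ m}

/-- the factors `D_h` -/
noncomputable def DD (μ : Measure X) (T : X → X) (p q : ℕ) (lam : Measure (X × X')) : ℕ → SA X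
  | 0 => cpl μ ⟨⊥⟩
  | h + 1 => cpl μ ⟨(DD μ T p q lam h).m ⊔
      ⨆ v : SS μ T p q lam h (DD μ T p q lam h), MeasurableSpace.comap v.1 inferInstance⟩

/-- `f` is of mode `e` over `FF h` -/
def Mode (μ : Measure X) (T : X → X) (h : ℕ) (e f : X → ℂ) : Prop := Measurable[(FF μ T h).m] fun x => conj (e x) * f x

/-- `‖E(f | Y')‖²` -/
noncomputable def Jsq (lam : Measure (X × X')) (f : X → ℂ) : ℝ := nsq lam (ce lam (sec lam) fun z : X × X' => f z.1)

/-- `‖E(f | D)‖²` -/
noncomputable def Esq (μ : Measure X) (D : SA X) (f : X → ℂ) : ℝ := nsq μ (ce μ D f)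

/-! ### the statements about the factors `D_h` -/

/-- saturation at level `h` -/
def Sat (μ : Measure X) (T : X → X) (p q : ℕ) (lam : Measure (X × X')) (h : ℕ) : Prop :=
  ∀ v : X → ℂ, Cls T^[p] (DD μ T p q lam h) v → Measurable[(FF μ T h).m] v →
    (∃ m : ℕ, ¬ q ∣ m ∧ Measurable[(hid lam (DD μ T p q lam h)).m] fun z : X × X' => v z.1 ^ m) →
    Measurable[(DD μ T p q lam h).m] v

/-- `T` fixes the classes -/
def Triv (μ : Measure X) (T : X → X) (p q : ℕ) (lam : Measure (X × X')) (h : ℕ) : Prop :=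
  ∀ v : X → ℂ, Cls T^[p] (DD μ T p q lam h) v → Measurable[(FF μ T h).m] v →
    Measurable[(DD μ T p q lam h).m] fun x => v (T x) * conj (v x)

/-- classes over `D_(h+1)` are classes over `D_h` -/
def Pur (μ : Measure X) (T : X → X) (p q : ℕ) (lam : Measure (X × X')) (h : ℕ) : Prop :=
  ∀ v : X → ℂ, Cls T^[p] (DD μ T p q lam (h + 1)) v → Measurable[(FF μ T (h + 1)).m] v →
    ∃ v1 : X → ℂ, Cls T^[p] (DD μ T p q lam h) v1 ∧ Measurable[(FF μ T (h + 1)).m] v1 ∧
      Measurable[(DD μ T p q lam (h + 1)).m] fun x => v x * conj (v1 x)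

structure Lv (μ : Measure X) (T : X → X) (p q : ℕ) (lam : Measure (X × X')) (h : ℕ) : Prop where
  fac : Fac μ T (DD μ T p q lam h)
  sat : Sat μ T p q lam h
  triv : Triv μ T p q lam h

/-- there is no torsion at the levels below `h` -/
def Ok (μ : Measure X) (T : X → X) (h : ℕ) : Prop := ∀ j < h, NT μ T j

/-- what part D provides -/
structure DP (μ : Measure X) (T : X → X) (p q : ℕ) (lam : Measure (X × X')) : Prop where
  fac : ∀ h, Ok μ T (h - 1) → Fac μ T (DD μ T p q lam h)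
  low : ∀ h (s : Set X), MeasurableSet[(DD μ T p q lam h).m] s → MeasurableSet[(FF μ T h).m] s
  ri : ∀ h, Ok μ T h → ∀ (f : X → ℂ), Bd f → Measurable[(FF μ T h).m] f →
    ce μ (DD μ T p q lam (h + 1)) f =ᵐ[μ] ce μ (DD μ T p q lam h) f
  bessel : ∀ h, Ok μ T h → ∀ f : X → ℂ, Bd f → ∀ (n : ℕ) (v : Fin n → X → ℂ),
    (∀ i, v i ∈ SS μ T p q lam h (DD μ T p q lam h)) →
    (∀ i j, i ≠ j → ¬ Measurable[(DD μ T p q lam h).m] fun x => v i x * conj (v j x)) →
    ∑ i, Esq μ (DD μ T p q lam h) (fun x => f x * conj (v i x)) ≤ Esq μ (DD μ T p q lam (h + 1)) f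
  orth : ∀ h, Ok μ T h → ∀ (e e' : X → ℂ), e ∈ EE μ T h → e' ∈ EE μ T h → (¬ Measurable[(FF μ T h).m] fun x => e x * conj (e' x)) →
    ∀ f g : X → ℂ, Bd f → Bd g → Mode μ T h e f → Mode μ T h e' g →
    ∫ x, ce μ (DD μ T p q lam (h + 1)) f x * conj (ce μ (DD μ T p q lam (h + 1)) g x) ∂μ = 0
  dens : ∀ h (f : X → ℂ), Bd f → (∀ v ∈ SS μ T p q lam h (DD μ T p q lam h),
    ce μ (DD μ T p q lam h) (fun x => f x * conj (v x)) =ᵐ[μ] 0) → ce μ (DD μ T p q lam (h + 1)) f =ᵐ[μ] 0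

/-- the core at level `h` -/
def Core (μ : Measure X) (T : X → X) (μ' : Measure X') (T' : X' → X') (h : ℕ) : Prop :=
  ∀ η : ℝ, 0 < η → ∃ q0 : ℕ, ∀ p q lam, PJ μ T μ' T' p q lam → q0 ≤ q → ∀ e ∈ EE μ T h, ∀ f : X → ℂ, Bd f →
    Mode μ T h e f → nsq μ f ≤ 1 →
    (∀ v, Cls T^[p] (DD μ T p q lam h) v → Mode μ T h e v → Esq μ (DD μ T p q lam h) (fun x => f x * conj (v x)) < η) →
    ∃ L ≤ η, Tendsto (energy μ T^[p] (DD μ T p q lam h) f) atTop (𝓝 L)

/-- the bound of the second factor at level `h` -/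
def JB (μ : Measure X) (T : X → X) (μ' : Measure X') (T' : X' → X') (h : ℕ) : Prop :=
  ∀ ε : ℝ, 0 < ε → ∃ q0 : ℕ, ∀ p q lam, PJ μ T μ' T' p q lam → q0 ≤ q → ∀ f : X → ℂ, Bd f → Measurable[(FF μ T h).m] f →
    Jsq lam f ≤ Esq μ (DD μ T p q lam h) f + ε * nsq μ f

/-- the filtration property: a mode over `FF a` of the first factor is orthogonal to `FF a` of the second -/
def FP (μ : Measure X) (T : X → X) (μ' : Measure X') (T' : X' → X') (lam : Measure (X × X')) (a : ℕ) : Prop :=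
  ∀ e ∈ EE μ T a, ¬ Measurable[(FF μ T a).m] e → ∀ f : X → ℂ, Bd f → Mode μ T a e f → ∀ g : X' → ℂ, Bd g →
    Measurable[(FF μ' T' a).m] g → ∫ z : X × X', f z.1 * conj (g z.2) ∂lam = 0

/-! ### groups of unimodular functions -/

/-- `G` is a group of unimodular functions, `B` is generated by `A` and `G`, a function in `G` is in `A` or has no
conditional expectation -/
structure Gp (μ : Measure X) (A B : SA X) (G : Set (X → ℂ)) : Prop where
  leA : A.m ≤ (inferInstance : MeasurableSpace X)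
  leB : B.m ≤ (inferInstance : MeasurableSpace X)
  AB : A.m ≤ B.m
  meas : ∀ v ∈ G, Measurable v
  norm : ∀ v ∈ G, ∀ x, ‖v x‖ = 1
  one : (fun _ => (1 : ℂ)) ∈ G
  mul : ∀ v ∈ G, ∀ w ∈ G, (fun x => v x * w x) ∈ G
  cj : ∀ v ∈ G, (fun x => conj (v x)) ∈ G
  dich : ∀ v ∈ G, Measurable[A.m] v ∨ ce μ A v =ᵐ[μ] 0
  mem : ∀ v ∈ G, Measurable[B.m] v
  gen : B.m ≤ (cpl μ ⟨A.m ⊔ ⨆ v : G, MeasurableSpace.comap v.1 inferInstance⟩).m

/-! ### rigidity -/

/-- a factor whose eigenvalues satisfy `K q` -/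
structure QF (μ : Measure X) (T : X → X) (K : ℕ → ℂ → Prop) (q : ℕ) (D : SA X) : Prop where
  fac : Fac μ T D
  char : ∀ (c : ℂ) (v : X → ℂ), EF μ T c v → Measurable[D.m] v → K q c

/-- small relative to all factors of large parameter -/
def Sm (μ : Measure X) (T : X → X) (K : ℕ → ℂ → Prop) (f : X → ℂ) : Prop :=
  ∀ ε : ℝ, 0 < ε → ∃ q0 : ℕ, ∀ q ≥ q0, q.Prime → ∀ D : SA X, QF μ T K q D → Esq μ D f ≤ ε

/-- the eigenvalues `c ≠ 1` of `T` satisfy `K q` for finitely many primes `q` only -/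
def KS (μ : Measure X) (T : X → X) (K : ℕ → ℂ → Prop) : Prop :=
  ∀ c : ℂ, Eig μ T c → c ≠ 1 → ∃ q0 : ℕ, ∀ q ≥ q0, q.Prime → ¬ K q c

/-- the `q`-th powers of the products of the eigenvalues of `T` and `T'` -/
def KP (μ : Measure X) (T : X → X) (μ' : Measure X') (T' : X' → X') (q : ℕ) (c : ℂ) : Prop :=
  ∃ a b : ℂ, Eig μ T a ∧ Eig μ' T' b ∧ c = (a * b) ^ q

/-- all joinings of `T^p` and `T'^q`, `p ≠ q` large primes, are small on `F ⊗ conj F'` -/
def SJ2 (μ : Measure X) (T : X → X) (μ' : Measure X') (T' : X' → X') (F : X → ℂ) (F' : X' → ℂ) : Prop :=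
  ∀ ε : ℝ, 0 < ε → ∃ q0 : ℕ, ∀ p q : ℕ, p.Prime → q.Prime → p ≠ q → q0 ≤ p → q0 ≤ q → ∀ lam : Measure (X × X'),
    IsProbabilityMeasure lam → Ergodic (Prod.map T^[p] T'^[q]) lam → lam.map Prod.fst = μ → lam.map Prod.snd = μ' →
      ‖∫ z, F z.1 * conj (F' z.2) ∂lam‖ ≤ ε

end Gen

end Pool.Agent.Lib.MP_9fe581_an.AQ
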