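import Pool.Agent.Lib.MP_9fe581_an.AQ.Base

/-!
# AQ, Dens: finite sums of inequivalent modes are dense
-/

set_option autoImplicit false
set_option linter.unusedSectionVars false
set_option warn.classDefReducibility false

open Finset MeasureTheory Filter Topology ProbabilityTheory
open scoped ComplexConjugate

namespace Pool.Agent.Lib.MP_9fe581_an.AQ

open AP
open AH (BM)

variable {X : Type} [mX0 : MeasurableSpace X] {μ : Measure X} [IsProbabilityMeasure μ] {T : X → X}

private theorem ds_add {f g : X → ℂ} (hf : Bd f) (hg : Bd g) : Bd fun x => f x + g x := by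
  obtain ⟨h1, C, h2⟩ := hf
  obtain ⟨h3, D, h4⟩ := hg
  exact ⟨h1.add h3, C + D, fun x => (norm_add_le _ _).trans (add_le_add (h2 x) (h4 x))⟩

private theorem ds_const (c : ℂ) : Bd fun _ : X => c := ⟨measurable_const, ‖c‖, fun _ => le_rfl⟩

private theorem ds_conj {A : SA X} {f : X → ℂ} (hf : Measurable[A.m] f) : Measurable[A.m] fun x => conj (f x) :=
  Complex.continuous_conj.measurable.comp hf

private theorem ds_swap {A : SA X} {v w : X → ℂ} (h : Measurable[A.m] fun x => v x * conj (w x)) :
    Measurable[A.m] fun x => w x * conj (v x) := by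
  have h1 := ds_conj h
  have e : (fun x => conj (v x * conj (w x))) = fun x => w x * conj (v x) := by
    funext x
    rw [map_mul, Complex.conj_conj, mul_comm]
  rwa [e] at h1

private theorem ds_gbd {A B : SA X} {G : Set (X → ℂ)} (hG : Gp μ A B G) {v : X → ℂ} (hv : v ∈ G) : Bd v :=
  ⟨hG.meas v hv, 1, fun x => (hG.norm v hv x).le⟩

/-- sums of inequivalent modes -/
private def Rp (μ : Measure X) (A : SA X) (G : Set (X → ℂ)) (g : X → ℂ) : Prop :=
  ∃ (n : ℕ) (v a : Fin n → X → ℂ), (∀ i, v i ∈ G) ∧ (∀ i j, i ≠ j → ¬ Measurable[A.m] fun x => v i x * conj (v j x)) ∧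
      (∀ i, Bd (a i)) ∧ (∀ i, Measurable[A.m] (a i)) ∧ g =ᵐ[μ] fun x => ∑ i, v i x * a i x

private theorem rp_congr {A : SA X} {G : Set (X → ℂ)} {g g' : X → ℂ} (h : Rp μ A G g) (e : g' =ᵐ[μ] g) : Rp μ A G g' := by
  obtain ⟨n, v, a, h1, h2, h3, h4, h5⟩ := h
  exact ⟨n, v, a, h1, h2, h3, h4, e.trans h5⟩

private theorem rp_zero (A : SA X) (G : Set (X → ℂ)) : Rp μ A G fun _ => 0 := by
  refine ⟨0, fun _ _ => 0, fun _ _ => 0, fun i => i.elim0, fun i => i.elim0, fun i => i.elim0, fun i => i.elim0, ?_⟩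
  exact Eventually.of_forall fun x => by simp

private theorem rp_add_one {A B : SA X} {G : Set (X → ℂ)} (hG : Gp μ A B G) {g : X → ℂ} (h : Rp μ A G g) {w b : X → ℂ}
    (hw : w ∈ G) (hb : Bd b) (hbm : Measurable[A.m] b) : Rp μ A G fun x => g x + w x * b x := by
  classical
  obtain ⟨n, v, a, h1, h2, h3, h4, h5⟩ := h
  by_cases hc : ∃ i, Measurable[A.m] fun x => w x * conj (v i x)
  · obtain ⟨i0, hi0⟩ := hc
    have hcb : Bd fun x => (w x * conj (v i0 x)) * b x :=
      Bd.mul (Bd.mul (ds_gbd hG hw) (Bd.conj (ds_gbd hG (h1 i0)))) hb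
    refine ⟨n, v, fun i x => a i x + if i = i0 then (w x * conj (v i0 x)) * b x else 0, h1, h2, fun i => ?_, fun i => ?_, ?_⟩
    · by_cases hi : i = i0
      · simp only [if_pos hi]
        exact ds_add (h3 i) hcb
      · simp only [if_neg hi, add_zero]
        exact h3 i
    · by_cases hi : i = i0
      · simp only [if_pos hi]
        exact (h4 i).add (hi0.mul hbm)
      · simp only [if_neg hi, add_zero]
        exact h4 i
    · filter_upwards [h5] with x hx
      rw [hx]
      simp only [mul_add, sum_add_distrib]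
      congr 1
      rw [sum_eq_single i0]
      · rw [if_pos rfl]
        calc w x * b x = (v i0 x * conj (v i0 x)) * (w x * b x) := by
              rw [AH.unim_mul _ (hG.norm _ (h1 i0) x), one_mul]
          _ = _ := by ring
      · intro i _ hi
        rw [if_neg hi, mul_zero]
      · intro hi
        exact absurd (mem_univ _) hi
  · push Not at hc
    refine ⟨n + 1, Fin.cons w v, Fin.cons b a, ?_, ?_, ?_, ?_, ?_⟩
    · intro i
      refine Fin.cases ?_ (fun i => ?_) i
      · simpa using hw
      · simpa using h1 i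
    · intro i j
      refine Fin.cases ?_ (fun i => ?_) i
      · refine Fin.cases ?_ (fun j => ?_) j
        · intro hh
          exact absurd rfl hh
        · intro _
          simpa using hc j
      · refine Fin.cases ?_ (fun j => ?_) j
        · intro _ hh
          simp only [Fin.cons_succ, Fin.cons_zero] at hh
          exact hc i (ds_swap hh)
        · intro hij
          have : i ≠ j := fun e => hij (by rw [e])
          simpa using h2 i j this
    · intro i
      refine Fin.cases ?_ (fun i => ?_) i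
      · simpa using hb
      · simpa using h3 i
    · intro i
      refine Fin.cases ?_ (fun i => ?_) i
      · simpa using hbm
      · simpa using h4 i
    · filter_upwards [h5] with x hx
      rw [hx, Fin.sum_univ_succ]
      simp only [Fin.cons_zero, Fin.cons_succ]
      ring

private theorem rp_add {A B : SA X} {G : Set (X → ℂ)} (hG : Gp μ A B G) {g g' : X → ℂ} (h : Rp μ A G g) (h' : Rp μ A G g') :
    Rp μ A G fun x => g x + g' x := by
  classical
  obtain ⟨n, v, a, h1, h2, h3, h4, h5⟩ := h'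
  have key : ∀ s : Finset (Fin n), Rp μ A G fun x => g x + ∑ i ∈ s, v i x * a i x := by
    intro s
    induction s using Finset.induction_on with
    | empty => simpa using h
    | insert i s hi ih =>
      refine rp_congr (rp_add_one hG ih (h1 i) (h3 i) (h4 i)) (Eventually.of_forall fun x => ?_)
      dsimp only
      rw [sum_insert hi]
      ring
  refine rp_congr (key univ) ?_
  filter_upwards [h5] with x hx
  rw [hx]

private theorem rp_smul {A : SA X} {G : Set (X → ℂ)} (c : ℂ) {g : X → ℂ} (h : Rp μ A G g) : Rp μ A G fun x => c * g x := by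
  obtain ⟨n, v, a, h1, h2, h3, h4, h5⟩ := h
  refine ⟨n, v, fun i x => c * a i x, h1, h2, fun i => Bd.mul (ds_const c) (h3 i), fun i => (h4 i).const_mul c, ?_⟩
  filter_upwards [h5] with x hx
  rw [hx, mul_sum]
  exact sum_congr rfl fun i _ => by ring

/-- the modes in `L²` -/
private def TS (μ : Measure X) (A : SA X) (G : Set (X → ℂ)) : Set (Lp ℂ 2 μ) :=
  {H | ∃ v ∈ G, ∃ a : X → ℂ, Bd a ∧ Measurable[A.m] a ∧ H =ᵐ[μ] fun x => v x * a x}

private theorem ts_rep {A B : SA X} {G : Set (X → ℂ)} (hG : Gp μ A B G) {H : Lp ℂ 2 μ} (hH : H ∈ Submodule.span ℂ (TS μ A G)) :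
    Rp μ A G H := by
  induction hH using Submodule.span_induction with
  | mem H h =>
    obtain ⟨v, hv, a, ha, ham, e⟩ := h
    refine rp_congr (rp_add_one hG (rp_zero A G) hv ha ham) ?_
    filter_upwards [e] with x hx
    rw [hx, zero_add]
  | zero =>
    refine rp_congr (rp_zero A G) ?_
    filter_upwards [Lp.coeFn_zero ℂ 2 μ] with x hx
    rw [hx]; rfl
  | add F F' _ _ h h' =>
    refine rp_congr (rp_add hG h h') ?_
    filter_upwards [Lp.coeFn_add F F'] with x hx
    rw [hx, Pi.add_apply]
  | smul c F _ h =>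
    refine rp_congr (rp_smul c h) ?_
    filter_upwards [Lp.coeFn_smul c F] with x hx
    rw [hx, Pi.smul_apply, smul_eq_mul]

private theorem ts_orth {A B : SA X} {G : Set (X → ℂ)} (hG : Gp μ A B G) {f : X → ℂ} (hf : Bd f) (hB : Measurable[B.m] f)
    {H : Lp ℂ 2 μ} (hH : H ∈ (Submodule.span ℂ (TS μ A G))ᗮ) : ∫ x, H x * conj (f x) ∂μ = 0 := by
  classical
  have hHi : Integrable (H : X → ℂ) μ := (Lp.memLp H).integrable (by norm_num)
  have hprod : ∀ {g : X → ℂ}, Bd g → Integrable (fun x => H x * conj (g x)) μ := by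
    intro g hg
    obtain ⟨C, hC⟩ := hg.bdd
    refine hHi.mul_bdd (c := C) (Complex.continuous_conj.measurable.comp hg.meas).aestronglyMeasurable
      (Eventually.of_forall fun x => ?_)
    rw [RCLike.norm_conj]
    exact hC x
  have h1 : ∀ v ∈ G, ∀ a : X → ℂ, Bd a → Measurable[A.m] a → ∫ x, H x * conj (v x * a x) ∂μ = 0 := by
    intro v hv a ha ham
    have hva : Bd fun x => v x * a x := Bd.mul (ds_gbd hG hv) ha
    set K : Lp ℂ 2 μ := (hva.bm.memLp 2).toLp _ with hK
    have hKe : K =ᵐ[μ] fun x => v x * a x := MemLp.coeFn_toLp _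
    have hKm : K ∈ Submodule.span ℂ (TS μ A G) := Submodule.subset_span ⟨v, hv, a, ha, ham, hKe⟩
    have h2 := (Submodule.mem_orthogonal _ _).1 hH K hKm
    rw [L2.inner_def] at h2
    rw [← h2]
    refine integral_congr_ae ?_
    filter_upwards [hKe] with x hx
    rw [hx, RCLike.inner_apply]
  have h2 : ∀ v ∈ G, ce μ A (fun x => H x * conj (v x)) =ᵐ[μ] 0 := by
    intro v hv
    refine (ae_eq_condExp_of_forall_setIntegral_eq hG.leA (hprod (ds_gbd hG hv)) (g := fun _ => (0 : ℂ))
      (fun s _ _ => integrableOn_zero) (fun s hs _ => ?_) ?_).symm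
    · have h3 : Measurable[A.m] fun x => if x ∈ s then (1 : ℂ) else 0 :=
        Measurable.ite hs (@measurable_const _ _ _ A.m _) (@measurable_const _ _ _ A.m _)
      have h4 : Bd fun x => if x ∈ s then (1 : ℂ) else 0 := by
        refine ⟨h3.mono hG.leA le_rfl, 1, fun x => ?_⟩
        split_ifs <;> simp
      have h5 := h1 v hv _ h4 h3
      rw [integral_zero, ← integral_indicator (hG.leA s hs), ← h5]
      refine integral_congr_ae (Eventually.of_forall fun x => ?_)
      dsimp only
      by_cases hx : x ∈ s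
      · rw [if_pos hx, Set.indicator_of_mem hx, mul_one]
      · rw [if_neg hx, Set.indicator_of_notMem hx, mul_zero, map_zero, mul_zero]
    · exact aestronglyMeasurable_const
  have h3 : ce μ B (H : X → ℂ) =ᵐ[μ] 0 := hG.tot hHi h2
  have hfc : Measurable[B.m] fun x => conj (f x) := ds_conj hB
  have h4 : ce μ B (fun x => H x * conj (f x)) =ᵐ[μ] fun x => ce μ B (H : X → ℂ) x * conj (f x) :=
    condExp_bilin_of_aestronglyMeasurable_right (ContinuousLinearMap.mul ℝ ℂ)
      (hfc.stronglyMeasurable.aestronglyMeasurable) (hprod hf) hHi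
  have h5 : ∫ x, H x * conj (f x) ∂μ = ∫ x, ce μ B (fun x => H x * conj (f x)) x ∂μ := (integral_condExp hG.leB).symm
  rw [h5]
  have h6 : ce μ B (fun x => H x * conj (f x)) =ᵐ[μ] fun _ => (0 : ℂ) := by
    filter_upwards [h3, h4] with x a b
    rw [b, a, Pi.zero_apply, zero_mul]
  rw [integral_congr_ae h6, integral_zero]

/-- **finite sums of inequivalent modes are dense**: `V ⊆ L²(μ)` the closed span of the `v a`, `v ∈ G`, `a` bounded in `A`; for
`F = f - P_V f` all `E(F conj v | A) = 0` (`∫_s F conj v = 0` for `s` in `A`), so `E(F | B) = 0` by `Gp.tot`, so `∫ F conj f = 0`, so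
`F = 0`. Then merge the equivalent `v`: `v a = w (v conj w a)` if `v conj w` is in `A` (induction on the number of terms) -/
theorem modes_dense {A B : SA X} {G : Set (X → ℂ)} (hG : Gp μ A B G) {f : X → ℂ} (hf : Bd f) (hB : Measurable[B.m] f)
    {δ : ℝ} (hδ : 0 < δ) :
    ∃ (n : ℕ) (v a : Fin n → X → ℂ), (∀ i, v i ∈ G) ∧ (∀ i j, i ≠ j → ¬ Measurable[A.m] fun x => v i x * conj (v j x)) ∧
      (∀ i, Bd (a i)) ∧ (∀ i, Measurable[A.m] (a i)) ∧ nrm μ (fun x => f x - ∑ i, v i x * a i x) ≤ δ := by
  set F : Lp ℂ 2 μ := (hf.bm.memLp 2).toLp f with hF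
  have hFf : F =ᵐ[μ] f := MemLp.coeFn_toLp _
  have h1 : F ∈ (Submodule.span ℂ (TS μ A G)).topologicalClosure := by
    rw [← Submodule.orthogonal_orthogonal_eq_closure, Submodule.mem_orthogonal]
    intro H hH
    have h2 := ts_orth hG hf hB hH
    rw [← inner_conj_symm, L2.inner_def]
    have h3 : ∫ x, inner ℂ (F x) (H x) ∂μ = ∫ x, H x * conj (f x) ∂μ := by
      refine integral_congr_ae ?_
      filter_upwards [hFf] with x hx
      rw [hx, RCLike.inner_apply]
    rw [h3, h2, map_zero]
  rw [← SetLike.mem_coe, Submodule.topologicalClosure_coe, Metric.mem_closure_iff] at h1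
  obtain ⟨K, hK, hd⟩ := h1 δ hδ
  obtain ⟨n, v, a, h2, h3, h4, h5, h6⟩ := ts_rep hG hK
  refine ⟨n, v, a, h2, h3, h4, h5, ?_⟩
  have h7 : (F - K : Lp ℂ 2 μ) =ᵐ[μ] fun x => f x - ∑ i, v i x * a i x := by
    filter_upwards [Lp.coeFn_sub F K, hFf, h6] with x b1 b2 b3
    rw [b1, Pi.sub_apply, b2, b3]
  rw [nrm_lp (F - K) h7, ← dist_eq_norm]
  exact hd.le

/-- the same for `E(f | A) = 0`, with `v i` not in `A`: with `δ / 2` and `i0` the index with `v i0` in `A` (if there is one):
`v i0 a i0 = E(∑ v a - f | A)` has norm `≤ δ / 2` -/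
theorem modes_dense0 {A B : SA X} {G : Set (X → ℂ)} (hG : Gp μ A B G) {f : X → ℂ} (hf : Bd f) (hB : Measurable[B.m] f)
    (h0 : ce μ A f =ᵐ[μ] 0) {δ : ℝ} (hδ : 0 < δ) :
    ∃ (n : ℕ) (v a : Fin n → X → ℂ), (∀ i, v i ∈ G) ∧ (∀ i, ¬ Measurable[A.m] (v i)) ∧
      (∀ i, Bd (a i)) ∧ (∀ i, Measurable[A.m] (a i)) ∧ nrm μ (fun x => f x - ∑ i, v i x * a i x) ≤ δ := by
  classical
  obtain ⟨n, v, a, h1, h2, h3, h4, h5⟩ := modes_dense hG hf hB (half_pos hδ)
  by_cases hc : ∃ i, Measurable[A.m] (v i)
  · obtain ⟨i0, hi0⟩ := hc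
    cases n with
    | zero => exact i0.elim0
    | succ n =>
      have hne : ∀ i, i ≠ i0 → ¬ Measurable[A.m] (v i) := fun i hi hm => h2 i i0 hi (hm.mul (ds_conj hi0))
      have hvb : ∀ i, Bd fun x => v i x * a i x := fun i => Bd.mul (ds_gbd hG (h1 i)) (h3 i)
      have hSb : BM μ fun x => ∑ i, v i x * a i x := AH.BM.sum univ fun i _ => (hvb i).bm
      have hce : ce μ A (fun x => f x - ∑ i, v i x * a i x) =ᵐ[μ] fun x => - (v i0 x * a i0 x) := by
        have e1 := ce_sub (D := A) hf.bm hSb
        have e2 := ce_sum (μ := μ) (D := A) univ (f := fun i x => v i x * a i x) fun i _ => (hvb i).bm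
        have e3 : ∀ i, ce μ A (fun x => v i x * a i x) =ᵐ[μ] fun x => if i = i0 then v i0 x * a i0 x else 0 := by
          intro i
          have e4 := ce_pull hG.leA (μ := μ) (ds_gbd hG (h1 i)).bm (h3 i).bm (h4 i)
          by_cases hi : i = i0
          · have e5 : ce μ A (v i) = v i := ce_self hG.leA (ds_gbd hG (h1 i)).bm (by rw [hi]; exact hi0)
            filter_upwards [e4] with x hx
            rw [hx, e5, if_pos hi, hi]
          · have e5 : ce μ A (v i) =ᵐ[μ] 0 := (hG.dich _ (h1 i)).resolve_left (hne i hi)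
            filter_upwards [e4, e5] with x hx hy
            rw [hx, hy, if_neg hi, Pi.zero_apply, zero_mul]
        have e6 : ∀ᵐ x ∂μ, ∀ i, ce μ A (fun x => v i x * a i x) x = if i = i0 then v i0 x * a i0 x else 0 := by
          rw [ae_all_iff]
          exact fun i => e3 i
        filter_upwards [e1, e2, e6, h0] with x b1 b2 b3 b4
        rw [b1, b2, b4, Pi.zero_apply, zero_sub]
        congr 1
        simp only [b3]
        rw [sum_ite_eq' univ i0, if_pos (mem_univ _)]
      have hn0 : nrm μ (fun x => v i0 x * a i0 x) ≤ δ / 2 := by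
        have e1 : nrm μ (fun x => v i0 x * a i0 x) = nrm μ (ce μ A (fun x => f x - ∑ i, v i x * a i x)) := by
          rw [nrm_congr hce]
          have := nrm_smul (μ := μ) (-1) fun x => v i0 x * a i0 x
          simp only [neg_mul, one_mul, norm_neg, norm_one] at this
          rw [this]
        rw [e1]
        exact (ce_nrm_le hG.leA (hf.bm.sub hSb)).trans h5
      refine ⟨n, fun i => v (i0.succAbove i), fun i => a (i0.succAbove i), fun i => h1 _, fun i => hne _ (Fin.succAbove_ne i0 i),
        fun i => h3 _, fun i => h4 _, ?_⟩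
      have e : (fun x => f x - ∑ i, v (i0.succAbove i) x * a (i0.succAbove i) x) =
          fun x => (f x - ∑ i, v i x * a i x) + v i0 x * a i0 x := by
        funext x
        rw [Fin.sum_univ_succAbove (fun i => v i x * a i x) i0]
        ring
      rw [e]
      refine (nrm_add (hf.bm.sub hSb) (hvb i0).bm).trans ?_
      linarith
  · push Not at hc
    exact ⟨n, v, a, h1, hc, h3, h4, h5.trans (by linarith)⟩

end Pool.Agent.Lib.MP_9fe581_an.AQ
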