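import Pool.Agent.Lib.MP_9fe581_an.AQ.Base

/-!
# AQ, Eig: eigenfunctions
-/

set_option autoImplicit false
set_option linter.unusedSectionVars false
set_option warn.classDefReducibility false

open Finset MeasureTheory Filter Topology ProbabilityTheory
open scoped ComplexConjugate

namespace Pool.Agent.Lib.MP_9fe581_an.AQ

open AP
open AH (BM)

variable {X : Type} [mX0 : MeasurableSpace X] {μ : Measure X} [IsProbabilityMeasure μ] {T : X → X}

theorem EF.mem (hT : Dst μ T) {c : ℂ} {v : X → ℂ} (h : EF μ T c v) : v ∈ EE μ T 0 := by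
  refine ⟨h.meas, h.norm, ?_⟩
  have hm : Measurable fun x => v (T x) * conj (v x) :=
    (h.meas.comp hT.meas).mul (Complex.continuous_conj.measurable.comp h.meas)
  refine FF_of_const (c := c) hm ?_
  filter_upwards [h.eq] with x hx
  rw [hx, mul_assoc, AH.unim_mul _ (h.norm x), mul_one]

theorem exists_ef {v : X → ℂ} (hv : v ∈ EE μ T 0) : ∃ c : ℂ, EF μ T c v := by
  have hr : Measurable[(FF μ T 0).m] fun x => v (T x) * conj (v x) := hv.ratio
  have hb : Bd fun x => v (T x) * conj (v x) := by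
    refine ⟨hr.mono (FF_le 0) le_rfl, 1, fun x => ?_⟩
    rw [norm_mul, RCLike.norm_conj, hv.norm, hv.norm, mul_one]
  obtain ⟨c, hc⟩ := FF_const hb hr
  refine ⟨c, hv.meas, hv.norm, ?_⟩
  filter_upwards [hc] with x hx
  calc v (T x) = v (T x) * (v x * conj (v x)) := by rw [AH.unim_mul _ (hv.norm x), mul_one]
    _ = (v (T x) * conj (v x)) * v x := by ring
    _ = c * v x := by rw [hx]

theorem EF.unit {c : ℂ} {v : X → ℂ} (h : EF μ T c v) : ‖c‖ = 1 := by
  obtain ⟨x, hx⟩ := h.eq.exists
  have h1 : ‖v (T x)‖ = ‖c * v x‖ := by rw [hx]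
  rw [norm_mul, h.norm, h.norm, mul_one] at h1
  exact h1.symm

theorem EF.mul {c d : ℂ} {v w : X → ℂ} (h : EF μ T c v) (h' : EF μ T d w) : EF μ T (c * d) fun x => v x * w x := by
  refine ⟨h.meas.mul h'.meas, fun x => by rw [norm_mul, h.norm, h'.norm, mul_one], ?_⟩
  filter_upwards [h.eq, h'.eq] with x a b
  rw [a, b]
  ring

theorem EF.cj {c : ℂ} {v : X → ℂ} (h : EF μ T c v) : EF μ T (conj c) fun x => conj (v x) := by
  refine ⟨Complex.continuous_conj.measurable.comp h.meas, fun x => by rw [RCLike.norm_conj, h.norm], ?_⟩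
  filter_upwards [h.eq] with x a
  rw [a, map_mul]

theorem EF.pow {c : ℂ} {v : X → ℂ} (h : EF μ T c v) (n : ℕ) : EF μ T (c ^ n) fun x => v x ^ n := by
  refine ⟨h.meas.pow_const n, fun x => by rw [norm_pow, h.norm, one_pow], ?_⟩
  filter_upwards [h.eq] with x a
  rw [a, mul_pow]

theorem Eig.one : Eig μ T 1 := ⟨fun _ => 1, measurable_const, fun _ => norm_one, Eventually.of_forall fun _ => by simp⟩

/-- an eigenfunction is constant if and only if the eigenvalue is `1` -/
theorem EF.const_iff (hT : Dst μ T) {c : ℂ} {v : X → ℂ} (h : EF μ T c v) : Measurable[(FF μ T 0).m] v ↔ c = 1 := by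
  have hb : Bd v := ⟨h.meas, 1, fun x => (h.norm x).le⟩
  constructor
  · intro hm
    obtain ⟨k, hk⟩ := FF_const hb hm
    have hk' : ∀ᵐ x ∂μ, v (T x) = k := hT.pres.quasiMeasurePreserving.ae hk
    obtain ⟨x, hx1, hx2, hx3⟩ := (hk.and (hk'.and h.eq)).exists
    rw [hx2, hx1] at hx3
    have hk0 : k ≠ 0 := by
      intro h0
      have := h.norm x
      rw [hx1, h0, norm_zero] at this
      exact zero_ne_one this
    have h4 : (c - 1) * k = 0 := by rw [sub_mul, ← hx3]; ring
    rcases mul_eq_zero.1 h4 with h5 | h5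
    · exact sub_eq_zero.1 h5
    · exact absurd h5 hk0
  · rintro rfl
    have h1 : v ∘ T =ᵐ[μ] v := by
      filter_upwards [h.eq] with x hx
      rw [Function.comp_apply, hx, one_mul]
    obtain ⟨k, hk⟩ := hT.erg.ae_eq_const_of_ae_eq_comp_ae h.meas.aestronglyMeasurable h1
    exact FF_of_const (c := k) h.meas hk

end Pool.Agent.Lib.MP_9fe581_an.AQ
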