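import Pool.Agent.Lib.MP_9fe581_an.AQ.J1

/-!
# AQ, En: the energy inequality for joinings of two systems (copy of AH/Energy)
-/

set_option autoImplicit false
set_option linter.unusedSectionVars false
set_option warn.classDefReducibility false

open Finset MeasureTheory Filter Topology ProbabilityTheory
open scoped ComplexConjugate

namespace Pool.Agent.Lib.MP_9fe581_an.AQ

open AP
open AH (BM)

variable {X : Type} [mX0 : MeasurableSpace X] {μ : Measure X} [IsProbabilityMeasure μ] {T : X → X}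
  {X' : Type} [mX' : MeasurableSpace X'] {μ' : Measure X'} [IsProbabilityMeasure μ'] {T' : X' → X'}
  {p q : ℕ} {lam : Measure (X × X')}

/-- the sigma-algebra of the second coordinate -/
private abbrev enS (X X' : Type) [MeasurableSpace X'] : MeasurableSpace (X × X') := MeasurableSpace.comap Prod.snd inferInstance

private theorem enS_le : enS X X' ≤ (inferInstance : MeasurableSpace (X × X')) := measurable_snd.comap_le

/-- conditional expectation of a function of the first coordinate on the second coordinate -/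
private noncomputable def enJ (lam : Measure (X × X')) (f : X → ℂ) : X × X' → ℂ := lam[fun z => f z.1 | enS X X']

private theorem enJ_bm [IsProbabilityMeasure lam] (h1 : MeasurePreserving Prod.fst lam μ) {f : X → ℂ} (hf : BM μ f) : BM lam (enJ lam f) :=
  AH.BM.condExp (hf.comp h1)

private theorem enJ_rep [IsProbabilityMeasure lam] (f : X → ℂ) : ∃ g : X' → ℂ, Measurable g ∧ enJ lam f = fun z => g z.2 := by
  have h := (stronglyMeasurable_condExp (m := enS X X') (μ := lam) (f := fun z : X × X' => f z.1)).measurable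
  obtain ⟨g, hg, e⟩ := Measurable.exists_eq_measurable_comp (f := (Prod.snd : X × X' → X')) h
  exact ⟨g, hg, e⟩

/-- `∫ f (x) conj g (y) = ∫ J f conj g` -/
private theorem enJ_int [IsProbabilityMeasure lam] (h1 : MeasurePreserving Prod.fst lam μ) {f : X → ℂ} {g : X' → ℂ} (hf : BM μ f)
    (hg : Measurable g) (hgb : BM lam fun z => g z.2) :
    ∫ z, f z.1 * conj (g z.2) ∂lam = ∫ z, enJ lam f z * conj (g z.2) ∂lam :=
  AH.ce_int enS_le (hf.comp h1) hgb (by
    have : Measurable[enS X X'] fun z : X × X' => g z.2 := hg.comp (comap_measurable _)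
    exact this.aestronglyMeasurable)

private theorem en_energy [IsProbabilityMeasure lam] {S : X → X} {S' : X' → X'} (hS' : Measurable S') (hU : Ergodic (Prod.map S S') lam)
    (hS : MeasurePreserving S μ μ)
    (h1 : MeasurePreserving Prod.fst lam μ) {f : X → ℂ} (hf : BM μ f) (B : ℝ)
    (hB : ∀ᶠ R : ℕ in atTop, (1 / (R : ℝ)) * ∑ r ∈ range R, ∫ z, ‖enJ lam (fun x => f (S^[r] x) * conj (f x)) z‖ ^ 2 ∂lam ≤ B) :
    (∫ z, ‖enJ lam f z‖ ^ 2 ∂lam) ^ 2 ≤ B := by
  obtain ⟨g, hg, hgJ⟩ := enJ_rep (lam := lam) f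
  have hgb : BM lam fun z : X × X' => g z.2 := by rw [← hgJ]; exact enJ_bm h1 hf
  set a : ℝ := ∫ z, ‖enJ lam f z‖ ^ 2 ∂lam with ha
  have ha0 : 0 ≤ a := integral_nonneg fun _ => by positivity
  have hfl : BM lam fun z : X × X' => f z.1 := hf.comp h1
  have hint : ∫ z, f z.1 * conj (g z.2) ∂lam = (a : ℂ) := by
    rw [enJ_int h1 hf hg hgb, ha, ← AH.int_mul_conj_self]
    refine integral_congr_ae (Eventually.of_forall fun z => ?_)
    dsimp only
    rw [hgJ]
  have hasq : ∫ z : X × X', ‖g z.2‖ ^ 2 ∂lam = a := by rw [ha, hgJ]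
  have hh : BM lam fun z : X × X' => f z.1 * conj (g z.2) := hfl.mul hgb.conj
  have hlim1 := AH.erg_bilin hU hh hh
  rw [hint, Complex.conj_ofReal] at hlim1
  have hlim1' := hlim1.norm
  have e0 : ‖(a : ℂ) * (a : ℂ)‖ = a ^ 2 := by
    rw [norm_mul, Complex.norm_real, Real.norm_of_nonneg ha0]; ring
  rw [e0] at hlim1'
  have hq : BM lam fun z : X × X' => ((‖g z.2‖ ^ 2 : ℝ) : ℂ) := by
    have := hgb.mul hgb.conj
    refine this.congr (Eventually.of_forall fun z => ?_)
    dsimp only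
    rw [Complex.mul_conj, Complex.normSq_eq_norm_sq]
  have hlim2 := AH.erg_bilin hU hq hq
  have e1 : ∫ z : X × X', ((‖g z.2‖ ^ 2 : ℝ) : ℂ) ∂lam = (a : ℂ) := by
    rw [integral_complex_ofReal, hasq]
  rw [e1, Complex.conj_ofReal] at hlim2
  -- real form
  set V : ℕ → ℝ := fun R => (1 / (R : ℝ)) * ∑ r ∈ range R, ∫ z : X × X', ‖g (S'^[r] z.2) * conj (g z.2)‖ ^ 2 ∂lam with hV
  have hVlim : Tendsto V atTop (𝓝 (a ^ 2)) := by
    have h3 := (Complex.continuous_re.tendsto _).comp hlim2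
    have e2 : ((a : ℂ) * (a : ℂ)).re = a ^ 2 := by
      rw [← Complex.ofReal_mul, Complex.ofReal_re]; ring
    rw [e2] at h3
    refine h3.congr fun R => ?_
    rw [Function.comp_apply]
    have e3 : ∀ r : ℕ, ∫ z : X × X', ((‖g ((Prod.map S S')^[r] z).2‖ ^ 2 : ℝ) : ℂ) * conj (((‖g z.2‖ ^ 2 : ℝ) : ℂ)) ∂lam =
        ((∫ z : X × X', ‖g (S'^[r] z.2) * conj (g z.2)‖ ^ 2 ∂lam : ℝ) : ℂ) := by
      intro r
      rw [← integral_complex_ofReal]
      refine integral_congr_ae (Eventually.of_forall fun z => ?_)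
      dsimp only
      rw [Complex.conj_ofReal, ← Complex.ofReal_mul, norm_mul, RCLike.norm_conj, Prod.map_iterate, Prod.map_snd, mul_pow]
    rw [Finset.sum_congr rfl fun r _ => e3 r, hV]
    dsimp only
    rw [← Complex.ofReal_sum]
    have e4 : (1 / (R : ℂ)) = ((1 / (R : ℝ) : ℝ) : ℂ) := by push_cast; ring
    rw [e4, ← Complex.ofReal_mul, Complex.ofReal_re]
  -- one term
  set u : ℕ → ℝ := fun r => ∫ z, ‖enJ lam (fun x => f (S^[r] x) * conj (f x)) z‖ ^ 2 ∂lam with hu
  set v : ℕ → ℝ := fun r => ∫ z : X × X', ‖g (S'^[r] z.2) * conj (g z.2)‖ ^ 2 ∂lam with hv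
  have hu0 : ∀ r, 0 ≤ u r := fun r => integral_nonneg fun _ => by positivity
  have hv0 : ∀ r, 0 ≤ v r := fun r => integral_nonneg fun _ => by positivity
  have hterm : ∀ r : ℕ, ‖∫ z : X × X', (fun z : X × X' => f z.1 * conj (g z.2)) ((Prod.map S S')^[r] z) *
      conj (f z.1 * conj (g z.2)) ∂lam‖ ≤ Real.sqrt (u r) * Real.sqrt (v r) := by
    intro r
    have hGf : BM μ fun x => f (S^[r] x) * conj (f x) := (hf.comp (hS.iterate r)).mul hf.conj
    have hgr : BM lam fun z : X × X' => g (S'^[r] z.2) := by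
      have h5 := hgb.comp (hU.toMeasurePreserving.iterate r)
      refine h5.congr (Eventually.of_forall fun z => ?_)
      dsimp only
      rw [Prod.map_iterate, Prod.map_snd]
    have hGg : BM lam fun z : X × X' => (fun y => g (S'^[r] y) * conj (g y)) z.2 := hgr.mul hgb.conj
    have hmeas : Measurable fun y => g (S'^[r] y) * conj (g y) :=
      (hg.comp (hS'.iterate r)).mul (Complex.continuous_conj.measurable.comp hg)
    have e5 : ∫ z : X × X', (fun z : X × X' => f z.1 * conj (g z.2)) ((Prod.map S S')^[r] z) *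
        conj (f z.1 * conj (g z.2)) ∂lam =
        ∫ z : X × X', (fun x => f (S^[r] x) * conj (f x)) z.1 * conj ((fun y => g (S'^[r] y) * conj (g y)) z.2) ∂lam := by
      refine integral_congr_ae (Eventually.of_forall fun z => ?_)
      dsimp only
      rw [Prod.map_iterate, Prod.map_fst, Prod.map_snd]
      simp only [map_mul, Complex.conj_conj]
      ring
    rw [e5, enJ_int h1 hGf hmeas hGg]
    exact AH.bm_cs (enJ_bm h1 hGf) hGg
  have hBig : ∀ᶠ R : ℕ in atTop, ‖(1 / (R : ℂ)) * ∑ r ∈ range R, ∫ z : X × X',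
      (fun z : X × X' => f z.1 * conj (g z.2)) ((Prod.map S S')^[r] z) * conj (f z.1 * conj (g z.2)) ∂lam‖ ≤
      Real.sqrt B * Real.sqrt (V R) := by
    filter_upwards [hB, eventually_gt_atTop 0] with R hR hR0
    have hRr : (0 : ℝ) < R := by exact_mod_cast hR0
    rw [norm_mul, norm_div, norm_one, Complex.norm_natCast]
    have h6 : ‖∑ r ∈ range R, ∫ z : X × X', (fun z : X × X' => f z.1 * conj (g z.2)) ((Prod.map S S')^[r] z) *
        conj (f z.1 * conj (g z.2)) ∂lam‖ ≤ ∑ r ∈ range R, Real.sqrt (u r) * Real.sqrt (v r) :=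
      (norm_sum_le _ _).trans (Finset.sum_le_sum fun r _ => hterm r)
    have h7 : (∑ r ∈ range R, Real.sqrt (u r) * Real.sqrt (v r)) ^ 2 ≤ (∑ r ∈ range R, u r) * ∑ r ∈ range R, v r := by
      have := Finset.sum_mul_sq_le_sq_mul_sq (range R) (fun r => Real.sqrt (u r)) (fun r => Real.sqrt (v r))
      simpa only [Real.sq_sqrt (hu0 _), Real.sq_sqrt (hv0 _)] using this
    have h8 : 0 ≤ ∑ r ∈ range R, u r := Finset.sum_nonneg fun r _ => hu0 r
    have h9 : 0 ≤ ∑ r ∈ range R, v r := Finset.sum_nonneg fun r _ => hv0 r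
    have h10 : ∑ r ∈ range R, Real.sqrt (u r) * Real.sqrt (v r) ≤ Real.sqrt (∑ r ∈ range R, u r) * Real.sqrt (∑ r ∈ range R, v r) := by
      rw [← Real.sqrt_mul h8]
      exact Real.le_sqrt_of_sq_le h7
    have h11 : (1 / (R : ℝ)) * (Real.sqrt (∑ r ∈ range R, u r) * Real.sqrt (∑ r ∈ range R, v r)) =
        Real.sqrt ((1 / (R : ℝ)) * ∑ r ∈ range R, u r) * Real.sqrt ((1 / (R : ℝ)) * ∑ r ∈ range R, v r) := by
      rw [Real.sqrt_mul (by positivity), Real.sqrt_mul (by positivity)]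
      have h13 : Real.sqrt (1 / (R : ℝ)) * Real.sqrt (1 / (R : ℝ)) = 1 / R := Real.mul_self_sqrt (by positivity)
      generalize Real.sqrt (1 / (R : ℝ)) = s at h13 ⊢
      rw [← h13]; ring
    calc 1 / (R : ℝ) * ‖∑ r ∈ range R, ∫ z : X × X', (fun z : X × X' => f z.1 * conj (g z.2)) ((Prod.map S S')^[r] z) *
          conj (f z.1 * conj (g z.2)) ∂lam‖
        ≤ (1 / (R : ℝ)) * (Real.sqrt (∑ r ∈ range R, u r) * Real.sqrt (∑ r ∈ range R, v r)) :=
          mul_le_mul_of_nonneg_left (h6.trans h10) (by positivity)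
      _ = Real.sqrt ((1 / (R : ℝ)) * ∑ r ∈ range R, u r) * Real.sqrt ((1 / (R : ℝ)) * ∑ r ∈ range R, v r) := h11
      _ ≤ Real.sqrt B * Real.sqrt (V R) :=
          mul_le_mul_of_nonneg_right (Real.sqrt_le_sqrt hR) (Real.sqrt_nonneg _)
  have hBound : Tendsto (fun R => Real.sqrt B * Real.sqrt (V R)) atTop (𝓝 (Real.sqrt B * Real.sqrt (a ^ 2))) :=
    (Real.continuous_sqrt.tendsto _).comp hVlim |>.const_mul _
  have hfin : a ^ 2 ≤ Real.sqrt B * Real.sqrt (a ^ 2) := le_of_tendsto_of_tendsto hlim1' hBound hBig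
  rw [Real.sqrt_sq ha0] at hfin
  have hB0 : 0 ≤ B := by
    obtain ⟨R, hR⟩ := hB.exists
    exact le_trans (mul_nonneg (by positivity) (Finset.sum_nonneg fun r _ => hu0 r)) hR
  have hs := Real.sq_sqrt hB0
  have hsn := Real.sqrt_nonneg B
  rcases ha0.eq_or_lt with h0 | h0
  · rw [← h0]; simpa using hB0
  · have h12 : a ≤ Real.sqrt B := by
      have : a * a ≤ Real.sqrt B * a := by nlinarith
      exact le_of_mul_le_mul_right this h0
    calc a ^ 2 ≤ Real.sqrt B ^ 2 := pow_le_pow_left₀ ha0 h12 2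
      _ = B := hs

/-- copy of `AH.corr_prod` -/
theorem corr_prod2 [IsProbabilityMeasure lam] {S : X → X} {S' : X' → X'} (hU : Ergodic (Prod.map S S') lam) {f f2 : X → ℂ}
    {g g2 : X' → ℂ} (h : BM lam fun z : X × X' => f z.1 * conj (g z.2))
    (h2 : BM lam fun z : X × X' => f2 z.1 * conj (g2 z.2)) :
    Tendsto (fun R : ℕ => (1 / (R : ℂ)) * ∑ r ∈ range R, ∫ z : X × X',
      (f (S^[r] z.1) * conj (f2 z.1)) * conj (g (S'^[r] z.2) * conj (g2 z.2)) ∂lam) atTop
      (𝓝 ((∫ z : X × X', f z.1 * conj (g z.2) ∂lam) * conj (∫ z : X × X', f2 z.1 * conj (g2 z.2) ∂lam))) := by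
  refine (AH.erg_bilin hU h h2).congr fun R => ?_
  congr 1
  refine Finset.sum_congr rfl fun r _ => ?_
  refine integral_congr_ae (Eventually.of_forall fun z => ?_)
  dsimp only
  rw [Prod.map_iterate, Prod.map_fst, Prod.map_snd]
  simp only [map_mul, Complex.conj_conj]
  ring

/-- copy of `AH.energy`, with `u` of `PJ.rep` in place of `AH.J_rep` -/
theorem PJ.energy (hT : Dst μ T) (hT' : Dst μ' T') (hJ : PJ μ T μ' T' p q lam) {f : X → ℂ} (hf : Bd f) (B : ℝ)
    (hB : ∀ᶠ R : ℕ in atTop, (1 / (R : ℝ)) * ∑ r ∈ range R, Jsq lam (fun x => f ((T^[p])^[r] x) * conj (f x)) ≤ B) :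
    Jsq lam f ^ 2 ≤ B := by
  have hpr := hJ.prob
  have hSp : MeasurePreserving T^[p] μ μ := hT.pres.iterate p
  have e0 : ∀ g : X → ℂ, BM μ g → Jsq lam g = ∫ z, ‖enJ lam g z‖ ^ 2 ∂lam := by
    intro g hg
    have h1 : ce lam (sec lam) (fun z : X × X' => g z.1) =ᵐ[lam] enJ lam g :=
      condExp_cpl (μ := lam) (D := ⟨(inferInstance : MeasurableSpace X').comap Prod.snd⟩) measurable_snd.comap_le
        (hg.comp hJ.fst).integrable
    exact nsq_congr h1
  rw [e0 f hf.bm]
  refine en_energy (S := T^[p]) (S' := T'^[q]) (hT'.meas.iterate q) hJ.erg hSp hJ.fst hf.bm B ?_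
  filter_upwards [hB] with R hR
  refine le_trans (le_of_eq ?_) hR
  congr 1
  refine Finset.sum_congr rfl fun r _ => ?_
  rw [e0 _ ((hf.bm.comp (hSp.iterate r)).mul hf.bm.conj)]

end Pool.Agent.Lib.MP_9fe581_an.AQ
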