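import Pool.Agent.Lib.MP_9fe581_an.AQ.Base

/-!
# AQ, ErgP: the powers of `T` are ergodic
-/

set_option autoImplicit false
set_option linter.unusedSectionVars false
set_option warn.classDefReducibility false

open Finset MeasureTheory Filter Topology ProbabilityTheory
open scoped ComplexConjugate

namespace Pool.Agent.Lib.MP_9fe581_an.AQ

open AP
open AH (BM)

variable {X : Type} [mX0 : MeasurableSpace X] {μ : Measure X} [IsProbabilityMeasure μ] {T : X → X}

/-- a function `F` with `w F(T x) = F x`, `w` an `n`-th root of unity, `w ≠ 1`, is `0` -/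
private theorem erg_zero (hT : Dst μ T) {n : ℕ} (hn : 0 < n) {w : ℂ} (hw : w ^ n = 1) (hw1 : w ≠ 1) {F : X → ℂ}
    (hF : Measurable F) (h : ∀ x, w * F (T x) = F x) : F =ᵐ[μ] 0 := by
  classical
  have hwn : ‖w‖ = 1 := Complex.norm_eq_one_of_pow_eq_one hw hn.ne'
  have hw0 : w ≠ 0 := by
    rintro rfl
    simp at hwn
  have h1 : ∀ x, ‖F (T x)‖ = ‖F x‖ := fun x => by
    rw [← h x, norm_mul, hwn, one_mul]
  obtain ⟨c, hc⟩ := hT.erg.toPreErgodic.ae_eq_const_of_ae_eq_comp (g := fun x => ‖F x‖) hF.norm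
    (funext h1)
  have hFT : ∀ x, F (T x) = 0 ↔ F x = 0 := fun x => by
    rw [← norm_eq_zero, h1, norm_eq_zero]
  by_cases hc0 : c = 0
  · filter_upwards [hc] with x hx
    rw [hc0] at hx
    exact norm_eq_zero.1 hx
  exfalso
  have hne : ∀ᵐ x ∂μ, F x ≠ 0 := by
    filter_upwards [hc] with x hx h0
    apply hc0
    have : ‖F x‖ = c := hx
    rw [← this, h0, norm_zero]
  set v : X → ℂ := fun x => if F x = 0 then 1 else F x / (‖F x‖ : ℂ) with hv
  have hvm : Measurable v := Measurable.ite (measurableSet_eq_fun hF measurable_const) measurable_const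
    (hF.div (Complex.measurable_ofReal.comp hF.norm))
  have hv1 : ∀ x, ‖v x‖ = 1 := by
    intro x
    by_cases h0 : F x = 0
    · simp [hv, h0]
    · have : ‖F x‖ ≠ 0 := norm_ne_zero_iff.2 h0
      simp [hv, h0]
  have hvT : ∀ x, F x ≠ 0 → w * v (T x) = v x := by
    intro x h0
    have h2 : F (T x) ≠ 0 := fun h3 => h0 ((hFT x).1 h3)
    simp only [hv, if_neg h0, if_neg h2, h1]
    rw [mul_div_assoc', h]
  have hvT0 : ∀ x, F x = 0 → v (T x) = v x := by
    intro x h0
    simp only [hv, if_pos h0, if_pos ((hFT x).2 h0)]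
  have hvc : Cls T (FF μ T 0) v := by
    refine ⟨hvm, hv1, ?_⟩
    refine FF_of_const (c := w⁻¹) ((hvm.comp hT.meas).mul (Complex.continuous_conj.measurable.comp hvm)) ?_
    filter_upwards [hne] with x hx
    have h2 := hvT x hx
    have h3 : v x * conj (v x) = 1 := AH.unim_mul _ (hv1 x)
    show v (T x) * conj (v x) = w⁻¹
    refine eq_inv_of_mul_eq_one_left ?_
    rw [mul_comm, ← mul_assoc, h2, h3]
  have hvn : Measurable[(FF μ T 0).m] fun x => v x ^ n := by
    have h2 : (fun x => v x ^ n) ∘ T = fun x => v x ^ n := by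
      funext x
      show v (T x) ^ n = v x ^ n
      by_cases h0 : F x = 0
      · rw [hvT0 x h0]
      · rw [← hvT x h0, mul_pow, hw, one_mul]
    obtain ⟨d, hd⟩ := hT.erg.toPreErgodic.ae_eq_const_of_ae_eq_comp (hvm.pow_const n) h2
    exact FF_of_const (hvm.pow_const n) hd
  obtain ⟨d, hd⟩ := FF_const (cls_bd hvc) (hT.tor0 v n hn hvc hvn)
  have hdT : ∀ᵐ x ∂μ, v (T x) = d := hT.pres.quasiMeasurePreserving.ae hd
  obtain ⟨x, h2, h3, h4⟩ := (hd.and (hdT.and hne)).exists
  have h5 := hvT x h4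
  have h6 : d ≠ 0 := by
    intro h0
    have := hv1 x
    rw [h2, h0, norm_zero] at this
    exact zero_ne_one this
  apply hw1
  have h7 : w * d = 1 * d := by rw [one_mul, ← h3, h5, h2, h3]
  exact mul_right_cancel₀ h6 h7

/-- **the powers are ergodic**: for `f` bounded with `f ∘ T^n = f` and `ζ^n = 1` put `f_ζ = (1/n) ∑_{k<n} ζ^{-k} f ∘ T^k`: then
`f_ζ ∘ T = ζ f_ζ`, `|f_ζ|` is constant; if it is not `0` then `v = f_ζ / |f_ζ|` (corrected on a null set) is in `EE 0` and `v^n` is
invariant, so constant, so `v` is in `FF 0` by `hT.tor0`, so `v` is constant and `ζ = 1`; so `f = f_1` is `T`-invariant -/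
theorem erg_pow (hT : Dst μ T) {n : ℕ} (hn : 0 < n) : Ergodic T^[n] μ := by
  classical
  refine ⟨hT.pres.iterate n, ⟨fun s hs hTs => ?_⟩⟩
  set f : X → ℂ := s.indicator fun _ => (1 : ℂ) with hf
  have hfm : Measurable f := measurable_const.indicator hs
  have hfT : ∀ x, f (T^[n] x) = f x := by
    intro x
    have h1 : T^[n] x ∈ s ↔ x ∈ s := by
      rw [← Set.mem_preimage, hTs]
    by_cases h0 : x ∈ s
    · rw [hf, Set.indicator_of_mem h0, Set.indicator_of_mem (h1.2 h0)]
    · rw [hf, Set.indicator_of_notMem h0, Set.indicator_of_notMem fun h2 => h0 (h1.1 h2)]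
  let G : ℂ → X → ℂ := fun w x => ∑ k ∈ range n, w ^ k * f (T^[k] x)
  have hGm : ∀ w, Measurable (G w) := fun w =>
    Finset.measurable_sum _ fun k _ => (hfm.comp (hT.meas.iterate k)).const_mul _
  have hGT : ∀ w : ℂ, w ^ n = 1 → ∀ x, w * G w (T x) = G w x := by
    intro w hw x
    have h1 : w * G w (T x) = ∑ k ∈ range n, w ^ (k + 1) * f (T^[k + 1] x) := by
      show w * ∑ k ∈ range n, w ^ k * f (T^[k] (T x)) = _
      rw [mul_sum]
      refine sum_congr rfl fun k _ => ?_
      rw [Function.iterate_succ_apply, pow_succ]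
      ring
    have h2 := Finset.sum_range_succ (fun k => w ^ k * f (T^[k] x)) n
    rw [Finset.sum_range_succ'] at h2
    simp only [hw, hfT, pow_zero, one_mul, Function.iterate_zero, id_eq] at h2
    rw [h1]
    exact add_right_cancel h2
  set z : ℂ := Complex.exp (2 * Real.pi * Complex.I / n) with hz
  have hzp : IsPrimitiveRoot z n := Complex.isPrimitiveRoot_exp n hn.ne'
  have hsum : ∀ x, ∑ j ∈ range n, G (z ^ j) x = n * f x := by
    intro x
    show ∑ j ∈ range n, ∑ k ∈ range n, (z ^ j) ^ k * f (T^[k] x) = n * f x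
    rw [sum_comm]
    have h1 : ∀ k ∈ range n, ∑ j ∈ range n, (z ^ j) ^ k * f (T^[k] x) = if k = 0 then n * f x else 0 := by
      intro k hk
      rw [← sum_mul]
      by_cases hk0 : k = 0
      · simp [hk0]
      · rw [if_neg hk0]
        have h2 : ∑ j ∈ range n, (z ^ j) ^ k = ∑ j ∈ range n, (z ^ k) ^ j :=
          sum_congr rfl fun j _ => by rw [← pow_mul, ← pow_mul, mul_comm]
        have h3 : (z ^ k - 1) * ∑ j ∈ range n, (z ^ k) ^ j = 0 := by
          rw [mul_geom_sum, ← pow_mul, mul_comm k n, pow_mul, hzp.pow_eq_one, one_pow, sub_self]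
        have h4 : z ^ k - 1 ≠ 0 := sub_ne_zero.2 (hzp.pow_ne_one_of_pos_of_lt hk0 (mem_range.1 hk))
        rw [h2, (mul_eq_zero.1 h3).resolve_left h4, zero_mul]
    rw [sum_congr rfl h1, sum_ite_eq' (range n) 0, if_pos (mem_range.2 hn)]
  have hzero : ∀ᵐ x ∂μ, ∀ j ∈ range n, j ≠ 0 → G (z ^ j) x = 0 := by
    rw [eventually_all_finset]
    intro j hj
    by_cases hj0 : j = 0
    · exact Eventually.of_forall fun x h => absurd hj0 h
    · have h1 : (z ^ j) ^ n = 1 := by rw [← pow_mul, mul_comm, pow_mul, hzp.pow_eq_one, one_pow]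
      filter_upwards [erg_zero hT hn h1 (hzp.pow_ne_one_of_pos_of_lt hj0 (mem_range.1 hj)) (hGm _) (hGT _ h1)] with x hx _
      exact hx
  obtain ⟨c, hc⟩ := hT.erg.toPreErgodic.ae_eq_const_of_ae_eq_comp (hGm 1)
    (funext fun x => by simpa using hGT 1 (one_pow n) x)
  have hfc : ∀ᵐ x ∂μ, (n : ℂ) * f x = c := by
    filter_upwards [hzero, hc] with x h1 h2
    rw [← hsum x, sum_eq_single_of_mem 0 (mem_range.2 hn) fun j hj hj0 => h1 j hj hj0, pow_zero]
    exact h2
  have hn0 : (n : ℂ) ≠ 0 := Nat.cast_ne_zero.2 hn.ne'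
  rw [eventuallyConst_set]
  by_cases hc1 : c = n
  · left
    filter_upwards [hfc] with x hx
    by_contra h0
    rw [hf, Set.indicator_of_notMem h0, mul_zero, hc1] at hx
    exact hn0 hx.symm
  · right
    filter_upwards [hfc] with x hx h0
    rw [hf, Set.indicator_of_mem h0, mul_one] at hx
    exact hc1 hx.symm

theorem sys_pow (hT : Dst μ T) {n : ℕ} (hn : 0 < n) : Sys μ T^[n] := by
  obtain ⟨R, h1, h2, h3⟩ := hT.inv
  exact ⟨erg_pow hT hn, R^[n], h1.iterate n, fun x => (Function.LeftInverse.iterate h2 n) x,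
    fun x => (Function.LeftInverse.iterate h3 n) x⟩

end Pool.Agent.Lib.MP_9fe581_an.AQ
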