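import Pool.Agent.Lib.MP_9fe581_an.AQ.Nc
import Pool.Agent.Lib.MP_9fe581_an.AQ.En
import Pool.Agent.Lib.MP_9fe581_an.AQ.Dens

/-!
# AQ, FiltA: ergodic joinings respect the filtration
-/

set_option autoImplicit false
set_option linter.unusedSectionVars false
set_option warn.classDefReducibility false

open Finset MeasureTheory Filter Topology ProbabilityTheory
open scoped ComplexConjugate

namespace Pool.Agent.Lib.MP_9fe581_an.AQ

open AP
open AH (BM)

variable {X : Type} [mX0 : MeasurableSpace X] {μ : Measure X} [IsProbabilityMeasure μ] {T : X → X} [StandardBorelSpace X]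
  {X' : Type} [mX' : MeasurableSpace X'] {μ' : Measure X'} [IsProbabilityMeasure μ'] {T' : X' → X'}
  {p q : ℕ} {lam : Measure (X × X')} [StandardBorelSpace X']

omit [StandardBorelSpace X] [StandardBorelSpace X'] in
/-- the bound for a pairing over a joining -/
private theorem fa_cs (hJ : PJ μ T μ' T' p q lam) {F : X → ℂ} {k : X' → ℂ} (hF : BM μ F) (hk : BM μ' k) :
    ‖∫ z : X × X', F z.1 * conj (k z.2) ∂lam‖ ≤ nrm μ F * nrm μ' k := by
  have hp := hJ.prob
  have h1 := nrm_cs (hF.comp hJ.fst) (hk.comp hJ.snd)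
  have h2 : nrm lam (fun z : X × X' => F z.1) = nrm μ F := by
    unfold nrm
    rw [hJ.nsq_fst hF]
  have h3 : nrm lam (fun z : X × X' => k z.2) = nrm μ' k := by
    unfold nrm
    rw [hJ.nsq_snd hk]
  rw [h2, h3] at h1
  exact h1

omit [StandardBorelSpace X] [StandardBorelSpace X'] in
/-- finite sums with vanishing terms may be subtracted in the first factor -/
private theorem fa_split1 (hJ : PJ μ T μ' T' p q lam) {n : ℕ} {F : X → ℂ} {k : X' → ℂ} (hF : BM μ F) (hk : BM μ' k) {w : Fin n → X → ℂ}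
    (hw : ∀ i, BM μ (w i)) (h0 : ∀ i, ∫ z : X × X', w i z.1 * conj (k z.2) ∂lam = 0) :
    ∫ z : X × X', F z.1 * conj (k z.2) ∂lam = ∫ z : X × X', (F z.1 - ∑ i, w i z.1) * conj (k z.2) ∂lam := by
  have hp := hJ.prob
  have hi : ∀ i, Integrable (fun z : X × X' => w i z.1 * conj (k z.2)) lam := fun i =>
    (((hw i).comp hJ.fst).mul (hk.comp hJ.snd).conj).integrable
  have h1 : (fun z : X × X' => (F z.1 - ∑ i, w i z.1) * conj (k z.2)) =
      fun z : X × X' => F z.1 * conj (k z.2) - ∑ i, w i z.1 * conj (k z.2) := by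
    funext z
    rw [sub_mul, sum_mul]
  rw [h1, integral_sub ((hF.comp hJ.fst).mul (hk.comp hJ.snd).conj).integrable (integrable_finsetSum _ fun i _ => hi i),
    integral_finsetSum _ fun i _ => hi i, sum_eq_zero fun i _ => h0 i, sub_zero]

omit [StandardBorelSpace X] [StandardBorelSpace X'] in
/-- the same in the second factor -/
private theorem fa_split2 (hJ : PJ μ T μ' T' p q lam) {n : ℕ} {F : X → ℂ} {k : X' → ℂ} (hF : BM μ F) (hk : BM μ' k)
    {w : Fin n → X' → ℂ} (hw : ∀ i, BM μ' (w i)) (h0 : ∀ i, ∫ z : X × X', F z.1 * conj (w i z.2) ∂lam = 0) :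
    ∫ z : X × X', F z.1 * conj (k z.2) ∂lam = ∫ z : X × X', F z.1 * conj (k z.2 - ∑ i, w i z.2) ∂lam := by
  have hp := hJ.prob
  have hi : ∀ i, Integrable (fun z : X × X' => F z.1 * conj (w i z.2)) lam := fun i =>
    ((hF.comp hJ.fst).mul ((hw i).comp hJ.snd).conj).integrable
  have h1 : (fun z : X × X' => F z.1 * conj (k z.2 - ∑ i, w i z.2)) =
      fun z : X × X' => F z.1 * conj (k z.2) - ∑ i, F z.1 * conj (w i z.2) := by
    funext z
    rw [map_sub, map_sum, mul_sub, mul_sum]
  rw [h1, integral_sub ((hF.comp hJ.fst).mul (hk.comp hJ.snd).conj).integrable (integrable_finsetSum _ fun i _ => hi i),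
    integral_finsetSum _ fun i _ => hi i, sum_eq_zero fun i _ => h0 i, sub_zero]

omit [StandardBorelSpace X] [StandardBorelSpace X'] [IsProbabilityMeasure μ] [IsProbabilityMeasure μ'] in
/-- the multiples of a class by functions of `FF h` are in the mode of the class -/
private theorem fa_mode {h : ℕ} {v a : X → ℂ} (hv : v ∈ EE μ T h) (ha : Measurable[(FF μ T h).m] a) :
    Mode μ T h v fun x => v x * a x := by
  have e : (fun x => conj (v x) * (v x * a x)) = a := by
    funext x
    have h1 := AH.unim_mul (v x) (hv.norm x)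
    calc conj (v x) * (v x * a x) = (v x * conj (v x)) * a x := by ring
      _ = a x := by rw [h1, one_mul]
  unfold Mode
  rw [e]
  exact ha

omit [StandardBorelSpace X] [StandardBorelSpace X'] [IsProbabilityMeasure μ] [IsProbabilityMeasure μ'] in
private theorem fa_small {c : ℂ} {B : ℝ} (hB : 0 ≤ B) (h : ∀ δ : ℝ, 0 < δ → ‖c‖ ≤ δ * B) : c = 0 := by
  rw [← norm_eq_zero]
  refine le_antisymm (le_of_forall_pos_le_add fun ε hε => ?_) (norm_nonneg _)
  have h1 := h (ε / (B + 1)) (by positivity)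
  have h2 : ε / (B + 1) * B ≤ ε := by
    rw [div_mul_eq_mul_div, div_le_iff₀ (by positivity)]
    nlinarith
  linarith

/-- from `FP j`: `∫ G(x) conj k(y) = ∫ E(G | FF j)(x) conj k(y)`, `G` in `FF (j+1)`, `k` in `FF' j`: `modes_dense0` for a bounded
representative of `G - E(G | FF j)`, each term is `0` by `FP j` -/
theorem fp_av (hT : Dst μ T) (hJ : PJ μ T μ' T' p q lam) {j : ℕ} (hP : FP μ T μ' T' lam j) {G : X → ℂ} (hG : Bd G)
    (hGm : Measurable[(FF μ T (j + 1)).m] G) {k : X' → ℂ} (hk : Bd k) (hkm : Measurable[(FF μ' T' j).m] k) :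
    ∫ z : X × X', G z.1 * conj (k z.2) ∂lam = ∫ z : X × X', ce μ (FF μ T j) G z.1 * conj (k z.2) ∂lam := by
  have hp := hJ.prob
  have hD : (FF μ T j).m ≤ mX0 := FF_le j
  have hGB : BM μ G := hG.bm
  obtain ⟨G1, hG1m, hG1b, hG1⟩ := ce_rep hD hGB
  have hF : Bd fun x => G x - G1 x := hG.sub hG1b
  have hFm : Measurable[(FF μ T (j + 1)).m] fun x => G x - G1 x := hGm.sub (hG1m.mono (FF_mono j) le_rfl)
  have h0 : ce μ (FF μ T j) (fun x => G x - G1 x) =ᵐ[μ] 0 := by
    have hG1B : BM μ G1 := hG1b.bm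
    have h1 := ce_sub (D := FF μ T j) hGB hG1B
    have h2 := ce_self hD hG1B hG1m
    filter_upwards [h1, hG1] with x a b
    rw [a, h2, b, sub_self]
    rfl
  have hz : ∫ z : X × X', (G z.1 - G1 z.1) * conj (k z.2) ∂lam = 0 := by
    refine fa_small (nrm_nonneg (μ := μ') k) fun δ hδ => ?_
    obtain ⟨n, v, a, hv, hvn, ha, ham, hn⟩ := modes_dense0 (EE_gp hT j) hF hFm h0 hδ
    have hw : ∀ i, Bd fun x => v i x * a i x := fun i => (cls_bd (hv i)).mul (ha i)
    have h3 := fa_split1 hJ (F := fun x => G x - G1 x) (w := fun i x => v i x * a i x) hF.bm hk.bm (fun i => (hw i).bm)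
      (fun i => hP (v i) (hv i) (hvn i) _ (hw i) (fa_mode (hv i) (ham i)) k hk hkm)
    rw [h3]
    refine (fa_cs hJ (F := fun x => G x - G1 x - ∑ i, v i x * a i x) (hF.bm.sub (BM.sum univ fun i _ => (hw i).bm)) hk.bm).trans ?_
    exact mul_le_mul_of_nonneg_right hn (nrm_nonneg _)
  have h4 : ∫ z : X × X', G z.1 * conj (k z.2) ∂lam = ∫ z : X × X', G1 z.1 * conj (k z.2) ∂lam := by
    rw [← sub_eq_zero, ← integral_sub ((hG.bm.comp hJ.fst).mul (hk.bm.comp hJ.snd).conj).integrable
      ((hG1b.bm.comp hJ.fst).mul (hk.bm.comp hJ.snd).conj).integrable, ← hz]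
    refine integral_congr_ae (Eventually.of_forall fun z => ?_)
    dsimp only
    rw [sub_mul]
  rw [h4]
  refine integral_congr_ae ?_
  have h5 := hJ.fst.quasiMeasurePreserving.ae_eq_comp hG1
  filter_upwards [h5] with z hz'
  have h6 : G1 z.1 = ce μ (FF μ T j) G z.1 := hz'
  rw [h6]

/-- orthogonality to a mode `v b` of the level below, `v ∈ EE' j`, `b` in `FF' j` (copy of `AH.fp_pure`): `corr_prod2` with
`f = f2`, `g = g2 = v b`; the term `r` is by `fp_av` at most `sup |k_r| ‖E(f ∘ T^(pr) conj f | FF j)‖`, the average of the squares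
is the energy of `f` for `T^p`, which tends to `0` by `nc` -/
theorem fp_pure (hT : Dst μ T) (hT' : Dst μ' T') (hJ : PJ μ T μ' T' p q lam) {j : ℕ} (hP : FP μ T μ' T' lam j)
    {e : X → ℂ} (he : e ∈ EE μ T (j + 1)) (hne : ¬ Measurable[(FF μ T (j + 1)).m] e) {f : X → ℂ} (hf : Bd f)
    (hM : Mode μ T (j + 1) e f) {v : X' → ℂ} (hv : v ∈ EE μ' T' j) {b : X' → ℂ} (hb : Bd b)
    (hbm : Measurable[(FF μ' T' j).m] b) : ∫ z : X × X', f z.1 * conj (v z.2 * b z.2) ∂lam = 0 := by
  have hpr := hJ.prob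
  obtain ⟨g, hgdef⟩ : ∃ g : X' → ℂ, g = fun x => v x * b x := ⟨_, rfl⟩
  have hg : Bd g := by
    rw [hgdef]
    exact (cls_bd hv).mul hb
  have hgM : Mode μ' T' j v g := by
    rw [hgdef]
    exact fa_mode hv hbm
  have hgoal : ∫ z : X × X', f z.1 * conj (v z.2 * b z.2) ∂lam = ∫ z : X × X', f z.1 * conj (g z.2) ∂lam := by
    rw [hgdef]
  rw [hgoal]
  have hB : BM lam fun z : X × X' => f z.1 * conj (g z.2) := (hf.bm.comp hJ.fst).mul (hg.bm.comp hJ.snd).conj
  have hlim := corr_prod2 (S := T^[p]) (S' := T'^[q]) hJ.erg (f := f) (g := g) (f2 := f) (g2 := g) hB hB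
  have hen := nc hT (n := p) hJ.pp.pos he hne hf hM
  obtain ⟨D, hDb⟩ := hg.bdd
  obtain ⟨x0⟩ : Nonempty X' := by
    by_contra hX
    rw [not_nonempty_iff] at hX
    have h1 := measure_univ (μ := μ')
    rw [Set.univ_eq_empty_iff.2 hX, measure_empty] at h1
    exact zero_ne_one h1
  have hD0 : 0 ≤ D := (norm_nonneg _).trans (hDb x0)
  obtain ⟨A, hA⟩ : ∃ A : ℕ → ℝ, A = fun r => nsq μ (ce μ (FF μ T j) fun y => f y * conj (f ((T^[p])^[r] y))) := ⟨_, rfl⟩
  have hA0 : ∀ r, 0 ≤ A r := fun r => by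
    rw [hA]
    exact nsq_nonneg _
  have hterm : ∀ r, ‖∫ z : X × X', (f ((T^[p])^[r] z.1) * conj (f z.1)) * conj (g ((T'^[q])^[r] z.2) * conj (g z.2)) ∂lam‖ ≤
      D ^ 2 * Real.sqrt (A r) := by
    intro r
    have hG1 : Bd fun x => f ((T^[p])^[r] x) * conj (f x) := (hf.comp ((hT.meas.iterate p).iterate r)).mul hf.conj
    have hG2 : Measurable[(FF μ T (j + 1)).m] fun x => f ((T^[p])^[r] x) * conj (f x) := by
      have h1 := mode_corr hT he hM (p * r)
      rw [← Function.iterate_mul]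
      exact h1
    have hk1 : Bd fun x => g ((T'^[q])^[r] x) * conj (g x) := (hg.comp ((hT'.meas.iterate q).iterate r)).mul hg.conj
    have hk2 : Measurable[(FF μ' T' j).m] fun x => g ((T'^[q])^[r] x) * conj (g x) := by
      have h1 := mode_corr hT' hv hgM (q * r)
      rw [← Function.iterate_mul]
      exact h1
    have h1 := fp_av hT hJ hP hG1 hG2 hk1 hk2
    rw [h1]
    refine (fa_cs hJ (ce_bm hG1.bm) hk1.bm).trans ?_
    have h2 : nrm μ (ce μ (FF μ T j) fun x => f ((T^[p])^[r] x) * conj (f x)) = Real.sqrt (A r) := by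
      unfold nrm
      congr 1
      rw [hA]
      have h3 : (fun y => f y * conj (f ((T^[p])^[r] y))) = fun y => conj (f ((T^[p])^[r] y) * conj (f y)) := by
        funext y
        rw [map_mul, Complex.conj_conj]
        ring
      show nsq μ (ce μ (FF μ T j) fun x => f ((T^[p])^[r] x) * conj (f x)) =
        nsq μ (ce μ (FF μ T j) fun y => f y * conj (f ((T^[p])^[r] y)))
      rw [h3, nsq_congr (ce_conj (FF_le j) hG1.bm.integrable)]
      unfold nsq
      refine integral_congr_ae (Eventually.of_forall fun x => ?_)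
      dsimp only
      rw [RCLike.norm_conj]
    have h4 : nrm μ' (fun x => g ((T'^[q])^[r] x) * conj (g x)) ≤ D ^ 2 := by
      unfold nrm
      refine Real.sqrt_le_iff.2 ⟨by positivity, ?_⟩
      unfold nsq
      have h5 : ∫ x, ‖g ((T'^[q])^[r] x) * conj (g x)‖ ^ 2 ∂μ' ≤ ∫ _ : X', (D ^ 2) ^ 2 ∂μ' := by
        refine integral_mono_ae hk1.bm.int_sq (integrable_const _) (Eventually.of_forall fun x => ?_)
        refine pow_le_pow_left₀ (norm_nonneg _) ?_ 2
        rw [norm_mul, RCLike.norm_conj, pow_two]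
        exact mul_le_mul (hDb _) (hDb _) (norm_nonneg _) hD0
      simpa using h5
    rw [h2, mul_comm]
    exact mul_le_mul_of_nonneg_right h4 (Real.sqrt_nonneg _)
  have hz : Tendsto (fun R : ℕ => (1 / (R : ℂ)) * ∑ r ∈ range R,
      ∫ z : X × X', (f ((T^[p])^[r] z.1) * conj (f z.1)) * conj (g ((T'^[q])^[r] z.2) * conj (g z.2)) ∂lam) atTop (𝓝 0) := by
    rw [tendsto_zero_iff_norm_tendsto_zero]
    have h1 : Tendsto (fun R : ℕ => D ^ 2 * Real.sqrt ((1 / (R : ℝ)) * ∑ r ∈ range R, A r)) atTop (𝓝 0) := by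
      have h2 := (Real.continuous_sqrt.tendsto 0).comp hen
      rw [Real.sqrt_zero] at h2
      have h3 := h2.const_mul (D ^ 2)
      rw [mul_zero] at h3
      refine h3.congr fun R => ?_
      rw [hA]
      rfl
    refine squeeze_zero' (Eventually.of_forall fun R => norm_nonneg _) ?_ h1
    filter_upwards [eventually_gt_atTop 0] with R hR
    have hR' : (0 : ℝ) < R := by exact_mod_cast hR
    rw [norm_mul, norm_div, norm_one, Complex.norm_natCast]
    calc (1 / (R : ℝ)) * ‖∑ r ∈ range R,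
          ∫ z : X × X', (f ((T^[p])^[r] z.1) * conj (f z.1)) * conj (g ((T'^[q])^[r] z.2) * conj (g z.2)) ∂lam‖
        ≤ (1 / (R : ℝ)) * ∑ r ∈ range R, D ^ 2 * Real.sqrt (A r) := by
          refine mul_le_mul_of_nonneg_left ((norm_sum_le _ _).trans (sum_le_sum fun r _ => hterm r)) (by positivity)
      _ = D ^ 2 * ((1 / (R : ℝ)) * ∑ r ∈ range R, Real.sqrt (A r)) := by rw [← mul_sum]; ring
      _ ≤ D ^ 2 * Real.sqrt ((1 / (R : ℝ)) * ∑ r ∈ range R, A r) := by
          refine mul_le_mul_of_nonneg_left ?_ (by positivity)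
          refine Real.le_sqrt_of_sq_le ?_
          have h4 : (∑ r ∈ range R, Real.sqrt (A r)) ^ 2 ≤ R * ∑ r ∈ range R, A r := by
            have := sq_sum_le_card_mul_sum_sq (s := range R) (f := fun r => Real.sqrt (A r))
            rw [card_range] at this
            refine this.trans (le_of_eq ?_)
            congr 1
            exact sum_congr rfl fun r _ => Real.sq_sqrt (hA0 r)
          rw [mul_pow]
          calc (1 / (R : ℝ)) ^ 2 * (∑ r ∈ range R, Real.sqrt (A r)) ^ 2 ≤ (1 / (R : ℝ)) ^ 2 * (R * ∑ r ∈ range R, A r) :=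
                mul_le_mul_of_nonneg_left h4 (by positivity)
            _ = (1 / (R : ℝ)) * ∑ r ∈ range R, A r := by field_simp
  have h6 := tendsto_nhds_unique hlim hz
  rcases mul_eq_zero.1 h6 with h7 | h7
  · exact h7
  · exact (map_eq_zero _).1 h7

/-- **the filtration property** (copy of `AH.filt_all`), induction on `a`: `a = 0`: `mode_zero`, constants; `a = j + 1`:
`modes_dense` for `g` and `fp_pure` -/
theorem filt (hT : Dst μ T) (hT' : Dst μ' T') (hJ : PJ μ T μ' T' p q lam) (a : ℕ) : FP μ T μ' T' lam a := by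
  have hpr := hJ.prob
  induction a with
  | zero =>
    intro e he hne f hf hM g hg hgm
    obtain ⟨c, hc⟩ := FF_const hg hgm
    have h0 := mode_zero hT he hne hf hM
    have h1 : ∫ x, f x ∂μ = 0 := by
      have h2 : ∫ x, ce μ (FF μ T 0) f x ∂μ = ∫ x, f x ∂μ := integral_condExp (FF_le 0)
      rw [← h2, integral_congr_ae h0]
      simp
    have h3 : ∫ z : X × X', f z.1 * conj (g z.2) ∂lam = ∫ z : X × X', f z.1 * conj c ∂lam := by
      refine integral_congr_ae ?_
      have h4 := hJ.snd.quasiMeasurePreserving.ae_eq_comp hc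
      filter_upwards [h4] with z hz
      have h5 : g z.2 = c := hz
      rw [h5]
    have h6 : ∫ z : X × X', f z.1 ∂lam = ∫ x, f x ∂μ := by
      rw [← hJ.fst.map_eq, integral_map measurable_fst.aemeasurable]
      exact hf.meas.aestronglyMeasurable
    rw [h3, integral_mul_const, h6, h1, zero_mul]
  | succ j ih =>
    intro e he hne f hf hM g hg hgm
    refine fa_small (nrm_nonneg (μ := μ) f) fun δ hδ => ?_
    obtain ⟨n, v, b, hv, -, hb, hbm, hn⟩ := modes_dense (EE_gp hT' j) hg hgm hδ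
    have hw : ∀ i, Bd fun x => v i x * b i x := fun i => (cls_bd (hv i)).mul (hb i)
    have h3 := fa_split2 hJ (F := f) (k := g) (w := fun i x => v i x * b i x) hf.bm hg.bm (fun i => (hw i).bm)
      (fun i => fp_pure hT hT' hJ ih he hne hf hM (hv i) (hb i) (hbm i))
    rw [h3]
    refine (fa_cs hJ (k := fun x => g x - ∑ i, v i x * b i x) hf.bm (hg.bm.sub (BM.sum univ fun i _ => (hw i).bm))).trans ?_
    rw [mul_comm]
    exact mul_le_mul_of_nonneg_right hn (nrm_nonneg _)

end Pool.Agent.Lib.MP_9fe581_an.AQ
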