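import Pool.Agent.Lib.MP_9fe581_an.AQ.Base

/-!
# AQ, Levy: the canonical factors exhaust `L²`
-/

set_option autoImplicit false
set_option linter.unusedSectionVars false
set_option warn.classDefReducibility false

open Finset MeasureTheory Filter Topology ProbabilityTheory
open scoped ComplexConjugate

namespace Pool.Agent.Lib.MP_9fe581_an.AQ

open AP
open AH (BM)

variable {X : Type} [mX0 : MeasurableSpace X] {μ : Measure X} [IsProbabilityMeasure μ] {T : X → X}

/-- the filtration of the canonical factors -/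
private noncomputable def FFil (μ : Measure X) [IsProbabilityMeasure μ] (T : X → X) : Filtration ℕ mX0 where
  seq := fun j => (FF μ T j).m
  mono' := fun _ _ hab => FF_mono' hab
  le' := fun j => FF_le j

private theorem levy_re {f : X → ℂ} (hf : BM μ f) (L : ℂ →L[ℝ] ℝ) :
    ∀ᵐ x ∂μ, Tendsto (fun n => L (ce μ (FF μ T n) f x)) atTop
      (𝓝 (L ((μ[f | ⨆ n, FFil μ T n]) x))) := by
  have h1 := tendsto_ae_condExp (μ := μ) (ℱ := FFil μ T) (L ∘ f)
  have h2 : ∀ n, ∀ᵐ x ∂μ, L (ce μ (FF μ T n) f x) = (μ[L ∘ f | FFil μ T n]) x := fun n =>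
    ContinuousLinearMap.comp_condExp_comm (m := FFil μ T n) hf.integrable L
  have h3 : ∀ᵐ x ∂μ, L ((μ[f | ⨆ n, FFil μ T n]) x) = (μ[L ∘ f | ⨆ n, FFil μ T n]) x :=
    ContinuousLinearMap.comp_condExp_comm (m := ⨆ n, FFil μ T n) hf.integrable L
  rw [← ae_all_iff] at h2
  filter_upwards [h1, h2, h3] with x a b c
  rw [c]
  exact a.congr fun n => (b n).symm

private theorem levy_ae {f : X → ℂ} (hf : BM μ f) :
    ∀ᵐ x ∂μ, Tendsto (fun n => ce μ (FF μ T n) f x) atTop (𝓝 ((μ[f | ⨆ n, FFil μ T n]) x)) := by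
  filter_upwards [levy_re (T := T) hf Complex.reCLM, levy_re (T := T) hf Complex.imCLM] with x a b
  have h := (Complex.continuous_ofReal.tendsto _).comp a
  have h' := ((Complex.continuous_ofReal.tendsto _).comp b).mul_const Complex.I
  have h2 := h.add h'
  simp only [Complex.reCLM_apply, Complex.imCLM_apply, Function.comp_def, Complex.re_add_im] at h2
  exact h2

/-- **the factors exhaust**: `E(f | FF j) → E(f | ⨆ FF j)` almost everywhere (`tendsto_ae_condExp` for the real and the imaginary part);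
the difference `f - E(f | ⨆ FF j)` has all `E(· | FF j) = 0`, so it is `0` by `hT.dense`; dominated convergence -/
theorem dense_approx (hT : Dst μ T) {f : X → ℂ} (hf : Bd f) {δ : ℝ} (hδ : 0 < δ) :
    ∃ j0 : ℕ, ∀ j ≥ j0, nrm μ (fun x => f x - ce μ (FF μ T j) f x) ≤ δ := by
  set M : SA X := ⟨⨆ n, FFil μ T n⟩ with hM
  have hMle : M.m ≤ mX0 := iSup_le fun n => FF_le n
  obtain ⟨g, g1, g2, g3⟩ := ce_rep (μ := μ) (D := M) hMle hf.bm
  have hfg : f =ᵐ[μ] g := by
    have h1 : (fun x => f x - g x) =ᵐ[μ] 0 := by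
      refine hT.dense _ (hf.sub g2) fun h => ?_
      have e1 := ce_sub (μ := μ) (D := FF μ T h) hf.bm g2.bm
      have e2 := ce_congr (μ := μ) (D := FF μ T h) g3
      have e3 := ce_tower (μ := μ) (D := FF μ T h) (D' := M) (le_iSup (fun n => (FFil μ T n : MeasurableSpace X)) h) hMle f
      filter_upwards [e1, e2, e3] with x a b c
      rw [a, b, c, sub_self]
      rfl
    filter_upwards [h1] with x hx
    exact sub_eq_zero.1 hx
  obtain ⟨C, hC⟩ := hf.bdd
  have hlim : Tendsto (fun j => nsq μ (fun x => f x - ce μ (FF μ T j) f x)) atTop (𝓝 0) := by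
    have h0 : (0 : ℝ) = ∫ _x : X, (0 : ℝ) ∂μ := by simp
    rw [h0]
    refine tendsto_integral_of_dominated_convergence (fun _ => (C + C) ^ 2) (fun j => ?_) (integrable_const _) (fun j => ?_) ?_
    · exact (hf.bm.sub (ce_bm hf.bm)).int_sq.aestronglyMeasurable
    · have h1 : ∀ᵐ x ∂μ, ‖ce μ (FF μ T j) f x‖ ≤ C :=
        ae_bdd_norm_condExp_of_ae_bdd_norm (m := (FF μ T j).m) (Eventually.of_forall hC)
      filter_upwards [h1] with x hx
      have h2 : ‖f x - ce μ (FF μ T j) f x‖ ≤ C + C := (norm_sub_le _ _).trans (add_le_add (hC x) hx)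
      rw [Real.norm_eq_abs, abs_of_nonneg (by positivity)]
      exact pow_le_pow_left₀ (norm_nonneg _) h2 2
    · filter_upwards [levy_ae (T := T) hf.bm, hfg, g3] with x a b c
      have h1 : (μ[f | ⨆ n, FFil μ T n]) x = f x := by
        rw [b, c]
        rfl
      rw [h1] at a
      have h2 := ((tendsto_const_nhds (x := f x)).sub a).norm.pow 2
      simpa using h2
  have hlim2 : Tendsto (fun j => nrm μ (fun x => f x - ce μ (FF μ T j) f x)) atTop (𝓝 0) := by
    have h1 := (Real.continuous_sqrt.tendsto 0).comp hlim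
    rw [Real.sqrt_zero] at h1
    exact h1
  obtain ⟨j0, hj0⟩ := Filter.eventually_atTop.mp (hlim2.eventually (eventually_le_nhds hδ))
  exact ⟨j0, fun j hj => hj0 j hj⟩

end Pool.Agent.Lib.MP_9fe581_an.AQ
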