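import Pool.Agent.Lib.MP_9fe581_an.AQ.FiltA
import Pool.Agent.Lib.MP_9fe581_an.AQ.Levy

/-!
# AQ, FiltB: the images of `FF a`
-/

set_option autoImplicit false
set_option linter.unusedSectionVars false
set_option warn.classDefReducibility false

open Finset MeasureTheory Filter Topology ProbabilityTheory
open scoped ComplexConjugate

namespace Pool.Agent.Lib.MP_9fe581_an.AQ

open AP
open AH (BM)

variable {X : Type} [mX0 : MeasurableSpace X] {μ : Measure X} [IsProbabilityMeasure μ] {T : X → X} [StandardBorelSpace X]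
  {X' : Type} [mX' : MeasurableSpace X'] {μ' : Measure X'} [IsProbabilityMeasure μ'] {T' : X' → X'}
  {p q : ℕ} {lam : Measure (X × X')} [StandardBorelSpace X']

private theorem fb_snd (hJ : PJ μ T μ' T' p q lam) {g g' : X' → ℂ} (h : g =ᵐ[μ'] g') :
    (fun z : X × X' => g z.2) =ᵐ[lam] fun z => g' z.2 :=
  hJ.snd.quasiMeasurePreserving.ae_eq_comp h

private theorem fb_cs (hJ : PJ μ T μ' T' p q lam) {f : X → ℂ} {g : X' → ℂ} (hf : BM μ f) (hg : BM μ' g) :
    ‖∫ z : X × X', f z.1 * conj (g z.2) ∂lam‖ ≤ nrm μ f * nrm μ' g := by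
  have := hJ.prob
  have h1 : nrm lam (fun z : X × X' => f z.1) = nrm μ f := by
    unfold nrm
    rw [hJ.nsq_fst hf]
  have h2 : nrm lam (fun z : X × X' => g z.2) = nrm μ' g := by
    unfold nrm
    rw [hJ.nsq_snd hg]
  rw [← h1, ← h2]
  exact nrm_cs (hf.comp hJ.fst) (hg.comp hJ.snd)

private theorem fb_int (hJ : PJ μ T μ' T' p q lam) {f : X → ℂ} {g : X' → ℂ} (hf : BM μ f) (hg : BM μ' g) :
    Integrable (fun z : X × X' => f z.1 * conj (g z.2)) lam := by
  have := hJ.prob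
  exact ((hf.comp hJ.fst).mul (hg.comp hJ.snd).conj).integrable

private theorem fb_congr (hJ : PJ μ T μ' T' p q lam) (f : X → ℂ) {g g' : X' → ℂ} (h : g =ᵐ[μ'] g') :
    ∫ z : X × X', f z.1 * conj (g z.2) ∂lam = ∫ z : X × X', f z.1 * conj (g' z.2) ∂lam := by
  refine integral_congr_ae ?_
  filter_upwards [fb_snd hJ h] with z hz
  rw [hz]

private theorem fb_sub (hJ : PJ μ T μ' T' p q lam) {f : X → ℂ} {g g' : X' → ℂ} (hf : BM μ f) (hg : BM μ' g)
    (hg' : BM μ' g') : ∫ z : X × X', f z.1 * conj (g z.2 - g' z.2) ∂lam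
      = ∫ z : X × X', f z.1 * conj (g z.2) ∂lam - ∫ z : X × X', f z.1 * conj (g' z.2) ∂lam := by
  rw [← integral_sub (fb_int hJ hf hg) (fb_int hJ hf hg')]
  refine integral_congr_ae (Eventually.of_forall fun z => ?_)
  dsimp only
  rw [map_sub, mul_sub]

/-- one step: `g` in `FF' (k+1)` with `E(g | FF' k) = 0` is orthogonal to `FF k` of the first factor: `filt` for `hJ.swap`
at the level `k` and `modes_dense0` for `g` -/
theorem filt_one (hT : Dst μ T) (hT' : Dst μ' T') (hJ : PJ μ T μ' T' p q lam) {k : ℕ} {f : X → ℂ} (hf : Bd f)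
    (hfm : Measurable[(FF μ T k).m] f) {g : X' → ℂ} (hg : Bd g) (hgm : Measurable[(FF μ' T' (k + 1)).m] g)
    (h0 : ce μ' (FF μ' T' k) g =ᵐ[μ'] 0) : ∫ z : X × X', f z.1 * conj (g z.2) ∂lam = 0 := by
  have := hJ.prob
  have hP := filt hT' hT hJ.swap k
  -- the terms
  have hterm : ∀ v ∈ EE μ' T' k, ¬ Measurable[(FF μ' T' k).m] v → ∀ a : X' → ℂ, Bd a → Measurable[(FF μ' T' k).m] a →
      ∫ z : X × X', f z.1 * conj (v z.2 * a z.2) ∂lam = 0 := by
    intro v hv hne a ha ham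
    have hvb : Bd v := cls_bd hv
    have hva : Bd fun x => v x * a x := hvb.mul ha
    have hM : Mode μ' T' k v fun x => v x * a x := by
      have e : (fun x => conj (v x) * (v x * a x)) = a := by
        funext x
        rw [← mul_assoc, mul_comm (conj (v x)), Complex.mul_conj', hv.norm x]
        simp
      unfold Mode
      rw [e]
      exact ham
    have h1 := hP v hv hne (fun x => v x * a x) hva hM f hf hfm
    rw [integral_map measurable_swap.aemeasurable] at h1
    · have h2 : ∫ z : X × X', f z.1 * conj (v z.2 * a z.2) ∂lam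
          = conj (∫ z : X × X', (v z.2 * a z.2) * conj (f z.1) ∂lam) := by
        rw [← integral_conj]
        refine integral_congr_ae (Eventually.of_forall fun z => ?_)
        dsimp only
        rw [map_mul (starRingEnd ℂ) (v z.2 * a z.2), Complex.conj_conj]
        ring
      have h3 : ∫ z : X × X', (v z.2 * a z.2) * conj (f z.1) ∂lam = 0 := h1
      rw [h2, h3, map_zero]
    · exact ((hva.meas.comp measurable_fst).mul
        (Complex.continuous_conj.measurable.comp (hf.meas.comp measurable_snd))).aestronglyMeasurable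
  -- approximation
  have hle : ∀ δ : ℝ, 0 < δ → ‖∫ z : X × X', f z.1 * conj (g z.2) ∂lam‖ ≤ nrm μ f * δ := by
    intro δ hδ
    obtain ⟨n, v, a, hv, hvn, hab, ham, hn⟩ := modes_dense0 (EE_gp hT' k) hg hgm h0 hδ
    have hS : BM μ' fun x => ∑ i, v i x * a i x := AH.BM.sum _ fun i _ => ((cls_bd (hv i)).mul (hab i)).bm
    have h1 : ∫ z : X × X', f z.1 * conj (∑ i, v i z.2 * a i z.2) ∂lam = 0 := by
      have e : (fun z : X × X' => f z.1 * conj (∑ i, v i z.2 * a i z.2))
          = fun z => ∑ i, f z.1 * conj (v i z.2 * a i z.2) := by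
        funext z
        rw [map_sum, mul_sum]
      rw [e, integral_finsetSum _ fun i _ => fb_int hJ hf.bm ((cls_bd (hv i)).mul (hab i)).bm]
      exact Finset.sum_eq_zero fun i _ => hterm (v i) (hv i) (hvn i) (a i) (hab i) (ham i)
    have h2 := fb_sub hJ hf.bm hg.bm hS
    rw [h1, sub_zero] at h2
    rw [← h2]
    have h3 := fb_cs hJ hf.bm (hg.bm.sub hS)
    exact h3.trans (mul_le_mul_of_nonneg_left hn (nrm_nonneg _))
  rw [← norm_le_zero_iff]
  refine le_of_forall_pos_le_add fun ε hε => ?_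
  have hc : 0 < nrm μ f + 1 := by
    have := nrm_nonneg (μ := μ) f
    linarith
  refine (hle (ε / (nrm μ f + 1)) (div_pos hε hc)).trans ?_
  rw [zero_add, ← mul_div_assoc, div_le_iff₀ hc]
  nlinarith [nrm_nonneg (μ := μ) f]

/-- the step between two levels -/
private theorem fb_step (hT : Dst μ T) (hT' : Dst μ' T') (hJ : PJ μ T μ' T' p q lam) {k : ℕ} {f : X → ℂ} (hf : Bd f)
    (hfk : Measurable[(FF μ T k).m] f) {g : X' → ℂ} (hg : Bd g) :
    ∫ z : X × X', f z.1 * conj (ce μ' (FF μ' T' (k + 1)) g z.2) ∂lam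
      = ∫ z : X × X', f z.1 * conj (ce μ' (FF μ' T' k) g z.2) ∂lam := by
  obtain ⟨G, G1, G2, G3⟩ := ce_rep (μ := μ') (D := FF μ' T' (k + 1)) (FF_le (k + 1)) hg.bm
  obtain ⟨G', G1', G2', G3'⟩ := ce_rep (μ := μ') (D := FF μ' T' k) (FF_le k) hg.bm
  have hd : Bd fun x => G x - G' x := G2.sub G2'
  have hdm : Measurable[(FF μ' T' (k + 1)).m] fun x => G x - G' x := by
    have h1 : Measurable[(FF μ' T' (k + 1)).m] G' := G1'.mono (FF_mono k) le_rfl
    exact G1.sub h1
  have h0 : ce μ' (FF μ' T' k) (fun x => G x - G' x) =ᵐ[μ'] 0 := by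
    have h1 := ce_sub (μ := μ') (D := FF μ' T' k) G2.bm G2'.bm
    have h2 : ce μ' (FF μ' T' k) G' = G' := ce_self (FF_le k) G2'.bm G1'
    have h3 : ce μ' (FF μ' T' k) G =ᵐ[μ'] ce μ' (FF μ' T' k) (ce μ' (FF μ' T' (k + 1)) g) := ce_congr G3
    have h4 : ce μ' (FF μ' T' k) (ce μ' (FF μ' T' (k + 1)) g) =ᵐ[μ'] ce μ' (FF μ' T' k) g :=
      ce_tower (μ := μ') (D := FF μ' T' k) (D' := FF μ' T' (k + 1)) (FF_mono k) (FF_le (k + 1)) g
    filter_upwards [h1, h3, h4, G3'] with x a b c d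
    rw [a, h2, b, c, ← d, sub_self]
    rfl
  have h5 := filt_one hT hT' hJ hf hfk hd hdm h0
  rw [fb_sub hJ hf.bm G2.bm G2'.bm] at h5
  rw [← fb_congr hJ f G3, ← fb_congr hJ f G3']
  exact sub_eq_zero.1 h5

/-- **level**: `I k = ∫ f(x) conj E(g | FF' k)(y)` is constant for `k ≥ a` by `filt_one` (bounded representatives `ce_rep` of
`E(g | FF' (k+1)) - E(g | FF' k)`) and tends to `∫ f(x) conj g(y)` by `dense_approx` -/
theorem filt_level (hT : Dst μ T) (hT' : Dst μ' T') (hJ : PJ μ T μ' T' p q lam) {a : ℕ} {f : X → ℂ} (hf : Bd f)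
    (hfa : Measurable[(FF μ T a).m] f) {g : X' → ℂ} (hg : Bd g) :
    ∫ z : X × X', f z.1 * conj (g z.2) ∂lam = ∫ z : X × X', f z.1 * conj (ce μ' (FF μ' T' a) g z.2) ∂lam := by
  have hconst : ∀ j : ℕ, ∫ z : X × X', f z.1 * conj (ce μ' (FF μ' T' (a + j)) g z.2) ∂lam
      = ∫ z : X × X', f z.1 * conj (ce μ' (FF μ' T' a) g z.2) ∂lam := by
    intro j
    induction j with
    | zero => rfl
    | succ j ih =>
      rw [← ih]
      exact fb_step hT hT' hJ hf (hfa.mono (FF_mono' (Nat.le_add_right a j)) le_rfl) hg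
  rw [← sub_eq_zero, ← norm_le_zero_iff]
  refine le_of_forall_pos_le_add fun ε hε => ?_
  have hc : 0 < nrm μ f + 1 := by
    have := nrm_nonneg (μ := μ) f
    linarith
  obtain ⟨j0, hj0⟩ := dense_approx hT' hg (div_pos hε hc)
  have h1 := hj0 (a + j0) (Nat.le_add_left j0 a)
  rw [← hconst j0, ← fb_sub hJ hf.bm hg.bm (ce_bm (μ := μ') (D := FF μ' T' (a + j0)) hg.bm), zero_add]
  have h2 := fb_cs hJ hf.bm (hg.bm.sub (ce_bm (μ := μ') (D := FF μ' T' (a + j0)) hg.bm))
  refine (h2.trans (mul_le_mul_of_nonneg_left h1 (nrm_nonneg _))).trans ?_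
  rw [← mul_div_assoc, div_le_iff₀ hc]
  nlinarith [nrm_nonneg (μ := μ) f]

/-- the image of a function in `FF a` is in `FF' a` of the second factor -/
theorem rep_level (hT : Dst μ T) (hT' : Dst μ' T') (hJ : PJ μ T μ' T' p q lam) {a : ℕ} {f : X → ℂ} (hf : Bd f)
    (hfa : Measurable[(FF μ T a).m] f) :
    ∃ u : X' → ℂ, Bd u ∧ Measurable[(FF μ' T' a).m] u ∧
      (ce lam (sec lam) (fun z : X × X' => f z.1) =ᵐ[lam] fun z => u z.2) ∧
      ∀ k : X' → ℂ, Bd k → ∫ z : X × X', f z.1 * conj (k z.2) ∂lam = ∫ x, u x * conj (k x) ∂μ' := by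
  obtain ⟨u, hu, hu1, hu2⟩ := hJ.rep hf
  obtain ⟨w, hw1, hw2, hw3⟩ := ce_rep (μ := μ') (D := FF μ' T' a) (FF_le a) hu.bm
  have key : ∀ k : X' → ℂ, Bd k → ∫ x, u x * conj (k x) ∂μ' = ∫ x, w x * conj (k x) ∂μ' := by
    intro k hk
    obtain ⟨k', k1, k2, k3⟩ := ce_rep (μ := μ') (D := FF μ' T' a) (FF_le a) hk.bm
    have e1 : ∫ x, u x * conj (k x) ∂μ' = ∫ x, u x * conj (k' x) ∂μ' := by
      rw [← hu2 k hk, filt_level hT hT' hJ hf hfa hk, ← fb_congr hJ f k3, hu2 k' k2]
    have e2 : ∫ x, u x * conj (k' x) ∂μ' = ∫ x, w x * conj (k' x) ∂μ' := by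
      rw [ce_int' (FF_le a) hu.bm k2.bm k1]
      refine integral_congr_ae ?_
      filter_upwards [hw3] with x hx
      rw [hx]
    have e3 : ∫ x, w x * conj (k' x) ∂μ' = ∫ x, w x * conj (k x) ∂μ' := by
      have h1 := ce_int' (μ := μ') (FF_le a) hk.bm hw2.bm hw1
      have h2 : ∫ x, ce μ' (FF μ' T' a) k x * conj (w x) ∂μ' = ∫ x, k' x * conj (w x) ∂μ' := by
        refine integral_congr_ae ?_
        filter_upwards [k3] with x hx
        rw [hx]
      have h3 : ∀ h : X' → ℂ, ∫ x, w x * conj (h x) ∂μ' = conj (∫ x, h x * conj (w x) ∂μ') := by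
        intro h
        rw [← integral_conj]
        refine integral_congr_ae (Eventually.of_forall fun x => ?_)
        dsimp only
        rw [map_mul, Complex.conj_conj]
        ring
      rw [h3 k', h3 k, h1, h2]
    rw [e1, e2, e3]
  have hd : Bd fun x => u x - w x := hu.sub hw2
  have hz : nsq μ' (fun x => u x - w x) = 0 := by
    have h1 := key _ hd
    have h2 : ∫ x, (u x - w x) * conj (u x - w x) ∂μ' = 0 := by
      have e : (fun x => (u x - w x) * conj (u x - w x))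
          = fun x => u x * conj (u x - w x) - w x * conj (u x - w x) := by
        funext x
        ring
      rw [e, integral_sub (hu.bm.mul hd.bm.conj).integrable (hw2.bm.mul hd.bm.conj).integrable, h1, sub_self]
    have h3 := nsq_ofReal (μ := μ') fun x => u x - w x
    rw [h2] at h3
    exact_mod_cast h3
  have hae : u =ᵐ[μ'] w := by
    unfold nsq at hz
    rw [integral_eq_zero_iff_of_nonneg (fun x => by positivity) hd.bm.int_sq] at hz
    filter_upwards [hz] with x hx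
    have h1 : ‖u x - w x‖ ^ 2 = 0 := hx
    rw [sq_eq_zero_iff, norm_eq_zero, sub_eq_zero] at h1
    exact h1
  refine ⟨w, hw2, hw1, hu1.trans (fb_snd hJ hae), fun k hk => ?_⟩
  rw [hu2 k hk, key k hk]

end Pool.Agent.Lib.MP_9fe581_an.AQ
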