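import Pool.Agent.Lib.MP_9fe581_an.AQ.FiltB
import Pool.Agent.Lib.MP_9fe581_an.AQ.Pars

/-!
# AQ, FiltC: the images of different modes are orthogonal
-/

set_option autoImplicit false
set_option linter.unusedSectionVars false
set_option warn.classDefReducibility false

open Finset MeasureTheory Filter Topology ProbabilityTheory
open scoped ComplexConjugate

namespace Pool.Agent.Lib.MP_9fe581_an.AQ

open AP
open AH (BM)

variable {X : Type} [mX0 : MeasurableSpace X] {μ : Measure X} [IsProbabilityMeasure μ] {T : X → X} [StandardBorelSpace X]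
  {X' : Type} [mX' : MeasurableSpace X'] {μ' : Measure X'} [IsProbabilityMeasure μ'] {T' : X' → X'}
  {p q : ℕ} {lam : Measure (X × X')} [StandardBorelSpace X']

/-- a function orthogonal to all bounded multiples of `v` has no mode `v` -/
private theorem fc_ce {Z : Type} [mZ : MeasurableSpace Z] {μ : Measure Z} [IsProbabilityMeasure μ] {T : Z → Z} {h : ℕ}
    {v u : Z → ℂ} (hv : v ∈ EE μ T h) (hu : Bd u)
    (h0 : ∀ a : Z → ℂ, Bd a → Measurable[(FF μ T h).m] a → ∫ x, u x * conj (v x * a x) ∂μ = 0) :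
    ce μ (FF μ T h) (fun x => u x * conj (v x)) =ᵐ[μ] 0 := by
  have hle : (FF μ T h).m ≤ mZ := FF_le (μ := μ) (T := T) h
  have hv' : Cls T (FF μ T h) v := hv
  have hB : Bd fun x => u x * conj (v x) := hu.mul (cls_bd hv').conj
  refine (ae_eq_condExp_of_forall_setIntegral_eq hle hB.bm.integrable (fun _ _ _ => integrableOn_zero)
    (fun s hs _ => ?_) aestronglyMeasurable_const).symm
  obtain ⟨b1, b2⟩ := b1_ind hle hs
  have e := h0 _ b1 b2
  have e2 : ∫ x in s, u x * conj (v x) ∂μ = ∫ x, u x * conj (v x * s.indicator (fun _ => (1 : ℂ)) x) ∂μ := by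
    rw [← integral_indicator (hle s hs)]
    refine integral_congr_ae (Eventually.of_forall fun x => ?_)
    show s.indicator (fun x => u x * conj (v x)) x = u x * conj (v x * s.indicator (fun _ => (1 : ℂ)) x)
    by_cases hx : x ∈ s
    · rw [Set.indicator_of_mem hx, Set.indicator_of_mem hx, mul_one]
    · rw [Set.indicator_of_notMem hx, Set.indicator_of_notMem hx, mul_zero, map_zero, mul_zero]
  rw [e2, e]
  simp

/-- `v a` is of mode `v` -/
private theorem fc_mode {Z : Type} [MeasurableSpace Z] {μ : Measure Z} {T : Z → Z} {h : ℕ} {v a : Z → ℂ} (hv : v ∈ EE μ T h) (ha : Measurable[(FF μ T h).m] a) :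
    Mode μ T h v fun x => v x * a x := by
  have hv' : Cls T (FF μ T h) v := hv
  have e : (fun x => conj (v x) * (v x * a x)) = a := by
    ext x
    have h1 := AH.unim_mul (v x) (hv'.norm x)
    calc conj (v x) * (v x * a x) = (v x * conj (v x)) * a x := by ring
      _ = a x := by rw [h1, one_mul]
  show Measurable[(FF μ T h).m] fun x => conj (v x) * (v x * a x)
  rw [e]
  exact ha

/-- the product of the two coefficients is zero -/
private theorem fc_prod (hT : Dst μ T) (hT' : Dst μ' T') (hJ : PJ μ T μ' T' p q lam) {h : ℕ} {e e' : X → ℂ} (he : e ∈ EE μ T h) (he' : e' ∈ EE μ T h)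
    (hne : ¬ Measurable[(FF μ T h).m] fun x => e x * conj (e' x)) {f g : X → ℂ} (hf : Bd f) (hg : Bd g)
    (hM : Mode μ T h e f) (hM' : Mode μ T h e' g) {v a a' : X' → ℂ} (hv : v ∈ EE μ' T' h) (ha : Bd a)
    (ham : Measurable[(FF μ' T' h).m] a) (ha' : Bd a') (ham' : Measurable[(FF μ' T' h).m] a') :
    (∫ z : X × X', f z.1 * conj (v z.2 * a z.2) ∂lam) * conj (∫ z : X × X', g z.1 * conj (v z.2 * a' z.2) ∂lam) = 0 := by
  have hpr := hJ.prob
  have hv' : Cls T' (FF μ' T' h) v := hv
  have hvB : Bd v := cls_bd hv'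
  have hB : BM lam fun z : X × X' => f z.1 * conj ((fun x => v x * a x) z.2) :=
    (hf.bm.comp hJ.fst).mul ((hvB.mul ha).bm.comp hJ.snd).conj
  have hB' : BM lam fun z : X × X' => g z.1 * conj ((fun x => v x * a' x) z.2) :=
    (hg.bm.comp hJ.fst).mul ((hvB.mul ha').bm.comp hJ.snd).conj
  have hlim := corr_prod2 (S := T^[p]) (S' := T'^[q]) hJ.erg (f := f) (g := fun x => v x * a x)
    (f2 := g) (g2 := fun x => v x * a' x) hB hB'
  have hee : (fun x => e x * conj (e' x)) ∈ EE μ T h := (EE_gp hT h).mul _ he _ ((EE_gp hT h).cj _ he')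
  have hz : ∀ r : ℕ, ∫ z : X × X', (f ((T^[p])^[r] z.1) * conj (g z.1)) *
      conj ((fun x => v x * a x) ((T'^[q])^[r] z.2) * conj ((fun x => v x * a' x) z.2)) ∂lam = 0 := by
    intro r
    have m1 := mode_corr2 hT he hM hM' (p * r)
    have m2 : Measurable[(FF μ' T' h).m] fun x => conj (v x * conj (v x)) *
        ((fun x => v x * a x) (T'^[q * r] x) * conj ((fun x => v x * a' x) x)) :=
      mode_corr2 hT' hv (fc_mode hv ham) (fc_mode hv ham') (q * r)
    have m3 : Measurable[(FF μ' T' h).m] fun x => (fun x => v x * a x) (T'^[q * r] x) * conj ((fun x => v x * a' x) x) := by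
      have e1 : (fun x => conj (v x * conj (v x)) * ((fun x => v x * a x) (T'^[q * r] x) * conj ((fun x => v x * a' x) x))) =
          fun x => (fun x => v x * a x) (T'^[q * r] x) * conj ((fun x => v x * a' x) x) := by
        ext x
        rw [AH.unim_mul _ (hv'.norm x), map_one, one_mul]
      rw [← e1]
      exact m2
    have bF : Bd fun x => f (T^[p * r] x) * conj (g x) := (hf.comp (hT.meas.iterate _)).mul hg.conj
    have bK : Bd fun x => (fun x => v x * a x) (T'^[q * r] x) * conj ((fun x => v x * a' x) x) :=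
      ((hvB.mul ha).comp (hT'.meas.iterate _)).mul (hvB.mul ha').conj
    have h6 := filt hT hT' hJ h _ hee hne _ bF m1 _ bK m3
    rw [← h6]
    refine integral_congr_ae (Eventually.of_forall fun z => ?_)
    dsimp only
    rw [← Function.iterate_mul, ← Function.iterate_mul]
  have hlim0 : Tendsto (fun R : ℕ => (1 / (R : ℂ)) * ∑ r ∈ range R, ∫ z : X × X', (f ((T^[p])^[r] z.1) * conj (g z.1)) *
      conj ((fun x => v x * a x) ((T'^[q])^[r] z.2) * conj ((fun x => v x * a' x) z.2)) ∂lam) atTop (𝓝 0) := by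
    refine tendsto_const_nhds.congr fun R => ?_
    rw [sum_congr rfl fun r _ => hz r, sum_const_zero, mul_zero]
  exact tendsto_nhds_unique hlim hlim0

/-- **the images of different modes are orthogonal**: `u`, `u'` from `rep_level` at `h + 1`; `pars` with `EE_gp hT' h`: for
`v ∈ EE' h` and `a`, `a'` bounded in `FF' h` the product `∫ f(x) conj (v a)(y) · conj ∫ g(x) conj (v a')(y)` is by `corr_prod2` the
limit of averages of `∫ (f ∘ T^(pr) conj g)(x) conj ((v a) ∘ T'^(qr) conj (v a'))(y)`, which are `0` by `filt` for the mode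
`e conj e'` (`mode_corr2`); so `∫ u conj v conj a = 0` for all `a` or `∫ u' conj v conj a' = 0` for all `a'` -/
theorem J_orth (hT : Dst μ T) (hT' : Dst μ' T') (hJ : PJ μ T μ' T' p q lam) {h : ℕ} {e e' : X → ℂ} (he : e ∈ EE μ T h)
    (he' : e' ∈ EE μ T h) (hne : ¬ Measurable[(FF μ T h).m] fun x => e x * conj (e' x)) {f g : X → ℂ} (hf : Bd f) (hg : Bd g)
    (hM : Mode μ T h e f) (hM' : Mode μ T h e' g) :
    ∫ z, ce lam (sec lam) (fun z : X × X' => f z.1) z * conj (ce lam (sec lam) (fun z : X × X' => g z.1) z) ∂lam = 0 := by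
  classical
  have hpr := hJ.prob
  obtain ⟨u, ub, um, eu, ru⟩ := rep_level hT hT' hJ (a := h + 1) hf (mode_mem he hM)
  obtain ⟨u', ub', um', eu', ru'⟩ := rep_level hT hT' hJ (a := h + 1) hg (mode_mem he' hM')
  have e1 : ∫ z, ce lam (sec lam) (fun z : X × X' => f z.1) z * conj (ce lam (sec lam) (fun z : X × X' => g z.1) z) ∂lam =
      ∫ z : X × X', u z.2 * conj (u' z.2) ∂lam := by
    refine integral_congr_ae ?_
    filter_upwards [eu, eu'] with z a b
    rw [a, b]
  have e2 : ∫ z : X × X', u z.2 * conj (u' z.2) ∂lam = ∫ x, u x * conj (u' x) ∂μ' := by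
    have hm : AEStronglyMeasurable (fun x => u x * conj (u' x)) (lam.map Prod.snd) :=
      (ub.mul ub'.conj).meas.aestronglyMeasurable
    have h1 := integral_map (μ := lam) (φ := Prod.snd) measurable_snd.aemeasurable hm
    rw [hJ.snd.map_eq] at h1
    exact h1.symm
  rw [e1, e2]
  refine pars (EE_gp hT' h) ub um ub' fun v hv => ?_
  have hvB : Bd v := cls_bd (show Cls T' (FF μ' T' h) v from hv)
  by_cases hα : ∀ a : X' → ℂ, Bd a → Measurable[(FF μ' T' h).m] a → ∫ x, u x * conj (v x * a x) ∂μ' = 0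
  · exact Or.inl (fc_ce hv ub hα)
  · right
    push Not at hα
    obtain ⟨a, ab, am, ha⟩ := hα
    refine fc_ce hv ub' fun a' ab' am' => ?_
    have h1 := fc_prod hT hT' hJ he he' hne hf hg hM hM' hv ab am ab' am'
    rw [ru _ (hvB.mul ab), ru' _ (hvB.mul ab')] at h1
    rcases mul_eq_zero.1 h1 with h2 | h2
    · exact absurd h2 ha
    · exact (map_eq_zero _).1 h2

end Pool.Agent.Lib.MP_9fe581_an.AQ
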