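import Pool.Agent.Lib.MP_9fe581_an.AQ.J2
import Pool.Agent.Lib.MP_9fe581_an.AQ.FiltC

/-!
# AQ, J3: the bound of the second factor at all levels (copy of `AP.Tow.jb` in AP/J3)
-/

set_option autoImplicit false
set_option linter.unusedSectionVars false
set_option warn.classDefReducibility false

open Finset MeasureTheory Filter Topology ProbabilityTheory
open scoped ComplexConjugate

namespace Pool.Agent.Lib.MP_9fe581_an.AQ

open AP
open AH (BM)

variable {X : Type} [mX0 : MeasurableSpace X] {μ : Measure X} [IsProbabilityMeasure μ] {T : X → X} [StandardBorelSpace X]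
  {X' : Type} [mX' : MeasurableSpace X'] {μ' : Measure X'} [IsProbabilityMeasure μ'] {T' : X' → X'} [StandardBorelSpace X']

/-- a passage to the limit -/
private theorem lim_le {a b c : ℝ} {K : ℝ} (h : ∀ δ : ℝ, 0 < δ → δ ≤ 1 → a ≤ b + c + K * δ) (_hK : 0 ≤ K) : a ≤ b + c := by
  by_contra hlt
  push Not at hlt
  have hd : 0 < a - (b + c) := by linarith
  set δ : ℝ := min 1 ((a - (b + c)) / (2 * (K + 1))) with hδ
  have hK1 : 0 < 2 * (K + 1) := by linarith
  have hδ0 : 0 < δ := lt_min one_pos (div_pos hd hK1)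
  have h1 := h δ hδ0 (min_le_left _ _)
  have h2 : K * δ ≤ (a - (b + c)) / 2 := by
    have h3 : δ ≤ (a - (b + c)) / (2 * (K + 1)) := min_le_right _ _
    calc K * δ ≤ (K + 1) * δ := by nlinarith
      _ ≤ (K + 1) * ((a - (b + c)) / (2 * (K + 1))) := mul_le_mul_of_nonneg_left h3 (by linarith)
      _ = (a - (b + c)) / 2 := by field_simp
  linarith

/-- **the final bound at every level**: level `0`: `FF_const`; step: `modes_dense (EE_gp hT h)`: `f ≈ P = ∑ v i a i`, the modes
`v i` pairwise inequivalent: `nsq P = ∑ nsq (v i a i)` (`mode_zero` for `v i conj (v j)`), `J_orth` and `DP.orth` with `nsq_sum` for the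
two sides, `jb_mode` for every term, then `δ → 0` as in `AP.Tow.jb` -/
theorem jb (hT : Dst μ T) (hT' : Dst μ' T') (hDP : ∀ p q lam, PJ μ T μ' T' p q lam → DP μ T p q lam)
    (hC : ∀ h, Ok μ T h → Core μ T μ' T' h) (h : ℕ) (hO : Ok μ T (h - 1)) : JB μ T μ' T' h := by
  classical
  induction h with
  | zero =>
    intro ε hε
    refine ⟨0, fun p q lam hJ _ f hf hY => ?_⟩
    have hpr := hJ.prob
    obtain ⟨c, h3⟩ := FF_const hf hY
    have h4 : Jsq lam f = ‖c‖ ^ 2 := by
      have a1 : (fun z : X × X' => f z.1) =ᵐ[lam] fun _ => c := hJ.fst.quasiMeasurePreserving.ae h3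
      have a2 : ce lam (sec lam) (fun _ : X × X' => c) = fun _ => c := condExp_const sec_le c
      unfold Jsq
      rw [nsq_congr (ce_congr a1), a2]
      simp [nsq]
    have h5 : Esq μ (DD μ T p q lam 0) f = ‖c‖ ^ 2 := by
      have a2 : ce μ (DD μ T p q lam 0) (fun _ => c) = fun _ => c := condExp_const ((hDP p q lam hJ).fac 0 ok_zero).le' c
      unfold Esq
      rw [nsq_congr (ce_congr h3), a2]
      simp [nsq]
    rw [h4, h5]
    have := nsq_nonneg (μ := μ) f
    nlinarith
  | succ h ih =>
    intro ε hε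
    have hO : Ok μ T h := hO
    obtain ⟨q0, hq0⟩ := jb_mode hT hT' hDP hO (hC h hO) (ih (hO.mono (Nat.sub_le h 1))) ε hε
    refine ⟨q0, fun p q lam hJ hq f hf hY => ?_⟩
    have hpr := hJ.prob
    have hD := (hDP p q lam hJ).fac (h + 1) hO
    set D := DD μ T p q lam (h + 1) with hDd
    set K := nrm μ f with hK
    have hK0 : 0 ≤ K := nrm_nonneg _
    have hcomp : ∀ {u : X → ℂ}, Bd u → BM lam fun z : X × X' => u z.1 := fun hu => hu.bm.comp hJ.fst
    refine lim_le (K := 2 * (K + 1) + 1 + (2 * K + 1) + ε * (2 * K + 1)) (fun δ hδ hδ1 => ?_) (by positivity)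
    have hG := EE_gp hT h
    obtain ⟨n, v, a, hv, hne, haB, haM, hd⟩ := modes_dense hG hf hY hδ
    obtain ⟨F, hFdef⟩ : ∃ F : Fin n → X → ℂ, F = fun i x => v i x * a i x := ⟨_, rfl⟩
    have hvB : ∀ i, Bd (v i) := fun i => cls_bd (hv i)
    have hFB : ∀ i, Bd (F i) := by
      intro i
      rw [hFdef]
      exact (hvB i).mul (haB i)
    have hvv : ∀ i x, conj (v i x) * v i x = 1 := by
      intro i x
      rw [mul_comm]
      rw [Complex.mul_conj, Complex.normSq_eq_norm_sq, (hv i).norm x]
      norm_num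
    have hFM : ∀ i, Mode μ T h (v i) (F i) := by
      intro i
      show Measurable[(FF μ T h).m] fun x => conj (v i x) * F i x
      have e : (fun x => conj (v i x) * F i x) = a i := by
        funext x
        rw [hFdef]
        dsimp only
        rw [← mul_assoc, hvv, one_mul]
      rw [e]
      exact haM i
    set P : X → ℂ := fun x => ∑ i, F i x with hP
    have hPv : ∀ x, P x = ∑ i, v i x * a i x := by
      intro x
      rw [hP, hFdef]
    have hd' : nrm μ (fun x => f x - P x) ≤ δ := by
      simp only [hPv]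
      exact hd
    have hPB : Bd P := by
      have : ∀ s : Finset (Fin n), Bd fun x => ∑ i ∈ s, F i x := by
        intro s
        induction s using Finset.induction_on with
        | empty => exact ⟨by simp, 0, fun x => by simp⟩
        | insert b s hb ih2 =>
          obtain ⟨C, hC⟩ := (hFB b).bdd
          obtain ⟨C', hC'⟩ := ih2.bdd
          simp only [sum_insert hb]
          exact ⟨(hFB b).meas.add ih2.meas, C + C',
            fun x => (norm_add_le _ _).trans (add_le_add (hC x) (hC' x))⟩
      exact this univ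
    have hsubB : Bd fun x => f x - P x := hf.sub hPB
    -- the bound for `P`
    have hn : nsq μ P = ∑ i, nsq μ (F i) := by
      refine nsq_sum univ (fun i _ => (hFB i).bm) fun i _ j _ hij => ?_
      have hee : (fun x => v i x * conj (v j x)) ∈ EE μ T h := hG.mul _ (hv i) _ (hG.cj _ (hv j))
      have hb : Bd fun x => F i x * conj (F j x) := (hFB i).mul (hFB j).conj
      have hm : Mode μ T h (fun x => v i x * conj (v j x)) fun x => F i x * conj (F j x) := by
        show Measurable[(FF μ T h).m] fun x => conj (v i x * conj (v j x)) * (F i x * conj (F j x))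
        have e : (fun x => conj (v i x * conj (v j x)) * (F i x * conj (F j x))) =
            fun x => a i x * conj (a j x) := by
          funext x
          rw [hFdef]
          simp only [map_mul, Complex.conj_conj]
          calc conj (v i x) * v j x * (v i x * a i x * (conj (v j x) * conj (a j x)))
              = (conj (v i x) * v i x) * (conj (v j x) * v j x) * (a i x * conj (a j x)) := by ring
            _ = _ := by rw [hvv, hvv, one_mul, one_mul]
        rw [e]
        exact Measurable.mul (haM i) (Complex.continuous_conj.measurable.comp (haM j))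
      have h0 := mode_zero hT hee (hne i j hij) hb hm
      have h1 : ∫ x, F i x * conj (F j x) ∂μ = ∫ x, ce μ (FF μ T h) (fun x => F i x * conj (F j x)) x ∂μ :=
        (integral_condExp (FF_le h)).symm
      rw [h1, integral_congr_ae h0]
      simp
    have hj : Jsq lam P = ∑ i, Jsq lam (F i) := by
      have e1 : ce lam (sec lam) (fun z : X × X' => P z.1) =ᵐ[lam]
          fun z => ∑ i, ce lam (sec lam) (fun z : X × X' => F i z.1) z := ce_sum univ fun i _ => hcomp (hFB i)
      show nsq lam (ce lam (sec lam) fun z : X × X' => P z.1) = _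
      rw [nsq_congr e1]
      exact nsq_sum univ (fun i _ => ce_bm (hcomp (hFB i))) fun i _ j _ hij =>
        J_orth hT hT' hJ (hv i) (hv j) (hne i j hij) (hFB i) (hFB j) (hFM i) (hFM j)
    have he : Esq μ D P = ∑ i, Esq μ D (F i) := by
      have e1 : ce μ D P =ᵐ[μ] fun x => ∑ i, ce μ D (F i) x := ce_sum univ fun i _ => (hFB i).bm
      show nsq μ (ce μ D P) = _
      rw [nsq_congr e1]
      exact nsq_sum univ (fun i _ => ce_bm (hFB i).bm) fun i _ j _ hij =>
        (hDP p q lam hJ).orth h hO (v i) (v j) (hv i) (hv j) (hne i j hij) _ _ (hFB i) (hFB j) (hFM i) (hFM j)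
    have hPle : Jsq lam P ≤ Esq μ D P + ε * nsq μ P := by
      rw [hj, he, hn, mul_sum, ← sum_add_distrib]
      exact sum_le_sum fun i _ => hq0 p q lam hJ hq (v i) (hv i) (F i) (hFB i) (hFM i)
    -- comparison of `f` and `P`
    have hnP : nrm μ P ≤ K + δ := by
      have e1 : P = fun x => f x + (-1 : ℂ) * (f x - P x) := by funext x; ring
      rw [e1]
      refine (nrm_add hf.bm ?_).trans ?_
      · exact (AH.BM.const (μ := μ) (-1)).mul hsubB.bm
      · rw [nrm_smul, norm_neg, norm_one, one_mul]
        exact add_le_add le_rfl hd'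
    have hJf : nrm lam (ce lam (sec lam) fun z : X × X' => f z.1) ≤
        nrm lam (ce lam (sec lam) fun z : X × X' => P z.1) + δ := by
      have e1 : ce lam (sec lam) (fun z : X × X' => f z.1) =ᵐ[lam] fun z =>
          ce lam (sec lam) (fun z : X × X' => P z.1) z + ce lam (sec lam) (fun z : X × X' => f z.1 - P z.1) z := by
        have e2 : (fun z : X × X' => f z.1) = fun z => P z.1 + (f z.1 - P z.1) := by funext z; ring
        conv_lhs => rw [e2]
        exact ce_add (hcomp hPB) (hcomp hsubB)
      rw [nrm_congr e1]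
      refine (nrm_add (ce_bm (hcomp hPB)) (ce_bm (hcomp hsubB))).trans (add_le_add le_rfl ?_)
      refine (ce_nrm_le sec_le (hcomp hsubB)).trans ?_
      have e3 : nrm lam (fun z : X × X' => f z.1 - P z.1) = nrm μ fun x => f x - P x := by
        unfold nrm
        rw [hJ.nsq_fst hsubB.bm]
      rw [e3]
      exact hd'
    have hEP : nrm μ (ce μ D P) ≤ nrm μ (ce μ D f) + δ := by
      have e1 : ce μ D P =ᵐ[μ] fun x => ce μ D f x + (-1 : ℂ) * ce μ D (fun x => f x - P x) x := by
        have a1 := ce_sub (μ := μ) (D := D) hf.bm hPB.bm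
        filter_upwards [a1] with x b1
        rw [b1]; ring
      rw [nrm_congr e1]
      refine (nrm_add (ce_bm hf.bm) ((AH.BM.const (μ := μ) (-1)).mul (ce_bm hsubB.bm))).trans (add_le_add le_rfl ?_)
      rw [nrm_smul, norm_neg, norm_one, one_mul]
      exact (ce_nrm_le hD.le' hsubB.bm).trans hd'
    have hEK : nrm μ (ce μ D f) ≤ K := ce_nrm_le hD.le' hf.bm
    have hJPK : nrm lam (ce lam (sec lam) fun z : X × X' => P z.1) ≤ K + 1 := by
      refine (ce_nrm_le sec_le (hcomp hPB)).trans ?_
      have e3 : nrm lam (fun z : X × X' => P z.1) = nrm μ P := by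
        unfold nrm
        rw [hJ.nsq_fst hPB.bm]
      rw [e3]
      linarith
    have s1 : Jsq lam f = nrm lam (ce lam (sec lam) fun z : X × X' => f z.1) ^ 2 := (nrm_sq _).symm
    have s2 : Jsq lam P = nrm lam (ce lam (sec lam) fun z : X × X' => P z.1) ^ 2 := (nrm_sq _).symm
    have s3 : Esq μ D f = nrm μ (ce μ D f) ^ 2 := (nrm_sq _).symm
    have s4 : Esq μ D P = nrm μ (ce μ D P) ^ 2 := (nrm_sq _).symm
    have s5 : nsq μ f = K ^ 2 := (nrm_sq _).symm
    have s6 : nsq μ P = nrm μ P ^ 2 := (nrm_sq _).symm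
    rw [s1, s3, s5]
    rw [s2, s4, s6] at hPle
    set a1 := nrm lam (ce lam (sec lam) fun z : X × X' => f z.1) with ha
    set b := nrm lam (ce lam (sec lam) fun z : X × X' => P z.1) with hb
    set c := nrm μ (ce μ D f) with hc
    set d := nrm μ (ce μ D P) with hd2
    set t := nrm μ P with ht
    have a0 : 0 ≤ a1 := nrm_nonneg _
    have b0 : 0 ≤ b := nrm_nonneg _
    have c0 : 0 ≤ c := nrm_nonneg _
    have d0 : 0 ≤ d := nrm_nonneg _
    have t0 : 0 ≤ t := nrm_nonneg _
    have i1 : a1 ^ 2 ≤ b ^ 2 + (2 * (K + 1) + 1) * δ := by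
      have : a1 ^ 2 ≤ (b + δ) ^ 2 := pow_le_pow_left₀ a0 hJf 2
      nlinarith
    have i2 : d ^ 2 ≤ c ^ 2 + (2 * K + 1) * δ := by
      have : d ^ 2 ≤ (c + δ) ^ 2 := pow_le_pow_left₀ d0 hEP 2
      nlinarith
    have i3 : t ^ 2 ≤ K ^ 2 + (2 * K + 1) * δ := by
      have : t ^ 2 ≤ (K + δ) ^ 2 := pow_le_pow_left₀ t0 hnP 2
      nlinarith
    have i4 : ε * t ^ 2 ≤ ε * (K ^ 2 + (2 * K + 1) * δ) := mul_le_mul_of_nonneg_left i3 hε.le
    nlinarith

end Pool.Agent.Lib.MP_9fe581_an.AQ
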