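import Pool.Agent.Lib.MP_9fe581_an.AQ.KronR

/-!
# AQ, Kron: the eigenvalues of `D_h` are `q`-th powers
-/

set_option autoImplicit false
set_option linter.unusedSectionVars false
set_option warn.classDefReducibility false

open Finset MeasureTheory Filter Topology ProbabilityTheory
open scoped ComplexConjugate

namespace Pool.Agent.Lib.MP_9fe581_an.AQ

open AP
open AH (BM)

variable {X : Type} [mX0 : MeasurableSpace X] {μ : Measure X} [IsProbabilityMeasure μ] {T : X → X}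
  {X' : Type} [mX' : MeasurableSpace X'] {μ' : Measure X'} [IsProbabilityMeasure μ'] {T' : X' → X'}
  {p q : ℕ} {lam : Measure (X × X')}

private theorem kron_ne {v : X → ℂ} (hn : ∀ x, ‖v x‖ = 1) : ¬ v =ᵐ[μ] 0 := by
  intro h0
  obtain ⟨x, hx⟩ := h0.exists
  have h1 := hn x
  rw [hx] at h1
  simp at h1

/-- **the eigenvalues of `D_h`** (copy of `AP.Tow.PJ.kron`): `h = 0`: constants, `c = 1`; `h ≥ 1`: `v` is in `FF 1`, so
`E(v | D_1) = E(v | D_h) = v` by `hDP.ri`, so by `hDP.dens` there is `w ∈ SS 0` with `E(v conj w | D_0) ≠ 0`, so `v conj w` is constant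
(`AP.dich`), so `v^m` is in `hid D_0 ≤ sec` (`hid_zero`); `kron_root` -/
theorem kron (hT : Dst μ T) (hT' : Dst μ' T') (hJ : PJ μ T μ' T' p q lam) (hDP : DP μ T p q lam) (h : ℕ)
    (hO : Ok μ T (h - 1)) {c : ℂ} {v : X → ℂ} (hv : EF μ T c v) (hm : Measurable[(DD μ T p q lam h).m] v) : KP μ T μ' T' q c := by
  have hpr := hJ.prob
  have hb : Bd v := ⟨hv.meas, 1, fun x => (hv.norm x).le⟩
  have hE : v ∈ EE μ T 0 := hv.mem hT
  rcases h with _ | h
  · have hc : c = 1 := (hv.const_iff hT).1 fun t ht => hDP.low 0 _ (hm ht)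
    exact ⟨1, 1, Eig.one, Eig.one, by rw [hc, one_mul, one_pow]⟩
  -- `E(v | D_1) = v`
  have hO : Ok μ T h := hO
  have h1 : ∀ k ≤ h, ce μ (DD μ T p q lam (k + 1)) v =ᵐ[μ] ce μ (DD μ T p q lam 1) v := by
    intro k
    induction k with
    | zero => exact fun _ => EventuallyEq.rfl
    | succ k ih =>
      intro hk
      refine (hDP.ri (k + 1) (hO.mono hk) v hb ?_).trans (ih ((Nat.le_succ k).trans hk))
      exact (FF_mem hE).mono (FF_mono' (Nat.succ_le_succ (Nat.zero_le k))) le_rfl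
  have key : ce μ (DD μ T p q lam 1) v =ᵐ[μ] v := by
    refine (h1 h le_rfl).symm.trans ?_
    rw [ce_self (hDP.fac (h + 1) hO).le' hb.bm hm]
  -- a hidden class
  obtain ⟨w, hw, hwn⟩ : ∃ w ∈ SS μ T p q lam 0 (DD μ T p q lam 0),
      ¬ ce μ (DD μ T p q lam 0) (fun x => v x * conj (w x)) =ᵐ[μ] 0 := by
    by_contra hcon
    push Not at hcon
    exact kron_ne hv.norm (key.symm.trans (hDP.dens 0 v hb hcon))
  obtain ⟨hwc, -, m, hqm, hwm⟩ := hw
  have hS : Sys μ T^[p] := sys_pow hT hJ.pp.pos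
  have hD0 : Fac μ T^[p] (DD μ T p q lam 0) := (hDP.fac 0 ok_zero).iter p
  have hE' : Cls T (DD μ T p q lam 0) v := hE
  have hvc : Cls T^[p] (DD μ T p q lam 0) v := cls_iter (hDP.fac 0 ok_zero) hE' p
  have hk : Measurable[(DD μ T p q lam 0).m] fun x => v x * conj (w x) := dich hS hD0 (hvc.mul_conj hwc) hwn
  -- `v ^ m` is measurable over the second factor
  have h2 : Measurable[(hid lam (DD μ T p q lam 0)).m] fun z : X × X' => v z.1 ^ m := by
    have e : (fun z : X × X' => v z.1 ^ m) = fun z => (v z.1 * conj (w z.1)) ^ m * w z.1 ^ m := by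
      funext z
      rw [← mul_pow]
      congr 1
      rw [mul_assoc, mul_comm (conj (w z.1)), AH.unim_mul _ (hwc.norm _), mul_one]
    rw [e]
    exact Measurable.mul (Measurable.pow_const (hid_fst (hDP.fac 0 ok_zero).le' hk) m) hwm
  exact kron_root hT hT' hJ hv hqm (h2.mono (hid_zero hJ) le_rfl)

theorem qf (hT : Dst μ T) (hT' : Dst μ' T') (hJ : PJ μ T μ' T' p q lam) (hDP : DP μ T p q lam) (h : ℕ)
    (hO : Ok μ T (h - 1)) : QF μ T (KP μ T μ' T') q (DD μ T p q lam h) :=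
  ⟨hDP.fac h hO, fun _ _ hv hm => kron hT hT' hJ hDP h hO hv hm⟩

end Pool.Agent.Lib.MP_9fe581_an.AQ
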