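import Pool.Agent.Lib.MP_9fe581_an.AQ.RigB
import Pool.Agent.Lib.MP_9fe581_an.AQ.Levy

/-!
# AQ, RigC: all functions of mean zero are small
-/

set_option autoImplicit false
set_option linter.unusedSectionVars false
set_option warn.classDefReducibility false

open Finset MeasureTheory Filter Topology ProbabilityTheory
open scoped ComplexConjugate

namespace Pool.Agent.Lib.MP_9fe581_an.AQ

open AP
open AH (BM)

variable {X : Type} [mX0 : MeasurableSpace X] {μ : Measure X} [IsProbabilityMeasure μ] {T : X → X} [StandardBorelSpace X] {K : ℕ → ℂ → Prop}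

/-- the conditional expectation has the same integral -/
private theorem rigC_int {D : SA X} (hD : D.m ≤ mX0) {f r : X → ℂ} (hr : r =ᵐ[μ] ce μ D f) (h0 : ∫ x, f x ∂μ = 0) :
    ∫ x, r x ∂μ = 0 := by
  rw [integral_congr_ae hr]
  exact (integral_condExp hD).trans h0

/-- the functions in `FF a` of mean zero are small -/
private theorem rigC_lev (hT : Dst μ T) (hK : KS μ T K) (a : ℕ) : ∀ f : X → ℂ, Bd f → Measurable[(FF μ T a).m] f → ∫ x, f x ∂μ = 0 →
    Sm μ T K f := by
  induction a with
  | zero =>
    intro f hf hm h0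
    obtain ⟨c, hc⟩ := FF_const hf hm
    have hc0 : c = 0 := by
      have h1 := integral_congr_ae hc
      rw [h0] at h1
      simpa using h1.symm
    rw [hc0] at hc
    exact Sm.congr Sm.zero hc.symm
  | succ a ih =>
    cases a with
    | zero => exact fun f hf hm h0 => Sm.one hT hK hf hm h0
    | succ j =>
      intro f hf hm h0
      obtain ⟨r, hrm, hrb, hr⟩ := ce_rep (μ := μ) (FF_le (μ := μ) (T := T) (j + 1)) hf.bm
      have hrs : Sm μ T K r := ih r hrb hrm (rigC_int (FF_le (j + 1)) hr h0)
      have hgb : Bd fun x => f x - r x := hf.sub hrb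
      have hgm : Measurable[(FF μ T (j + 1 + 1)).m] fun x => f x - r x :=
        hm.sub (hrm.mono (FF_mono (j + 1)) le_rfl)
      have hg0 : ce μ (FF μ T (j + 1)) (fun x => f x - r x) =ᵐ[μ] 0 := by
        have h2 := ce_self (μ := μ) (FF_le (μ := μ) (T := T) (j + 1)) hrb.bm hrm
        filter_upwards [ce_sub (D := FF μ T (j + 1)) hf.bm hrb.bm, hr] with x h3 h4
        rw [h3, h2, h4]
        simp
      have hgs : Sm μ T K fun x => f x - r x := by
        refine Sm.lim hgb.bm fun δ hδ => ?_
        obtain ⟨n, v, c, hv, hne, hcb, hcm, hd⟩ := modes_dense0 (EE_gp hT (j + 1)) hgb hgm hg0 hδ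
        have hterm : ∀ i, Bd fun x => v i x * c i x := fun i => (cls_bd (hv i)).mul (hcb i)
        refine ⟨fun x => ∑ i, v i x * c i x, BM.sum _ fun i _ => (hterm i).bm,
          Sm.sum _ _ (fun i _ => (hterm i).bm) fun i _ => ?_, hd⟩
        refine Sm.mode hT ih (hv i) (hne i) (hterm i) ?_
        have e : (fun x => conj (v i x) * (v i x * c i x)) = c i := by
          funext x
          have h5 : conj (v i x) * v i x = 1 := by
            rw [mul_comm, Complex.mul_conj, Complex.normSq_eq_norm_sq, (hv i).norm x]; norm_num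
          rw [← mul_assoc, h5, one_mul]
        unfold Mode
        rw [e]
        exact hcm i
      exact Sm.congr (Sm.add hgb.bm hrb.bm hgs hrs) (Eventually.of_forall fun x => by simp)

/-- **all functions of mean zero are small**. First for `f` in `FF a`, induction on `a`: `a = 0`: `f = 0` (`FF_const`); `a = 1`: `Sm.one`;
`a = j + 2`: `f = (f - r) + r`, `r` a bounded representative of `E(f | FF (j+1))` (small by induction), `f - r` by `modes_dense0`
(`EE_gp hT (j+1)`), `Sm.mode` for every term and `Sm.sum`, `Sm.lim`. Then all `f`: `dense_approx` and `Sm.lim` -/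
theorem Sm.all (hT : Dst μ T) (hK : KS μ T K) {f : X → ℂ} (hf : Bd f) (h0 : ∫ x, f x ∂μ = 0) : Sm μ T K f := by
  refine Sm.lim hf.bm fun δ hδ => ?_
  obtain ⟨j0, hj⟩ := dense_approx hT hf hδ
  obtain ⟨r, hrm, hrb, hr⟩ := ce_rep (μ := μ) (FF_le (μ := μ) (T := T) j0) hf.bm
  refine ⟨r, hrb.bm, rigC_lev hT hK j0 r hrb hrm (rigC_int (FF_le j0) hr h0), ?_⟩
  refine le_trans (le_of_eq (nrm_congr ?_)) (hj j0 le_rfl)
  filter_upwards [hr] with x hx
  rw [hx]

end Pool.Agent.Lib.MP_9fe581_an.AQ
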