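import Pool.Agent.Lib.MP_9fe581_an.AQ.A1
import Pool.Agent.Lib.MP_9fe581_an.AQ.J3
import Pool.Agent.Lib.MP_9fe581_an.AQ.Kron
import Pool.Agent.Lib.MP_9fe581_an.AQ.RigC

/-!
# AQ, Fin: the correlations of the joinings of two systems
-/

set_option autoImplicit false
set_option linter.unusedSectionVars false
set_option warn.classDefReducibility false

open Finset MeasureTheory Filter Topology ProbabilityTheory
open scoped ComplexConjugate

namespace Pool.Agent.Lib.MP_9fe581_an.AQ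

open AP
open AH (BM)

variable {X : Type} [mX0 : MeasurableSpace X] {μ : Measure X} [IsProbabilityMeasure μ] {T : X → X} [StandardBorelSpace X]
  {X' : Type} [mX' : MeasurableSpace X'] {μ' : Measure X'} [IsProbabilityMeasure μ'] {T' : X' → X'} [StandardBorelSpace X']

/-- the joint hypothesis on the eigenvalues -/
theorem ks_of_kr (hK : KR μ T μ' T') : KS μ T (KP μ T μ' T') := by
  intro c hc hc1
  obtain ⟨q0, h⟩ := hK c hc hc1
  refine ⟨q0, fun q hq hp => ?_⟩
  rintro ⟨a, b, ha, hb, e⟩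
  exact h q hq hp a b ha hb e

/-- a level with no torsion below it at which `F` is approximated -/
theorem exists_level (hT : Dst μ T) {F : X → ℂ} (hF : Bd F) {δ : ℝ} (hδ : 0 < δ) :
    ∃ j, Ok μ T (j - 1) ∧ nrm μ (fun x => F x - ce μ (FF μ T j) F x) ≤ δ := by
  classical
  by_cases hA : ∀ h, NT μ T h
  · obtain ⟨j0, hj0⟩ := dense_approx hT hF hδ
    exact ⟨j0, fun j _ => hA j, hj0 j0 le_rfl⟩
  · push Not at hA
    have h1 := Nat.find_spec hA
    have hfull : Full μ T (Nat.find hA + 1) := (hT.tor _).resolve_left h1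
    refine ⟨Nat.find hA + 1, fun j hj => ?_, ?_⟩
    · by_contra hc
      exact Nat.find_min hA (by simpa using hj) hc
    · have e : ce μ (FF μ T (Nat.find hA + 1)) F = F :=
        condExp_of_stronglyMeasurable (FF_le _) (hfull F hF).stronglyMeasurable hF.bm.integrable
      rw [e]
      simp only [sub_self]
      have e2 : nrm μ (fun _ : X => (0 : ℂ)) = 0 := by simp [nrm, nsq]
      rw [e2]
      exact hδ.le

/-- `F` in `FF H` (copy of `AP.Tow.joins_small`): `‖∫ F(x) conj F'(y)‖² ≤ Jsq lam F · nsq F'` -/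
theorem sj_low (hT : Dst μ T) (hT' : Dst μ' T') (hK : KR μ T μ' T') {H : ℕ} (hO : Ok μ T (H - 1)) {F : X → ℂ} (hF : Bd F)
    (hm : Measurable[(FF μ T H).m] F) (h0 : ∫ x, F x ∂μ = 0) {F' : X' → ℂ} (hF' : Bd F') : SJ2 μ T μ' T' F F' := by
  intro ε hε
  set N : ℝ := nsq μ F with hN
  set N' : ℝ := nsq μ' F' with hN'
  have hN0 : 0 ≤ N := nsq_nonneg F
  have hN0' : 0 ≤ N' := nsq_nonneg F'
  set δ : ℝ := ε ^ 2 / ((1 + N) * (1 + N')) with hδ
  have hδ0 : 0 < δ := by positivity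
  obtain ⟨q1, hq1⟩ := jb hT hT' (fun p q lam hJ => dp hT hT' hJ) (core hT hT') H hO δ hδ0
  obtain ⟨q2, hq2⟩ := Sm.all hT (ks_of_kr hK) hF h0 δ hδ0
  refine ⟨max q1 q2, fun p q pp qp hne _ hq lam h1 h2 h3 h4 => ?_⟩
  have hJ : PJ μ T μ' T' p q lam := ⟨h1, h2, ⟨measurable_fst, h3⟩, ⟨measurable_snd, h4⟩, pp, qp, hne⟩
  have g1 := hq1 p q lam hJ ((le_max_left _ _).trans hq) F hF hm
  have g2 : Esq μ (DD μ T p q lam H) F ≤ δ :=
    hq2 q ((le_max_right _ _).trans hq) qp _ (qf hT hT' hJ (dp hT hT' hJ) H hO)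
  have h6 : Jsq lam F ≤ δ * (1 + N) := by
    have e : δ * (1 + N) = δ + δ * N := by ring
    rw [e]
    linarith
  have e1 : ∫ z : X × X', F z.1 * conj (F' z.2) ∂lam =
      ∫ z, ce lam (sec lam) (fun z : X × X' => F z.1) z * conj (F' z.2) ∂lam :=
    ce_int' sec_le (hF.bm.comp hJ.fst) (hF'.bm.comp hJ.snd) (sec_snd hF'.meas)
  rw [e1]
  refine (nrm_cs (ce_bm (hF.bm.comp hJ.fst)) (hF'.bm.comp hJ.snd)).trans ?_
  have h7 : nrm lam (ce lam (sec lam) fun z : X × X' => F z.1) ≤ Real.sqrt (δ * (1 + N)) := Real.sqrt_le_sqrt h6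
  have h8 : nrm lam (fun z : X × X' => F' z.2) ≤ Real.sqrt (1 + N') := by
    refine Real.sqrt_le_sqrt ?_
    rw [hJ.nsq_snd hF'.bm]
    linarith
  calc nrm lam (ce lam (sec lam) fun z : X × X' => F z.1) * nrm lam (fun z : X × X' => F' z.2)
      ≤ Real.sqrt (δ * (1 + N)) * Real.sqrt (1 + N') := mul_le_mul h7 h8 (nrm_nonneg _) (Real.sqrt_nonneg _)
    _ = ε := by
        rw [← Real.sqrt_mul (by positivity)]
        have e5 : δ * (1 + N) * (1 + N') = ε ^ 2 := by
          rw [hδ]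
          field_simp
        rw [e5, Real.sqrt_sq hε.le]

/-- all bounded `F` of mean zero: `dense_approx` (the bounded representative of `E(F | FF j)` has mean zero) -/
theorem sj2 (hT : Dst μ T) (hT' : Dst μ' T') (hK : KR μ T μ' T') {F : X → ℂ} (hF : Bd F) (h0 : ∫ x, F x ∂μ = 0)
    {F' : X' → ℂ} (hF' : Bd F') : SJ2 μ T μ' T' F F' := by
  intro ε hε
  set δ : ℝ := ε / (2 * (1 + nrm μ' F')) with hδ
  have hn0 : 0 ≤ nrm μ' F' := nrm_nonneg F'
  have hδ0 : 0 < δ := by positivity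
  obtain ⟨j0, hO, h1⟩ := exists_level hT hF hδ0
  obtain ⟨G, hGm, hGb, hG⟩ := ce_rep (μ := μ) (FF_le (μ := μ) (T := T) j0) hF.bm
  have hG0 : ∫ x, G x ∂μ = 0 := by
    rw [integral_congr_ae hG]
    show ∫ x, (μ[F | (FF μ T j0).m]) x ∂μ = 0
    rw [integral_condExp (FF_le j0), h0]
  have h2 : nrm μ (fun x => F x - G x) ≤ δ := by
    refine le_trans (le_of_eq (nrm_congr ?_)) h1
    filter_upwards [hG] with x hx
    rw [hx]
  obtain ⟨q0, hq0⟩ := sj_low hT hT' hK hO hGb hGm hG0 hF' (ε / 2) (half_pos hε)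
  refine ⟨q0, fun p q pp qp hne hp hq lam a1 a2 a3 a4 => ?_⟩
  have p1 : MeasurePreserving Prod.fst lam μ := ⟨measurable_fst, a3⟩
  have p2 : MeasurePreserving Prod.snd lam μ' := ⟨measurable_snd, a4⟩
  have hJ : PJ μ T μ' T' p q lam := ⟨a1, a2, p1, p2, pp, qp, hne⟩
  have b1 := hF.bm.comp p1
  have b2 := hGb.bm.comp p1
  have b3 := hF'.bm.comp p2
  have bs : BM μ fun x => F x - G x := hF.bm.sub hGb.bm
  have e0 : ∫ z : X × X', F z.1 * conj (F' z.2) ∂lam = ∫ z : X × X', (F z.1 - G z.1) * conj (F' z.2) ∂lam +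
      ∫ z : X × X', G z.1 * conj (F' z.2) ∂lam := by
    rw [← integral_add ((bs.comp p1).mul b3.conj).integrable (b2.mul b3.conj).integrable]
    refine integral_congr_ae (Eventually.of_forall fun z => ?_)
    show F z.1 * conj (F' z.2) = (F z.1 - G z.1) * conj (F' z.2) + G z.1 * conj (F' z.2)
    ring
  rw [e0]
  refine (norm_add_le _ _).trans ?_
  have c1 : ‖∫ z : X × X', (F z.1 - G z.1) * conj (F' z.2) ∂lam‖ ≤ δ * nrm μ' F' := by
    refine (nrm_cs (bs.comp p1) b3).trans ?_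
    have d1 : nrm lam (fun z : X × X' => F z.1 - G z.1) = nrm μ fun x => F x - G x := by
      unfold nrm
      rw [hJ.nsq_fst bs]
    have d2 : nrm lam (fun z : X × X' => F' z.2) = nrm μ' F' := by
      unfold nrm
      rw [hJ.nsq_snd hF'.bm]
    rw [d1, d2]
    exact mul_le_mul_of_nonneg_right h2 hn0
  have c2 : ‖∫ z : X × X', G z.1 * conj (F' z.2) ∂lam‖ ≤ ε / 2 := hq0 p q pp qp hne hp hq lam a1 a2 a3 a4
  have c3 : δ * nrm μ' F' ≤ ε / 2 := by
    have d3 : δ * (1 + nrm μ' F') = ε / 2 := by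
      rw [hδ]
      field_simp
    nlinarith
  linarith

end Pool.Agent.Lib.MP_9fe581_an.AQ
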