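import Pool.Agent.Lib.MP_9fe581_an.AQ.Base

/-!
# AQ, Full: `FF h` is everything
-/

set_option autoImplicit false
set_option linter.unusedSectionVars false
set_option warn.classDefReducibility false

open Finset MeasureTheory Filter Topology ProbabilityTheory
open scoped ComplexConjugate

namespace Pool.Agent.Lib.MP_9fe581_an.AQ

variable {X : Type} [mX0 : MeasurableSpace X] {μ : Measure X} {T : X → X}

/-- `FF h` is everything if it contains all measurable sets -/
theorem full_of_eq {h : ℕ} (e : (FF μ T h).m = mX0) : Full μ T h := by
  intro f hf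
  rw [e]
  exact hf.meas

/-- if `FF h` is everything, it contains all measurable sets -/
theorem eq_of_full [IsProbabilityMeasure μ] {h : ℕ} (hF : Full μ T h) : (FF μ T h).m = mX0 := by
  classical
  refine le_antisymm (FF_le h) fun s hs => ?_
  have hb : AP.Bd (s.indicator fun _ => (1 : ℂ)) := by
    refine ⟨measurable_const.indicator hs, 1, fun x => ?_⟩
    by_cases hx : x ∈ s
    · simp [hx]
    · simp [hx]
  have h1 := hF _ hb
  have e : s = (s.indicator fun _ => (1 : ℂ)) ⁻¹' {1} := by
    ext x
    by_cases hx : x ∈ s
    · simp [hx]
    · simp [hx]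
  rw [e]
  exact h1 (measurableSet_singleton 1)

end Pool.Agent.Lib.MP_9fe581_an.AQ
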