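import Pool.Agent.Lib.MP_9fe581_an.AQ.ErgP
import Pool.Agent.Lib.MP_9fe581_an.AQ.En

/-!
# AQ, J2: the bound of the second factor for pure modes (copy of AP/J2)
-/

set_option autoImplicit false
set_option linter.unusedSectionVars false
set_option warn.classDefReducibility false

open Finset MeasureTheory Filter Topology ProbabilityTheory
open scoped ComplexConjugate

namespace Pool.Agent.Lib.MP_9fe581_an.AQ

open AP
open AH (BM)

variable {X : Type} [mX0 : MeasurableSpace X] {μ : Measure X} [IsProbabilityMeasure μ] {T : X → X}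
  {X' : Type} [mX' : MeasurableSpace X'] {μ' : Measure X'} [IsProbabilityMeasure μ'] {T' : X' → X'}
  {p q : ℕ} {lam : Measure (X × X')}

/-- the energy inequality for functions without large classes -/
theorem rem_bound (hT : Dst μ T) (hT' : Dst μ' T') {h : ℕ} {δ : ℝ} (hδ : 0 < δ) (hJ : PJ μ T μ' T' p q lam) (hD : Fac μ T (DD μ T p q lam h))
    {e f : X → ℂ} (hf : Bd f) (he : e ∈ EE μ T h) (hM : Mode μ T h e f) (h1 : nsq μ f ≤ 1)
    (hB : ∀ g : X → ℂ, Bd g → Measurable[(FF μ T h).m] g → Jsq lam g ≤ Esq μ (DD μ T p q lam h) g + δ * nsq μ g)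
    {L : ℝ} (hL : L ≤ δ) (hE : Tendsto (energy μ T^[p] (DD μ T p q lam h) f) atTop (𝓝 L)) :
    Jsq lam f ^ 2 ≤ 4 * δ := by
  have hpr := hJ.prob
  have hS : Sys μ T^[p] := sys_pow hT hJ.pp.pos
  have hSp : MeasurePreserving T^[p] μ μ := hS.erg.toMeasurePreserving
  refine PJ.energy hT hT' hJ hf (4 * δ) ?_
  have hG : ∀ r, Bd fun x => f ((T^[p])^[r] x) * conj (f x) := fun r =>
    (hf.comp ((hSp.iterate r).measurable)).mul hf.conj
  have hGY : ∀ r, Measurable[(FF μ T h).m] fun x => f ((T^[p])^[r] x) * conj (f x) := by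
    intro r
    rw [← Function.iterate_mul]
    exact mode_corr hT he hM (p * r)
  have hterm : ∀ r : ℕ, Jsq lam (fun x => f ((T^[p])^[r] x) * conj (f x)) ≤
      nsq μ (ce μ (DD μ T p q lam h) fun y => f y * conj (f ((T^[p])^[r] y))) +
        δ * nsq μ fun x => f ((T^[p])^[r] x) * conj (f x) := by
    intro r
    refine (hB _ (hG r) (hGY r)).trans (le_of_eq ?_)
    congr 1
    show nsq μ (ce μ _ _) = _
    have ee : (fun x => f ((T^[p])^[r] x) * conj (f x)) = fun x => conj (f x * conj (f ((T^[p])^[r] x))) := by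
      funext x
      rw [map_mul, Complex.conj_conj, mul_comm]
    rw [ee]
    have hb2 : BM μ fun x => f x * conj (f ((T^[p])^[r] x)) := (hf.mul (hf.comp ((hSp.iterate r).measurable)).conj).bm
    rw [nsq_congr (ce_conj hD.le' hb2.integrable)]
    unfold nsq
    refine integral_congr_ae (Eventually.of_forall fun x => ?_)
    dsimp only
    rw [RCLike.norm_conj]
  have h2 := avg_corr hS.erg hf
  have hn0 := nsq_nonneg (μ := μ) f
  have hsq : nsq μ f ^ 2 < 2 := by nlinarith
  have hLδ : L < 2 * δ := by linarith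
  filter_upwards [h2.eventually (gt_mem_nhds hsq), hE.eventually (gt_mem_nhds hLδ)] with R a b
  have hR0 : (0 : ℝ) ≤ 1 / (R : ℝ) := by positivity
  calc (1 / (R : ℝ)) * ∑ r ∈ range R, Jsq lam (fun x => f ((T^[p])^[r] x) * conj (f x))
      ≤ (1 / (R : ℝ)) * ∑ r ∈ range R, (nsq μ (ce μ (DD μ T p q lam h) fun y => f y * conj (f ((T^[p])^[r] y))) +
        δ * nsq μ fun x => f ((T^[p])^[r] x) * conj (f x)) :=
        mul_le_mul_of_nonneg_left (sum_le_sum fun r _ => hterm r) hR0
    _ = energy μ T^[p] (DD μ T p q lam h) f R + δ * ((1 / (R : ℝ)) * ∑ r ∈ range R,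
        nsq μ fun x => f ((T^[p])^[r] x) * conj (f x)) := by
        unfold energy
        rw [sum_add_distrib, mul_add, ← mul_sum]
        ring
    _ ≤ 2 * δ + δ * 2 := add_le_add b.le (mul_le_mul_of_nonneg_left a.le hδ.le)
    _ = 4 * δ := by ring

theorem Jsq_smul [IsProbabilityMeasure lam] (c : ℂ) (f : X → ℂ) : Jsq lam (fun x => c * f x) = ‖c‖ ^ 2 * Jsq lam f := by
  unfold Jsq
  rw [← nsq_smul]
  exact nsq_congr (ce_smul c fun z : X × X' => f z.1)

theorem Esq_smul (D : SA X) (c : ℂ) (f : X → ℂ) : Esq μ D (fun x => c * f x) = ‖c‖ ^ 2 * Esq μ D f := by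
  unfold Esq
  rw [← nsq_smul]
  exact nsq_congr (ce_smul c f)

/-- the bound for a function of norm `≤ 1` in a mode -/
theorem mode_one (hT : Dst μ T) (hT' : Dst μ' T') {h : ℕ} (hO : Ok μ T h) {θ : ℝ} (hθ : 0 < θ) (hJ : PJ μ T μ' T' p q lam) (hDP : DP μ T p q lam)
    {e f : X → ℂ} (hf : Bd f) (he : e ∈ EE μ T h) (hM : Mode μ T h e f) (h1 : nsq μ f ≤ 1)
    (hB : ∀ g : X → ℂ, Bd g → Measurable[(FF μ T h).m] g → Jsq lam g ≤ Esq μ (DD μ T p q lam h) g + θ ^ 2 / 4 * nsq μ g)
    (hC : ∀ f : X → ℂ, Bd f → Mode μ T h e f → nsq μ f ≤ 1 →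
      (∀ v, Cls T^[p] (DD μ T p q lam h) v → Mode μ T h e v → Esq μ (DD μ T p q lam h) (fun x => f x * conj (v x)) < θ ^ 2 / 4) →
      ∃ L ≤ θ ^ 2 / 4, Tendsto (energy μ T^[p] (DD μ T p q lam h) f) atTop (𝓝 L)) :
    Real.sqrt (Jsq lam f) ≤ Real.sqrt θ + Real.sqrt (Esq μ (DD μ T p q lam (h + 1)) f) := by
  classical
  have hpr := hJ.prob
  have hS : Sys μ T^[p] := sys_pow hT hJ.pp.pos
  have hD := hDP.fac h (hO.mono (Nat.sub_le h 1))
  have hDp := hD.iter p
  obtain ⟨n, v, g, hF, hvM, hrem⟩ := peel hS hDp hf (Mode μ T h e) (η := θ ^ 2 / 4) (by positivity)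
  set rem : X → ℂ := fun x => f x - fpart v g univ x with hremd
  have hremB : Bd rem := hf.sub (fpart_bd hF univ)
  have hremM : Mode μ T h e rem := by
    have ee : (fun x => conj (e x) * rem x) = fun x => conj (e x) * f x - ∑ i, (conj (e x) * v i x) * g i x := by
      funext x
      rw [hremd]; dsimp only [fpart]
      rw [mul_sub, mul_sum]
      congr 1
      exact sum_congr rfl fun i _ => by ring
    show Measurable[(FF μ T h).m] fun x => conj (e x) * rem x
    rw [ee]
    refine Measurable.sub hM (Finset.measurable_sum _ fun i _ => ?_)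
    have hgY : Measurable[(FF μ T h).m] (g i) := fun t ht => hDP.low h _ (hF.gm i ht)
    exact Measurable.mul (hvM i) hgY
  have hsplit := nsq_split hS hDp hf hF univ
  have hrem1 : nsq μ rem ≤ 1 := by
    have : 0 ≤ ∑ i, nsq μ (g i) := sum_nonneg fun i _ => nsq_nonneg _
    linarith
  obtain ⟨L, hL, hE⟩ := hC rem hremB hremM hrem1 fun w hw hwM => hrem w hw hwM
  have hJrem : Jsq lam rem ≤ θ := by
    have h2 := rem_bound hT hT' (by positivity) hJ hD hremB he hremM hrem1 hB hL hE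
    have h3 : Jsq lam rem ^ 2 ≤ θ ^ 2 := by linarith
    exact le_of_sq_le_sq h3 hθ.le
  -- hidden and other classes
  set H : Finset (Fin n) := univ.filter fun i => Measurable[(hid lam (DD μ T p q lam h)).m] fun z : X × X' => v i z.1 with hH
  have hcomp : ∀ {u : X → ℂ}, Bd u → BM lam fun z : X × X' => u z.1 := fun hu => hu.bm.comp (hJ.fst)
  have hzero : ce lam (sec lam) (fun z : X × X' => fpart v g Hᶜ z.1) =ᵐ[lam] 0 := by
    have ee : (fun z : X × X' => fpart v g Hᶜ z.1) = fun z => ∑ i ∈ Hᶜ, v i z.1 * g i z.1 := rfl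
    rw [ee]
    refine (ce_sum Hᶜ fun i _ => (hcomp ⟨(hF.cls i).meas, 1, fun x => ((hF.cls i).norm x).le⟩).mul (hcomp (hF.gb i))).trans ?_
    have h2 : ∀ᵐ z ∂lam, ∀ i ∈ Hᶜ, ce lam (sec lam) (fun z : X × X' => v i z.1 * g i z.1) z = 0 := by
      refine (Finset.eventually_all _).2 fun i hi => ?_
      have hi' : ¬ Measurable[(hid lam (DD μ T p q lam h)).m] fun z : X × X' => v i z.1 := by
        intro h3
        rw [mem_compl, hH, mem_filter] at hi
        exact hi ⟨mem_univ i, h3⟩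
      exact hJ.class_zero hT hT' hD (hF.cls i) hi' (hF.gm i) (hF.gb i)
    filter_upwards [h2] with z hz
    rw [sum_eq_zero hz]; rfl
  have hdec : ∀ x, f x = (rem x + fpart v g H x) + fpart v g Hᶜ x := by
    intro x
    have ee : fpart v g univ x = fpart v g H x + fpart v g Hᶜ x := (sum_add_sum_compl H fun i => v i x * g i x).symm
    rw [hremd]; dsimp only
    rw [ee]; ring
  have hJ1 : Real.sqrt (Jsq lam f) ≤ nrm lam (ce lam (sec lam) fun z : X × X' => rem z.1) +
      nrm lam (ce lam (sec lam) fun z : X × X' => fpart v g H z.1) := by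
    have ee : (fun z : X × X' => f z.1) = fun z => (rem z.1 + fpart v g H z.1) + fpart v g Hᶜ z.1 := funext fun z => hdec z.1
    have e2 : ce lam (sec lam) (fun z : X × X' => f z.1) =ᵐ[lam] fun z =>
        ce lam (sec lam) (fun z : X × X' => rem z.1) z + ce lam (sec lam) (fun z : X × X' => fpart v g H z.1) z := by
      rw [ee]
      have a1 := ce_add (D := sec lam) ((hcomp hremB).add (hcomp (fpart_bd hF H))) (hcomp (fpart_bd hF Hᶜ))
      have a2 := ce_add (D := sec lam) (hcomp hremB) (hcomp (fpart_bd hF H))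
      filter_upwards [a1, a2, hzero] with z b1 b2 b3
      rw [b1, b2, b3]; simp
    show nrm lam (ce lam (sec lam) fun z : X × X' => f z.1) ≤ _
    rw [nrm_congr e2]
    exact nrm_add (ce_bm (hcomp hremB)) (ce_bm (hcomp (fpart_bd hF H)))
  have hJ2 : nrm lam (ce lam (sec lam) fun z : X × X' => rem z.1) ≤ Real.sqrt θ := Real.sqrt_le_sqrt hJrem
  have hJ3 : nrm lam (ce lam (sec lam) fun z : X × X' => fpart v g H z.1) ≤ Real.sqrt (Esq μ (DD μ T p q lam (h + 1)) f) := by
    refine (ce_nrm_le sec_le (hcomp (fpart_bd hF H))).trans ?_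
    refine Real.sqrt_le_sqrt ?_
    rw [hJ.nsq_fst (fpart_bd hF H).bm, nsq_fpart hS hDp hF H]
    -- Bessel for the hidden classes
    set e' := H.equivFin with he'
    have h3 := hDP.bessel h hO f hf H.card (fun k => v (e'.symm k).1) (fun k => ?_) (fun k l hkl => ?_)
    · refine le_trans (le_of_eq ?_) h3
      have h4 : ∀ i, nsq μ (g i) = Esq μ (DD μ T p q lam h) fun x => f x * conj (v i x) := fun i => nsq_congr (hF.gae i)
      rw [← sum_coe_sort H, ← Equiv.sum_comp e'.symm]
      exact sum_congr rfl fun k _ => h4 _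
    · have h5 := (mem_filter.1 (e'.symm k).2).2
      refine ⟨hF.cls _, mode_mem he (hvM _), 1, fun h6 => ?_, ?_⟩
      · exact hJ.qp.one_lt.ne' (Nat.dvd_one.1 h6)
      · simpa using h5
    · refine hF.ineq _ _ fun h6 => hkl ?_
      exact e'.symm.injective (Subtype.ext h6)
  linarith

/-- **pure modes** -/
theorem jb_mode (hT : Dst μ T) (hT' : Dst μ' T') (hDP : ∀ p q lam, PJ μ T μ' T' p q lam → DP μ T p q lam) {h : ℕ} (hO : Ok μ T h)
    (hC : Core μ T μ' T' h) (hB : JB μ T μ' T' h) (ε : ℝ) (hε : 0 < ε) : ∃ q0 : ℕ, ∀ p q lam, PJ μ T μ' T' p q lam → q0 ≤ q → ∀ e ∈ EE μ T h,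
      ∀ f, Bd f → Mode μ T h e f → Jsq lam f ≤ Esq μ (DD μ T p q lam (h + 1)) f + ε * nsq μ f := by
  set ε' := min ε 1 with hε'
  have hε'0 : 0 < ε' := lt_min hε one_pos
  set θ : ℝ := (ε' / 4) ^ 2 with hθd
  have hθ : 0 < θ := by positivity
  obtain ⟨q1, hq1⟩ := hC (θ ^ 2 / 4) (by positivity)
  obtain ⟨q2, hq2⟩ := hB (θ ^ 2 / 4) (by positivity)
  refine ⟨max q1 q2, fun p q lam hJ hq e he f hf hM => ?_⟩
  have hpr := hJ.prob
  have hJ0 : 0 ≤ Jsq lam f := nsq_nonneg _
  have hE0 : 0 ≤ Esq μ (DD μ T p q lam (h + 1)) f := nsq_nonneg _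
  have hn0 := nsq_nonneg (μ := μ) f
  by_cases h0 : nsq μ f = 0
  · -- `f = 0`
    have h1 : Jsq lam f ≤ nsq μ f := by
      have := ce_nsq_le (D := sec lam) sec_le (hf.bm.comp (hJ.fst))
      rw [hJ.nsq_fst hf.bm] at this
      exact this
    rw [h0] at h1 ⊢
    linarith
  · have hn : 0 < nsq μ f := lt_of_le_of_ne hn0 (Ne.symm h0)
    set c : ℂ := ((1 / nrm μ f : ℝ) : ℂ) with hc
    have hnr : 0 < nrm μ f := Real.sqrt_pos.2 hn
    have hcn : ‖c‖ ^ 2 = 1 / nsq μ f := by
      rw [hc, Complex.norm_real, Real.norm_of_nonneg (by positivity), div_pow, one_pow, nrm_sq]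
    have hcf : Bd fun x => c * f x := by
      obtain ⟨C, hC⟩ := hf.bdd
      exact ⟨hf.meas.const_mul c, ‖c‖ * C, fun x => by rw [norm_mul]; exact mul_le_mul_of_nonneg_left (hC x) (norm_nonneg _)⟩
    have hcM : Mode μ T h e fun x => c * f x := by
      have ee : (fun x => conj (e x) * (c * f x)) = fun x => c * (conj (e x) * f x) := by funext x; ring
      show Measurable[(FF μ T h).m] fun x => conj (e x) * (c * f x)
      rw [ee]
      exact Measurable.const_mul hM c
    have hc1 : nsq μ (fun x => c * f x) = 1 := by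
      rw [nsq_smul, hcn]; field_simp
    have key := mode_one hT hT' hO hθ hJ (hDP p q lam hJ) hcf he hcM hc1.le
      (fun g hg hgY => hq2 p q lam hJ ((le_max_right _ _).trans hq) g hg hgY)
      (fun f' a b d e1 => hq1 p q lam hJ ((le_max_left _ _).trans hq) e he f' a b d e1)
    have hsθ : Real.sqrt θ = ε' / 4 := Real.sqrt_sq (by positivity)
    rw [hsθ, Jsq_smul, Esq_smul, hcn] at key
    set a := Jsq lam f with ha
    set b := Esq μ (DD μ T p q lam (h + 1)) f with hb
    set N := nsq μ f with hN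
    -- `b ≤ N`
    have hbN : b ≤ N := ce_nsq_le (hDP p q lam hJ |>.fac (h + 1) hO).le' hf.bm
    have hx1 : (0 : ℝ) ≤ 1 / N * a := by positivity
    have hx2 : (0 : ℝ) ≤ 1 / N * b := by positivity
    have hy2 : Real.sqrt (1 / N * b) ≤ 1 := by
      refine Real.sqrt_le_iff.2 ⟨zero_le_one, ?_⟩
      rw [one_pow, one_div, inv_mul_le_iff₀ hn, mul_one]
      exact hbN
    have hy0 := Real.sqrt_nonneg (1 / N * b)
    have h5 : 1 / N * a ≤ 1 / N * b + ε' := by
      have e1 := Real.sq_sqrt hx1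
      have e2 := Real.sq_sqrt hx2
      have h6 : Real.sqrt (1 / N * a) ^ 2 ≤ (ε' / 4 + Real.sqrt (1 / N * b)) ^ 2 :=
        pow_le_pow_left₀ (Real.sqrt_nonneg _) key 2
      have h7 : ε' ≤ 1 := min_le_right _ _
      nlinarith
    have h8 : ε' ≤ ε := min_le_left _ _
    have h9 : a ≤ b + ε' * N := by
      have : N * (1 / N * a) ≤ N * (1 / N * b + ε') := mul_le_mul_of_nonneg_left h5 hn.le
      have e3 : N * (1 / N * a) = a := by field_simp
      have e4 : N * (1 / N * b + ε') = b + ε' * N := by field_simp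
      rw [e3, e4] at this
      exact this
    have h10 : ε' * N ≤ ε * N := mul_le_mul_of_nonneg_right h8 hn.le
    linarith

end Pool.Agent.Lib.MP_9fe581_an.AQ
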