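import Pool.Agent.Lib.MP_9fe581_an.AQ.ClsP
import Pool.Agent.Lib.MP_9fe581_an.AQ.J1
import Pool.Agent.Lib.MP_9fe581_an.AQ.Eig

/-!
# AQ, KronR: eigenfunctions with a power over the second factor
-/

set_option autoImplicit false
set_option linter.unusedSectionVars false
set_option warn.classDefReducibility false

open Finset MeasureTheory Filter Topology ProbabilityTheory
open scoped ComplexConjugate

namespace Pool.Agent.Lib.MP_9fe581_an.AQ

open AP
open AH (BM)

variable {X : Type} [mX0 : MeasurableSpace X] {μ : Measure X} [IsProbabilityMeasure μ] {T : X → X}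
  {X' : Type} [mX' : MeasurableSpace X'] {μ' : Measure X'} [IsProbabilityMeasure μ'] {T' : X' → X'}
  {p q : ℕ} {lam : Measure (X × X')}

private theorem kr_zpow {c : ℂ} (hc : Eig μ T c) (s : ℤ) : Eig μ T (c ^ s) := by
  obtain ⟨v, hv⟩ := hc
  have hn : ‖c‖ = 1 := hv.unit
  cases s with
  | ofNat n =>
    have h := hv.pow n
    rw [Int.ofNat_eq_natCast, zpow_natCast]
    exact ⟨_, h⟩
  | negSucc n =>
    have h1 : c⁻¹ = conj c := Complex.inv_eq_conj hn
    rw [zpow_negSucc, ← inv_pow, h1]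
    exact ⟨_, hv.cj.pow (n + 1)⟩

private theorem kr_iter (hT : Dst μ T) {c : ℂ} {v : X → ℂ} (hv : EF μ T c v) (n : ℕ) :
    ∀ᵐ x ∂μ, v (T^[n] x) = c ^ n * v x := by
  induction n with
  | zero => exact Eventually.of_forall fun x => by simp
  | succ n ih =>
    have h1 := hT.pres.quasiMeasurePreserving.ae ih
    filter_upwards [h1, hv.eq] with x hx hx'
    rw [Function.iterate_succ_apply, hx, hx', pow_succ, mul_assoc]

/-- if `v^m`, `v` an eigenfunction with the eigenvalue `c`, `q ∤ m`, is a function of the second factor then `c` is a `q`-th power: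
`v(x)^m = k(y)` with `k` unimodular (`PJ.rep`), `k ∘ T'^q = c^(p m) k`, so `k` is an eigenfunction of `T'` by `cls_pow`, with the
eigenvalue `β`, `β^q = c^(p m)`; `s q + t p m = 1` in `ℤ`: `c = (c^s β^t)^q`; negative powers: `conj` (`‖c‖ = ‖β‖ = 1`) -/
theorem kron_root (hT : Dst μ T) (hT' : Dst μ' T') (hJ : PJ μ T μ' T' p q lam) {c : ℂ} {v : X → ℂ} (hv : EF μ T c v)
    {m : ℕ} (hm : ¬ q ∣ m) (h : Measurable[(sec lam).m] fun z : X × X' => v z.1 ^ m) : KP μ T μ' T' q c := by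
  have hp := hJ.prob
  have hvm : Bd (fun x => v x ^ m) :=
    ⟨hv.meas.pow_const m, 1, fun x => by rw [norm_pow, hv.norm, one_pow]⟩
  obtain ⟨u, hu, hcu, -⟩ := hJ.rep hvm
  have h1 : ce lam (sec lam) (fun z : X × X' => v z.1 ^ m) = fun z => v z.1 ^ m :=
    ce_self sec_le (hvm.bm.comp hJ.fst) h
  have h2 : (fun z : X × X' => v z.1 ^ m) =ᵐ[lam] fun z => u z.2 := by
    rw [h1] at hcu
    exact hcu
  classical
  set k : X' → ℂ := fun y => if ‖u y‖ = 1 then u y else 1 with hk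
  have km : Measurable k := Measurable.ite (measurableSet_eq_fun hu.meas.norm measurable_const) hu.meas measurable_const
  have kn : ∀ y, ‖k y‖ = 1 := by
    intro y
    show ‖(if ‖u y‖ = 1 then u y else 1)‖ = 1
    split_ifs with hy
    · exact hy
    · exact norm_one
  have hk2 : (fun z : X × X' => v z.1 ^ m) =ᵐ[lam] fun z => k z.2 := by
    filter_upwards [h2] with z hz
    have hz' : v z.1 ^ m = u z.2 := hz
    have hn : ‖u z.2‖ = 1 := by rw [← hz', norm_pow, hv.norm, one_pow]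
    show v z.1 ^ m = (if ‖u z.2‖ = 1 then u z.2 else 1)
    rw [if_pos hn, hz']
  have hU : MeasurePreserving (Prod.map T^[p] T'^[q]) lam lam := hJ.erg.toMeasurePreserving
  have h3 : ∀ᵐ z : X × X' ∂lam, v (T^[p] z.1) ^ m = k (T'^[q] z.2) := hU.quasiMeasurePreserving.ae hk2
  have h4 : ∀ᵐ z : X × X' ∂lam, v (T^[p] z.1) = c ^ p * v z.1 := hJ.fst.quasiMeasurePreserving.ae (kr_iter hT hv p)
  have h5 : ∀ᵐ z : X × X' ∂lam, k (T'^[q] z.2) = c ^ (p * m) * k z.2 := by
    filter_upwards [h3, h4, hk2] with z a b d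
    have d' : v z.1 ^ m = k z.2 := d
    rw [← a, b, mul_pow, d', pow_mul]
  have hTm : Measurable T'^[q] := hT'.meas.iterate q
  have h6 : ∀ᵐ y ∂μ', k (T'^[q] y) = c ^ (p * m) * k y := by
    rw [← hJ.snd.map_eq]
    exact (ae_map_iff measurable_snd.aemeasurable
      (measurableSet_eq_fun (km.comp hTm) (measurable_const.mul km))).2 h5
  have hcls : Cls T'^[q] (FF μ' T' 0) k := by
    refine ⟨km, kn, ?_⟩
    refine FF_of_const (c := c ^ (p * m)) ((km.comp hTm).mul (Complex.continuous_conj.measurable.comp km)) ?_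
    filter_upwards [h6] with y hy
    show k (T'^[q] y) * conj (k y) = c ^ (p * m)
    rw [hy, mul_assoc, AH.unim_mul _ (kn y), mul_one]
  obtain ⟨β, hβ⟩ := exists_ef (cls_pow hT' hJ.qp.pos hcls)
  have h7 : c ^ (p * m) = β ^ q := by
    obtain ⟨y, hy1, hy2⟩ := (h6.and (kr_iter hT' hβ q)).exists
    have h8 : k y ≠ 0 := by
      intro h0
      have := kn y
      rw [h0, norm_zero] at this
      exact zero_ne_one this
    rw [hy1] at hy2
    exact mul_right_cancel₀ h8 hy2
  have hcop : Nat.Coprime q (p * m) := by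
    refine Nat.Coprime.mul_right ?_ ?_
    · exact (Nat.coprime_primes hJ.qp hJ.pp).2 hJ.ne.symm
    · exact (Nat.Prime.coprime_iff_not_dvd hJ.qp).2 hm
  have hbez := Nat.gcd_eq_gcd_ab q (p * m)
  rw [hcop] at hbez
  have hc0 : c ≠ 0 := by
    intro h0
    have := hv.unit
    rw [h0, norm_zero] at this
    exact zero_ne_one this
  have hβ0 : β ≠ 0 := by
    intro h0
    have := hβ.unit
    rw [h0, norm_zero] at this
    exact zero_ne_one this
  refine ⟨c ^ (Nat.gcdA q (p * m)), β ^ (Nat.gcdB q (p * m)), kr_zpow ⟨v, hv⟩ _, kr_zpow ⟨k, hβ⟩ _, ?_⟩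
  have h9 : c = c ^ ((q : ℤ) * Nat.gcdA q (p * m) + ((p * m : ℕ) : ℤ) * Nat.gcdB q (p * m)) := by
    rw [← hbez]
    simp
  calc c = c ^ ((q : ℤ) * Nat.gcdA q (p * m) + ((p * m : ℕ) : ℤ) * Nat.gcdB q (p * m)) := h9
    _ = (c ^ (Nat.gcdA q (p * m)) * β ^ (Nat.gcdB q (p * m))) ^ q := by
        rw [zpow_add₀ hc0, mul_comm (q : ℤ), zpow_mul c (Nat.gcdA q (p * m)), zpow_natCast,
          zpow_mul c ((p * m : ℕ) : ℤ), zpow_natCast, h7, mul_pow]
        congr 1
        rw [← zpow_natCast (β ^ (Nat.gcdB q (p * m))) q, ← zpow_mul, ← zpow_natCast β q, ← zpow_mul, mul_comm]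

end Pool.Agent.Lib.MP_9fe581_an.AQ
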