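import Pool.Agent.Lib.MP_9fe581_an.AQ.Fin
import Pool.Agent.Lib.MP_9fe581_an.AP.Mod2

/-!
# AQ, Model: uniquely ergodic models
-/

set_option autoImplicit false
set_option linter.unusedSectionVars false
set_option warn.classDefReducibility false

open Finset MeasureTheory Filter Topology ProbabilityTheory
open scoped ComplexConjugate

namespace Pool.Agent.Lib.MP_9fe581_an.AQ

open AP
open AH (BM)

variable {X : Type} [mX0 : MeasurableSpace X] {μ : Measure X} [IsProbabilityMeasure μ] {T : X → X} [StandardBorelSpace X]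

/-- the same system twice -/
theorem sj1 (hT : Dst μ T) (hK : KR μ T μ T) {F : X → ℂ} (hF : Bd F) (h0 : ∫ x, F x ∂μ = 0) : SJ μ T F :=
  sj2 hT hT hK hF h0 hF

/-- **the theorem for uniquely ergodic models** -/
theorem model {Z : Type} [MeasurableSpace Z] {ν : Measure Z} {R : Z → Z} {φ : Z → X} {π : X → Z} [TopologicalSpace Z]
    [CompactSpace Z] [TopologicalSpace.MetrizableSpace Z] [BorelSpace Z] (hT : Dst μ T) (hK : KR μ T μ T)
    [IsProbabilityMeasure ν] (hRc : Continuous R) (hR : MeasurePreserving R ν ν)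
    (hu : ∀ ν' : Measure Z, IsProbabilityMeasure ν' → MeasurePreserving R ν' ν' → ν' = ν)
    (hφ : MeasurePreserving φ ν μ) (hπ : Measurable π) (h : ∀ᵐ z ∂ν, φ (R z) = T (φ z))
    (hπφ : ∀ᵐ z ∂ν, π (φ z) = z) (f : C(Z, ℂ)) : HD.UnifOrth R fun z => f z - ∫ y, f y ∂ν :=
  mod_main hT.meas (fun _ hn => erg_pow hT hn) (fun _ hF hb h0 => sj1 hT hK ⟨hF, hb⟩ h0) hRc hR hu hφ hπ h hπφ f

end Pool.Agent.Lib.MP_9fe581_an.AQ
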