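import Pool.Agent.Lib.MP_9fe581_an.AQ.ClsP
import Pool.Agent.Lib.MP_9fe581_an.AP.B6
import Pool.Agent.Lib.MP_9fe581_an.AP.K1
import Pool.Agent.Lib.MP_9fe581_an.AP.A0

/-!
# AQ, Nc: the energies of a mode over `FF (h + 1)` vanish over `FF h` (copy of AP/NDc, first half)
-/

set_option autoImplicit false
set_option linter.unusedSectionVars false
set_option warn.classDefReducibility false

open Finset MeasureTheory Filter Topology ProbabilityTheory
open scoped ComplexConjugate

namespace Pool.Agent.Lib.MP_9fe581_an.AQ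

open AP
open AH (BM)

variable {X : Type} [mX0 : MeasurableSpace X] {μ : Measure X} [IsProbabilityMeasure μ] {T : X → X} [StandardBorelSpace X]

/-- the step from `FF h` to `FF (h + 1)` -/
private theorem nc_bd (hT : Dst μ T) (n h : ℕ) :
    BD μ T^[n] (FF μ T h) (FF μ T h) (FF μ T h) (FF μ T (h + 1)) {fun _ => 1} (EE μ T h) := by
  refine
    { fD := (FF_fac hT h).iter n, fD' := (FF_fac hT h).iter n, fY := (FF_fac hT h).iter n, fY' := (FF_fac hT (h + 1)).iter n,
      DY := fun _ hs => hs, DD := fun _ hs => hs, DY' := fun s hs => FF_mono h s hs,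
      YY := fun s hs => FF_mono h s hs, one := rfl, cls := ?_, mem := ?_, dich := ?_, tot := ?_
      emeas := ?_, enorm := ?_, eratio := ?_, etot := ?_ }
  · rintro v rfl
    exact cls_one _ _
  · rintro v rfl
    exact @measurable_const _ _ _ (FF μ T h).m _
  · rintro v rfl
    exact Or.inl (@measurable_const _ _ _ (FF μ T h).m _)
  · intro d hd hD h0
    have h1 := h0 (fun _ => 1) rfl
    simp only [map_one, mul_one] at h1
    have e : (fun x => d x) = d := rfl
    rw [e, ce_self (FF_le h) hd.bm hD] at h1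
    exact h1
  · intro e he
    exact FF_mem he
  · intro e he x
    exact Cls.norm he x
  · intro e he
    exact (cls_iter (FF_fac hT h) he n).ratio
  · intro f hf hY h0
    exact FF_tot hT hf hY h0

private theorem nc_big (hT : Dst μ T) {n : ℕ} {k : Kernel X X} [IsMarkovKernel k] {h : ℕ} (c : Ctx μ T^[n] (FF μ T h) k) (Q : ℝ) :
    Big c (FF μ T h) (EE μ T h) Q := by
  intro e he P hP
  obtain ⟨N, hN⟩ := exists_nat_gt (‖P‖ ^ 4)
  exact Or.inl (core_min c ((nc_bd hT n h).em he) (minP_triv c (‖P‖ ^ 4 + 1)) (N := N)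
    (fun v _ hv _ _ _ _ => hv) hP (lt_add_one _) hN)

private theorem nc_tor (hT : Dst μ T) {n : ℕ} (hn : 0 < n) (h N : ℕ) (hN : NT μ T h) :
    TorP T^[n] (FF μ T h) (FF μ T (h + 1)) N := by
  intro v hv _ m hm _ hvm
  exact hN v m hm (cls_pow hT hn hv) hvm

/-- the energies are nonnegative -/
private theorem nc_nonneg (S : X → X) (D : SA X) (f : X → ℂ) (R : ℕ) : 0 ≤ energy μ S D f R := by
  unfold energy
  refine mul_nonneg (by positivity) (sum_nonneg fun r _ => ?_)
  exact integral_nonneg fun x => by positivity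

private theorem nc_one (hT : Dst μ T) {n h : ℕ} (hn : 0 < n) {e : X → ℂ} (he : e ∈ EE μ T (h + 1))
    (hne : ¬ Measurable[(FF μ T (h + 1)).m] e) {f : X → ℂ} (hf : Bd f) (hM : Mode μ T (h + 1) e f) (hf1 : nsq μ f ≤ 1) :
    Tendsto (energy μ T^[n] (FF μ T h) f) atTop (𝓝 0) := by
  have hNT : NT μ T h := (hT.tor h).resolve_right fun hF => hne (hF e (cls_bd he))
  obtain ⟨k, hk, hF⟩ := exists_fib μ (sys_pow hT hn).erg.toMeasurePreserving ((FF_fac hT h).iter n)
  have c : Ctx μ T^[n] (FF μ T h) k := ⟨sys_pow hT hn, (FF_fac hT h).iter n, hF⟩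
  have hEm : Em μ T^[n] (FF μ T h) (FF μ T (h + 1)) e :=
    ⟨(FF_fac hT (h + 1)).iter n, fun s hs => FF_mono h s hs, Cls.meas he, Cls.norm he,
      (cls_iter (FF_fac hT (h + 1)) he n).ratio⟩
  have hno : ∀ v : X → ℂ, Cls T^[n] (FF μ T h) v → ¬ Measurable[(FF μ T (h + 1)).m] fun x => conj (e x) * v x := by
    intro v hv hm
    apply hne
    have h1 : Measurable[(FF μ T (h + 1)).m] v := FF_mem (cls_pow hT hn hv)
    have e1 : e = fun x => conj ((conj (e x) * v x)) * v x := by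
      funext x
      have u1 : v x * conj (v x) = 1 := AH.unim_mul _ (hv.norm x)
      simp only [map_mul, Complex.conj_conj]
      calc e x = e x * (v x * conj (v x)) := by rw [u1, mul_one]
        _ = _ := by ring
    rw [e1]
    exact (Complex.continuous_conj.measurable.comp hm).mul h1
  have key : ∀ η : ℝ, 0 < η → ∃ L ≤ η, Tendsto (energy μ T^[n] (FF μ T h) f) atTop (𝓝 L) := by
    intro η hη
    obtain ⟨N, hN⟩ := exists_nat_gt (1 / η ^ 2)
    exact core_energy c hEm (minP_next (nc_bd hT n h) c c (nc_big hT c _)) (nc_tor hT hn h N hNT) hη (lt_add_one (1 / η ^ 2)) hN hf hM hf1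
      fun v hv hvM => absurd hvM (hno v hv)
  obtain ⟨L, -, hL⟩ := key 1 one_pos
  have h0 : 0 ≤ L := ge_of_tendsto' hL fun R => nc_nonneg _ _ _ R
  have h1 : L ≤ 0 := by
    refine le_of_forall_pos_le_add fun η hη => ?_
    obtain ⟨L', hL', hL2⟩ := key η hη
    rw [tendsto_nhds_unique hL hL2, zero_add]
    exact hL'
  rwa [le_antisymm h1 h0] at hL

/-- scaling of the energies -/
private theorem nc_scale (S : X → X) (D : SA X) (f : X → ℂ) (a : ℝ) (R : ℕ) :
    energy μ S D (fun x => (a : ℂ) * f x) R = a ^ 4 * energy μ S D f R := by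
  have key : ∀ r : ℕ, nsq μ (ce μ D fun y => (a : ℂ) * f y * conj ((a : ℂ) * f (S^[r] y))) =
      a ^ 4 * nsq μ (ce μ D fun y => f y * conj (f (S^[r] y))) := by
    intro r
    have e1 : (fun y => (a : ℂ) * f y * conj ((a : ℂ) * f (S^[r] y))) = (((a ^ 2 : ℝ)) : ℂ) • fun y => f y * conj (f (S^[r] y)) := by
      funext y
      simp only [Pi.smul_apply, smul_eq_mul, map_mul, Complex.conj_ofReal]
      push_cast
      ring
    have h1 : ce μ D (((a ^ 2 : ℝ) : ℂ) • fun y => f y * conj (f (S^[r] y))) =ᵐ[μ]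
        ((a ^ 2 : ℝ) : ℂ) • ce μ D fun y => f y * conj (f (S^[r] y)) := condExp_smul _ _ _
    rw [e1]
    unfold nsq
    rw [← integral_const_mul]
    refine integral_congr_ae ?_
    filter_upwards [h1] with x hx
    rw [hx, Pi.smul_apply, smul_eq_mul, norm_mul, mul_pow, Complex.norm_real, Real.norm_eq_abs, sq_abs]
    ring
  unfold energy
  rw [Finset.sum_congr rfl fun r _ => key r, ← Finset.mul_sum]
  ring

/-- **the energies vanish** (copy of `AP.nc_energy`): `BD μ T^n (FF h) (FF h) (FF h) (FF (h+1)) {1} (EE h)`, `Big` by `core_min` and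
`minP_triv`, `TorP T^n (FF h) (FF (h+1)) N` by `cls_pow` and `hT.tor`, `minP_next`, `core_energy` with `Em μ T^n (FF h) (FF (h+1)) e`;
there is no `v` with `Cls T^n (FF h) v` and `conj e v` in `FF (h+1)`: by `cls_pow` it is in `FF (h+1)`, so `e` is. For `nsq f > 1` scale:
`energy (c f) = ‖c‖^4 energy f` -/
theorem nc (hT : Dst μ T) {n h : ℕ} (hn : 0 < n) {e : X → ℂ} (he : e ∈ EE μ T (h + 1))
    (hne : ¬ Measurable[(FF μ T (h + 1)).m] e) {f : X → ℂ} (hf : Bd f) (hM : Mode μ T (h + 1) e f) :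
    Tendsto (energy μ T^[n] (FF μ T h) f) atTop (𝓝 0) := by
  obtain ⟨C, hC⟩ := hf.bdd
  obtain ⟨B, hB⟩ : ∃ B : ℝ, B = |C| + 1 := ⟨_, rfl⟩
  have hB0 : 0 < B := by rw [hB]; positivity
  have hfB : ∀ x, ‖f x‖ ≤ B := fun x => by
    rw [hB]
    exact (hC x).trans ((le_abs_self C).trans (by linarith))
  have hg : Bd fun x => ((B⁻¹ : ℝ) : ℂ) * f x := by
    refine ⟨hf.meas.const_mul _, 1, fun x => ?_⟩
    rw [norm_mul, Complex.norm_real, Real.norm_eq_abs, abs_of_pos (inv_pos.2 hB0), inv_mul_le_iff₀ hB0, mul_one]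
    exact hfB x
  have hgM : Mode μ T (h + 1) e fun x => ((B⁻¹ : ℝ) : ℂ) * f x := by
    have hM' : Measurable[(FF μ T (h + 1)).m] fun x => conj (e x) * f x := hM
    have e1 : (fun x => conj (e x) * (((B⁻¹ : ℝ) : ℂ) * f x)) = fun x => ((B⁻¹ : ℝ) : ℂ) * (conj (e x) * f x) := by
      funext x
      ring
    show Measurable[(FF μ T (h + 1)).m] fun x => conj (e x) * (((B⁻¹ : ℝ) : ℂ) * f x)
    rw [e1]
    exact hM'.const_mul _
  have hg1 : nsq μ (fun x => ((B⁻¹ : ℝ) : ℂ) * f x) ≤ 1 := by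
    have h1 : nsq μ (fun x => ((B⁻¹ : ℝ) : ℂ) * f x) ≤ ∫ _ : X, (1 : ℝ) ∂μ := by
      refine integral_mono_ae hg.bm.int_sq (integrable_const _) (Eventually.of_forall fun x => ?_)
      refine pow_le_one₀ (norm_nonneg _) ?_
      rw [norm_mul, Complex.norm_real, Real.norm_eq_abs, abs_of_pos (inv_pos.2 hB0), inv_mul_le_iff₀ hB0, mul_one]
      exact hfB x
    simpa using h1
  have h2 := nc_one hT hn he hne hg hgM hg1
  have h3 : Tendsto (fun R => B ^ 4 * energy μ T^[n] (FF μ T h) (fun x => ((B⁻¹ : ℝ) : ℂ) * f x) R) atTop (𝓝 (B ^ 4 * 0)) :=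
    h2.const_mul _
  rw [mul_zero] at h3
  refine h3.congr fun R => ?_
  rw [nc_scale, ← mul_assoc, ← mul_pow, mul_inv_cancel₀ hB0.ne', one_pow, one_mul]

end Pool.Agent.Lib.MP_9fe581_an.AQ
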