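import Pool.Agent.Lib.MP_9fe581_an.AQ.Dens
import Pool.Agent.Lib.MP_9fe581_an.AQ.Eig
import Pool.Agent.Lib.MP_9fe581_an.AH.Rigid

/-!
# AQ, RigA: functions that are small relative to all factors of large parameter (copy of parts of AH/Rigid)
-/

set_option autoImplicit false
set_option linter.unusedSectionVars false
set_option warn.classDefReducibility false

open Finset MeasureTheory Filter Topology ProbabilityTheory
open scoped ComplexConjugate

namespace Pool.Agent.Lib.MP_9fe581_an.AQ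

open AP
open AH (BM)

variable {X : Type} [mX0 : MeasurableSpace X] {μ : Measure X} [IsProbabilityMeasure μ] {T : X → X} {K : ℕ → ℂ → Prop}

private theorem rigA_congr {D : SA X} {f g : X → ℂ} (h : f =ᵐ[μ] g) : Esq μ D f = Esq μ D g :=
  nsq_congr (ce_congr h)

private theorem rigA_add {D : SA X} {f g : X → ℂ} (hf : BM μ f) (hg : BM μ g) :
    Esq μ D (fun x => f x + g x) ≤ 2 * Esq μ D f + 2 * Esq μ D g :=
  @AH.rg_add X D.m mX0 μ _ f g hf hg

private theorem rigA_smul {D : SA X} (c : ℂ) (f : X → ℂ) : Esq μ D (fun x => c * f x) = ‖c‖ ^ 2 * Esq μ D f :=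
  @AH.rg_smul X D.m mX0 μ _ c f

private theorem rigA_zero {D : SA X} {f : X → ℂ} (h : ce μ D f =ᵐ[μ] 0) : Esq μ D f = 0 := by
  have h1 : Esq μ D f = nsq μ fun _ => (0 : ℂ) := nsq_congr h
  rw [h1]
  simp [nsq]

/-- a factor contains the trivial factor -/
private theorem rigA_triv {D : SA X} (hD : Fac μ T D) : (FF μ T 0).m ≤ D.m := by
  intro s hs
  obtain ⟨h1, t, ht, hst⟩ := cpl_iff.1 hs
  rcases MeasurableSpace.measurableSet_bot_iff.1 ht with rfl | rfl
  · exact hD.null s h1 (ae_eq_empty.1 hst)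
  · have h2 : μ sᶜ = 0 := ae_eq_univ.1 hst
    have h3 := @MeasurableSet.compl _ _ D.m (hD.null sᶜ h1.compl h2)
    rwa [compl_compl] at h3

theorem Sm.congr {f g : X → ℂ} (hf : Sm μ T K f) (h : f =ᵐ[μ] g) : Sm μ T K g := by
  intro ε hε
  obtain ⟨q0, h0⟩ := hf ε hε
  refine ⟨q0, fun q hq hp D hD => ?_⟩
  rw [← rigA_congr h]
  exact h0 q hq hp D hD

theorem Sm.zero : Sm μ T K fun _ => (0 : ℂ) := by
  intro ε hε
  refine ⟨0, fun q _ _ D _ => ?_⟩
  rw [rigA_zero ce_zero]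
  exact hε.le

theorem Sm.add {f g : X → ℂ} (hfb : BM μ f) (hgb : BM μ g) (hf : Sm μ T K f) (hg : Sm μ T K g) : Sm μ T K fun x => f x + g x := by
  intro ε hε
  obtain ⟨q1, h1⟩ := hf (ε / 4) (by positivity)
  obtain ⟨q2, h2⟩ := hg (ε / 4) (by positivity)
  refine ⟨max q1 q2, fun q hq hp D hD => ?_⟩
  have e1 := h1 q ((le_max_left _ _).trans hq) hp D hD
  have e2 := h2 q ((le_max_right _ _).trans hq) hp D hD
  have e3 := rigA_add (D := D) hfb hgb
  linarith

theorem Sm.smul {f : X → ℂ} (c : ℂ) (hf : Sm μ T K f) : Sm μ T K fun x => c * f x := by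
  intro ε hε
  obtain ⟨q1, h1⟩ := hf (ε / (‖c‖ ^ 2 + 1)) (by positivity)
  refine ⟨q1, fun q hq hp D hD => ?_⟩
  have e1 := h1 q hq hp D hD
  rw [rigA_smul]
  calc ‖c‖ ^ 2 * Esq μ D f ≤ ‖c‖ ^ 2 * (ε / (‖c‖ ^ 2 + 1)) := by gcongr
    _ ≤ (‖c‖ ^ 2 + 1) * (ε / (‖c‖ ^ 2 + 1)) := by gcongr; linarith
    _ = ε := by field_simp

theorem Sm.sum {ι : Type} (s : Finset ι) (f : ι → X → ℂ) (hb : ∀ i ∈ s, BM μ (f i)) (hf : ∀ i ∈ s, Sm μ T K (f i)) :
    Sm μ T K fun x => ∑ i ∈ s, f i x := by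
  classical
  induction s using Finset.induction_on with
  | empty => simpa using Sm.zero (μ := μ) (T := T) (K := K)
  | insert a s ha ih =>
    refine Sm.congr (Sm.add (hb a (mem_insert_self _ _)) (AH.BM.sum s fun i hi => hb i (mem_insert_of_mem hi))
      (hf a (mem_insert_self _ _)) (ih (fun i hi => hb i (mem_insert_of_mem hi)) fun i hi => hf i (mem_insert_of_mem hi))) ?_
    refine Eventually.of_forall fun x => ?_
    show _ = ∑ i ∈ insert a s, f i x
    rw [sum_insert ha]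

theorem Sm.lim {f : X → ℂ} (hf : BM μ f)
    (h : ∀ δ : ℝ, 0 < δ → ∃ g : X → ℂ, BM μ g ∧ Sm μ T K g ∧ nrm μ (fun x => f x - g x) ≤ δ) : Sm μ T K f := by
  intro ε hε
  obtain ⟨g, hg, hgs, hfg⟩ := h (min 1 (ε / 4)) (lt_min one_pos (by positivity))
  obtain ⟨q1, h1⟩ := hgs (ε / 4) (by positivity)
  refine ⟨q1, fun q hq hp D hD => ?_⟩
  have e1 := h1 q hq hp D hD
  have e5 : nsq μ (fun x => f x - g x) ≤ ε / 4 := by
    have i0 := nrm_nonneg (μ := μ) fun x => f x - g x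
    have i1 := hfg.trans (min_le_left _ _)
    have i2 := hfg.trans (min_le_right _ _)
    rw [← nrm_sq]
    nlinarith
  have e2 : Esq μ D (fun x => f x - g x) ≤ ε / 4 := (ce_nsq_le hD.fac.le' (hf.sub hg)).trans e5
  have e3 := rigA_add (D := D) hg (hf.sub hg)
  have e4 : (fun x => g x + (f x - g x)) = f := by funext x; ring
  rw [e4] at e3
  linarith

/-- an eigenfunction that is not constant: for `q` large it is not in `D` by `hK` (`exists_ef`, `EF.const_iff`), so `E(v | D) = 0`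
by `AP.dich` -/
theorem Sm.eig (hT : Dst μ T) (hK : KS μ T K) {v : X → ℂ} (hv : v ∈ EE μ T 0) (hne : ¬ Measurable[(FF μ T 0).m] v) : Sm μ T K v := by
  intro ε hε
  obtain ⟨c, hc⟩ := exists_ef hv
  have hc1 : c ≠ 1 := fun h => hne ((EF.const_iff hT hc).2 h)
  obtain ⟨q0, h0⟩ := hK c ⟨v, hc⟩ hc1
  refine ⟨q0, fun q hq hp D hD => ?_⟩
  have h1 : ¬ Measurable[D.m] v := fun hm => h0 q hq hp (hD.char c v hc hm)
  have hvc : Cls T (FF μ T 0) v := hv
  have h2 : Cls T D v := ⟨hvc.meas, hvc.norm, hvc.ratio.mono (rigA_triv hD.fac) le_rfl⟩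
  have h3 : ce μ D v =ᵐ[μ] 0 := by
    by_contra hcon
    exact h1 (dich hT.sys hD.fac h2 hcon)
  rw [rigA_zero h3]
  exact hε.le

/-- the functions in `FF 1` of mean zero: `modes_dense0 (EE_gp hT 0)`, the coefficients are constant -/
theorem Sm.one (hT : Dst μ T) (hK : KS μ T K) {f : X → ℂ} (hf : Bd f) (hm : Measurable[(FF μ T 1).m] f) (h0 : ∫ x, f x ∂μ = 0) :
    Sm μ T K f := by
  have hce : ce μ (FF μ T 0) f =ᵐ[μ] 0 := by
    have hfb : BM μ f := Bd.bm hf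
    obtain ⟨g, hgm, hgb, hg⟩ := ce_rep (D := FF μ T 0) (FF_le 0) hfb
    obtain ⟨c, hc⟩ := FF_const hgb hgm
    have hle : (FF μ T 0).m ≤ mX0 := FF_le 0
    have h1 : ∫ x, ce μ (FF μ T 0) f x ∂μ = 0 := by
      have h3 : ∫ x, (μ[f | (FF μ T 0).m]) x ∂μ = ∫ x, f x ∂μ := integral_condExp hle
      exact h3.trans h0
    have h2 : ce μ (FF μ T 0) f =ᵐ[μ] fun _ => c := hg.symm.trans hc
    rw [integral_congr_ae h2] at h1
    simp only [integral_const, probReal_univ, one_smul] at h1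
    filter_upwards [h2] with x hx
    rw [hx, h1]
    rfl
  refine Sm.lim hf.bm fun δ hδ => ?_
  obtain ⟨n, v, a, hv, hne, hab, ham, hd⟩ := modes_dense0 (EE_gp hT 0) hf hm hce hδ
  have hvb : ∀ i, BM μ (v i) := fun i => (cls_bd (hv i)).bm
  refine ⟨fun x => ∑ i, v i x * a i x, AH.BM.sum _ fun i _ => (hvb i).mul (hab i).bm, ?_, hd⟩
  refine Sm.sum _ _ (fun i _ => (hvb i).mul (hab i).bm) fun i _ => ?_
  obtain ⟨c, hc⟩ := FF_const (hab i) (ham i)
  refine Sm.congr (Sm.smul c (Sm.eig hT hK (hv i) (hne i))) ?_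
  filter_upwards [hc] with x hx
  rw [hx, mul_comm]

end Pool.Agent.Lib.MP_9fe581_an.AQ
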