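import Pool.Agent.Lib.MP_9fe581_an.AQ.RigA
import Pool.Agent.Lib.MP_9fe581_an.AQ.Nc

/-!
# AQ, RigB: modes over `FF (j + 1)` are small (copy of parts of AH/Rigid)
-/

set_option autoImplicit false
set_option linter.unusedSectionVars false
set_option warn.classDefReducibility false

open Finset MeasureTheory Filter Topology ProbabilityTheory
open scoped ComplexConjugate

namespace Pool.Agent.Lib.MP_9fe581_an.AQ

open AP
open AH (BM)

variable {X : Type} [mX0 : MeasurableSpace X] {μ : Measure X} [IsProbabilityMeasure μ] {T : X → X} [StandardBorelSpace X] {K : ℕ → ℂ → Prop}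

private theorem rb_iter {S : X → X} {D : SA X} (hD : Fac μ S D) (n : ℕ) {g : X → ℂ} (hg : Measurable[D.m] g) :
    Measurable[D.m] fun x => g (S^[n] x) := by
  have h1 : Measurable[D.m, D.m] S^[n] := measurable_iff_comap_le.2 (hD.iter n).inv.le
  exact hg.comp h1

/-- the functions `f ∘ T^r conj (f ∘ T^s)` are in `FF (j + 1)` -/
private theorem rb_low (hT : Dst μ T) {j : ℕ} {e : X → ℂ} (he : e ∈ EE μ T j) {f : X → ℂ} (hM : Mode μ T j e f)
    (r s : ℕ) : Measurable[(FF μ T j).m] fun x => f (T^[r] x) * conj (f (T^[s] x)) := by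
  have key : ∀ r s : ℕ, s ≤ r → Measurable[(FF μ T j).m] fun x => f (T^[r] x) * conj (f (T^[s] x)) := by
    intro r s hsr
    have h1 := rb_iter (FF_fac hT j) s (mode_corr hT he hM (r - s))
    have e2 : ∀ x, T^[r - s] (T^[s] x) = T^[r] x := by
      intro x
      rw [← Function.iterate_add_apply]
      congr 1
      omega
    simp only [e2] at h1
    exact h1
  rcases le_total s r with h | h
  · exact key r s h
  · have h1 := key s r h
    have h2 : Measurable[(FF μ T j).m] fun x => conj (f (T^[s] x) * conj (f (T^[r] x))) :=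
      Complex.continuous_conj.measurable.comp h1
    have e3 : (fun x => conj (f (T^[s] x) * conj (f (T^[r] x)))) = fun x => f (T^[r] x) * conj (f (T^[s] x)) := by
      funext x
      rw [map_mul, Complex.conj_conj, mul_comm]
    rw [e3] at h2
    exact h2

/-- the averages of the squares of the correlations -/
private theorem rb_corr (hT : Dst μ T) {j : ℕ} {e : X → ℂ}
    (he : e ∈ EE μ T (j + 1)) (hne : ¬ Measurable[(FF μ T (j + 1)).m] e) {f : X → ℂ} (hf : Bd f)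
    (hM : Mode μ T (j + 1) e f) :
    Tendsto (fun R : ℕ => (1 / (R : ℝ)) * ∑ r ∈ range R, ‖∫ x, f (T^[r] x) * conj (f x) ∂μ‖ ^ 2) atTop (𝓝 0) := by
  have h1 := nc hT one_pos he hne hf hM
  refine squeeze_zero (fun R => by positivity) (fun R => ?_) h1
  unfold energy
  refine mul_le_mul_of_nonneg_left (sum_le_sum fun r _ => ?_) (by positivity)
  rw [Function.iterate_one]
  have hfr : Bd fun x => f (T^[r] x) := hf.comp (hT.pres.iterate r).measurable
  set g : X → ℂ := fun y => f y * conj (f (T^[r] y)) with hg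
  have hgb : BM μ g := (hf.mul hfr.conj).bm
  have e1 : ∫ x, f (T^[r] x) * conj (f x) ∂μ = conj (∫ x, g x ∂μ) := by
    rw [← integral_conj]
    refine integral_congr_ae (Eventually.of_forall fun x => ?_)
    simp only [hg, map_mul, Complex.conj_conj]
    ring
  have e2 : ∫ x, g x ∂μ = ∫ x, ce μ (FF μ T j) g x ∂μ := (integral_condExp (FF_le j)).symm
  rw [e1, RCLike.norm_conj, e2]
  have h3 := nrm_cs (ce_bm (D := FF μ T j) hgb) (AH.BM.const (μ := μ) 1)
  have h4 : nrm μ (fun _ : X => (1 : ℂ)) = 1 := by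
    unfold nrm nsq
    simp
  simp only [map_one, mul_one, h4] at h3
  calc ‖∫ x, ce μ (FF μ T j) g x ∂μ‖ ^ 2 ≤ nrm μ (ce μ (FF μ T j) g) ^ 2 := by gcongr
    _ = _ := nrm_sq _

/-- functions bounded by 1 -/
private theorem rb_unit (hT : Dst μ T) {j : ℕ}
    (ih : ∀ f : X → ℂ, Bd f → Measurable[(FF μ T (j + 1)).m] f → ∫ x, f x ∂μ = 0 → Sm μ T K f) {e : X → ℂ}
    (he : e ∈ EE μ T (j + 1)) (hne : ¬ Measurable[(FF μ T (j + 1)).m] e) {f : X → ℂ} (hf : Bd f)
    (hf1 : ∀ x, ‖f x‖ ≤ 1) (hM : Mode μ T (j + 1) e f) : Sm μ T K f := by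
  set b : ℕ → ℝ := fun r => ‖∫ x, f (T^[r] x) * conj (f x) ∂μ‖ with hb
  have hb0 : ∀ r, 0 ≤ b r := fun r => norm_nonneg _
  have hcorr : Tendsto (fun R : ℕ => (1 / (R : ℝ)) * ∑ r ∈ range R, b r ^ 2) atTop (𝓝 0) := rb_corr hT he hne hf hM
  have hfr : ∀ r : ℕ, Bd fun x => f (T^[r] x) := fun r => hf.comp (hT.pres.iterate r).measurable
  set h : ℕ → ℕ → X → ℂ := fun r s x => f (T^[r] x) * conj (f (T^[s] x)) with hh
  have hhb : ∀ r s, Bd (h r s) := fun r s => (hfr r).mul (hfr s).conj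
  have hhl : ∀ r s, Measurable[(FF μ T (j + 1)).m] (h r s) := fun r s => rb_low hT he hM r s
  have hc1 : ∀ r s, s ≤ r → ‖∫ x, h r s x ∂μ‖ ≤ b (r - s) := by
    intro r s hsr
    have hs := hT.pres.iterate s
    have e1 : ∫ y, (fun y => f (T^[r - s] y) * conj (f y)) y ∂(μ.map T^[s]) =
        ∫ x, f (T^[r - s] (T^[s] x)) * conj (f (T^[s] x)) ∂μ :=
      integral_map hs.measurable.aemeasurable ((hfr (r - s)).mul hf.conj).meas.aestronglyMeasurable
    rw [hs.map_eq] at e1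
    have e2 : ∀ x, T^[r - s] (T^[s] x) = T^[r] x := by
      intro x
      rw [← Function.iterate_add_apply]
      congr 1
      omega
    simp only [e2] at e1
    simp only [hh, hb]
    rw [← e1]
  have hc2 : ∀ r s, r ≤ s → ‖∫ x, h r s x ∂μ‖ ≤ b (s - r) := by
    intro r s hrs
    have e1 : ∫ x, h r s x ∂μ = conj (∫ x, h s r x ∂μ) := by
      rw [← integral_conj]
      refine integral_congr_ae (Eventually.of_forall fun x => ?_)
      simp only [hh, map_mul, Complex.conj_conj]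
      ring
    rw [e1, RCLike.norm_conj]
    exact hc1 s r hrs
  intro ε hε
  -- choice of `R`
  obtain ⟨R, hR0, hR⟩ : ∃ R : ℕ, 0 < R ∧ Real.sqrt 2 * (2 * Real.sqrt ((1 / (R : ℝ)) * ∑ r ∈ range R, b r ^ 2)) ≤ ε ^ 2 / 2 := by
    have h1 : Tendsto (fun R : ℕ => Real.sqrt 2 * (2 * Real.sqrt ((1 / (R : ℝ)) * ∑ r ∈ range R, b r ^ 2))) atTop (𝓝 0) := by
      have h2 := (Real.continuous_sqrt.tendsto 0).comp hcorr
      rw [Real.sqrt_zero] at h2
      have h3 := (h2.const_mul 2).const_mul (Real.sqrt 2)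
      simpa using h3
    have h2 : ∀ᶠ R : ℕ in atTop, Real.sqrt 2 * (2 * Real.sqrt ((1 / (R : ℝ)) * ∑ r ∈ range R, b r ^ 2)) < ε ^ 2 / 2 :=
      h1.eventually_lt_const (by positivity)
    obtain ⟨R, hR1, hR2⟩ := (h2.and (eventually_gt_atTop 0)).exists
    exact ⟨R, hR2, hR1.le⟩
  set δ : ℝ := ε ^ 2 / 4 with hδ
  have hδ0 : 0 < δ := by positivity
  have hsm : ∀ r s, Sm μ T K fun x => h r s x - ∫ y, h r s y ∂μ := by
    intro r s
    refine ih _ ((hhb r s).sub ⟨measurable_const, ‖∫ y, h r s y ∂μ‖, fun _ => le_rfl⟩) ?_ ?_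
    · exact (hhl r s).sub (@measurable_const _ _ _ (FF μ T (j + 1)).m _)
    · rw [integral_sub (hhb r s).bm.integrable (integrable_const _)]
      simp
  choose Q hQ using fun r s => hsm r s (δ ^ 2) (by positivity)
  refine ⟨(range R ×ˢ range R).sup fun z => Q z.1 z.2, fun q hq hqp D hD => ?_⟩
  have hDle : D.m ≤ mX0 := hD.fac.le'
  have hvdc := @AH.rg_vdc X D.m mX0 μ _ T hDle hT.pres (fun g hg => hD.fac.ce_comp hT.pres hg.integrable) f hf.meas
    hf1 R hR0
  have hbd : ∀ r ∈ range R, ∀ s ∈ range R,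
      Real.sqrt (∫ x, ‖(μ[fun x => f (T^[r] x) * conj (f (T^[s] x)) | D.m]) x‖ ^ 2 ∂μ) ≤
        Real.sqrt 2 * (δ + ‖∫ x, h r s x ∂μ‖) := by
    intro r hr s hs
    have e1 := @AH.rg_const X D.m mX0 μ _ hDle (h r s) (hhb r s).bm (∫ y, h r s y ∂μ)
    refine e1.trans ?_
    gcongr
    have hq' : Q r s ≤ q := by
      have := Finset.le_sup (f := fun z : ℕ × ℕ => Q z.1 z.2) (mk_mem_product hr hs)
      exact this.trans hq
    have e2 := hQ r s q hq' hqp D hD
    calc Real.sqrt _ ≤ Real.sqrt (δ ^ 2) := Real.sqrt_le_sqrt e2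
      _ = δ := Real.sqrt_sq hδ0.le
  have hR' : (0 : ℝ) < R := by exact_mod_cast hR0
  have hsum1 : ∑ r ∈ range R, ∑ s ∈ range R, ‖∫ x, h r s x ∂μ‖ ≤ 2 * R * ∑ k ∈ range R, b k :=
    AH.rg_dbl b hb0 _ hc1 hc2 R
  have hsum2 := AH.rg_avg b R hR0
  have h7 : (∫ x, ‖(μ[f | D.m]) x‖ ^ 2 ∂μ) ^ 2 ≤ ε ^ 2 := by
    calc _ ≤ _ := hvdc
      _ ≤ (1 / (R : ℝ) ^ 2) * ∑ r ∈ range R, ∑ s ∈ range R, Real.sqrt 2 * (δ + ‖∫ x, h r s x ∂μ‖) := by
          gcongr with r hr s hs
          exact hbd r hr s hs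
      _ = Real.sqrt 2 * (δ + (1 / (R : ℝ) ^ 2) * ∑ r ∈ range R, ∑ s ∈ range R, ‖∫ x, h r s x ∂μ‖) := by
          simp only [← mul_sum, sum_add_distrib, sum_const, card_range, nsmul_eq_mul]
          field_simp
      _ ≤ Real.sqrt 2 * (δ + (1 / (R : ℝ) ^ 2) * (2 * R * ∑ k ∈ range R, b k)) := by gcongr
      _ = Real.sqrt 2 * δ + Real.sqrt 2 * (2 * ((1 / (R : ℝ)) * ∑ k ∈ range R, b k)) := by
          field_simp
      _ ≤ 2 * δ + Real.sqrt 2 * (2 * Real.sqrt ((1 / (R : ℝ)) * ∑ k ∈ range R, b k ^ 2)) := by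
          gcongr
          exact Real.sqrt_le_iff.2 ⟨by norm_num, by norm_num⟩
      _ ≤ 2 * δ + ε ^ 2 / 2 := by gcongr
      _ = ε ^ 2 := by rw [hδ]; ring
  exact (abs_le_of_sq_le_sq h7 hε.le) |> (le_abs_self _).trans

/-- a mode over `FF (j + 1)` (copy of `AH.Sm.ch_step`): scale to `‖f‖ ≤ 1`, `AH.rg_vdc` for `f` and `D`, the functions
`f ∘ T^r conj (f ∘ T^s)` are in `FF (j+1)`, so they are small after subtraction of the mean by `ih`; the squares of the means have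
average `0` by `nc` with `n = 1` (`‖∫ f ∘ T^r conj f‖² ≤ ‖E(f conj (f ∘ T^r) | FF j)‖²`); `AH.rg_dbl`, `AH.rg_avg`, `AH.rg_const` -/
theorem Sm.mode (hT : Dst μ T) {j : ℕ}
    (ih : ∀ f : X → ℂ, Bd f → Measurable[(FF μ T (j + 1)).m] f → ∫ x, f x ∂μ = 0 → Sm μ T K f) {e : X → ℂ}
    (he : e ∈ EE μ T (j + 1)) (hne : ¬ Measurable[(FF μ T (j + 1)).m] e) {f : X → ℂ} (hf : Bd f)
    (hM : Mode μ T (j + 1) e f) : Sm μ T K f := by
  obtain ⟨C, hC⟩ := hf.bdd
  have hCp : 0 < |C| + 1 := by positivity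
  set c : ℂ := ((1 / (|C| + 1) : ℝ) : ℂ) with hc
  have hc0 : c ≠ 0 := by
    rw [hc]
    exact_mod_cast (by positivity : (0 : ℝ) < 1 / (|C| + 1)).ne'
  have hg1 : ∀ x, ‖c * f x‖ ≤ 1 := by
    intro x
    rw [norm_mul, hc, Complex.norm_real, Real.norm_of_nonneg (by positivity), one_div, inv_mul_le_iff₀ hCp, mul_one]
    exact (hC x).trans ((le_abs_self C).trans (by linarith))
  have hgm : Mode μ T (j + 1) e fun x => c * f x := by
    have h1 : Measurable[(FF μ T (j + 1)).m] fun x => c * (conj (e x) * f x) :=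
      (@measurable_const _ _ _ (FF μ T (j + 1)).m c).mul hM
    have e1 : (fun x => c * (conj (e x) * f x)) = fun x => conj (e x) * (c * f x) := by
      funext x; ring
    rw [e1] at h1
    exact h1
  have h2 := (rb_unit hT ih he hne (f := fun x => c * f x) ⟨hf.meas.const_mul c, 1, hg1⟩ hg1 hgm).smul c⁻¹
  have e2 : (fun x => c⁻¹ * (c * f x)) = f := by
    funext x
    rw [← mul_assoc, inv_mul_cancel₀ hc0, one_mul]
  rw [e2] at h2
  exact h2

end Pool.Agent.Lib.MP_9fe581_an.AQ
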