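import Pool.Agent.Lib.MP_9fe581_an.AP.NDc

/-!
# AQ, TwA: the classes over the levels of a finite nondegenerate tower
-/

set_option autoImplicit false
set_option linter.unusedSectionVars false
set_option warn.classDefReducibility false

open Finset MeasureTheory Filter Topology ProbabilityTheory
open scoped ComplexConjugate

namespace Pool.Agent.Lib.MP_9fe581_an.AQ

open AP
open AH (BM)
open HT (TX mX ch)

variable {κ : Type} [Fintype κ] {W : Tow κ}

private theorem twa_ratio {h : ℕ} {m : κ →₀ ℤ} (hm : W.On h m) :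
    Measurable[(W.Y h).m] fun x => ch m (W.T x) * conj (ch m x) := by
  classical
  have e : (fun x => ch m (W.T x) * conj (ch m x)) = fun x => FT.ec (W.coc m x) := by
    funext x
    rw [Tow.ch_T, mul_comm (ch m x), mul_assoc, AH.unim_mul _ (HT.ch_norm _ _), mul_one]
  rw [e]
  have h1 : Measurable (FT.ec : UnitAddCircle → ℂ) := FT.continuous_ec.measurable
  exact h1.comp (Tow.coc_Y hm)

private theorem twa_sys (hW : W.NDw) : Sys (mX κ) W.T :=
  ⟨Tow.ndw_erg hW, W.R, Tow.R_meas W, Tow.T_R W, Tow.R_T W⟩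

private theorem twa_mono {D D' : SA (TX κ)} (h : D.m ≤ D'.m) {v : TX κ → ℂ} (hv : Cls W.T D v) : Cls W.T D' v :=
  ⟨hv.meas, hv.norm, hv.ratio.mono h le_rfl⟩

private theorem twa_zero {h : ℕ} {v : TX κ → ℂ} (hM : W.Mode h 0 v) : Measurable[(W.Y h).m] v := by
  classical
  have e : (fun x => conj (ch (0 : κ →₀ ℤ) x) * v x) = v := by
    funext x
    rw [HT.ch_zero, map_one, one_mul]
  have h1 : Measurable[(W.Y h).m] fun x => conj (ch (0 : κ →₀ ℤ) x) * v x := hM
  rw [e] at h1
  exact h1

/-- a class over `Y_h` in `Y_(h+1)` is of some mode (copy of `AP.Tow.pure'`, `p = 1`; `AP.Tow.ndw_erg`, `AP.Tow.mode_zero`, `AP.dich`) -/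
theorem tw_mode (hW : W.NDw) {h : ℕ} {v : TX κ → ℂ} (hv : Cls W.T (W.Y h) v) (hY : Measurable[(W.Y (h + 1)).m] v) :
    ∃ m, W.On h m ∧ W.Mode h m v := by
  classical
  have hS := twa_sys hW
  have hF := Tow.Y_fac W h
  by_contra hno
  push Not at hno
  have h0 : v =ᵐ[mX κ] 0 := by
    refine Tow.mode_zero ⟨hv.meas, 1, fun x => (hv.norm x).le⟩ hY fun m hm => ?_
    have hcc : Cls W.T (W.Y h) fun x => v x * conj (ch m x) :=
      Cls.mul_conj hv ⟨(HT.ch_cont m).measurable, HT.ch_norm m, twa_ratio hm⟩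
    by_contra hne
    refine hno m hm ?_
    have h1 := dich hS hF hcc hne
    have e : (fun x => conj (ch m x) * v x) = fun x => v x * conj (ch m x) := by
      funext x
      rw [mul_comm]
    show Measurable[(W.Y h).m] fun x => conj (ch m x) * v x
    rw [e]
    exact h1
  obtain ⟨x, hx⟩ := h0.exists
  have h1 := hv.norm x
  rw [hx] at h1
  simp at h1

/-- a class over `Y_j` is in `Y_(j+1)`: let `k ≥ j + 1` be minimal with `v` in `Y_k` (`AP.Tow.Y_top`); if `k = k' + 1 > j + 1` then `v` is of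
a mode `m` on the level `k' = j' + 1` by `tw_mode`, `m ≠ 0` since `v` is not in `Y_k'`, and it is a class over `Y_j'`: contradiction to
`AP.ndw_cls` -/
theorem tw_cls (hW : W.NDw) {j : ℕ} {v : TX κ → ℂ} (hv : Cls W.T (W.Y j) v) : Measurable[(W.Y (j + 1)).m] v := by
  classical
  have key : ∀ k : ℕ, Measurable[(W.Y (j + k + 1)).m] v → Measurable[(W.Y (j + 1)).m] v := by
    intro k
    induction k with
    | zero => exact fun h => h
    | succ k ih =>
      intro hk
      have hj1 : j ≤ j + k := Nat.le_add_right j k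
      have hj2 : j ≤ j + k + 1 := hj1.trans (Nat.le_succ _)
      obtain ⟨m, hm, hM⟩ := tw_mode hW (h := j + k + 1) (twa_mono (Tow.Y_mono W hj2) hv) hk
      by_cases hm0 : m = 0
      · subst hm0
        exact ih (twa_zero hM)
      · exact absurd hM (ndw_cls hW hm0 hm (twa_mono (Tow.Y_mono W hj1) hv))
  refine key (∑ i, W.lev i + 1) ?_
  exact (Tow.Y_top W hv.meas).mono (Tow.Y_mono W (by omega)) le_rfl

/-- no torsion (`tw_cls`, `tw_mode`, `AP.Tow.ce_ch` for `n m`; compare `nc_tor` in AP/NDc) -/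
theorem tw_tor (hW : W.NDw) {j : ℕ} {v : TX κ → ℂ} (hv : Cls W.T (W.Y j) v) {n : ℕ} (hn : 0 < n)
    (h : Measurable[(W.Y j).m] fun x => v x ^ n) : Measurable[(W.Y j).m] v := by
  classical
  obtain ⟨m, hm, hM⟩ := tw_mode hW hv (tw_cls hW hv)
  by_cases hm0 : m = 0
  · subst hm0
    exact twa_zero hM
  · exfalso
    have h1 : Measurable[(W.Y j).m] fun x => conj (ch m x) * v x := hM
    have hnm : ∀ x, ch (n • m) x = ch m x ^ n := by
      intro x
      have : ∀ n : ℕ, ch (n • m) x = ch m x ^ n := by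
        intro n
        induction n with
        | zero => rw [zero_smul, pow_zero, HT.ch_zero]
        | succ n ih => rw [succ_nsmul, HT.ch_add, ih, pow_succ]
      exact this n
    have h2 : Measurable[(W.Y j).m] (ch (n • m)) := by
      have e3 : ch (n • m) = fun x => v x ^ n * conj ((conj (ch m x) * v x) ^ n) := by
        funext x
        rw [hnm, map_pow, ← mul_pow, map_mul, Complex.conj_conj]
        have e4 : ch m x = v x * (ch m x * conj (v x)) := by
          calc ch m x = ch m x * (v x * conj (v x)) := by rw [AH.unim_mul _ (hv.norm x), mul_one]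
            _ = _ := by ring
        rw [← e4]
      rw [e3]
      have h3 : Measurable[(W.Y j).m] fun x => conj ((conj (ch m x) * v x) ^ n) :=
        Complex.continuous_conj.measurable.comp (Measurable.pow_const h1 n)
      exact Measurable.mul h h3
    have hOn : W.On j (n • m) := fun i hi => hm i fun h0 => hi (by rw [Finsupp.smul_apply, h0, smul_zero])
    have hne : n • m ≠ 0 := fun h0 => hm0 ((smul_eq_zero.1 h0).resolve_left hn.ne')
    have h4 := Tow.ce_ch hOn hne
    have h5 : ce (mX κ) (W.Y j) (ch (n • m)) = ch (n • m) :=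
      condExp_of_stronglyMeasurable (Tow.Y_le W j) h2.stronglyMeasurable
        (Integrable.of_bound (HT.ch_cont _).measurable.aestronglyMeasurable 1 (Eventually.of_forall fun x => (HT.ch_norm _ x).le))
    rw [h5] at h4
    obtain ⟨x, hx⟩ := h4.exists
    have h6 := HT.ch_norm (n • m) x
    rw [hx] at h6
    simp at h6

/-- the eigenfunctions are the characters of level `0` up to constants -/
theorem tw_eig (hW : W.NDw) {v : TX κ → ℂ} (hv : Cls W.T (W.Y 0) v) :
    ∃ (m : κ →₀ ℤ) (c : ℂ), W.On 0 m ∧ v =ᵐ[mX κ] fun x => c * ch m x := by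
  classical
  obtain ⟨m, hm, hM⟩ := tw_mode hW hv (tw_cls hW hv)
  have h1 : Measurable[(W.Y 0).m] fun x => conj (ch m x) * v x := hM
  have hfB : Bd fun x => conj (ch m x) * v x := by
    refine ⟨(Complex.continuous_conj.measurable.comp (HT.ch_cont m).measurable).mul hv.meas, 1, fun x => ?_⟩
    rw [norm_mul, RCLike.norm_conj, HT.ch_norm, hv.norm, one_mul]
  have h2 := Tow.low_of_Y W hfB h1
  refine ⟨m, AH.AV W.ah 0 (fun x => conj (ch m x) * v x) 0, hm, ?_⟩
  filter_upwards [h2] with x hx
  have h3 : AH.AV W.ah 0 (fun x => conj (ch m x) * v x) x = AH.AV W.ah 0 (fun x => conj (ch m x) * v x) 0 :=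
    AH.AV_low W.ah 0 (fun x => conj (ch m x) * v x) x 0 fun i hi => absurd hi (Nat.not_lt_zero _)
  rw [← h3, ← hx]
  calc v x = v x * (ch m x * conj (ch m x)) := by rw [AH.unim_mul _ (HT.ch_norm m x), mul_one]
    _ = _ := by ring

end Pool.Agent.Lib.MP_9fe581_an.AQ
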