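import Pool.Agent.Lib.MP_9fe581_an.AQ.TwR
import Pool.Agent.Lib.MP_9fe581_an.AP.NDc

/-!
# AQ, TwB: the σ-algebras of the levels of a tower of height `≤ ω`
-/

set_option autoImplicit false
set_option linter.unusedSectionVars false
set_option warn.classDefReducibility false

open Finset MeasureTheory Filter Topology ProbabilityTheory
open scoped ComplexConjugate

namespace Pool.Agent.Lib.MP_9fe581_an.AQ

open AP
open AH (BM)
open HT (TX mX ch)

variable {κ : Type} {lev : κ → ℕ} {ψ : κ → TX κ → UnitAddCircle} {ν : Measure (TX κ)} {T : TX κ → TX κ}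

/-- the coordinates of level `< j` -/
def Yi0 (lev : κ → ℕ) (j : ℕ) : SA (TX κ) :=
  ⟨⨆ i : {i : κ // lev i < j}, MeasurableSpace.comap (fun x : TX κ => x i.1) inferInstance⟩

/-- the same with the null sets -/
noncomputable def Yi (lev : κ → ℕ) (ν : Measure (TX κ)) (j : ℕ) : SA (TX κ) := cpl ν (Yi0 lev j)

theorem Yi0_le (j : ℕ) : (Yi0 lev j).m ≤ (inferInstance : MeasurableSpace (TX κ)) :=
  iSup_le fun i => (measurable_pi_apply i.1).comap_le

private theorem yi0_mono {i j : ℕ} (h : i ≤ j) : (Yi0 lev i).m ≤ (Yi0 lev j).m :=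
  iSup_le fun l => le_iSup (fun i : {i : κ // lev i < j} => MeasurableSpace.comap (fun x : TX κ => x i.1) inferInstance)
    ⟨l.1, l.2.trans_le h⟩

private theorem yi0_coord {j : ℕ} {i : κ} (hi : lev i < j) : Measurable[(Yi0 lev j).m] fun x : TX κ => x i := by
  rw [measurable_iff_comap_le]
  exact le_iSup (fun i : {i : κ // lev i < j} => MeasurableSpace.comap (fun x : TX κ => x i.1) inferInstance) ⟨i, hi⟩

open Classical in
/-- the projection to the coordinates of level `< j` -/
private noncomputable def pj (lev : κ → ℕ) (j : ℕ) (x : TX κ) : TX κ := fun i => if lev i < j then x i else 0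

private theorem pj_meas (j : ℕ) : @Measurable _ _ (Yi0 lev j).m MeasurableSpace.pi (pj lev j : TX κ → TX κ) := by
  refine @measurable_pi_iff _ _ _ (Yi0 lev j).m _ _ |>.2 fun i => ?_
  by_cases hi : lev i < j
  · have e : (fun x : TX κ => pj lev j x i) = fun x => x i := funext fun x => if_pos hi
    rw [e]
    exact yi0_coord hi
  · have e : (fun x : TX κ => pj lev j x i) = fun _ => 0 := funext fun x => if_neg hi
    rw [e]
    exact @measurable_const _ _ _ (Yi0 lev j).m _

private theorem yi0_of_low {E : Type} [MeasurableSpace E] {j : ℕ} {f : TX κ → E} (hf : Measurable f)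
    (hl : ∀ x y : TX κ, (∀ i, lev i < j → x i = y i) → f x = f y) : Measurable[(Yi0 lev j).m] f := by
  have e : f = f ∘ pj lev j := funext fun x => hl x (pj lev j x) fun i hi => (if_pos hi).symm
  rw [e]
  exact hf.comp (pj_meas j)

private theorem low_of_yi0 {j : ℕ} {s : Set (TX κ)} (hs : MeasurableSet[(Yi0 lev j).m] s) {x y : TX κ}
    (hxy : ∀ i, lev i < j → x i = y i) : x ∈ s ↔ y ∈ s := by
  have h1 : (Yi0 lev j).m ≤ MeasurableSpace.comap (pj lev j : TX κ → TX κ) MeasurableSpace.pi := by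
    refine iSup_le fun i => ?_
    rintro _ ⟨t, ht, rfl⟩
    refine ⟨(fun x : TX κ => x i.1) ⁻¹' t, measurable_pi_apply i.1 ht, ?_⟩
    ext x
    show pj lev j x i.1 ∈ t ↔ x i.1 ∈ t
    have : pj lev j x i.1 = x i.1 := if_pos i.2
    rw [this]
  obtain ⟨t, -, rfl⟩ := h1 s hs
  have e : pj lev j x = pj lev j y := by
    funext i
    unfold pj
    by_cases hi : lev i < j
    · rw [if_pos hi, if_pos hi, hxy i hi]
    · rw [if_neg hi, if_neg hi]
  show pj lev j x ∈ t ↔ pj lev j y ∈ t
  rw [e]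

theorem Yi_mono {i j : ℕ} (h : i ≤ j) : (Yi lev ν i).m ≤ (Yi lev ν j).m := cpl_mono (yi0_mono h)

/-- `Yi j` is a factor (`AP.cpl_fac`, the inverse of `tw_inv`) -/
theorem Yi_fac (h : ITow lev ψ ν T) (j : ℕ) : Fac ν T (Yi lev ν j) := by
  obtain ⟨R, hRm, hTR, hRT, hRl⟩ := tw_inv h
  have hT : MeasurePreserving T ν ν := (h.erg one_pos).1
  have hR : MeasurePreserving R ν ν := by
    refine ⟨hRm, ?_⟩
    conv_lhs => rw [← hT.map_eq]
    rw [Measure.map_map hRm hT.measurable]
    have : R ∘ T = id := funext hRT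
    rw [this, Measure.map_id]
  refine cpl_fac hT hR hTR hRT (fun s hs => ?_) fun s hs => ?_
  · refine le_cpl (Yi0_le j) _ ?_
    have h1 : ∀ x y : TX κ, (∀ i, lev i < j → x i = y i) → (T x ∈ s) = (T y ∈ s) := fun x y hxy =>
      propext (low_of_yi0 hs fun i hi => by
        rw [h.map, h.map, hxy i hi, h.dep i x y fun l hl => hxy l (hl.trans hi)])
    have h2 : Measurable fun x => T x ∈ s := hT.measurable (Yi0_le j s hs) |>.mem
    have h3 := yi0_of_low h2 h1
    exact (@measurableSet_setOfPred _ (Yi0 lev j).m _).2 h3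
  · refine le_cpl (Yi0_le j) _ ?_
    have h1 : ∀ x y : TX κ, (∀ i, lev i < j → x i = y i) → (R x ∈ s) = (R y ∈ s) := fun x y hxy =>
      propext (low_of_yi0 hs fun i hi => hRl j x y hxy i hi)
    have h2 : Measurable fun x => R x ∈ s := hRm (Yi0_le j s hs) |>.mem
    have h3 := yi0_of_low h2 h1
    exact (@measurableSet_setOfPred _ (Yi0 lev j).m _).2 h3

/-- restriction is measurable for the raw σ-algebras -/
private theorem cutR_raw (h : ITow lev ψ ν T) {J : ℕ} (j : ℕ) [Fintype (cutI lev J)] :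
    @Measurable _ _ (Yi0 lev j).m ((cut lev J ψ h.meas h.dep).Y0 j).m (cutR lev J) := by
  rw [measurable_iff_comap_le]
  show MeasurableSpace.comap (cutR lev J) (⨆ i : {i : cutI lev J // (cut lev J ψ h.meas h.dep).lev i < j},
    MeasurableSpace.comap (fun x : TX (cutI lev J) => x i.1) inferInstance) ≤ _
  rw [MeasurableSpace.comap_iSup]
  refine iSup_le fun i => ?_
  rw [MeasurableSpace.comap_comp]
  exact measurable_iff_comap_le.1 (yi0_coord (lev := lev) (i := i.1.1) i.2)

/-- extension is measurable for the raw σ-algebras -/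
private theorem cutE_raw (h : ITow lev ψ ν T) {J j : ℕ} (hj : j ≤ J + 1) [Fintype (cutI lev J)] :
    @Measurable _ _ ((cut lev J ψ h.meas h.dep).Y0 j).m (Yi0 lev j).m (cutE lev J) := by
  rw [measurable_iff_comap_le]
  show MeasurableSpace.comap (cutE lev J) (⨆ i : {i : κ // lev i < j},
    MeasurableSpace.comap (fun x : TX κ => x i.1) inferInstance) ≤ _
  rw [MeasurableSpace.comap_iSup]
  refine iSup_le fun i => ?_
  rw [MeasurableSpace.comap_comp]
  have hi : lev i.1 ≤ J := by have := i.2; omega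
  have e : (fun x : TX κ => x i.1) ∘ cutE lev J = fun y : TX (cutI lev J) => y ⟨i.1, hi⟩ :=
    funext fun y => cutE_of lev J hi y
  rw [e]
  exact le_iSup (fun i : {i : cutI lev J // (cut lev J ψ h.meas h.dep).lev i < j} =>
    MeasurableSpace.comap (fun x : TX (cutI lev J) => x i.1) inferInstance) ⟨⟨i.1, hi⟩, i.2⟩

/-- low functions do not see the cut -/
private theorem cutER_agree {J j : ℕ} (hj : j ≤ J + 1) (x : TX κ) : ∀ i, lev i < j → cutE lev J (cutR lev J x) i = x i :=
  fun i hi => cutE_R lev J (by omega) x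

private theorem yi_cut_set (h : ITow lev ψ ν T) {J j : ℕ} (hj : j ≤ J + 1) [Fintype (cutI lev J)] {s : Set (TX (cutI lev J))}
    (hs : MeasurableSet s) :
    MeasurableSet[((cut lev J ψ h.meas h.dep).Y j).m] s ↔ MeasurableSet[(Yi lev ν j).m] (cutR lev J ⁻¹' s) := by
  have hmp := cut_meas (lev := lev) (J := J) h.haar
  rw [Tow.Y_eq]
  unfold Yi
  rw [cpl_iff, cpl_iff]
  constructor
  · rintro ⟨-, u, hu, hsu⟩
    exact ⟨cutR_meas lev J hs, cutR lev J ⁻¹' u, cutR_raw h j hu, hmp.quasiMeasurePreserving.preimage_ae_eq hsu⟩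
  · rintro ⟨-, u, hu, hsu⟩
    have hu' : MeasurableSet[((cut lev J ψ h.meas h.dep).Y0 j).m] (cutE lev J ⁻¹' u) := cutE_raw h hj hu
    refine ⟨hs, cutE lev J ⁻¹' u, hu', ?_⟩
    have e : cutR lev J ⁻¹' (cutE lev J ⁻¹' u) = u := by
      ext x
      exact low_of_yi0 hu (cutER_agree hj x)
    have hub : MeasurableSet (cutE lev J ⁻¹' u) := Tow.Y0_le _ j _ hu'
    rw [← e] at hsu
    have h1 : ∀ᵐ y ∂mX (cutI lev J), (y ∈ s ↔ y ∈ cutE lev J ⁻¹' u) := by
      rw [← hmp.map_eq, ae_map_iff hmp.measurable.aemeasurable]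
      · filter_upwards [hsu] with x hx
        exact Iff.of_eq hx
      · exact ((measurableSet_setOfPred.1 hs).iff (measurableSet_setOfPred.1 hub)).setOf
    filter_upwards [h1] with y hy
    exact propext hy

/-- the levels of the cut tower: `Yi0 lev j` is the preimage under `cutR lev J` of `Y0 j` of the cut tower (`j ≤ J + 1`); backwards:
`f ∘ cutR = E(f ∘ cutR | Yi0 j)` almost everywhere (`AP.ae_of_cpl`), which is `g ∘ cutR` with `g` measurable for `Y0 j` -/
theorem Yi_cut (h : ITow lev ψ ν T) {J j : ℕ} (hj : j ≤ J + 1) [Fintype (cutI lev J)] {f : TX (cutI lev J) → ℂ}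
    (hf : Bd f) : Measurable[((cut lev J ψ h.meas h.dep).Y j).m] f ↔ Measurable[(Yi lev ν j).m] fun x => f (cutR lev J x) := by
  constructor
  · intro h1 t ht
    exact (yi_cut_set h hj (hf.meas ht)).1 (h1 ht)
  · intro h1 t ht
    exact (yi_cut_set h hj (hf.meas ht)).2 (h1 ht)

/-- a unimodular function in `Yi (J+1)` is a unimodular function on the cut tower -/
theorem Yi_rep (h : ITow lev ψ ν T) {J : ℕ} [Fintype (cutI lev J)] {v : TX κ → ℂ} (hv : Measurable v) (h1 : ∀ x, ‖v x‖ = 1)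
    (hm : Measurable[(Yi lev ν (J + 1)).m] v) :
    ∃ w : TX (cutI lev J) → ℂ, Measurable w ∧ (∀ y, ‖w y‖ = 1) ∧ v =ᵐ[ν] fun x => w (cutR lev J x) := by
  classical
  have := h.prob
  have hvb : Bd v := ⟨hv, 1, fun x => (h1 x).le⟩
  have h2 : v =ᵐ[ν] ν[v | (Yi0 lev (J + 1)).m] := ae_of_cpl (Yi0_le (J + 1)) hvb hm
  set g : TX κ → ℂ := ν[v | (Yi0 lev (J + 1)).m] with hg
  have hgm : Measurable[(Yi0 lev (J + 1)).m] g := by
    have h3 : @StronglyMeasurable _ _ _ (Yi0 lev (J + 1)).m g := stronglyMeasurable_condExp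
    exact h3.measurable
  have hgb : Measurable g := hgm.mono (Yi0_le (J + 1)) le_rfl
  have hge : ∀ x, g (cutE lev J (cutR lev J x)) = g x := by
    intro x
    have h3 : MeasurableSet[(Yi0 lev (J + 1)).m] (g ⁻¹' {g x}) := hgm (measurableSet_singleton _)
    exact (low_of_yi0 h3 (cutER_agree (le_refl (J + 1)) x)).2 rfl
  have hw0 : Measurable fun y : TX (cutI lev J) => g (cutE lev J y) := hgb.comp (cutE_meas lev J)
  refine ⟨fun y => if ‖g (cutE lev J y)‖ = 1 then g (cutE lev J y) else 1, ?_, fun y => ?_, ?_⟩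
  · refine Measurable.ite ?_ hw0 measurable_const
    exact hw0.norm (measurableSet_singleton 1)
  · dsimp only
    split_ifs with h4
    · exact h4
    · simp
  · filter_upwards [h2] with x hx
    rw [hge x, ← hx, if_pos (h1 x)]

/-- the levels exhaust: `AP.inf_dense` (the mean of `f` is `0` by `h0 0`), `∫ f conj (G ∘ cutR) = 0` -/
theorem Yi_dense (h : ITow lev ψ ν T) {f : TX κ → ℂ} (hf : Bd f) (h0 : ∀ j, ce ν (Yi lev ν j) f =ᵐ[ν] 0) : f =ᵐ[ν] 0 := by
  have := h.count
  have := h.prob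
  have hle : ∀ j, (Yi lev ν j).m ≤ (inferInstance : MeasurableSpace (TX κ)) := fun j => cpl_le _
  have hz : ∀ (j : ℕ) (g : TX κ → ℂ), Bd g → Measurable[(Yi lev ν j).m] g → ∫ x, f x * conj (g x) ∂ν = 0 := by
    intro j g hg hgm
    rw [ce_int' (hle j) hf.bm hg.bm hgm]
    have e : (fun x => ce ν (Yi lev ν j) f x * conj (g x)) =ᵐ[ν] fun _ => (0 : ℂ) := by
      filter_upwards [h0 j] with x hx
      rw [hx, Pi.zero_apply, zero_mul]
    rw [integral_congr_ae e, integral_zero]
  have hmean : ∫ x, f x ∂ν = 0 := by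
    have h1 := hz 0 (fun _ => (1 : ℂ)) ⟨measurable_const, 1, fun _ => by simp⟩ (@measurable_const _ _ _ (Yi lev ν 0).m _)
    simpa using h1
  have hsmall : ∀ δ : ℝ, 0 < δ → nrm ν f ≤ δ := by
    intro δ hδ
    obtain ⟨J, G, hG, ⟨C, hC⟩, -, hd⟩ := inf_dense h.fin h.haar hf.meas hf.bdd hmean hδ
    have hGb : Bd fun x => G (cutR lev J x) := ⟨hG.comp (cutR_meas lev J), C, fun x => hC _⟩
    have hGm : Measurable[(Yi lev ν (J + 1)).m] fun x => G (cutR lev J x) := by
      refine (yi0_of_low (lev := lev) (j := J + 1) hGb.meas fun x y hxy => ?_).mono (le_cpl (Yi0_le (J + 1))) le_rfl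
      have : cutR lev J x = cutR lev J y := funext fun i => hxy i.1 (Nat.lt_succ_of_le i.2)
      rw [this]
    have h1 := hz (J + 1) _ hGb hGm
    have hD : Bd fun x => f x - G (cutR lev J x) := Bd.sub hf hGb
    have h2 : ((nsq ν f : ℝ) : ℂ) = ∫ x, f x * conj (f x - G (cutR lev J x)) ∂ν := by
      rw [nsq_ofReal]
      have e : (fun x => f x * conj (f x - G (cutR lev J x))) =
          fun x => f x * conj (f x) - f x * conj (G (cutR lev J x)) := by
        funext x
        rw [map_sub, mul_sub]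
      rw [e, integral_sub (hf.bm.mul hf.bm.conj).integrable (hf.bm.mul hGb.bm.conj).integrable, h1, sub_zero]
    have h3 := nrm_cs (μ := ν) hf.bm hD.bm
    rw [← h2] at h3
    have h4 : nrm ν (fun x => f x - G (cutR lev J x)) ≤ δ := by
      unfold nrm nsq
      exact (Real.sqrt_le_sqrt hd).trans (by rw [Real.sqrt_sq hδ.le])
    have h5 : nrm ν f ^ 2 ≤ nrm ν f * δ := by
      rw [nrm_sq]
      have h6 : ‖((nsq ν f : ℝ) : ℂ)‖ = nsq ν f := by
        rw [Complex.norm_real, Real.norm_of_nonneg (nsq_nonneg f)]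
      rw [h6] at h3
      exact h3.trans (mul_le_mul_of_nonneg_left h4 (nrm_nonneg _))
    by_contra h7
    push Not at h7
    have h8 : 0 < nrm ν f := hδ.trans h7
    nlinarith
  have h1 : nrm ν f = 0 := le_antisymm (le_of_forall_pos_le_add fun ε hε => by rw [zero_add]; exact hsmall ε hε) (nrm_nonneg _)
  have h2 : nsq ν f = 0 := by rw [← nrm_sq, h1]; norm_num
  unfold nsq at h2
  rw [integral_eq_zero_iff_of_nonneg (fun x => by positivity) hf.bm.int_sq] at h2
  filter_upwards [h2] with x hx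
  have hx' : ‖f x‖ ^ 2 = 0 := hx
  simpa using hx'

end Pool.Agent.Lib.MP_9fe581_an.AQ
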