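import Pool.Agent.Lib.MP_9fe581_an.AQ.TwB
import Pool.Agent.Lib.MP_9fe581_an.AQ.TwA
import Pool.Agent.Lib.MP_9fe581_an.AQ.Eig

/-!
# AQ, TwC: nondegenerate towers of height `≤ ω` are in the class
-/

set_option autoImplicit false
set_option linter.unusedSectionVars false
set_option warn.classDefReducibility false

open Finset MeasureTheory Filter Topology ProbabilityTheory
open scoped ComplexConjugate

namespace Pool.Agent.Lib.MP_9fe581_an.AQ

open AP
open AH (BM)
open HT (TX mX ch)

variable {κ : Type} {lev : κ → ℕ} {ψ : κ → TX κ → UnitAddCircle} {ν : Measure (TX κ)} {T : TX κ → TX κ}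

private theorem twc_erg (h : ITow lev ψ ν T) : Ergodic T ν := by
  have h1 := (h.erg (n := 1) one_pos).2
  rwa [Function.iterate_one] at h1

private theorem twc_sys (h : ITow lev ψ ν T) : Sys ν T := by
  obtain ⟨R, hR, h1, h2, -⟩ := tw_inv h
  exact ⟨twc_erg h, R, hR, h1, h2⟩

private theorem twc_ndw (h : ITow lev ψ ν T) (J : ℕ) [Fintype (cutI lev J)] : (cut lev J ψ h.meas h.dep).NDw :=
  cut_ndw (J := J) h.meas h.dep h.map h.haar h.base h.nd

/-- the representative of a class on the cut tower -/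
private theorem twc_rep (h : ITow lev ψ ν T) {j J : ℕ} (hj : j ≤ J) [Fintype (cutI lev J)] {v : TX κ → ℂ}
    (hv : Cls T (Yi lev ν j) v) (hm : Measurable[(Yi lev ν (J + 1)).m] v) :
    ∃ w : TX (cutI lev J) → ℂ, Cls (cut lev J ψ h.meas h.dep).T ((cut lev J ψ h.meas h.dep).Y j) w ∧
      v =ᵐ[ν] fun x => w (cutR lev J x) := by
  obtain ⟨w, w1, w2, w3⟩ := Yi_rep h hv.meas hv.norm hm
  refine ⟨w, ⟨w1, w2, ?_⟩, w3⟩
  set W := cut lev J ψ h.meas h.dep with hW
  have hTm : Measurable W.T := Tow.T_meas W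
  have hfm : Measurable fun y => w (W.T y) * conj (w y) :=
    (w1.comp hTm).mul (Complex.continuous_conj.measurable.comp w1)
  have hfb : Bd fun y => w (W.T y) * conj (w y) :=
    ⟨hfm, 1, fun y => by rw [norm_mul, RCLike.norm_conj, w2, w2, one_mul]⟩
  refine (Yi_cut h (by omega) hfb).2 ?_
  have hF := Yi_fac h j
  have w3' : ∀ᵐ x ∂ν, v (T x) = w (cutR lev J (T x)) := (h.erg one_pos).1.quasiMeasurePreserving.ae w3
  refine hF.meas_of_ae (hfm.comp (cutR_meas lev J)) hv.ratio ?_
  filter_upwards [w3, w3'] with x a b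
  rw [a, b, cut_T (J := J) h.meas h.dep h.map x]

private theorem twc_lift (h : ITow lev ψ ν T) {i J : ℕ} (hi : i ≤ J + 1) [Fintype (cutI lev J)] {v : TX κ → ℂ}
    (hv : Measurable v) {w : TX (cutI lev J) → ℂ} (hw : Bd w) (hwm : Measurable[((cut lev J ψ h.meas h.dep).Y i).m] w)
    (he : v =ᵐ[ν] fun x => w (cutR lev J x)) : Measurable[(Yi lev ν i).m] v :=
  (Yi_fac h i).meas_of_ae hv ((Yi_cut h hi hw).1 hwm) he

/-- a class over `Yi j` is in `Yi (j+1)`: by `Yi_dense` and `AP.dich` (`ITow.erg` for `T^1`) it is in `Yi (J+1)` for some `J ≥ j`; `Yi_rep`,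
`Yi_cut` and `tw_cls` for the cut tower (`AP.cut_ndw`; `w` is a class over `Y j` of the cut tower) -/
theorem tw_icls (h : ITow lev ψ ν T) {j : ℕ} {v : TX κ → ℂ} (hv : Cls T (Yi lev ν j) v) :
    Measurable[(Yi lev ν (j + 1)).m] v := by
  have hpr := h.prob
  obtain ⟨J, hjJ, hJ⟩ : ∃ J, j ≤ J ∧ Measurable[(Yi lev ν J).m] v := by
    by_contra hcon
    push Not at hcon
    have hz : ∀ k, j ≤ k → ce ν (Yi lev ν k) v =ᵐ[ν] 0 := by
      intro k hk
      by_contra hne
      exact hcon k hk (dich (twc_sys h) (Yi_fac h k) (Cls.mono (Yi_mono hk) hv) hne)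
    have hz' : ∀ k, ce ν (Yi lev ν k) v =ᵐ[ν] 0 := by
      intro k
      by_cases hk : j ≤ k
      · exact hz k hk
      · have h1 := ce_tower (μ := ν) (D := Yi lev ν k) (D' := Yi lev ν j) (Yi_mono (by omega)) (Yi_fac h j).le' v
        refine h1.symm.trans ((ce_congr (hz j le_rfl)).trans ?_)
        exact ce_zero
    have h0 := Yi_dense h ⟨hv.meas, 1, fun x => (hv.norm x).le⟩ hz'
    obtain ⟨x, hx⟩ := h0.exists
    have := hv.norm x
    rw [hx] at this
    simp at this
  have : Fintype (cutI lev J) := (h.fin J).fintype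
  have hJ1 : Measurable[(Yi lev ν (J + 1)).m] v := hJ.mono (Yi_mono (Nat.le_succ J)) le_rfl
  obtain ⟨w, hw, hvw⟩ := twc_rep h hjJ hv hJ1
  have hwm := tw_cls (twc_ndw h J) hw
  exact twc_lift h (by omega) hv.meas ⟨hw.meas, 1, fun x => (hw.norm x).le⟩ hwm hvw

/-- no torsion (`tw_tor`) -/
theorem tw_itor (h : ITow lev ψ ν T) {j : ℕ} {v : TX κ → ℂ} (hv : Cls T (Yi lev ν j) v) {n : ℕ} (hn : 0 < n)
    (hp : Measurable[(Yi lev ν j).m] fun x => v x ^ n) : Measurable[(Yi lev ν j).m] v := by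
  have : Fintype (cutI lev j) := (h.fin j).fintype
  obtain ⟨w, hw, hvw⟩ := twc_rep h le_rfl hv (tw_icls h hv)
  have hwn : Bd fun y => w y ^ n := ⟨hw.meas.pow_const n, 1, fun y => by rw [norm_pow, hw.norm, one_pow]⟩
  have h1 : Measurable[((cut lev j ψ h.meas h.dep).Y j).m] fun y => w y ^ n := by
    refine (Yi_cut h (Nat.le_succ j) hwn).2 ?_
    refine (Yi_fac h j).meas_of_ae (hwn.meas.comp (cutR_meas lev j)) hp ?_
    filter_upwards [hvw] with x a
    rw [a]
  have h2 := tw_tor (twc_ndw h j) hw hn h1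
  exact twc_lift h (Nat.le_succ j) hv.meas ⟨hw.meas, 1, fun x => (hw.norm x).le⟩ h2 hvw

/-- the characters of a coordinate of level `j` are classes over `Yi j` -/
private theorem twc_char (h : ITow lev ψ ν T) {i : κ} : Cls T (Yi lev ν (lev i)) fun x => FT.ec (x i) := by
  have hf : Fintype (cutI lev (lev i)) := (h.fin (lev i)).fintype
  refine ⟨FT.continuous_ec.measurable.comp (measurable_pi_apply i), fun x => FT.norm_ec _, ?_⟩
  have e : (fun x => FT.ec (T x i) * conj (FT.ec (x i))) = fun x => FT.ec (ψ i x) := by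
    funext x
    rw [h.map, FT.ec_add, mul_comm (FT.ec (x i)), mul_assoc, AH.unim_mul _ (FT.norm_ec _), mul_one]
  rw [e]
  set W := cut lev (lev i) ψ h.meas h.dep with hW
  let i' : cutI lev (lev i) := ⟨i, le_rfl⟩
  have h1 : Measurable[(W.Y (lev i)).m] fun y => FT.ec (W.ψ i' y) := by
    have h2 : Measurable[(W.Y (lev i)).m] (W.ψ i') := by
      refine Tow.Y_of_low W (W.meas i') fun x y hxy => ?_
      exact W.dep i' x y fun l hl => hxy l hl
    exact FT.continuous_ec.measurable.comp h2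
  have hb : Bd fun y => FT.ec (W.ψ i' y) :=
    ⟨FT.continuous_ec.measurable.comp (W.meas i'), 1, fun y => (FT.norm_ec _).le⟩
  have h3 := (Yi_cut h (Nat.le_succ (lev i)) hb).1 h1
  have e2 : (fun x : TX κ => FT.ec (ψ i x)) = fun x => FT.ec (W.ψ i' (cutR lev (lev i) x)) := by
    funext x
    congr 1
    exact h.dep i _ _ fun l hl => (cutE_R lev (lev i) hl.le x).symm
  rw [e2]
  exact h3

/-- **the canonical factors are the levels**: `x ↦ e(x i)` is a class over `Yi j` for `lev i = j`; `tw_icls` -/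
theorem tw_FF (h : ITow lev ψ ν T) (j : ℕ) : FF ν T j = Yi lev ν j := by
  have hext : ∀ {A B : SA (TX κ)}, A.m = B.m → A = B := by
    rintro ⟨a⟩ ⟨b⟩ hab
    have : a = b := hab
    rw [this]
  induction j with
  | zero =>
    show cpl ν ⟨⊥⟩ = cpl ν (Yi0 lev 0)
    congr 1
    refine hext ?_
    show (⊥ : MeasurableSpace (TX κ)) = ⨆ i : {i : κ // lev i < 0}, _
    have : IsEmpty {i : κ // lev i < 0} := ⟨fun i => absurd i.2 (Nat.not_lt_zero _)⟩
    rw [iSup_of_empty]
  | succ j ih =>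
    refine hext (le_antisymm ?_ ?_)
    · show (cpl ν ⟨(FF ν T j).m ⊔ ⨆ v : ({v | Cls T (FF ν T j) v} : Set (TX κ → ℂ)),
        MeasurableSpace.comap v.1 inferInstance⟩).m ≤ _
      rw [ih]
      have h1 : (Yi lev ν j).m ⊔ ⨆ v : ({v | Cls T (Yi lev ν j) v} : Set (TX κ → ℂ)),
          MeasurableSpace.comap v.1 inferInstance ≤ (Yi lev ν (j + 1)).m := by
        refine sup_le (Yi_mono (Nat.le_succ j)) (iSup_le fun v => ?_)
        exact measurable_iff_comap_le.1 (tw_icls h v.2)
      refine (cpl_mono (μ := ν) (D' := Yi lev ν (j + 1)) h1).trans (le_of_eq ?_)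
      exact cpl_cpl (μ := ν) (Yi0 lev (j + 1))
    · have h0 : (⟨(FF ν T j).m ⊔ ⨆ v : ({v | Cls T (FF ν T j) v} : Set (TX κ → ℂ)),
        MeasurableSpace.comap v.1 inferInstance⟩ : SA (TX κ)).m ≤ (inferInstance : MeasurableSpace (TX κ)) := by
        refine sup_le ?_ (iSup_le fun v => ?_)
        · rw [ih]
          exact (Yi_fac h j).le'
        · exact measurable_iff_comap_le.1 v.2.meas
      have h1 : (Yi0 lev (j + 1)).m ≤ (FF ν T (j + 1)).m := by
        refine iSup_le fun i => ?_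
        refine le_trans ?_ (le_cpl (μ := ν) h0)
        rcases Nat.lt_succ_iff_lt_or_eq.1 i.2 with hi | hi
        · refine le_trans ?_ (le_sup_left)
          rw [ih]
          refine le_trans ?_ (le_cpl (μ := ν) (Yi0_le j))
          exact le_iSup (fun i : {i : κ // lev i < j} => MeasurableSpace.comap (fun x : TX κ => x i.1) inferInstance) ⟨i.1, hi⟩
        · refine le_trans ?_ (le_sup_right)
          have hc : Cls T (FF ν T j) fun x => FT.ec (x i.1) := by
            have hcc := twc_char h (i := i.1)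
            rw [hi] at hcc
            rw [ih]
            exact hcc
          refine le_trans (le_of_eq ?_)
            (le_iSup (fun v : ({v | Cls T (FF ν T j) v} : Set (TX κ → ℂ)) => MeasurableSpace.comap v.1 inferInstance) ⟨_, hc⟩)
          have he : MeasurableEmbedding FT.ec := FT.continuous_ec.measurableEmbedding FT.ec_injective
          have e1 : MeasurableSpace.comap FT.ec (inferInstance : MeasurableSpace ℂ) = (inferInstance : MeasurableSpace UnitAddCircle) :=
            he.comap_eq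
          show MeasurableSpace.comap (fun x : TX κ => x i.1) inferInstance =
            MeasurableSpace.comap (fun x : TX κ => FT.ec (x i.1)) inferInstance
          rw [← e1, MeasurableSpace.comap_comp]
          rfl
      have h2 : (Yi lev ν (j + 1)).m ≤ (cpl ν (FF ν T (j + 1))).m := cpl_mono (μ := ν) (D := Yi0 lev (j + 1)) h1
      refine h2.trans (le_of_eq ?_)
      exact cpl_cpl (μ := ν) _

/-- a tower has no torsion at any level -/
theorem itow_nt (h : ITow lev ψ ν T) (j : ℕ) : NT ν T j := by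
  intro v n hn hv hp
  rw [tw_FF h j] at hv hp ⊢
  exact tw_itor h hv hn hp

theorem itow_dst (h : ITow lev ψ ν T) : Dst ν T := by
  obtain ⟨R, hR, h1, h2, -⟩ := tw_inv h
  refine ⟨twc_erg h, ⟨R, hR, h1, h2⟩, itow_nt h 0, fun j => Or.inl (itow_nt h j), fun f hf h0 => ?_⟩
  refine Yi_dense h hf fun j => ?_
  rw [← tw_FF h j]
  exact h0 j

/-- the eigenvalues (`tw_eig` for the cut tower `J = 0`) -/
theorem tw_ieig (h : ITow lev ψ ν T) {c : ℂ} (hc : Eig ν T c) :
    ∃ m : κ →₀ ℤ, (∀ i, m i ≠ 0 → lev i = 0) ∧ c = (AddCircle.toCircle (cocI ψ m 0) : ℂ) := by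
  classical
  have hpr := h.prob
  obtain ⟨v, hv⟩ := hc
  have hcl : Cls T (Yi lev ν 0) v := by
    have h1 : v ∈ EE ν T 0 := hv.mem (itow_dst h)
    rw [← tw_FF h 0]
    exact h1
  have : Fintype (cutI lev 0) := (h.fin 0).fintype
  obtain ⟨w, hw, hvw⟩ := twc_rep h le_rfl hcl (tw_icls h hcl)
  obtain ⟨m', c', hm', hwc⟩ := tw_eig (twc_ndw h 0) hw
  set W := cut lev 0 ψ h.meas h.dep with hW
  have hinj : Function.Injective (Subtype.val : cutI lev 0 → κ) := Subtype.val_injective
  refine ⟨m'.mapDomain Subtype.val, fun i hi => ?_, ?_⟩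
  · by_cases hr : i ∈ Set.range (Subtype.val : cutI lev 0 → κ)
    · obtain ⟨l, rfl⟩ := hr
      rw [Finsupp.mapDomain_apply hinj] at hi
      exact hm' l hi
    · exact absurd (Finsupp.mapDomain_of_notMem_range m' i hr) hi
  · have hmp := cut_meas (lev := lev) (J := 0) h.haar
    have h1 : ∀ᵐ x ∂ν, w (cutR lev 0 x) = c' * ch m' (cutR lev 0 x) := hmp.quasiMeasurePreserving.ae hwc
    have h2 : ∀ᵐ x ∂ν, v x = c' * ch m' (cutR lev 0 x) := by
      filter_upwards [hvw, h1] with x a b
      rw [a, b]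
    have h3 : ∀ᵐ x ∂ν, v (T x) = c' * ch m' (cutR lev 0 (T x)) := (h.erg one_pos).1.quasiMeasurePreserving.ae h2
    obtain ⟨x, hx1, hx2, hx3⟩ := (h2.and (h3.and hv.eq)).exists
    have hcc : W.coc m' (cutR lev 0 x) = W.coc m' 0 := by
      unfold Tow.coc
      refine FT.pr_congr m' _ _ fun i hi => ?_
      refine W.dep i _ _ fun l hl => ?_
      rw [hm' i hi] at hl
      exact absurd hl (Nat.not_lt_zero _)
    have hco : W.coc m' 0 = cocI ψ (m'.mapDomain Subtype.val) 0 := by
      have := cut_coc (J := 0) h.meas h.dep m' (0 : TX κ)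
      exact this
    rw [cut_T (J := 0) h.meas h.dep h.map x, ← hW, Tow.ch_T W m', hcc] at hx2
    rw [hx2, hx1] at hx3
    have hc0 : c' * ch m' (cutR lev 0 x) ≠ 0 := by
      rw [← hx1]
      intro h0
      have := hv.norm x
      rw [h0, norm_zero] at this
      exact zero_ne_one this
    have h5 : (c' * ch m' (cutR lev 0 x)) * FT.ec (W.coc m' 0) = (c' * ch m' (cutR lev 0 x)) * c := by
      rw [mul_comm _ c, ← hx3]; ring
    have h6 := mul_left_cancel₀ hc0 h5
    rw [← h6, hco]
    rfl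

end Pool.Agent.Lib.MP_9fe581_an.AQ
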