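import Pool.Agent.Lib.MP_9fe581_an.AP.Mod

/-!
# AQ, TwG: divisibility in finitely generated groups
-/

set_option autoImplicit false
set_option linter.unusedSectionVars false
set_option warn.classDefReducibility false

open Finset MeasureTheory Filter Topology ProbabilityTheory
open scoped ComplexConjugate

namespace Pool.Agent.Lib.MP_9fe581_an.AQ

open AP
open AH (BM)
open HT (TX mX ch)



/-- an element of infinite order of a finitely generated group is divisible by finitely many numbers only: the quotient by the torsion is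
free, a coordinate of `x` is not `0` -/
theorem fg_div {G : Type} [AddCommGroup G] [Module.Finite ℤ G] {x : G} (hx : ∀ n : ℕ, 0 < n → n • x ≠ 0) :
    ∃ q0 : ℕ, ∀ q ≥ q0, ∀ y : G, q • y ≠ x := by
  classical
  have : Module.Free ℤ (G ⧸ Submodule.torsion ℤ G) := Module.free_of_finite_type_torsion_free'
  let b := Module.Free.chooseBasis ℤ (G ⧸ Submodule.torsion ℤ G)
  have hx0 : (Submodule.torsion ℤ G).mkQ x ≠ 0 := by
    intro h
    rw [Submodule.mkQ_apply, Submodule.Quotient.mk_eq_zero] at h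
    obtain ⟨a, ha⟩ := (Submodule.mem_torsion_iff x).1 h
    have ha0 : (a : ℤ) ≠ 0 := nonZeroDivisors.coe_ne_zero a
    have ha1 : (a : ℤ) • x = 0 := ha
    refine hx (a : ℤ).natAbs (Int.natAbs_pos.2 ha0) ?_
    rw [← natCast_zsmul]
    rcases Int.natAbs_eq (a : ℤ) with h1 | h1
    · rw [← h1]
      exact ha1
    · have h2 : (((a : ℤ).natAbs : ℕ) : ℤ) = -(a : ℤ) := by omega
      rw [h2, neg_smul, ha1, neg_zero]
  obtain ⟨i, hi⟩ : ∃ i, b.repr ((Submodule.torsion ℤ G).mkQ x) i ≠ 0 := by
    by_contra hcon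
    push Not at hcon
    refine hx0 (b.repr.injective ?_)
    ext i
    rw [hcon i, map_zero]
    rfl
  refine ⟨(b.repr ((Submodule.torsion ℤ G).mkQ x) i).natAbs + 1, fun q hq y hy => ?_⟩
  have h1 : b.repr ((Submodule.torsion ℤ G).mkQ x) i = q * b.repr ((Submodule.torsion ℤ G).mkQ y) i := by
    rw [← hy, map_nsmul, map_nsmul]
    simp
  have h2 : (q : ℤ) ∣ b.repr ((Submodule.torsion ℤ G).mkQ x) i := ⟨_, h1⟩
  have h3 := Int.natAbs_dvd_natAbs.2 h2
  have h4 := Nat.le_of_dvd (Int.natAbs_pos.2 hi) h3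
  rw [Int.natAbs_natCast] at h4
  omega

end Pool.Agent.Lib.MP_9fe581_an.AQ
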