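import Pool.Agent.Lib.MP_9fe581_an.AQ.TwC
import Pool.Agent.Lib.MP_9fe581_an.AQ.TwG

/-!
# AQ, TwK: the hypothesis on the eigenvalues for two towers
-/

set_option autoImplicit false
set_option linter.unusedSectionVars false
set_option warn.classDefReducibility false

open Finset MeasureTheory Filter Topology ProbabilityTheory
open scoped ComplexConjugate

namespace Pool.Agent.Lib.MP_9fe581_an.AQ

open AP
open AH (BM)
open HT (TX mX ch)

variable {κ : Type} {lev : κ → ℕ} {ψ : κ → TX κ → UnitAddCircle} {ν : Measure (TX κ)} {T : TX κ → TX κ}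
  {κ' : Type} {lev' : κ' → ℕ} {ψ' : κ' → TX κ' → UnitAddCircle} {ν' : Measure (TX κ')} {T' : TX κ' → TX κ'}

/-- `cocI` is in every subgroup that contains the `ψ i` of level `0` -/
private theorem cocI_mem {κ : Type} {lev : κ → ℕ} {ψ : κ → TX κ → UnitAddCircle} {G : AddSubgroup UnitAddCircle}
    (hG : ∀ i, lev i = 0 → ψ i 0 ∈ G) {m : κ →₀ ℤ} (hm : ∀ i, m i ≠ 0 → lev i = 0) : cocI ψ m 0 ∈ G := by
  unfold cocI Finsupp.sum
  refine sum_mem fun i hi => G.zsmul_mem (hG i (hm i (Finsupp.mem_support_iff.1 hi))) _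

private theorem cocI_nsmul {κ : Type} (ψ : κ → TX κ → UnitAddCircle) (n : ℕ) (m : κ →₀ ℤ) :
    cocI ψ (n • m) 0 = n • cocI ψ m 0 := by
  have h1 : n • m = (n : ℤ) • m := (natCast_zsmul m n).symm
  unfold cocI
  rw [h1, Finsupp.sum_smul_index (fun i => zero_zsmul _), Finsupp.smul_sum]
  refine Finsupp.sum_congr fun i _ => ?_
  rw [mul_smul, natCast_zsmul]

/-- **two towers**: `c = e(θ)`, `θ = cocI ψ m 0`, `m ≠ 0`; `fg_div` in the subgroup of the circle generated by the `ψ i 0`, `lev i = 0`, and the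
`ψ' i 0`, `lev' i = 0`; `n θ = cocI ψ (n m) 0 ≠ 0` by `h.base` -/
theorem itow_kr (h : ITow lev ψ ν T) (h' : ITow lev' ψ' ν' T') : KR ν T ν' T' := by
  intro c hc hc1
  obtain ⟨m, hm, hcm⟩ := tw_ieig h hc
  have hm0 : m ≠ 0 := by
    rintro rfl
    apply hc1
    rw [hcm]
    simp [cocI]
  -- the subgroup
  set S : Set UnitAddCircle := (fun i => ψ i 0) '' {i | lev i ≤ 0} ∪ (fun i => ψ' i 0) '' {i | lev' i ≤ 0} with hS
  have hSf : S.Finite := ((h.fin 0).image _).union ((h'.fin 0).image _)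
  set G : AddSubgroup UnitAddCircle := AddSubgroup.closure S with hG
  have hG1 : ∀ i, lev i = 0 → ψ i 0 ∈ G := fun i hi =>
    AddSubgroup.subset_closure (Or.inl ⟨i, hi.le, rfl⟩)
  have hG2 : ∀ i, lev' i = 0 → ψ' i 0 ∈ G := fun i hi =>
    AddSubgroup.subset_closure (Or.inr ⟨i, hi.le, rfl⟩)
  have hfg : AddGroup.FG G := (AddGroup.fg_iff_addSubgroup_fg G).2 ⟨hSf.toFinset, by rw [hSf.coe_toFinset]⟩
  have hfin : Module.Finite ℤ G := Module.Finite.iff_addGroup_fg.2 hfg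
  set x : G := ⟨cocI ψ m 0, cocI_mem hG1 hm⟩ with hx
  have hx0 : ∀ n : ℕ, 0 < n → n • x ≠ 0 := by
    intro n hn h0
    have h1 : n • cocI ψ m 0 = 0 := congrArg Subtype.val h0
    rw [← cocI_nsmul] at h1
    refine h.base (n • m) ?_ ?_ h1
    · intro h2
      rcases smul_eq_zero.1 h2 with h3 | h3
      · exact hn.ne' h3
      · exact hm0 h3
    · intro i hi
      refine hm i fun h2 => hi ?_
      rw [Finsupp.smul_apply, h2, smul_zero]
  obtain ⟨q0, hq0⟩ := fg_div hx0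
  refine ⟨q0, fun q hq _ a b ha hb hab => ?_⟩
  obtain ⟨ma, hma, ea⟩ := tw_ieig h ha
  obtain ⟨mb, hmb, eb⟩ := tw_ieig h' hb
  refine hq0 q hq ⟨cocI ψ ma 0 + cocI ψ' mb 0, G.add_mem (cocI_mem hG1 hma) (cocI_mem hG2 hmb)⟩ ?_
  apply Subtype.ext
  show q • (cocI ψ ma 0 + cocI ψ' mb 0) = cocI ψ m 0
  apply AddCircle.injective_toCircle (one_ne_zero' ℝ)
  apply Circle.ext
  rw [← hcm, hab, ea, eb, AddCircle.toCircle_nsmul, AddCircle.toCircle_add]
  simp

end Pool.Agent.Lib.MP_9fe581_an.AQ
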