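import Pool.Agent.Lib.MP_9fe581_an.AP.Mod

/-!
# AQ, TwR: the inverse of a tower of height `≤ ω`
-/

set_option autoImplicit false
set_option linter.unusedSectionVars false
set_option warn.classDefReducibility false

open Finset MeasureTheory Filter Topology ProbabilityTheory
open scoped ComplexConjugate

namespace Pool.Agent.Lib.MP_9fe581_an.AQ

open AP
open AH (BM)
open HT (TX mX ch)

variable {κ : Type} {lev : κ → ℕ} {ψ : κ → TX κ → UnitAddCircle} {ν : Measure (TX κ)} {T : TX κ → TX κ}

private noncomputable def TwR_inv (ψ : κ → TX κ → UnitAddCircle) : ℕ → TX κ → TX κ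
  | 0 => fun _ => 0
  | n + 1 => fun x i => x i - ψ i (TwR_inv ψ n x)

private theorem TwR_meas (h : ITow lev ψ ν T) (n : ℕ) : Measurable (TwR_inv ψ n) := by
  induction n with
  | zero => exact measurable_const
  | succ n ih => exact measurable_pi_lambda _ fun i => (measurable_pi_apply i).sub ((h.meas i).comp ih)

private theorem TwR_stab (h : ITow lev ψ ν T) (n : ℕ) (x : TX κ) :
    ∀ i, lev i < n → TwR_inv ψ (n + 1) x i = TwR_inv ψ n x i := by
  induction n with
  | zero => intro i hi; exact absurd hi (Nat.not_lt_zero _)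
  | succ n ih =>
    intro i hi
    show x i - ψ i (TwR_inv ψ (n + 1) x) = x i - ψ i (TwR_inv ψ n x)
    rw [h.dep i (TwR_inv ψ (n + 1) x) (TwR_inv ψ n x) fun l hl => ih l (by omega)]

private theorem TwR_stab2 (h : ITow lev ψ ν T) (x : TX κ) (i : κ) (n : ℕ) (hn : lev i + 1 ≤ n) :
    TwR_inv ψ n x i = TwR_inv ψ (lev i + 1) x i := by
  induction n, hn using Nat.le_induction with
  | base => rfl
  | succ n hn ih => rw [TwR_stab h n x i (by omega), ih]

private theorem TwR_left (h : ITow lev ψ ν T) (n : ℕ) (x : TX κ) :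
    ∀ i, lev i < n → TwR_inv ψ n (T x) i = x i := by
  induction n with
  | zero => intro i hi; exact absurd hi (Nat.not_lt_zero _)
  | succ n ih =>
    intro i hi
    show T x i - ψ i (TwR_inv ψ n (T x)) = x i
    rw [h.dep i (TwR_inv ψ n (T x)) x fun l hl => ih l (by omega), h.map, add_sub_cancel_right]

private theorem TwR_low (h : ITow lev ψ ν T) (n a : ℕ) (x y : TX κ) (hxy : ∀ i, lev i < a → x i = y i) :
    ∀ i, lev i < a → TwR_inv ψ n x i = TwR_inv ψ n y i := by
  induction n with
  | zero => intro i _; rfl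
  | succ n ih =>
    intro i hi
    show x i - ψ i (TwR_inv ψ n x) = y i - ψ i (TwR_inv ψ n y)
    rw [hxy i hi, h.dep i (TwR_inv ψ n x) (TwR_inv ψ n y) fun l hl => ih l (hl.trans hi)]

/-- the inverse: `A 0 = 0`, `A (n+1) x i = x i - ψ i (A n x)`, `R x i = A (lev i + 1) x i` (compare `inv1` in AP/N1) -/
theorem tw_inv (h : ITow lev ψ ν T) : ∃ R : TX κ → TX κ, Measurable R ∧ (∀ x, T (R x) = x) ∧ (∀ x, R (T x) = x) ∧
    ∀ (a : ℕ) (x y : TX κ), (∀ i, lev i < a → x i = y i) → ∀ i, lev i < a → R x i = R y i := by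
  refine ⟨fun x i => TwR_inv ψ (lev i + 1) x i, ?_, ?_, ?_, ?_⟩
  · exact measurable_pi_lambda _ fun i => (measurable_pi_apply i).comp (TwR_meas h (lev i + 1))
  · intro x
    funext i
    rw [h.map]
    have h1 : ψ i (fun j => TwR_inv ψ (lev j + 1) x j) = ψ i (TwR_inv ψ (lev i) x) :=
      h.dep i _ _ fun l hl => (TwR_stab2 h x l (lev i) hl).symm
    rw [h1]
    show x i - ψ i (TwR_inv ψ (lev i) x) + ψ i (TwR_inv ψ (lev i) x) = x i
    rw [sub_add_cancel]
  · intro x
    funext i
    exact TwR_left h (lev i + 1) x i (Nat.lt_succ_self _)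
  · intro a x y hxy i hi
    exact TwR_low h (lev i + 1) a x y hxy i hi

end Pool.Agent.Lib.MP_9fe581_an.AQ
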