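import Pool.Agent.Lib.MP_9fe581_an.AQ.Fin

/-!
# AQ, Uni: the correlations of the joinings of two systems, uniformly in the second system

The bound `q0` in `SJ2` depends on the first system, on `F` and on the set `K` of the possible eigenvalues only. The proofs are
those of J2, J3, A1 and Fin with the quantifiers in a different order.
-/

set_option autoImplicit false
set_option linter.unusedSectionVars false
set_option warn.classDefReducibility false

open Finset MeasureTheory Filter Topology ProbabilityTheory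
open scoped ComplexConjugate

namespace Pool.Agent.Lib.MP_9fe581_an.AQ

open AP
open AH (BM)

variable {X : Type} [mX0 : MeasurableSpace X] {μ : Measure X} [IsProbabilityMeasure μ] {T : X → X} [StandardBorelSpace X]

/-- the core at level `h`, uniformly in the second system -/
def CoreU (μ : Measure X) (T : X → X) (h : ℕ) : Prop :=
  ∀ η : ℝ, 0 < η → ∃ q0 : ℕ, ∀ (X' : Type) [MeasurableSpace X'] [StandardBorelSpace X'] (μ' : Measure X')
    [IsProbabilityMeasure μ'] (T' : X' → X'), Dst μ' T' → ∀ p q lam, PJ μ T μ' T' p q lam → q0 ≤ q → ∀ e ∈ EE μ T h,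
    ∀ f : X → ℂ, Bd f → Mode μ T h e f → nsq μ f ≤ 1 →
    (∀ v, Cls T^[p] (DD μ T p q lam h) v → Mode μ T h e v → Esq μ (DD μ T p q lam h) (fun x => f x * conj (v x)) < η) →
    ∃ L ≤ η, Tendsto (energy μ T^[p] (DD μ T p q lam h) f) atTop (𝓝 L)

/-- the bound of the second factor at level `h`, uniformly in the second system -/
def JBU (μ : Measure X) (T : X → X) (h : ℕ) : Prop :=
  ∀ ε : ℝ, 0 < ε → ∃ q0 : ℕ, ∀ (X' : Type) [MeasurableSpace X'] [StandardBorelSpace X'] (μ' : Measure X')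
    [IsProbabilityMeasure μ'] (T' : X' → X'), Dst μ' T' → ∀ p q lam, PJ μ T μ' T' p q lam → q0 ≤ q → ∀ f : X → ℂ, Bd f →
    Measurable[(FF μ T h).m] f → Jsq lam f ≤ Esq μ (DD μ T p q lam h) f + ε * nsq μ f

private theorem u_tor {p q : ℕ} {X' : Type} [MeasurableSpace X'] {lam : Measure (X × X')} {h : ℕ} (hL : Lv μ T p q lam h) :
    TorP T^[p] (DD μ T p q lam h) (FF μ T h) q := by
  intro v hv hvY n hn hnq hvn
  exact hL.sat v hv hvY ⟨n, fun hd => absurd (Nat.le_of_dvd hn hd) (by omega), hid_fst (DD_le h) hvn⟩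

theorem core_u (hT : Dst μ T) (h : ℕ) (hO : Ok μ T h) : CoreU μ T h := by
  intro η hη
  obtain ⟨q0, hq0⟩ := ((Qt_tendsto h).eventually_gt_atTop (1 / η ^ 2)).exists_forall_of_atTop
  refine ⟨q0, fun X' _ _ μ' _ T' hT' p q lam hJ hq e he f hf hM hf1 hv => ?_⟩
  have hq1 : 1 < q := hJ.qp.one_lt
  have hS : Sys μ T^[p] := sys_pow hT hJ.pp.pos
  obtain ⟨hL, hMin⟩ := lv_min hT hT' hJ h hO
  have fD : Fac μ T^[p] (DD μ T p q lam h) := hL.fac.iter p
  obtain ⟨k, hk, hF⟩ := exists_fib μ hS.erg.toMeasurePreserving fD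
  have c : Ctx μ T^[p] (DD μ T p q lam h) k := ⟨hS, fD, hF⟩
  have tor := u_tor hL
  exact core_energy c (bd_em hT he) (hMin k c) tor hη (hq0 q hq) ((hq0 q hq).trans_le (Qt_le hq1 h)) hf hM hf1
    hv

/-- **pure modes** -/
theorem jb_mode_u (hT : Dst μ T) {h : ℕ} (hO : Ok μ T h) (hC : CoreU μ T h) (hB : JBU μ T h) (ε : ℝ) (hε : 0 < ε) : ∃ q0 : ℕ,
    ∀ (X' : Type) [MeasurableSpace X'] [StandardBorelSpace X'] (μ' : Measure X')
      [IsProbabilityMeasure μ'] (T' : X' → X'), Dst μ' T' → ∀ p q lam, PJ μ T μ' T' p q lam → q0 ≤ q → ∀ e ∈ EE μ T h,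
      ∀ f, Bd f → Mode μ T h e f → Jsq lam f ≤ Esq μ (DD μ T p q lam (h + 1)) f + ε * nsq μ f := by
  set ε' := min ε 1 with hε'
  have hε'0 : 0 < ε' := lt_min hε one_pos
  set θ : ℝ := (ε' / 4) ^ 2 with hθd
  have hθ : 0 < θ := by positivity
  obtain ⟨q1, hq1⟩ := hC (θ ^ 2 / 4) (by positivity)
  obtain ⟨q2, hq2⟩ := hB (θ ^ 2 / 4) (by positivity)
  refine ⟨max q1 q2, fun X' _ _ μ' _ T' hT' p q lam hJ hq e he f hf hM => ?_⟩
  have hDPJ : DP μ T p q lam := dp hT hT' hJ
  have hpr := hJ.prob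
  have hJ0 : 0 ≤ Jsq lam f := nsq_nonneg _
  have hE0 : 0 ≤ Esq μ (DD μ T p q lam (h + 1)) f := nsq_nonneg _
  have hn0 := nsq_nonneg (μ := μ) f
  by_cases h0 : nsq μ f = 0
  · -- `f = 0`
    have h1 : Jsq lam f ≤ nsq μ f := by
      have := ce_nsq_le (D := sec lam) sec_le (hf.bm.comp (hJ.fst))
      rw [hJ.nsq_fst hf.bm] at this
      exact this
    rw [h0] at h1 ⊢
    linarith
  · have hn : 0 < nsq μ f := lt_of_le_of_ne hn0 (Ne.symm h0)
    set c : ℂ := ((1 / nrm μ f : ℝ) : ℂ) with hc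
    have hnr : 0 < nrm μ f := Real.sqrt_pos.2 hn
    have hcn : ‖c‖ ^ 2 = 1 / nsq μ f := by
      rw [hc, Complex.norm_real, Real.norm_of_nonneg (by positivity), div_pow, one_pow, nrm_sq]
    have hcf : Bd fun x => c * f x := by
      obtain ⟨C, hC⟩ := hf.bdd
      exact ⟨hf.meas.const_mul c, ‖c‖ * C, fun x => by rw [norm_mul]; exact mul_le_mul_of_nonneg_left (hC x) (norm_nonneg _)⟩
    have hcM : Mode μ T h e fun x => c * f x := by
      have ee : (fun x => conj (e x) * (c * f x)) = fun x => c * (conj (e x) * f x) := by funext x; ring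
      show Measurable[(FF μ T h).m] fun x => conj (e x) * (c * f x)
      rw [ee]
      exact Measurable.const_mul hM c
    have hc1 : nsq μ (fun x => c * f x) = 1 := by
      rw [nsq_smul, hcn]; field_simp
    have key := mode_one hT hT' hO hθ hJ (hDPJ) hcf he hcM hc1.le
      (fun g hg hgY => hq2 X' μ' T' hT' p q lam hJ ((le_max_right _ _).trans hq) g hg hgY)
      (fun f' a b d e1 => hq1 X' μ' T' hT' p q lam hJ ((le_max_left _ _).trans hq) e he f' a b d e1)
    have hsθ : Real.sqrt θ = ε' / 4 := Real.sqrt_sq (by positivity)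
    rw [hsθ, Jsq_smul, Esq_smul, hcn] at key
    set a := Jsq lam f with ha
    set b := Esq μ (DD μ T p q lam (h + 1)) f with hb
    set N := nsq μ f with hN
    -- `b ≤ N`
    have hbN : b ≤ N := ce_nsq_le (hDPJ |>.fac (h + 1) hO).le' hf.bm
    have hx1 : (0 : ℝ) ≤ 1 / N * a := by positivity
    have hx2 : (0 : ℝ) ≤ 1 / N * b := by positivity
    have hy2 : Real.sqrt (1 / N * b) ≤ 1 := by
      refine Real.sqrt_le_iff.2 ⟨zero_le_one, ?_⟩
      rw [one_pow, one_div, inv_mul_le_iff₀ hn, mul_one]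
      exact hbN
    have hy0 := Real.sqrt_nonneg (1 / N * b)
    have h5 : 1 / N * a ≤ 1 / N * b + ε' := by
      have e1 := Real.sq_sqrt hx1
      have e2 := Real.sq_sqrt hx2
      have h6 : Real.sqrt (1 / N * a) ^ 2 ≤ (ε' / 4 + Real.sqrt (1 / N * b)) ^ 2 :=
        pow_le_pow_left₀ (Real.sqrt_nonneg _) key 2
      have h7 : ε' ≤ 1 := min_le_right _ _
      nlinarith
    have h8 : ε' ≤ ε := min_le_left _ _
    have h9 : a ≤ b + ε' * N := by
      have : N * (1 / N * a) ≤ N * (1 / N * b + ε') := mul_le_mul_of_nonneg_left h5 hn.le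
      have e3 : N * (1 / N * a) = a := by field_simp
      have e4 : N * (1 / N * b + ε') = b + ε' * N := by field_simp
      rw [e3, e4] at this
      exact this
    have h10 : ε' * N ≤ ε * N := mul_le_mul_of_nonneg_right h8 hn.le
    linarith

/-- a passage to the limit -/
private theorem lim_le {a b c : ℝ} {K : ℝ} (h : ∀ δ : ℝ, 0 < δ → δ ≤ 1 → a ≤ b + c + K * δ) (_hK : 0 ≤ K) : a ≤ b + c := by
  by_contra hlt
  push Not at hlt
  have hd : 0 < a - (b + c) := by linarith
  set δ : ℝ := min 1 ((a - (b + c)) / (2 * (K + 1))) with hδ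
  have hK1 : 0 < 2 * (K + 1) := by linarith
  have hδ0 : 0 < δ := lt_min one_pos (div_pos hd hK1)
  have h1 := h δ hδ0 (min_le_left _ _)
  have h2 : K * δ ≤ (a - (b + c)) / 2 := by
    have h3 : δ ≤ (a - (b + c)) / (2 * (K + 1)) := min_le_right _ _
    calc K * δ ≤ (K + 1) * δ := by nlinarith
      _ ≤ (K + 1) * ((a - (b + c)) / (2 * (K + 1))) := mul_le_mul_of_nonneg_left h3 (by linarith)
      _ = (a - (b + c)) / 2 := by field_simp
  linarith

/-- **the final bound at every level** -/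
theorem jb_u (hT : Dst μ T) (hC : ∀ h, Ok μ T h → CoreU μ T h) (h : ℕ) (hO : Ok μ T (h - 1)) : JBU μ T h := by
  classical
  induction h with
  | zero =>
    intro ε hε
    refine ⟨0, fun X' _ _ μ' _ T' hT' p q lam hJ _ f hf hY => ?_⟩
    have hDPJ : DP μ T p q lam := dp hT hT' hJ
    have hpr := hJ.prob
    obtain ⟨c, h3⟩ := FF_const hf hY
    have h4 : Jsq lam f = ‖c‖ ^ 2 := by
      have a1 : (fun z : X × X' => f z.1) =ᵐ[lam] fun _ => c := hJ.fst.quasiMeasurePreserving.ae h3
      have a2 : ce lam (sec lam) (fun _ : X × X' => c) = fun _ => c := condExp_const sec_le c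
      unfold Jsq
      rw [nsq_congr (ce_congr a1), a2]
      simp [nsq]
    have h5 : Esq μ (DD μ T p q lam 0) f = ‖c‖ ^ 2 := by
      have a2 : ce μ (DD μ T p q lam 0) (fun _ => c) = fun _ => c := condExp_const (hDPJ.fac 0 ok_zero).le' c
      unfold Esq
      rw [nsq_congr (ce_congr h3), a2]
      simp [nsq]
    rw [h4, h5]
    have := nsq_nonneg (μ := μ) f
    nlinarith
  | succ h ih =>
    intro ε hε
    have hO : Ok μ T h := hO
    obtain ⟨q0, hq0⟩ := jb_mode_u hT hO (hC h hO) (ih (hO.mono (Nat.sub_le h 1))) ε hε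
    refine ⟨q0, fun X' _ _ μ' _ T' hT' p q lam hJ hq f hf hY => ?_⟩
    have hDPJ : DP μ T p q lam := dp hT hT' hJ
    have hpr := hJ.prob
    have hD := hDPJ.fac (h + 1) hO
    set D := DD μ T p q lam (h + 1) with hDd
    set K := nrm μ f with hK
    have hK0 : 0 ≤ K := nrm_nonneg _
    have hcomp : ∀ {u : X → ℂ}, Bd u → BM lam fun z : X × X' => u z.1 := fun hu => hu.bm.comp hJ.fst
    refine lim_le (K := 2 * (K + 1) + 1 + (2 * K + 1) + ε * (2 * K + 1)) (fun δ hδ hδ1 => ?_) (by positivity)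
    have hG := EE_gp hT h
    obtain ⟨n, v, a, hv, hne, haB, haM, hd⟩ := modes_dense hG hf hY hδ
    obtain ⟨F, hFdef⟩ : ∃ F : Fin n → X → ℂ, F = fun i x => v i x * a i x := ⟨_, rfl⟩
    have hvB : ∀ i, Bd (v i) := fun i => cls_bd (hv i)
    have hFB : ∀ i, Bd (F i) := by
      intro i
      rw [hFdef]
      exact (hvB i).mul (haB i)
    have hvv : ∀ i x, conj (v i x) * v i x = 1 := by
      intro i x
      rw [mul_comm]
      rw [Complex.mul_conj, Complex.normSq_eq_norm_sq, (hv i).norm x]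
      norm_num
    have hFM : ∀ i, Mode μ T h (v i) (F i) := by
      intro i
      show Measurable[(FF μ T h).m] fun x => conj (v i x) * F i x
      have e : (fun x => conj (v i x) * F i x) = a i := by
        funext x
        rw [hFdef]
        dsimp only
        rw [← mul_assoc, hvv, one_mul]
      rw [e]
      exact haM i
    set P : X → ℂ := fun x => ∑ i, F i x with hP
    have hPv : ∀ x, P x = ∑ i, v i x * a i x := by
      intro x
      rw [hP, hFdef]
    have hd' : nrm μ (fun x => f x - P x) ≤ δ := by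
      simp only [hPv]
      exact hd
    have hPB : Bd P := by
      have : ∀ s : Finset (Fin n), Bd fun x => ∑ i ∈ s, F i x := by
        intro s
        induction s using Finset.induction_on with
        | empty => exact ⟨by simp, 0, fun x => by simp⟩
        | insert b s hb ih2 =>
          obtain ⟨C, hC⟩ := (hFB b).bdd
          obtain ⟨C', hC'⟩ := ih2.bdd
          simp only [sum_insert hb]
          exact ⟨(hFB b).meas.add ih2.meas, C + C',
            fun x => (norm_add_le _ _).trans (add_le_add (hC x) (hC' x))⟩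
      exact this univ
    have hsubB : Bd fun x => f x - P x := hf.sub hPB
    -- the bound for `P`
    have hn : nsq μ P = ∑ i, nsq μ (F i) := by
      refine nsq_sum univ (fun i _ => (hFB i).bm) fun i _ j _ hij => ?_
      have hee : (fun x => v i x * conj (v j x)) ∈ EE μ T h := hG.mul _ (hv i) _ (hG.cj _ (hv j))
      have hb : Bd fun x => F i x * conj (F j x) := (hFB i).mul (hFB j).conj
      have hm : Mode μ T h (fun x => v i x * conj (v j x)) fun x => F i x * conj (F j x) := by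
        show Measurable[(FF μ T h).m] fun x => conj (v i x * conj (v j x)) * (F i x * conj (F j x))
        have e : (fun x => conj (v i x * conj (v j x)) * (F i x * conj (F j x))) =
            fun x => a i x * conj (a j x) := by
          funext x
          rw [hFdef]
          simp only [map_mul, Complex.conj_conj]
          calc conj (v i x) * v j x * (v i x * a i x * (conj (v j x) * conj (a j x)))
              = (conj (v i x) * v i x) * (conj (v j x) * v j x) * (a i x * conj (a j x)) := by ring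
            _ = _ := by rw [hvv, hvv, one_mul, one_mul]
        rw [e]
        exact Measurable.mul (haM i) (Complex.continuous_conj.measurable.comp (haM j))
      have h0 := mode_zero hT hee (hne i j hij) hb hm
      have h1 : ∫ x, F i x * conj (F j x) ∂μ = ∫ x, ce μ (FF μ T h) (fun x => F i x * conj (F j x)) x ∂μ :=
        (integral_condExp (FF_le h)).symm
      rw [h1, integral_congr_ae h0]
      simp
    have hj : Jsq lam P = ∑ i, Jsq lam (F i) := by
      have e1 : ce lam (sec lam) (fun z : X × X' => P z.1) =ᵐ[lam]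
          fun z => ∑ i, ce lam (sec lam) (fun z : X × X' => F i z.1) z := ce_sum univ fun i _ => hcomp (hFB i)
      show nsq lam (ce lam (sec lam) fun z : X × X' => P z.1) = _
      rw [nsq_congr e1]
      exact nsq_sum univ (fun i _ => ce_bm (hcomp (hFB i))) fun i _ j _ hij =>
        J_orth hT hT' hJ (hv i) (hv j) (hne i j hij) (hFB i) (hFB j) (hFM i) (hFM j)
    have he : Esq μ D P = ∑ i, Esq μ D (F i) := by
      have e1 : ce μ D P =ᵐ[μ] fun x => ∑ i, ce μ D (F i) x := ce_sum univ fun i _ => (hFB i).bm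
      show nsq μ (ce μ D P) = _
      rw [nsq_congr e1]
      exact nsq_sum univ (fun i _ => ce_bm (hFB i).bm) fun i _ j _ hij =>
        hDPJ.orth h hO (v i) (v j) (hv i) (hv j) (hne i j hij) _ _ (hFB i) (hFB j) (hFM i) (hFM j)
    have hPle : Jsq lam P ≤ Esq μ D P + ε * nsq μ P := by
      rw [hj, he, hn, mul_sum, ← sum_add_distrib]
      exact sum_le_sum fun i _ => hq0 X' μ' T' hT' p q lam hJ hq (v i) (hv i) (F i) (hFB i) (hFM i)
    -- comparison of `f` and `P`
    have hnP : nrm μ P ≤ K + δ := by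
      have e1 : P = fun x => f x + (-1 : ℂ) * (f x - P x) := by funext x; ring
      rw [e1]
      refine (nrm_add hf.bm ?_).trans ?_
      · exact (AH.BM.const (μ := μ) (-1)).mul hsubB.bm
      · rw [nrm_smul, norm_neg, norm_one, one_mul]
        exact add_le_add le_rfl hd'
    have hJf : nrm lam (ce lam (sec lam) fun z : X × X' => f z.1) ≤
        nrm lam (ce lam (sec lam) fun z : X × X' => P z.1) + δ := by
      have e1 : ce lam (sec lam) (fun z : X × X' => f z.1) =ᵐ[lam] fun z =>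
          ce lam (sec lam) (fun z : X × X' => P z.1) z + ce lam (sec lam) (fun z : X × X' => f z.1 - P z.1) z := by
        have e2 : (fun z : X × X' => f z.1) = fun z => P z.1 + (f z.1 - P z.1) := by funext z; ring
        conv_lhs => rw [e2]
        exact ce_add (hcomp hPB) (hcomp hsubB)
      rw [nrm_congr e1]
      refine (nrm_add (ce_bm (hcomp hPB)) (ce_bm (hcomp hsubB))).trans (add_le_add le_rfl ?_)
      refine (ce_nrm_le sec_le (hcomp hsubB)).trans ?_
      have e3 : nrm lam (fun z : X × X' => f z.1 - P z.1) = nrm μ fun x => f x - P x := by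
        unfold nrm
        rw [hJ.nsq_fst hsubB.bm]
      rw [e3]
      exact hd'
    have hEP : nrm μ (ce μ D P) ≤ nrm μ (ce μ D f) + δ := by
      have e1 : ce μ D P =ᵐ[μ] fun x => ce μ D f x + (-1 : ℂ) * ce μ D (fun x => f x - P x) x := by
        have a1 := ce_sub (μ := μ) (D := D) hf.bm hPB.bm
        filter_upwards [a1] with x b1
        rw [b1]; ring
      rw [nrm_congr e1]
      refine (nrm_add (ce_bm hf.bm) ((AH.BM.const (μ := μ) (-1)).mul (ce_bm hsubB.bm))).trans (add_le_add le_rfl ?_)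
      rw [nrm_smul, norm_neg, norm_one, one_mul]
      exact (ce_nrm_le hD.le' hsubB.bm).trans hd'
    have hEK : nrm μ (ce μ D f) ≤ K := ce_nrm_le hD.le' hf.bm
    have hJPK : nrm lam (ce lam (sec lam) fun z : X × X' => P z.1) ≤ K + 1 := by
      refine (ce_nrm_le sec_le (hcomp hPB)).trans ?_
      have e3 : nrm lam (fun z : X × X' => P z.1) = nrm μ P := by
        unfold nrm
        rw [hJ.nsq_fst hPB.bm]
      rw [e3]
      linarith
    have s1 : Jsq lam f = nrm lam (ce lam (sec lam) fun z : X × X' => f z.1) ^ 2 := (nrm_sq _).symm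
    have s2 : Jsq lam P = nrm lam (ce lam (sec lam) fun z : X × X' => P z.1) ^ 2 := (nrm_sq _).symm
    have s3 : Esq μ D f = nrm μ (ce μ D f) ^ 2 := (nrm_sq _).symm
    have s4 : Esq μ D P = nrm μ (ce μ D P) ^ 2 := (nrm_sq _).symm
    have s5 : nsq μ f = K ^ 2 := (nrm_sq _).symm
    have s6 : nsq μ P = nrm μ P ^ 2 := (nrm_sq _).symm
    rw [s1, s3, s5]
    rw [s2, s4, s6] at hPle
    set a1 := nrm lam (ce lam (sec lam) fun z : X × X' => f z.1) with ha
    set b := nrm lam (ce lam (sec lam) fun z : X × X' => P z.1) with hb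
    set c := nrm μ (ce μ D f) with hc
    set d := nrm μ (ce μ D P) with hd2
    set t := nrm μ P with ht
    have a0 : 0 ≤ a1 := nrm_nonneg _
    have b0 : 0 ≤ b := nrm_nonneg _
    have c0 : 0 ≤ c := nrm_nonneg _
    have d0 : 0 ≤ d := nrm_nonneg _
    have t0 : 0 ≤ t := nrm_nonneg _
    have i1 : a1 ^ 2 ≤ b ^ 2 + (2 * (K + 1) + 1) * δ := by
      have : a1 ^ 2 ≤ (b + δ) ^ 2 := pow_le_pow_left₀ a0 hJf 2
      nlinarith
    have i2 : d ^ 2 ≤ c ^ 2 + (2 * K + 1) * δ := by
      have : d ^ 2 ≤ (c + δ) ^ 2 := pow_le_pow_left₀ d0 hEP 2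
      nlinarith
    have i3 : t ^ 2 ≤ K ^ 2 + (2 * K + 1) * δ := by
      have : t ^ 2 ≤ (K + δ) ^ 2 := pow_le_pow_left₀ t0 hnP 2
      nlinarith
    have i4 : ε * t ^ 2 ≤ ε * (K ^ 2 + (2 * K + 1) * δ) := mul_le_mul_of_nonneg_left i3 hε.le
    nlinarith

/-- all joinings of `T^p` and `T'^q`, `p ≠ q` primes, `q` large, are small on `F ⊗ conj F'`, uniformly in the second system -/
def SJU (μ : Measure X) (T : X → X) (K : ℕ → ℂ → Prop) (F : X → ℂ) : Prop :=
  ∀ ε : ℝ, 0 < ε → ∃ q0 : ℕ, ∀ (X' : Type) [MeasurableSpace X'] [StandardBorelSpace X'] (μ' : Measure X')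
    [IsProbabilityMeasure μ'] (T' : X' → X'), Dst μ' T' → (∀ (q : ℕ) (c : ℂ), q.Prime → KP μ T μ' T' q c → K q c) →
    ∀ p q lam, PJ μ T μ' T' p q lam → q0 ≤ q →
    ∀ F' : X' → ℂ, Bd F' → nsq μ' F' ≤ 1 → ‖∫ z, F z.1 * conj (F' z.2) ∂lam‖ ≤ ε

theorem sj_low_u (hT : Dst μ T) {K : ℕ → ℂ → Prop} (hK : KS μ T K) {H : ℕ} (hO : Ok μ T (H - 1)) {F : X → ℂ} (hF : Bd F)
    (hm : Measurable[(FF μ T H).m] F) (h0 : ∫ x, F x ∂μ = 0) : SJU μ T K F := by
  intro ε hε
  set N : ℝ := nsq μ F with hN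
  have hN0 : 0 ≤ N := nsq_nonneg F
  set δ : ℝ := ε ^ 2 / (1 + N) with hδ
  have hδ0 : 0 < δ := by positivity
  obtain ⟨q1, hq1⟩ := jb_u hT (fun h hO => core_u hT h hO) H hO δ hδ0
  obtain ⟨q2, hq2⟩ := Sm.all hT hK hF h0 δ hδ0
  refine ⟨max q1 q2, fun X' _ _ μ' _ T' hT' hKP p q lam hJ hq F' hF' hF1 => ?_⟩
  have hpr := hJ.prob
  have g1 := hq1 X' μ' T' hT' p q lam hJ ((le_max_left _ _).trans hq) F hF hm
  have g2 : Esq μ (DD μ T p q lam H) F ≤ δ := by
    have hQ := qf hT hT' hJ (dp hT hT' hJ) H hO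
    exact hq2 q ((le_max_right _ _).trans hq) hJ.qp _ ⟨hQ.fac, fun c v hv hm => hKP q c hJ.qp (hQ.char c v hv hm)⟩
  have h6 : Jsq lam F ≤ δ * (1 + N) := by
    have e : δ * (1 + N) = δ + δ * N := by ring
    rw [e]
    linarith
  have e1 : ∫ z : X × X', F z.1 * conj (F' z.2) ∂lam =
      ∫ z, ce lam (sec lam) (fun z : X × X' => F z.1) z * conj (F' z.2) ∂lam :=
    ce_int' sec_le (hF.bm.comp hJ.fst) (hF'.bm.comp hJ.snd) (sec_snd hF'.meas)
  rw [e1]
  refine (nrm_cs (ce_bm (hF.bm.comp hJ.fst)) (hF'.bm.comp hJ.snd)).trans ?_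
  have h7 : nrm lam (ce lam (sec lam) fun z : X × X' => F z.1) ≤ ε := by
    refine (Real.sqrt_le_sqrt h6).trans (le_of_eq ?_)
    have e5 : δ * (1 + N) = ε ^ 2 := by
      rw [hδ]
      field_simp
    rw [e5, Real.sqrt_sq hε.le]
  have h8 : nrm lam (fun z : X × X' => F' z.2) ≤ 1 := by
    refine Real.sqrt_le_one.2 ?_
    rw [hJ.nsq_snd hF'.bm]
    exact hF1
  calc nrm lam (ce lam (sec lam) fun z : X × X' => F z.1) * nrm lam (fun z : X × X' => F' z.2)
      ≤ ε * 1 := mul_le_mul h7 h8 (nrm_nonneg _) hε.le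
    _ = ε := mul_one _

/-- **the correlations of the joinings, uniformly in the second system** -/
theorem sju (hT : Dst μ T) {K : ℕ → ℂ → Prop} (hK : KS μ T K) {F : X → ℂ} (hF : Bd F) (h0 : ∫ x, F x ∂μ = 0) :
    SJU μ T K F := by
  intro ε hε
  obtain ⟨j0, hO, h1⟩ := exists_level hT hF (half_pos hε)
  obtain ⟨G, hGm, hGb, hG⟩ := ce_rep (μ := μ) (FF_le (μ := μ) (T := T) j0) hF.bm
  have hG0 : ∫ x, G x ∂μ = 0 := by
    rw [integral_congr_ae hG]
    show ∫ x, (μ[F | (FF μ T j0).m]) x ∂μ = 0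
    rw [integral_condExp (FF_le j0), h0]
  have h2 : nrm μ (fun x => F x - G x) ≤ ε / 2 := by
    refine le_trans (le_of_eq (nrm_congr ?_)) h1
    filter_upwards [hG] with x hx
    rw [hx]
  obtain ⟨q0, hq0⟩ := sj_low_u hT hK hO hGb hGm hG0 (ε / 2) (half_pos hε)
  refine ⟨q0, fun X' _ _ μ' _ T' hT' hKP p q lam hJ hq F' hF' hF1 => ?_⟩
  have p1 := hJ.fst
  have p2 := hJ.snd
  have hpr := hJ.prob
  have b1 := hF.bm.comp p1
  have b2 := hGb.bm.comp p1
  have b3 := hF'.bm.comp p2
  have bs : BM μ fun x => F x - G x := hF.bm.sub hGb.bm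
  have e0 : ∫ z : X × X', F z.1 * conj (F' z.2) ∂lam = ∫ z : X × X', (F z.1 - G z.1) * conj (F' z.2) ∂lam +
      ∫ z : X × X', G z.1 * conj (F' z.2) ∂lam := by
    rw [← integral_add ((bs.comp p1).mul b3.conj).integrable (b2.mul b3.conj).integrable]
    refine integral_congr_ae (Eventually.of_forall fun z => ?_)
    show F z.1 * conj (F' z.2) = (F z.1 - G z.1) * conj (F' z.2) + G z.1 * conj (F' z.2)
    ring
  rw [e0]
  refine (norm_add_le _ _).trans ?_
  have hn1 : nrm μ' F' ≤ 1 := Real.sqrt_le_one.2 hF1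
  have c1 : ‖∫ z : X × X', (F z.1 - G z.1) * conj (F' z.2) ∂lam‖ ≤ ε / 2 := by
    refine (nrm_cs (bs.comp p1) b3).trans ?_
    have d1 : nrm lam (fun z : X × X' => F z.1 - G z.1) = nrm μ fun x => F x - G x := by
      unfold nrm
      rw [hJ.nsq_fst bs]
    have d2 : nrm lam (fun z : X × X' => F' z.2) = nrm μ' F' := by
      unfold nrm
      rw [hJ.nsq_snd hF'.bm]
    rw [d1, d2]
    calc nrm μ (fun x => F x - G x) * nrm μ' F' ≤ ε / 2 * 1 := mul_le_mul h2 hn1 (nrm_nonneg _) (half_pos hε).le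
      _ = ε / 2 := mul_one _
  have c2 : ‖∫ z : X × X', G z.1 * conj (F' z.2) ∂lam‖ ≤ ε / 2 := hq0 X' μ' T' hT' hKP p q lam hJ hq F' hF' hF1
  linarith

end Pool.Agent.Lib.MP_9fe581_an.AQ
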